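import Mathlib

/-!
Periodic Bernoulli functions and elementary integrals used for the extremal majorants of the
truncated powers.
-/

namespace Pool.Agent.Helper79.SE

open MeasureTheory Set Filter Topology

/-- The periodic Bernoulli function. -/
noncomputable def perB (k : ℕ) (x : ℝ) : ℝ := bernoulliFun k (Int.fract x)

theorem perB_of_mem {k : ℕ} {x : ℝ} (h0 : 0 ≤ x) (h1 : x < 1) : perB k x = bernoulliFun k x := by
  unfold perB
  rw [Int.fract_eq_self.mpr ⟨h0, h1⟩]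

theorem bern_bdd (k : ℕ) : ∃ C : ℝ, 0 < C ∧ ∀ x ∈ Icc (0:ℝ) 1, |bernoulliFun k x| ≤ C := by
  obtain ⟨C, hC⟩ := (isCompact_Icc (a := (0:ℝ)) (b := 1)).exists_bound_of_continuousOn
    (continuous_bernoulliFun k).continuousOn
  refine ⟨|C| + 1, by positivity, fun x hx => ?_⟩
  have := hC x hx
  rw [Real.norm_eq_abs] at this
  have h2 := le_abs_self C
  linarith

theorem perB_bdd (k : ℕ) : ∃ C : ℝ, 0 < C ∧ ∀ x : ℝ, |perB k x| ≤ C := by
  obtain ⟨C, hC, h⟩ := bern_bdd k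
  exact ⟨C, hC, fun x => h _ ⟨Int.fract_nonneg x, (Int.fract_lt_one x).le⟩⟩

theorem perB_measurable (k : ℕ) : Measurable (perB k) :=
  (continuous_bernoulliFun k).measurable.comp measurable_fract

theorem perB_continuous {k : ℕ} (hk : k ≠ 1) : Continuous (perB k) := by
  have := ContinuousOn.comp_fract'' (f := bernoulliFun k)
    (continuous_bernoulliFun k).continuousOn (bernoulliFun_endpoints_eq_of_ne_one hk).symm
  exact this

theorem perB_hasDerivAt {k : ℕ} {x : ℝ} (hx : Int.fract x ≠ 0) :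
    HasDerivAt (perB k) (k * perB (k - 1) x) x := by
  have h1 : HasDerivAt (fun y : ℝ => bernoulliFun k (y - ⌊x⌋)) (k * perB (k - 1) x) x := by
    have h := (hasDerivAt_bernoulliFun k (x - ⌊x⌋)).comp x ((hasDerivAt_id x).sub_const (⌊x⌋ : ℝ))
    simpa [perB, Function.comp_def] using! h
  refine h1.congr_of_eventuallyEq ?_
  have hlt : (⌊x⌋ : ℝ) < x := by
    rcases lt_or_eq_of_le (Int.floor_le x) with h | h
    · exact h
    · exact absurd (by rw [Int.fract, ← h]; simp) hx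
  have hlt2 : x < ⌊x⌋ + 1 := Int.lt_floor_add_one x
  filter_upwards [Ioo_mem_nhds hlt hlt2] with y hy
  have : ⌊y⌋ = ⌊x⌋ := by
    rw [Int.floor_eq_iff]
    exact ⟨hy.1.le, hy.2⟩
  unfold perB
  rw [Int.fract, this]

theorem perB_add_one (k : ℕ) (x : ℝ) : perB k (x + 1) = perB k x := by
  unfold perB; rw [Int.fract_add_one]

/-- Reflection. -/
theorem perB_neg {k : ℕ} (hk : k ≠ 1) (x : ℝ) : perB k (-x) = (-1) ^ k * perB k x := by
  unfold perB
  by_cases h : Int.fract x = 0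
  · have h2 : Int.fract (-x) = 0 := by
      rw [Int.fract_neg_eq_zero]; exact h
    rw [h, h2]
    have h3 := bernoulliFun_eval_one_sub (k := k) (x := 0)
    rw [sub_zero, bernoulliFun_endpoints_eq_of_ne_one hk] at h3
    exact h3
  · rw [Int.fract_neg h, bernoulliFun_eval_one_sub]

/-- A fundamental theorem of calculus on a half line with a countable exceptional set. -/
theorem ftc_Ioi {a : ℝ} {f f' : ℝ → ℂ} {l : ℂ} {s : Set ℝ} (hs : s.Countable)
    (hc : ContinuousOn f (Ici a)) (hd : ∀ x ∈ Ioi a \ s, HasDerivAt f (f' x) x)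
    (hi : IntegrableOn f' (Ioi a)) (hl : Tendsto f atTop (𝓝 l)) :
    ∫ x in Ioi a, f' x = l - f a := by
  have h1 : Tendsto (fun R => ∫ x in a..R, f' x) atTop (𝓝 (∫ x in Ioi a, f' x)) :=
    intervalIntegral_tendsto_integral_Ioi a hi tendsto_id
  have h2 : Tendsto (fun R => f R - f a) atTop (𝓝 (l - f a)) := hl.sub_const _
  refine tendsto_nhds_unique (h1.congr' ?_) h2
  filter_upwards [eventually_ge_atTop a] with R hR
  refine integral_eq_of_hasDerivAt_off_countable_of_le f f' hR hs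
    (hc.mono Icc_subset_Ici_self) (fun x hx => hd x ⟨hx.1.1, hx.2⟩) ?_
  rw [intervalIntegrable_iff_integrableOn_Ioc_of_le hR]
  exact hi.mono_set Ioc_subset_Ioi_self

/-- The integrals of `1/(u+r)^(m+2)`. -/
theorem int_inv_pow' (m : ℕ) {c r : ℝ} (hr : 0 < c + r) :
    IntegrableOn (fun u : ℝ => 1 / (u + r) ^ (m + 2)) (Ioi c) ∧
      ∫ u in Ioi c, 1 / (u + r) ^ (m + 2) = 1 / ((m + 1) * (c + r) ^ (m + 1)) := by
  have hd : ∀ x ∈ Ioi c, HasDerivAt (fun u : ℝ => -(1 / ((m + 1) * (u + r) ^ (m + 1))))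
      (1 / (x + r) ^ (m + 2)) x := by
    intro x hx
    have hx0 : (0:ℝ) < x + r := by
      have : c < x := hx
      linarith
    have h1 : HasDerivAt (fun u : ℝ => (u + r)) 1 x := (hasDerivAt_id x).add_const r
    have h2 := (h1.fun_pow (m + 1)).const_mul ((m:ℝ) + 1)
    have hne : ((m:ℝ) + 1) * (x + r) ^ (m + 1) ≠ 0 := by positivity
    have h3 := (h2.fun_inv hne).neg
    have h4 : HasDerivAt (fun u : ℝ => -(1 / ((m + 1) * (u + r) ^ (m + 1))))
      (-(-(((m:ℝ) + 1) * ((↑(m + 1)) * (x + r) ^ (m + 1 - 1) * 1)) /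
        (((m:ℝ) + 1) * (x + r) ^ (m + 1)) ^ 2)) x := by
      simpa [one_div] using! h3
    convert! h4 using 1
    rw [Nat.add_sub_cancel]
    push_cast
    field_simp
    ring
  have hcont : ContinuousWithinAt (fun u : ℝ => -(1 / (((m:ℝ) + 1) * (u + r) ^ (m + 1))))
      (Ici c) c := by
    have h1 : HasDerivAt (fun u : ℝ => (u + r)) 1 c := (hasDerivAt_id c).add_const r
    have h2 := (h1.fun_pow (m + 1)).const_mul ((m:ℝ) + 1)
    have hne : ((m:ℝ) + 1) * (c + r) ^ (m + 1) ≠ 0 := by positivity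
    have h3 := (h2.fun_inv hne).neg.continuousAt.continuousWithinAt (s := Ici c)
    simpa [one_div] using! h3
  have hpos : ∀ x ∈ Ioi c, 0 ≤ 1 / (x + r) ^ (m + 2) := by
    intro x hx
    have hx0 : (0:ℝ) < x + r := by
      have : c < x := hx
      linarith
    positivity
  have hlim : Tendsto (fun u : ℝ => -(1 / (((m:ℝ) + 1) * (u + r) ^ (m + 1)))) atTop (𝓝 0) := by
    have h1 : Tendsto (fun u : ℝ => ((m:ℝ) + 1) * (u + r) ^ (m + 1)) atTop atTop := by
      refine Tendsto.const_mul_atTop (by positivity) ?_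
      exact (tendsto_pow_atTop (by omega)).comp (tendsto_atTop_add_const_right _ r tendsto_id)
    have h2 := h1.inv_tendsto_atTop.neg
    simpa [one_div] using! h2
  refine ⟨integrableOn_Ioi_deriv_of_nonneg hcont hd hpos hlim, ?_⟩
  rw [integral_Ioi_of_hasDerivAt_of_nonneg hcont hd hpos hlim]
  simp

theorem int_inv_pow (m : ℕ) {r : ℝ} (hr : 0 < r) :
    IntegrableOn (fun u : ℝ => 1 / (u + r) ^ (m + 2)) (Ioi 0) ∧
      ∫ u in Ioi (0:ℝ), 1 / (u + r) ^ (m + 2) = 1 / ((m + 1) * r ^ (m + 1)) := by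
  have h := int_inv_pow' m (c := 0) (r := r) (by rwa [zero_add])
  rwa [zero_add] at h

/-- Distance from the nonnegative reals to a point of the closed left half plane. -/
theorem dist_lower {z : ℂ} (hz : z.re ≤ 0) {u : ℝ} (hu : 0 ≤ u) :
    (u + ‖z‖) ≤ 2 * ‖(u:ℂ) - z‖ := by
  have h1 : ‖(u:ℂ) - z‖ ^ 2 = (u - z.re) ^ 2 + z.im ^ 2 := by
    rw [Complex.sq_norm, Complex.normSq_apply]
    simp
    ring
  have h2 : ‖z‖ ^ 2 = z.re ^ 2 + z.im ^ 2 := by
    rw [Complex.sq_norm, Complex.normSq_apply]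
    ring
  have h3 : (u + ‖z‖) ^ 2 ≤ (2 * ‖(u:ℂ) - z‖) ^ 2 := by
    have h5 : (2 * ‖(u:ℂ) - z‖) ^ 2 = 4 * ((u - z.re) ^ 2 + z.im ^ 2) := by
      rw [mul_pow, h1]; norm_num
    rw [h5]
    nlinarith [sq_nonneg (u - ‖z‖), mul_nonneg hu (neg_nonneg.mpr hz), sq_nonneg u,
      sq_nonneg z.re, sq_nonneg z.im]
  exact le_of_sq_le_sq h3 (by positivity)

theorem sub_ne_zero_left {z : ℂ} (hz : z.re ≤ 0) (hz0 : z ≠ 0) {u : ℝ} (hu : 0 ≤ u) :
    (u:ℂ) - z ≠ 0 := by
  have h := dist_lower hz hu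
  have h2 : 0 < ‖z‖ := norm_pos_iff.mpr hz0
  intro h3
  rw [h3, norm_zero] at h
  linarith

end Pool.Agent.Helper79.SE
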