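import Pool.Agent.Helper79.Bern

/-!
Euler-Maclaurin representation of the truncated Mittag-Leffler sums.
-/

namespace Pool.Agent.Helper79.SE

open MeasureTheory Set Filter Topology

/-- Kernel integrals against periodic Bernoulli functions. -/
noncomputable def JJ (θ : ℝ) (N : ℕ) (z : ℂ) : ℂ :=
  ((N:ℂ) + 1) * ∫ u in Ioi (0:ℝ), (perB N (θ - u) : ℂ) / ((u:ℂ) - z) ^ (N + 2)

/-- The one-sided Mittag-Leffler sum. -/
noncomputable def TT (θ : ℝ) (z : ℂ) : ℂ := ∑' k : ℕ, 1 / ((k:ℂ) + θ - z) ^ 2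

theorem kernel_bound {z : ℂ} (hz : z.re ≤ 0) (hz0 : z ≠ 0) {u : ℝ} (hu : 0 ≤ u) (m : ℕ) :
    ‖1 / ((u:ℂ) - z) ^ m‖ ≤ 2 ^ m * (1 / (u + ‖z‖) ^ m) := by
  have h := dist_lower hz hu
  have h2 : 0 < ‖z‖ := norm_pos_iff.mpr hz0
  have h3 : 0 < u + ‖z‖ := by linarith
  have h4 : 0 < ‖(u:ℂ) - z‖ := by linarith
  rw [norm_div, norm_one, norm_pow, mul_one_div, div_le_div_iff₀ (by positivity) (by positivity),
    one_mul, ← mul_pow]
  exact pow_le_pow_left₀ h3.le h m

theorem kernel_integrable {z : ℂ} (hz : z.re ≤ 0) (hz0 : z ≠ 0) {w : ℝ → ℝ} (hw : Measurable w)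
    {C : ℝ} (hC : ∀ u, |w u| ≤ C) (m : ℕ) :
    IntegrableOn (fun u : ℝ => (w u : ℂ) / ((u:ℂ) - z) ^ (m + 2)) (Ioi 0) := by
  have h2 : 0 < ‖z‖ := norm_pos_iff.mpr hz0
  have h1 := ((int_inv_pow m h2).1.const_mul (2 ^ (m + 2))).const_mul C
  refine Integrable.mono' h1 ?_ ?_
  · refine Measurable.aestronglyMeasurable ?_
    have : Measurable (fun u : ℝ => ((u:ℂ) - z) ^ (m + 2)) := by fun_prop
    exact (Complex.measurable_ofReal.comp hw).div this
  · rw [ae_restrict_iff' measurableSet_Ioi]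
    refine Eventually.of_forall fun u hu => ?_
    have h3 := kernel_bound hz hz0 (le_of_lt hu : (0:ℝ) ≤ u) (m + 2)
    have : ‖(w u : ℂ) / ((u:ℂ) - z) ^ (m + 2)‖ = |w u| * ‖1 / ((u:ℂ) - z) ^ (m + 2)‖ := by
      rw [norm_div, norm_div, norm_one, Complex.norm_real, Real.norm_eq_abs]
      ring
    rw [this]
    have hCpos : 0 ≤ C := (abs_nonneg _).trans (hC u)
    exact mul_le_mul (hC u) h3 (norm_nonneg _) hCpos

theorem kernel_hasDerivAt {z : ℂ} {u : ℝ} (h : (u:ℂ) - z ≠ 0) (m : ℕ) :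
    HasDerivAt (fun u : ℝ => -(1 / ((u:ℂ) - z) ^ (m + 1)))
      (((m:ℂ) + 1) / ((u:ℂ) - z) ^ (m + 2)) u := by
  have h1 : HasDerivAt (fun u : ℝ => (u:ℂ) - z) 1 u :=
    (HasDerivAt.ofReal_comp (hasDerivAt_id u)).sub_const z
  have h2 := (h1.fun_pow (m + 1)).fun_inv (pow_ne_zero _ h)
  have h3 := h2.neg
  have h4 : HasDerivAt (fun u : ℝ => -(1 / ((u:ℂ) - z) ^ (m + 1)))
      (-(-(↑(m + 1) * ((u:ℂ) - z) ^ (m + 1 - 1) * 1) / (((u:ℂ) - z) ^ (m + 1)) ^ 2)) u := by
    simpa [one_div] using! h3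
  convert! h4 using 1
  rw [Nat.add_sub_cancel]
  push_cast
  field_simp
  ring

theorem kernel_tendsto {z : ℂ} (hz : z.re ≤ 0) (hz0 : z ≠ 0) (m : ℕ) :
    Tendsto (fun u : ℝ => 1 / ((u:ℂ) - z) ^ (m + 1)) atTop (𝓝 0) := by
  have h1 : Tendsto (fun u : ℝ => 2 ^ (m + 1) * (1 / (u + ‖z‖) ^ (m + 1))) atTop (𝓝 0) := by
    have h1 : Tendsto (fun u : ℝ => (u + ‖z‖) ^ (m + 1)) atTop atTop :=
      (tendsto_pow_atTop (by omega)).comp (tendsto_atTop_add_const_right _ _ tendsto_id)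
    have h2 := h1.inv_tendsto_atTop.const_mul (2 ^ (m + 1) : ℝ)
    simpa [one_div] using! h2
  refine squeeze_zero_norm' ?_ h1
  filter_upwards [eventually_ge_atTop 0] with u hu
  exact kernel_bound hz hz0 hu (m + 1)

theorem kernel_integral {z : ℂ} (hz : z.re ≤ 0) (hz0 : z ≠ 0) {c : ℝ} (hc : 0 ≤ c) (m : ℕ) :
    ((m:ℂ) + 1) * ∫ u in Ioi c, 1 / ((u:ℂ) - z) ^ (m + 2) = 1 / ((c:ℂ) - z) ^ (m + 1) := by
  have hint : IntegrableOn (fun u : ℝ => ((m:ℂ) + 1) / ((u:ℂ) - z) ^ (m + 2)) (Ioi c) := by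
    have h := kernel_integrable hz hz0 (w := fun _ => 1) measurable_const (C := 1)
      (fun _ => by simp) m
    have h2 : IntegrableOn (fun u : ℝ => ((m:ℂ) + 1) *
        (((1:ℝ) : ℂ) / ((u:ℂ) - z) ^ (m + 2))) (Ioi 0) := h.const_mul _
    refine (h2.mono_set (Ioi_subset_Ioi hc)).congr_fun (fun u _ => ?_) measurableSet_Ioi
    simp [div_eq_mul_inv]
  have h := ftc_Ioi (a := c) (s := ∅) countable_empty
    (f := fun u : ℝ => -(1 / ((u:ℂ) - z) ^ (m + 1)))
    (f' := fun u : ℝ => ((m:ℂ) + 1) / ((u:ℂ) - z) ^ (m + 2)) (l := 0) ?_ ?_ hint ?_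
  · rw [← integral_const_mul]
    simp only [mul_one_div]
    rw [h]; simp
  · intro x hx
    exact (kernel_hasDerivAt (sub_ne_zero_left hz hz0 (hc.trans hx)) m).continuousAt.continuousWithinAt
  · intro x hx
    exact kernel_hasDerivAt (sub_ne_zero_left hz hz0 (hc.trans (le_of_lt hx.1))) m
  · have := (kernel_tendsto hz hz0 m).neg
    simpa using this

theorem countable_fract_zero (θ : ℝ) : {u : ℝ | Int.fract (θ - u) = 0}.Countable := by
  have : {u : ℝ | Int.fract (θ - u) = 0} ⊆ range (fun k : ℤ => θ - k) := by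
    intro u hu
    simp only [mem_ofPred_eq] at hu
    refine ⟨⌊θ - u⌋, ?_⟩
    have := Int.floor_add_fract (θ - u)
    rw [hu] at this
    simp only
    linarith
  exact (countable_range _).mono this

/-- Integration by parts. -/
theorem JJ_rec (θ : ℝ) {z : ℂ} (hz : z.re ≤ 0) (hz0 : z ≠ 0) {N : ℕ} (hN : 1 ≤ N) :
    JJ θ (N + 1) z + JJ θ N z = (perB (N + 1) θ : ℂ) / (-z) ^ (N + 2) := by
  obtain ⟨C1, hC1, hb1⟩ := perB_bdd (N + 1)
  obtain ⟨C0, hC0, hb0⟩ := perB_bdd N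
  have i1 := kernel_integrable hz hz0 (w := fun u => perB (N + 1) (θ - u))
    ((perB_measurable _).comp (measurable_const.sub measurable_id)) (fun u => hb1 _) (N + 1)
  have i0 := kernel_integrable hz hz0 (w := fun u => perB N (θ - u))
    ((perB_measurable _).comp (measurable_const.sub measurable_id)) (fun u => hb0 _) N
  have hint : IntegrableOn (fun u : ℝ =>
      ((N:ℂ) + 2) * ((perB (N + 1) (θ - u) : ℂ) / ((u:ℂ) - z) ^ (N + 1 + 2)) +
      ((N:ℂ) + 1) * ((perB N (θ - u) : ℂ) / ((u:ℂ) - z) ^ (N + 2))) (Ioi 0) :=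
    (i1.const_mul _).add (i0.const_mul _)
  have h := ftc_Ioi (a := 0) (s := {u : ℝ | Int.fract (θ - u) = 0}) (countable_fract_zero θ)
    (f := fun u : ℝ => (perB (N + 1) (θ - u) : ℂ) * (-(1 / ((u:ℂ) - z) ^ (N + 1 + 1)))) (l := 0)
    ?_ ?_ hint ?_
  · rw [integral_add (i1.const_mul _) (i0.const_mul _), integral_const_mul,
      integral_const_mul] at h
    unfold JJ
    have e1 : ((N + 1 : ℕ) : ℂ) + 1 = (N:ℂ) + 2 := by push_cast; ring
    rw [e1, h]
    simp only [sub_zero, Complex.ofReal_zero, zero_sub]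
    ring
  · have hcont : Continuous (fun u : ℝ => (perB (N + 1) (θ - u) : ℂ)) :=
      Complex.continuous_ofReal.comp
        ((perB_continuous (by omega)).comp (continuous_const.sub continuous_id))
    refine hcont.continuousOn.mul ?_
    intro x hx
    exact (kernel_hasDerivAt (sub_ne_zero_left hz hz0 hx) (N + 1)).continuousAt.continuousWithinAt
  · intro x hx
    have hne : Int.fract (θ - x) ≠ 0 := hx.2
    have hx0 : (0:ℝ) < x := hx.1
    have d1 : HasDerivAt (fun u : ℝ => perB (N + 1) (θ - u))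
        (-(((N + 1 : ℕ) : ℝ) * perB N (θ - x))) x := by
      have h0 := perB_hasDerivAt (k := N + 1) hne
      have h1 := h0.comp x ((hasDerivAt_id x).const_sub θ)
      simpa [Function.comp_def] using! h1
    have d2 := d1.ofReal_comp
    have d3 := kernel_hasDerivAt (sub_ne_zero_left hz hz0 hx0.le) (N + 1)
    have d4 := d2.mul d3
    convert! d4 using 1
    push_cast
    ring
  · have h1 := (kernel_tendsto hz hz0 (N + 1)).norm.const_mul C1
    rw [norm_zero, mul_zero] at h1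
    refine squeeze_zero_norm' ?_ h1
    filter_upwards with u
    rw [norm_mul, norm_neg, Complex.norm_real, Real.norm_eq_abs]
    exact mul_le_mul_of_nonneg_right (hb1 _) (norm_nonneg _)

theorem summable_shift {θ : ℝ} (h0 : 0 < θ) (h1 : θ < 1) :
    Summable (fun k : ℕ => 1 / ((k:ℝ) + θ) ^ 2) := by
  have h2 : Summable (fun k : ℕ => (1 / θ ^ 2) * (1 / ((k:ℝ) + 1) ^ 2)) := by
    refine Summable.mul_left _ ?_
    have := (summable_nat_add_iff 1).mpr (Real.summable_one_div_nat_pow.mpr (by norm_num : 1 < 2))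
    simpa using this
  refine Summable.of_nonneg_of_le (fun k => by positivity) (fun k => ?_) h2
  rw [div_mul_div_comm, one_mul, ← mul_pow]
  refine one_div_le_one_div_of_le (by positivity) (pow_le_pow_left₀ (by positivity) ?_ 2)
  have : (0:ℝ) ≤ k := Nat.cast_nonneg k
  nlinarith

theorem perB_one_eq {θ : ℝ} (h1 : θ < 1) {u : ℝ} (hu : 0 < u) :
    perB 1 (θ - u) = (θ - 1 / 2 - u) + (⌈u - θ⌉₊ : ℝ) := by
  have h2 : (⌈u - θ⌉₊ : ℝ) = (⌈u - θ⌉ : ℝ) :=
    natCast_ceil_eq_intCast_ceil_of_neg_one_lt (by linarith)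
  rw [h2]
  unfold perB
  rw [bernoulliFun_one, Int.fract]
  have h3 : ⌊θ - u⌋ = -⌈u - θ⌉ := by
    rw [← Int.floor_neg, neg_sub]
  rw [h3]
  push_cast
  ring

theorem tsum_ind (θ u : ℝ) (w : ℂ) :
    ∑' k : ℕ, (Ioi (θ + k)).indicator (fun _ : ℝ => w) u = (⌈u - θ⌉₊ : ℂ) * w := by
  rw [tsum_eq_sum (s := Finset.range ⌈u - θ⌉₊)]
  · rw [Finset.sum_congr rfl (g := fun _ => w)]
    · simp
    · intro k hk
      rw [indicator_of_mem]
      rw [Finset.mem_range, Nat.lt_ceil] at hk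
      simp only [mem_Ioi]; linarith
  · intro k hk
    rw [indicator_of_notMem]
    rw [Finset.mem_range, Nat.lt_ceil] at hk
    simp only [mem_Ioi]; linarith

theorem JJ_one {θ : ℝ} (h0 : 0 < θ) (h1 : θ < 1) {z : ℂ} (hz : z.re ≤ 0) (hz0 : z ≠ 0) :
    JJ θ 1 z = TT θ z + 1 / z + (bernoulliFun 1 θ : ℂ) / z ^ 2 := by
  have hzn : 0 < ‖z‖ := norm_pos_iff.mpr hz0
  set F : ℕ → ℝ → ℂ := fun k u => (Ioi (θ + k)).indicator (fun v : ℝ => 1 / ((v:ℂ) - z) ^ 3) u
    with hF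
  have base : IntegrableOn (fun u : ℝ => 1 / ((u:ℂ) - z) ^ 3) (Ioi 0) := by
    have h := kernel_integrable hz hz0 (w := fun _ => 1) measurable_const (C := 1)
      (fun _ => by simp) 1
    simpa using h
  have base2 : IntegrableOn (fun u : ℝ => 1 / ((u:ℂ) - z) ^ 2) (Ioi 0) := by
    have h := kernel_integrable hz hz0 (w := fun _ => 1) measurable_const (C := 1)
      (fun _ => by simp) 0
    simpa using h
  have hFint : ∀ k, Integrable (F k) (volume.restrict (Ioi (0:ℝ))) := fun k =>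
    Integrable.indicator base measurableSet_Ioi
  have hinter : ∀ k : ℕ, Ioi (0:ℝ) ∩ Ioi (θ + k) = Ioi (θ + k) := by
    intro k
    refine inter_eq_right.mpr (Ioi_subset_Ioi ?_)
    positivity
  have hval : ∀ k : ℕ, ∫ u in Ioi (0:ℝ), F k u = 1 / 2 * (1 / ((k:ℂ) + θ - z) ^ 2) := by
    intro k
    rw [hF]
    simp only
    rw [setIntegral_indicator measurableSet_Ioi, hinter k]
    have h := kernel_integral hz hz0 (c := θ + k) (by positivity) 1
    norm_num at h
    have e : ((k:ℂ) + θ - z) = (θ:ℂ) + k - z := by ring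
    rw [e]
    simp only [one_div] at h ⊢
    rw [← h]
    ring
  have hsum : Summable fun k : ℕ => ∫ u in Ioi (0:ℝ), ‖F k u‖ := by
    refine Summable.of_nonneg_of_le (fun k => integral_nonneg (fun _ => norm_nonneg _))
      (fun k => ?_) ((summable_shift h0 h1).mul_left 4)
    have e1 : (fun u => ‖F k u‖) =
        (Ioi (θ + k)).indicator (fun v : ℝ => ‖1 / ((v:ℂ) - z) ^ 3‖) := by
      funext u
      rw [hF]
      simp only
      rw [norm_indicator_eq_indicator_norm]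
    rw [e1, setIntegral_indicator measurableSet_Ioi, hinter k]
    have hc : 0 < (θ + k) + ‖z‖ := by positivity
    obtain ⟨i1, i2⟩ := int_inv_pow' 1 hc
    have hle : ∫ v in Ioi (θ + (k:ℝ)), ‖1 / ((v:ℂ) - z) ^ 3‖ ≤
        ∫ v in Ioi (θ + (k:ℝ)), 2 ^ 3 * (1 / (v + ‖z‖) ^ 3) := by
      refine setIntegral_mono_on ?_ (i1.const_mul _) measurableSet_Ioi ?_
      · exact (base.mono_set (Ioi_subset_Ioi (by positivity))).norm
      · intro v hv
        have : (0:ℝ) ≤ v := by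
          have h9 : θ + (k:ℝ) < v := hv
          have : (0:ℝ) ≤ k := Nat.cast_nonneg k
          linarith
        exact kernel_bound hz hz0 this 3
    refine hle.trans ?_
    rw [integral_const_mul, i2]
    norm_num
    have h5 : ((k:ℝ) + θ) ^ 2 ≤ (θ + k + ‖z‖) ^ 2 := by
      refine pow_le_pow_left₀ (by positivity) ?_ 2
      linarith
    have h6 : ((θ + k + ‖z‖) ^ 2)⁻¹ ≤ (((k:ℝ) + θ) ^ 2)⁻¹ :=
      inv_anti₀ (by positivity) h5
    linarith
  have hmain := hasSum_integral_of_summable_integral_norm hFint hsum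
  simp_rw [hval] at hmain
  have hT : ∫ u in Ioi (0:ℝ), ∑' k, F k u = 1 / 2 * TT θ z := by
    rw [← hmain.tsum_eq, TT, tsum_mul_left]
  have hts : ∀ u : ℝ, ∑' k, F k u = (⌈u - θ⌉₊ : ℂ) * (1 / ((u:ℂ) - z) ^ 3) := by
    intro u
    have := tsum_ind θ u (1 / ((u:ℂ) - z) ^ 3)
    rw [← this]
    refine tsum_congr fun k => ?_
    rw [hF]
    simp only [indicator]
  have hintT : IntegrableOn (fun u => ∑' k, F k u) (Ioi 0) := by
    have h := kernel_integrable hz hz0 (w := fun u => perB 1 (θ - u)) ((perB_measurable _).comp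
      (measurable_const.sub measurable_id)) (fun u => (perB_bdd 1).choose_spec.2 _) 1
    have h2 : IntegrableOn (fun u : ℝ => (θ - 1 / 2 - z) * (1 / ((u:ℂ) - z) ^ 3) -
        1 / ((u:ℂ) - z) ^ 2) (Ioi 0) := (base.const_mul _).sub base2
    refine (h.sub h2).congr_fun (fun u hu => ?_) measurableSet_Ioi
    have hu' : (0:ℝ) < u := hu
    simp only [Pi.sub_apply]
    rw [hts, perB_one_eq h1 hu']
    have hne := sub_ne_zero_left hz hz0 hu'.le
    push_cast
    field_simp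
    ring
  have i12 : IntegrableOn (fun u : ℝ => (θ - 1 / 2 - z) * (1 / ((u:ℂ) - z) ^ 3) -
        1 / ((u:ℂ) - z) ^ 2) (Ioi 0) := (base.const_mul _).sub base2
  have i11 : IntegrableOn (fun u : ℝ => (θ - 1 / 2 - z) * (1 / ((u:ℂ) - z) ^ 3)) (Ioi 0) :=
    base.const_mul _
  have hsplit : ∫ u in Ioi (0:ℝ), (perB 1 (θ - u) : ℂ) / ((u:ℂ) - z) ^ (1 + 2) =
      ∫ u in Ioi (0:ℝ), (((θ - 1 / 2 - z) * (1 / ((u:ℂ) - z) ^ 3) - 1 / ((u:ℂ) - z) ^ 2) +
        ∑' k, F k u) := by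
    refine setIntegral_congr_fun measurableSet_Ioi (fun u hu => ?_)
    have hu' : (0:ℝ) < u := hu
    rw [hts, perB_one_eq h1 hu']
    have hne := sub_ne_zero_left hz hz0 hu'.le
    push_cast
    field_simp
    ring
  unfold JJ
  rw [hsplit, integral_add i12 hintT, hT,
    integral_sub i11 base2, integral_const_mul]
  have k1 := kernel_integral hz hz0 (c := 0) le_rfl 1
  have k0 := kernel_integral hz hz0 (c := 0) le_rfl 0
  norm_num at k1 k0
  have k1' : ∫ u in Ioi (0:ℝ), 1 / ((u:ℂ) - z) ^ 3 = 1 / (2 * z ^ 2) := by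
    simp only [one_div]
    field_simp
    field_simp at k1
    linear_combination k1
  have k0' : ∫ u in Ioi (0:ℝ), 1 / ((u:ℂ) - z) ^ 2 = -(1 / z) := by
    simp only [one_div]
    rw [k0]
  rw [k1', k0', bernoulliFun_one]
  push_cast
  field_simp
  ring

end Pool.Agent.Helper79.SE
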