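import Pool.Agent.Helper79.Maj4

/-!
Existence of the extremal pairs with the sharp mass.
-/

namespace Pool.Agent.Helper79.SE

open MeasureTheory Set Filter Topology

open scoped Real

theorem bern_not_zero (k : ℕ) : ¬ (∀ x ∈ Ioo (0:ℝ) 1, bernoulliFun k x = 0) := by
  induction k with
  | zero =>
    intro h
    have := h (1 / 2) ⟨by norm_num, by norm_num⟩
    rw [bernoulliFun_zero] at this
    exact one_ne_zero this
  | succ k ih =>
    intro h
    apply ih
    intro x hx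
    have h1 : HasDerivAt (bernoulliFun (k + 1)) 0 x := by
      have h2 : HasDerivAt (fun _ : ℝ => (0:ℝ)) 0 x := hasDerivAt_const x 0
      refine h2.congr_of_eventuallyEq ?_
      filter_upwards [Ioo_mem_nhds hx.1 hx.2] with y hy
      exact h y hy
    have h3 := h1.unique (hasDerivAt_bernoulliFun (k + 1) x)
    rw [Nat.add_sub_cancel] at h3
    have h4 : (((k + 1 : ℕ) : ℝ)) ≠ 0 := by exact_mod_cast Nat.succ_ne_zero k
    exact (mul_eq_zero.mp h3.symm).resolve_left h4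

theorem bern_end {n : ℕ} (hn : Even n) (hn2 : 2 ≤ n) :
    bernoulliFun (n + 1) 0 = 0 ∧ bernoulliFun (n + 1) 1 = 0 := by
  have h1 := bernoulliFun_endpoints_eq_of_ne_one (k := n + 1) (by omega)
  have h2 := bernoulliFun_eval_one_sub (k := n + 1) (x := 0)
  rw [sub_zero, h1, hn.add_one.neg_one_pow] at h2
  have h3 : bernoulliFun (n + 1) 0 = 0 := by linarith
  exact ⟨h3, by rw [h1, h3]⟩

/-- The minimum of an odd Bernoulli polynomial is attained inside. -/
theorem exists_argmin {n : ℕ} (hn : Even n) (hn2 : 2 ≤ n) :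
    ∃ θ : ℝ, 0 < θ ∧ θ < 1 ∧ bernoulliFun n θ = 0 ∧
      (∀ x ∈ Icc (0:ℝ) 1, bernoulliFun (n + 1) θ ≤ bernoulliFun (n + 1) x) ∧
      bernoulliFun (n + 1) θ = sInf (bernoulliFun (n + 1) '' Icc (0:ℝ) 1) := by
  obtain ⟨θ, hθ, hmin⟩ := (isCompact_Icc (a := (0:ℝ)) (b := 1)).exists_isMinOn
    ⟨0, by simp⟩ (continuous_bernoulliFun (n + 1)).continuousOn
  have hmin' : ∀ x ∈ Icc (0:ℝ) 1, bernoulliFun (n + 1) θ ≤ bernoulliFun (n + 1) x :=
    fun x hx => hmin hx
  obtain ⟨e0, e1⟩ := bern_end hn hn2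
  have hneg : bernoulliFun (n + 1) θ < 0 := by
    by_contra hcon
    push Not at hcon
    refine bern_not_zero (n + 1) (fun x hx => ?_)
    have h1 := hmin' x ⟨hx.1.le, hx.2.le⟩
    have h2 := hmin' (1 - x) ⟨by linarith [hx.2], by linarith [hx.1]⟩
    rw [bernoulliFun_eval_one_sub, hn.add_one.neg_one_pow] at h2
    linarith
  have h0 : 0 < θ := by
    rcases lt_or_eq_of_le hθ.1 with h | h
    · exact h
    · rw [← h, e0] at hneg; exact absurd hneg (lt_irrefl _)
  have h1 : θ < 1 := by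
    rcases lt_or_eq_of_le hθ.2 with h | h
    · exact h
    · rw [h, e1] at hneg; exact absurd hneg (lt_irrefl _)
  refine ⟨θ, h0, h1, ?_, hmin', ?_⟩
  · have hloc : IsLocalMin (bernoulliFun (n + 1)) θ := by
      filter_upwards [Ioo_mem_nhds h0 h1] with y hy
      exact hmin' y ⟨hy.1.le, hy.2.le⟩
    have h3 := hloc.hasDerivAt_eq_zero (hasDerivAt_bernoulliFun (n + 1) θ)
    rw [Nat.add_sub_cancel] at h3
    have h4 : (((n + 1 : ℕ) : ℝ)) ≠ 0 := by exact_mod_cast Nat.succ_ne_zero n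
    exact (mul_eq_zero.mp h3).resolve_left h4
  · have hL : IsLeast (bernoulliFun (n + 1) '' Icc (0:ℝ) 1) (bernoulliFun (n + 1) θ) := by
      refine ⟨⟨θ, hθ, rfl⟩, ?_⟩
      rintro _ ⟨x, hx, rfl⟩
      exact hmin' x hx
    exact hL.csInf_eq.symm

/-- The extremal pairs. -/
theorem exists_pairs {n : ℕ} (hn : Even n) (hn2 : 2 ≤ n) :
    ∃ f g : ℂ → ℂ,
      IsPair n 1 (-(sInf (bernoulliFun (n + 1) '' Icc (0:ℝ) 1)) / (n + 1)) f g ∧
      IsPair n (-1) (-(sInf (bernoulliFun (n + 1) '' Icc (0:ℝ) 1)) / (n + 1)) g f := by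
  obtain ⟨θ, h0, h1, hcrit, hmin, hinf⟩ := exists_argmin hn hn2
  have h0' : 0 < 1 - θ := by linarith
  have h1' : 1 - θ < 1 := by linarith
  have hcrit' : bernoulliFun n (1 - θ) = 0 := by
    rw [bernoulliFun_eval_one_sub, hcrit, mul_zero]
  have hbet : ∀ u, 0 ≤ bet θ (n + 1) u := by
    intro u
    unfold bet perB
    have := hmin (Int.fract (θ - u)) ⟨Int.fract_nonneg _, (Int.fract_lt_one _).le⟩
    linarith
  have hbet' : ∀ u, bet (1 - θ) (n + 1) u ≤ 0 := by
    intro u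
    unfold bet perB
    have h2 := hmin (1 - Int.fract (1 - θ - u))
      ⟨by linarith [Int.fract_lt_one (1 - θ - u)], by linarith [Int.fract_nonneg (1 - θ - u)]⟩
    rw [bernoulliFun_eval_one_sub, hn.add_one.neg_one_pow] at h2
    have h3 : bernoulliFun (n + 1) (1 - θ) = -bernoulliFun (n + 1) θ := by
      rw [bernoulliFun_eval_one_sub, hn.add_one.neg_one_pow]; ring
    rw [h3]
    linarith
  obtain ⟨K1, hK1, hb1⟩ := Em_bound hn hn2 h0 h1 hcrit
  obtain ⟨K2, hK2, hb2⟩ := Em_bound hn hn2 h0' h1' hcrit'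
  set f : ℂ → ℂ := Em θ n with hf
  set g : ℂ → ℂ := fun z => -Em (1 - θ) n z with hg
  set δ := min (θ / 2) ((1 - θ) / 2) with hδdef
  have hδ : 0 < δ := lt_min (by linarith) (by linarith)
  have hs1 : {z : ℂ | z.re < δ} ⊆ {z : ℂ | z.re < θ / 2} := by
    intro z hz
    have hz' : z.re < δ := hz
    exact (lt_of_lt_of_le hz' (min_le_left _ _) : z.re < θ / 2)
  have hs2 : {z : ℂ | z.re < δ} ⊆ {z : ℂ | z.re < (1 - θ) / 2} := by
    intro z hz
    have hz' : z.re < δ := hz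
    exact (lt_of_lt_of_le hz' (min_le_right _ _) : z.re < (1 - θ) / 2)
  have hfd : DifferentiableOn ℂ f {z | z.re < δ} :=
    (Em_differentiableOn h0 h1 n).mono hs1
  have hgd : DifferentiableOn ℂ g {z | z.re < δ} :=
    ((Em_differentiableOn h0' h1' n).mono hs2).neg
  set K := max K1 K2 with hKdef
  have hK : 0 < K := lt_max_of_lt_left hK1
  have hbf : ∀ z : ℂ, z.re ≤ 0 → ‖f z‖ ≤ K * Real.exp (2 * π * |z.im|) / (1 + ‖z‖ ^ 2) := by
    intro z hz
    refine (hb1 z hz).trans ?_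
    gcongr
    exact le_max_left _ _
  have hbg : ∀ z : ℂ, z.re ≤ 0 → ‖g z‖ ≤ K * Real.exp (2 * π * |z.im|) / (1 + ‖z‖ ^ 2) := by
    intro z hz
    rw [hg]
    simp only [norm_neg]
    refine (hb2 z hz).trans ?_
    gcongr
    exact le_max_right _ _
  have hj : ∀ z : ℂ, z.re = 0 → f z - g (-z) = z ^ n := by
    intro z hz
    have := Em_add hn h0 h1 (z := z) (by rw [hz]; linarith) (by rw [hz]; linarith)
    rw [hf, hg]
    simp only [sub_neg_eq_add]
    exact this
  have hj' : ∀ z : ℂ, z.re = 0 → g z - f (-z) = -z ^ n := by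
    intro z hz
    have := hj (-z) (by simp [hz])
    rw [neg_neg, hn.neg_pow] at this
    linear_combination -this
  have hrf : ∀ x : ℝ, x < 0 → (f x).im = 0 ∧ 0 ≤ (f x).re := fun x hx =>
    Em_nonneg hn h0 h1 hcrit hbet hx
  have hrg : ∀ x : ℝ, x < 0 → (g x).im = 0 ∧ 0 ≤ (g x).re := by
    intro x hx
    have := Em_nonpos hn h0' h1' hcrit' hbet' hx
    rw [hg]
    simp only [Complex.neg_im, Complex.neg_re]
    exact ⟨by linarith [this.1], by linarith [this.2]⟩
  have hreal0 : ∀ ϑ : ℝ, (Em ϑ n 0).im = 0 := by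
    intro ϑ
    have : Em ϑ n 0 = ((Real.sin (π * (0 - ϑ)) ^ 2 / π ^ 2 *
        ∑ m ∈ Finset.range n, bernoulliFun m ϑ * 0 ^ (n - 1 - m) : ℝ) : ℂ) := by
      unfold Em RR PP
      rw [zero_pow (by omega), zero_mul, zero_add]
      push_cast
      ring
    rw [this, Complex.ofReal_im]
  have hr : ∀ x : ℝ, x ≤ 0 → (f x).im = 0 ∧ (g x).im = 0 := by
    intro x hx
    rcases lt_or_eq_of_le hx with h | h
    · exact ⟨(hrf x h).1, (hrg x h).1⟩
    · rw [h, Complex.ofReal_zero]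
      refine ⟨hreal0 θ, ?_⟩
      rw [hg]
      simp only [Complex.neg_im, neg_eq_zero]
      exact hreal0 (1 - θ)
  have hzf : ∀ k : ℤ, θ + k ≤ 0 → f ((θ + k : ℝ) : ℂ) = 0 := by
    intro k _
    rw [hf]
    unfold Em
    have e : (π:ℂ) * (((θ + k : ℝ) : ℂ) - θ) = k * π := by push_cast; ring
    rw [e, Complex.sin_int_mul_pi]
    simp
  have hzg : ∀ k : ℤ, 0 ≤ θ + k → g ((-(θ + k) : ℝ) : ℂ) = 0 := by
    intro k _
    rw [hg]
    simp only
    unfold Em
    have e : (π:ℂ) * (((-(θ + k) : ℝ) : ℂ) - ((1 - θ : ℝ) : ℂ)) = ((-k - 1 : ℤ) : ℂ) * π := by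
      push_cast; ring
    rw [e, Complex.sin_int_mul_pi]
    simp
  have hmass := mass_formula hn2 hδ hK h0 h1 hfd hgd hbf hbg hj hr hzf hzg
  have hif : IntegrableOn (fun x : ℝ => f x) (Iic 0) := by
    refine integrable_of_cauchy measurableSet_Iic ?_ (C := K) (fun x hx => ?_)
    · refine hfd.continuousOn.comp Complex.continuous_ofReal.continuousOn (fun x hx => ?_)
      have : x ≤ 0 := hx
      show (x:ℂ).re < δ
      simp only [Complex.ofReal_re]; linarith
    · have := hbf x (by simpa using hx)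
      rwa [Complex.ofReal_im, abs_zero, mul_zero, Real.exp_zero, mul_one, Complex.norm_real,
        Real.norm_eq_abs, sq_abs] at this
  have hig : IntegrableOn (fun x : ℝ => g x) (Iic 0) := by
    refine integrable_of_cauchy measurableSet_Iic ?_ (C := K) (fun x hx => ?_)
    · refine hgd.continuousOn.comp Complex.continuous_ofReal.continuousOn (fun x hx => ?_)
      have : x ≤ 0 := hx
      show (x:ℂ).re < δ
      simp only [Complex.ofReal_re]; linarith
    · have := hbg x (by simpa using hx)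
      rwa [Complex.ofReal_im, abs_zero, mul_zero, Real.exp_zero, mul_one, Complex.norm_real,
        Real.norm_eq_abs, sq_abs] at this
  have hmassr : (∫ x in Iic (0:ℝ), (f x).re) + (∫ x in Iic (0:ℝ), (g x).re) =
      -(sInf (bernoulliFun (n + 1) '' Icc (0:ℝ) 1)) / (n + 1) := by
    have e1 : ∫ x in Iic (0:ℝ), (f x).re = (∫ x in Iic (0:ℝ), f x).re := by
      have := Complex.reCLM.integral_comp_comm hif
      simpa using this
    have e2 : ∫ x in Iic (0:ℝ), (g x).re = (∫ x in Iic (0:ℝ), g x).re := by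
      have := Complex.reCLM.integral_comp_comm hig
      simpa using this
    rw [e1, e2, ← Complex.add_re, hmass, ← hinf]
    have : (-((bernoulliFun (n + 1) θ : ℝ) : ℂ) / (n + 1)) =
        ((-bernoulliFun (n + 1) θ / (n + 1) : ℝ) : ℂ) := by push_cast; ring
    rw [this, Complex.ofReal_re]
  refine ⟨f, g, ⟨⟨δ, hδ, hfd, hgd⟩, ⟨K, hK, fun z hz => ⟨hbf z hz, hbg z hz⟩⟩, ?_, ?_, hmassr⟩,
    ⟨⟨δ, hδ, hgd, hfd⟩, ⟨K, hK, fun z hz => ⟨hbg z hz, hbf z hz⟩⟩, ?_, ?_, ?_⟩⟩
  · intro z hz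
    rw [hj z hz]; simp
  · exact fun x hx => ⟨(hrf x hx).1, (hrf x hx).2, (hrg x hx).1, (hrg x hx).2⟩
  · intro z hz
    rw [hj' z hz]; simp
  · exact fun x hx => ⟨(hrg x hx).1, (hrg x hx).2, (hrf x hx).1, (hrf x hx).2⟩
  · rw [add_comm]; exact hmassr

end Pool.Agent.Helper79.SE
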