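import Pool.Agent.Helper79.Shift2

/-!
The one-sided bound on the critical line.
-/

namespace Pool.Agent.Helper79.SE

open MeasureTheory Set Filter Topology

open scoped Real

theorem mass_right (G : ℝ → ℝ) {Δ : ℝ} (hΔ : 0 < Δ) (t : ℝ) :
    ∫ y in Ioi t, G (Δ * (t - y)) = Δ⁻¹ * ∫ x in Iic (0:ℝ), G x := by
  have h1 := ioi_shift_integral (fun v : ℝ => G (-(Δ * v))) t
  have h2 := integral_comp_mul_left_Ioi (fun v : ℝ => G (-v)) 0 hΔ
  have h3 := integral_comp_neg_Ioi (0:ℝ) G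
  rw [mul_zero] at h2
  rw [neg_zero] at h3
  rw [h3] at h2
  rw [smul_eq_mul] at h2
  rw [← h2, ← h1]
  refine setIntegral_congr_fun measurableSet_Ioi (fun y _ => ?_)
  congr 1
  ring

theorem mass_left (G : ℝ → ℝ) {Δ : ℝ} (hΔ : 0 < Δ) (t : ℝ) :
    ∫ y in Iic t, G (-(Δ * (t - y))) = Δ⁻¹ * ∫ x in Iic (0:ℝ), G x := by
  have h1 := mass_right G hΔ (-t)
  have h2 := integral_comp_neg_Ioi (-t) (fun y : ℝ => G (-(Δ * (t - y))))
  rw [neg_neg] at h2
  rw [← h2, ← h1]
  refine setIntegral_congr_fun measurableSet_Ioi (fun y _ => ?_)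
  congr 1
  ring

theorem exists_good_height : ∃ h0 : ℝ, 3 < h0 ∧ h0 < 4 ∧
    riemannZeta ((1 / 2 : ℝ) + h0 * Complex.I) ≠ 0 := by
  by_contra hcon
  push Not at hcon
  have hsub : Ioo (3:ℝ) 4 ⊆ {y : ℝ | 1 < y ∧ riemannZeta ((1 / 2 : ℝ) + y * Complex.I) = 0} :=
    fun y hy => ⟨by linarith [hy.1], hcon y hy.1 hy.2⟩
  have h1 : volume (Ioo (3:ℝ) 4) = 0 := (ord_countable.mono hsub).measure_zero _
  rw [Real.volume_Ioo] at h1
  norm_num at h1

/-- The one-sided bound. -/
theorem partC (hRH : RiemannHypothesis) {n : ℕ} (hn : Even n) {c I₀ : ℝ} {p q : ℂ → ℂ}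
    (hP : IsPair n c I₀ p q) {c1 : ℝ} (hc1 : 1 < c1) (hc2 : c1 ≤ 3 / 2) :
    ∃ C : ℝ, 0 < C ∧ ∀ t Δ Y : ℝ, 4 ≤ t → 1 ≤ Δ →
      Tendsto (fun a => c * (-1) ^ (n / 2) * (Fint n a t).im) (𝓝[>] (1 / 2)) (𝓝 Y) →
      -((Real.log t / 2 + C) * I₀ / Δ ^ (n + 1) + C * Real.exp (2 * π * Δ * (c1 - 1 / 2))) ≤ Y := by
  obtain ⟨K, hK, hbound⟩ := hP.bound
  have hbp : ∀ z : ℂ, z.re ≤ 0 → ‖p z‖ ≤ K * Real.exp (2 * π * |z.im|) / (1 + ‖z‖ ^ 2) :=
    fun z hz => (hbound z hz).1
  have hbq : ∀ z : ℂ, z.re ≤ 0 → ‖q z‖ ≤ K * Real.exp (2 * π * |z.im|) / (1 + ‖z‖ ^ 2) :=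
    fun z hz => (hbound z hz).2
  obtain ⟨δ, hδ, hpd, hqd⟩ := hP.diff
  have hreal := hP.real
  have hmass := hP.mass
  have hδo : IsOpen {z : ℂ | z.re < δ} := isOpen_lt Complex.continuous_re continuous_const
  obtain ⟨h0, hh3, hh4, hhz⟩ := exists_good_height
  -- bottom bound
  obtain ⟨B, hB0, hB⟩ : ∃ B : ℝ, 0 ≤ B ∧ ∀ σ : ℝ, 1 / 2 < σ → σ ≤ 3 / 2 →
      ‖ld ((σ:ℂ) + h0 * Complex.I)‖ ≤ B := by
    have hcont : ContinuousOn (fun σ : ℝ => ld ((σ:ℂ) + h0 * Complex.I)) (Icc (1 / 2) (3 / 2)) := by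
      intro σ hσ
      have hne : riemannZeta ((σ:ℂ) + h0 * Complex.I) ≠ 0 := by
        rcases eq_or_lt_of_le hσ.1 with h | h
        · rw [← h]; exact hhz
        · exact zeta_ne hRH (by simpa using h)
      have h1 : ContinuousAt ld ((σ:ℂ) + h0 * Complex.I) :=
        (ld_analyticAt (ne_one_of_im (by simp; linarith)) hne).continuousAt
      have h2 : ContinuousAt (fun x : ℝ => ((x:ℂ) + h0 * Complex.I)) σ := by fun_prop
      exact (ContinuousAt.comp (f := fun x : ℝ => ((x:ℂ) + h0 * Complex.I)) (g := ld)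
        h1 h2).continuousWithinAt
    obtain ⟨B, hB⟩ := isCompact_Icc.exists_bound_of_continuousOn hcont
    refine ⟨B, (norm_nonneg _).trans (hB 1 ⟨by norm_num, by norm_num⟩), fun σ h1 h2 =>
      hB σ ⟨h1.le, h2⟩⟩
  -- right bound
  obtain ⟨L, hL0, hL⟩ : ∃ L : ℝ, 0 ≤ L ∧ ∀ y : ℝ, ‖ld ((c1:ℂ) + y * Complex.I)‖ ≤ L := by
    obtain ⟨K', hK', hb'⟩ := ld_bound hc1
    refine ⟨K' * 2 ^ (-c1), by positivity, fun y => ?_⟩
    have h := hb' ((c1:ℂ) + y * Complex.I) (by simp)
    simpa using h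
  obtain ⟨T, hT, hsplit⟩ := Fint_split hRH n hc1
  obtain ⟨C', hC', hhalf⟩ := Na_half
  set κ : ℝ := ∫ v in Ioi (0:ℝ), Real.log (1 + v) / (1 + v ^ 2) with hκ
  have hκ0 : 0 ≤ κ := by
    refine setIntegral_nonneg measurableSet_Ioi (fun v hv => ?_)
    have : (0:ℝ) < v := hv
    exact div_nonneg (Real.log_nonneg (by linarith)) (by positivity)
  have hIp : 0 ≤ ∫ x in Iic (0:ℝ), (p x).re := by
    rw [integral_Iic_eq_integral_Iio]
    exact setIntegral_nonneg measurableSet_Iio (fun x hx => (hreal x hx).2.1)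
  have hIq : 0 ≤ ∫ x in Iic (0:ℝ), (q x).re := by
    rw [integral_Iic_eq_integral_Iio]
    exact setIntegral_nonneg measurableSet_Iio (fun x hx => (hreal x hx).2.2.2)
  have hI0 : 0 ≤ I₀ := by rw [← hmass]; linarith
  refine ⟨C' + (K / 2 * κ + K * (B + 2 * π * L) + |c| * T), by positivity,
    fun t Δ Y ht hΔ hY => ?_⟩
  have hΔ0 : 0 < Δ := by linarith
  have hh0t : h0 < t := by linarith
  set E : ℝ := Real.exp (2 * π * Δ * (c1 - 1 / 2)) with hE
  have hE1 : 1 ≤ E := by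
    rw [hE]
    refine Real.one_le_exp ?_
    have : 0 < c1 - 1 / 2 := by linarith
    positivity
  set w1 : ℝ → ℝ := fun y => (q ((-(Δ * (t - y)) : ℝ) : ℂ)).re with hw1
  set w2 : ℝ → ℝ := fun y => (p ((Δ * (t - y) : ℝ) : ℂ)).re with hw2
  have hw1c : ContinuousOn w1 (Iic t) := by
    intro y hy
    have hy' : y ≤ t := hy
    have h4 : ((-(Δ * (t - y)) : ℝ) : ℂ) ∈ {z : ℂ | z.re < δ} := by
      show (((-(Δ * (t - y)) : ℝ) : ℂ)).re < δ
      rw [Complex.ofReal_re]
      have : 0 ≤ Δ * (t - y) := mul_nonneg hΔ0.le (by linarith)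
      linarith
    have h1 := (hqd.differentiableAt (hδo.mem_nhds h4)).continuousAt
    have h2 : ContinuousAt (fun y : ℝ => ((-(Δ * (t - y)) : ℝ) : ℂ)) y := by fun_prop
    exact (Complex.continuous_re.continuousAt.comp (ContinuousAt.comp
      (f := fun y : ℝ => ((-(Δ * (t - y)) : ℝ) : ℂ)) (g := q) h1 h2)).continuousWithinAt
  have hw2c : ContinuousOn w2 (Ici t) := by
    intro y hy
    have hy' : t ≤ y := hy
    have h4 : ((Δ * (t - y) : ℝ) : ℂ) ∈ {z : ℂ | z.re < δ} := by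
      show (((Δ * (t - y) : ℝ) : ℂ)).re < δ
      rw [Complex.ofReal_re]
      have : Δ * (t - y) ≤ 0 := mul_nonpos_of_nonneg_of_nonpos hΔ0.le (by linarith)
      linarith
    have h1 := (hpd.differentiableAt (hδo.mem_nhds h4)).continuousAt
    have h2 : ContinuousAt (fun y : ℝ => ((Δ * (t - y) : ℝ) : ℂ)) y := by fun_prop
    exact (Complex.continuous_re.continuousAt.comp (ContinuousAt.comp
      (f := fun y : ℝ => ((Δ * (t - y) : ℝ) : ℂ)) (g := p) h1 h2)).continuousWithinAt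
  have hw1p : ∀ y, y < t → 0 ≤ w1 y := by
    intro y hy
    have : (-(Δ * (t - y))) < 0 := by
      have : 0 < Δ * (t - y) := mul_pos hΔ0 (by linarith)
      linarith
    exact (hreal _ this).2.2.2
  have hw2p : ∀ y, t < y → 0 ≤ w2 y := by
    intro y hy
    exact (hreal _ (mul_neg_of_pos_of_neg hΔ0 (by linarith))).2.1
  have hw1b : ∀ y, y ≤ t → |w1 y| ≤ K / (1 + (y - t) ^ 2) := by
    intro y hy
    have := pt_bound hK hbq hΔ (z := ((-(Δ * (t - y)) : ℝ) : ℂ)) (v := t - y) (y := y - t)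
      (w := 0) (by rw [Complex.ofReal_re]) (by linarith) (by rw [Complex.ofReal_im]; simp)
      (by ring)
    rw [mul_zero, Real.exp_zero, mul_one] at this
    exact (Complex.abs_re_le_norm _).trans this
  have hw2b : ∀ y, t ≤ y → |w2 y| ≤ K / (1 + (y - t) ^ 2) := by
    intro y hy
    have := pt_bound hK hbp hΔ (z := ((Δ * (t - y) : ℝ) : ℂ)) (v := y - t) (y := y - t)
      (w := 0) (by rw [Complex.ofReal_re]; ring) (by linarith) (by rw [Complex.ofReal_im]; simp)
      rfl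
    rw [mul_zero, Real.exp_zero, mul_one] at this
    exact (Complex.abs_re_le_norm _).trans this
  -- convergence of the two integrals
  have d1 : Tendsto (fun a => ∫ y in h0..t, w1 y * Na a y) (𝓝[>] (1 / 2))
      (𝓝 (∫ y in h0..t, w1 y * Na (1 / 2) y)) := by
    simp_rw [intervalIntegral.integral_of_le hh0t.le]
    refine Na_dct hRH measurableSet_Ioc (fun y hy => ?_) ?_ ?_
    · exact (hh3.trans hy.1 : (3:ℝ) < y)
    · exact (hw1c.mono (fun y hy => hy.2)).aestronglyMeasurable measurableSet_Ioc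
    · have : ContinuousOn (fun y => |w1 y| * Real.log y) (Icc h0 t) := by
        refine ContinuousOn.mul (hw1c.mono (fun y hy => hy.2)).abs ?_
        refine ContinuousOn.log continuousOn_id (fun y hy => ?_)
        have h9 : h0 ≤ y := hy.1
        have h10 : (0:ℝ) < y := by linarith
        exact h10.ne'
      exact (this.integrableOn_Icc).mono_set Ioc_subset_Icc_self
  have d2 : Tendsto (fun a => ∫ y in Ioi t, w2 y * Na a y) (𝓝[>] (1 / 2))
      (𝓝 (∫ y in Ioi t, w2 y * Na (1 / 2) y)) := by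
    refine Na_dct hRH measurableSet_Ioi (fun y hy => ?_) ?_ ?_
    · have : t < y := hy
      exact (by linarith : (3:ℝ) < y)
    · exact (hw2c.mono Ioi_subset_Ici_self).aestronglyMeasurable measurableSet_Ioi
    · have h1 : IntegrableOn (fun y : ℝ => K * (Real.log y / (1 + (y - t) ^ 2))) (Ioi t) :=
        (logcau_integrable (by linarith)).const_mul _
      refine Integrable.mono' h1 ?_ ?_
      · refine ContinuousOn.aestronglyMeasurable ?_ measurableSet_Ioi
        refine ContinuousOn.mul (hw2c.mono Ioi_subset_Ici_self).abs ?_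
        refine ContinuousOn.log continuousOn_id (fun y hy => ?_)
        have h9 : t < y := hy
        have h10 : (0:ℝ) < y := by linarith
        exact h10.ne'
      · rw [ae_restrict_iff' measurableSet_Ioi]
        refine Eventually.of_forall fun y hy => ?_
        have hy' : t < y := hy
        have hl : 0 ≤ Real.log y := Real.log_nonneg (by linarith)
        rw [Real.norm_of_nonneg (by positivity)]
        calc |w2 y| * Real.log y ≤ K / (1 + (y - t) ^ 2) * Real.log y := by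
              gcongr
              exact hw2b y hy'.le
          _ = _ := by ring
  -- the limiting inequality
  have hlimL := ((d1.add d2).neg.sub_const (K * E * (B + 2 * π * L))).const_mul ((Δ ^ n)⁻¹)
  have hlimL' := hlimL.sub_const (|c| * T)
  have hineq : ∀ᶠ a in 𝓝[>] (1 / 2 : ℝ), (Δ ^ n)⁻¹ * (-((∫ y in h0..t, w1 y * Na a y) +
      (∫ y in Ioi t, w2 y * Na a y)) - K * E * (B + 2 * π * L)) - |c| * T ≤
      c * (-1) ^ (n / 2) * (Fint n a t).im := by
    have hmem : Ioo (1 / 2 : ℝ) 1 ∈ 𝓝[>] (1 / 2 : ℝ) := Ioo_mem_nhdsGT (by norm_num)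
    filter_upwards [hmem] with a ha
    have hcon := contour hRH hn hP hK hbp hbq ha.1 ha.2 hc1 hc2 hh3 hh0t hΔ hB hL
    have hsp := hsplit a t ha.1 (by linarith [ha.2]) (by linarith)
    have h1 : (Δ ^ n)⁻¹ * (-((∫ y in h0..t, w1 y * Na a y) +
      (∫ y in Ioi t, w2 y * Na a y)) - K * E * (B + 2 * π * L)) ≤
      (Δ ^ n)⁻¹ * (c * Δ ^ n * (-1) ^ (n / 2) * (∫ x in a..c1, (((x - a : ℝ) : ℂ)) ^ n *
      ld ((x:ℂ) + t * Complex.I)).im) :=
      mul_le_mul_of_nonneg_left hcon (by positivity)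
    have h2 : (Δ ^ n)⁻¹ * (c * Δ ^ n * (-1) ^ (n / 2) * (∫ x in a..c1, (((x - a : ℝ) : ℂ)) ^ n *
      ld ((x:ℂ) + t * Complex.I)).im) = c * (-1) ^ (n / 2) *
      (∫ x in a..c1, (((x - a : ℝ) : ℂ)) ^ n * ld ((x:ℂ) + t * Complex.I)).im := by
      have : Δ ^ n ≠ 0 := by positivity
      field_simp
    rw [h2] at h1
    have h3 := (Complex.abs_im_le_norm _).trans hsp
    rw [Complex.sub_im] at h3
    have h4 : |c * (-1) ^ (n / 2) * ((Fint n a t).im -
        (∫ x in a..c1, (((x - a : ℝ) : ℂ)) ^ n * ld ((x:ℂ) + t * Complex.I)).im)| ≤ |c| * T := by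
      rw [abs_mul, abs_mul, abs_pow, abs_neg, abs_one, one_pow, mul_one]
      exact mul_le_mul_of_nonneg_left h3 (abs_nonneg _)
    have h5 := (abs_le.mp h4).1
    linarith
  have hfin := le_of_tendsto_of_tendsto hlimL' hY hineq
  -- bounding the limit integrals
  have hlt : 0 ≤ Real.log t := Real.log_nonneg (by linarith)
  have hΔinv : Δ⁻¹ * (∫ x in Iic (0:ℝ), (q x).re) + Δ⁻¹ * (∫ x in Iic (0:ℝ), (p x).re) =
      I₀ / Δ := by
    rw [← hmass]; ring
  have hw1int : IntegrableOn w1 (Iic t) := by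
    have h1 : IntegrableOn (fun y : ℝ => K * (1 + (y - t) ^ 2)⁻¹) (Iic t) :=
      ((integrable_inv_one_add_sq.comp_sub_right t).const_mul K).integrableOn
    refine Integrable.mono' h1 (hw1c.aestronglyMeasurable measurableSet_Iic) ?_
    rw [ae_restrict_iff' measurableSet_Iic]
    refine Eventually.of_forall fun y hy => ?_
    rw [← div_eq_mul_inv]
    exact hw1b y hy
  have hw2int : IntegrableOn w2 (Ioi t) := by
    have h1 : IntegrableOn (fun y : ℝ => K * (1 + (y - t) ^ 2)⁻¹) (Ioi t) :=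
      ((integrable_inv_one_add_sq.comp_sub_right t).const_mul K).integrableOn
    refine Integrable.mono' h1
      ((hw2c.mono Ioi_subset_Ici_self).aestronglyMeasurable measurableSet_Ioi) ?_
    rw [ae_restrict_iff' measurableSet_Ioi]
    refine Eventually.of_forall fun y hy => ?_
    have hy' : t < y := hy
    rw [← div_eq_mul_inv]
    exact hw2b y hy'.le
  have e1 : ∫ y in h0..t, w1 y * Na (1 / 2) y ≤
      (Real.log t / 2 + C') * (Δ⁻¹ * ∫ x in Iic (0:ℝ), (q x).re) := by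
    rw [intervalIntegral.integral_of_le hh0t.le, integral_Ioc_eq_integral_Ioo]
    have hsubs : Ioo h0 t ⊆ Iic t := fun y hy => hy.2.le
    have s1 : ∫ y in Ioo h0 t, w1 y * Na (1 / 2) y ≤
        ∫ y in Ioo h0 t, w1 y * (Real.log t / 2 + C') := by
      refine integral_mono_of_nonneg ?_ ((hw1int.mono_set hsubs).mul_const _) ?_
      · rw [EventuallyLE, ae_restrict_iff' measurableSet_Ioo]
        exact Eventually.of_forall fun y hy => mul_nonneg (hw1p y hy.2) (Na_nonneg _ _)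
      · rw [EventuallyLE, ae_restrict_iff' measurableSet_Ioo]
        refine Eventually.of_forall fun y hy => ?_
        refine mul_le_mul_of_nonneg_left ?_ (hw1p y hy.2)
        have h1 := hhalf y (by linarith [hy.1])
        have h2 : Real.log y ≤ Real.log t := Real.log_le_log (by linarith [hy.1]) hy.2.le
        linarith
    refine s1.trans ?_
    rw [integral_mul_const, mul_comm]
    refine mul_le_mul_of_nonneg_left ?_ (by positivity)
    rw [← mass_left (fun x => (q x).re) hΔ0 t]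
    have s2 : ∫ y in Ioo h0 t, w1 y ≤ ∫ y in Iio t, w1 y := by
      refine setIntegral_mono_set (hw1int.mono_set Iio_subset_Iic_self) ?_
        (Ioo_subset_Iio_self).eventuallyLE
      rw [EventuallyLE, ae_restrict_iff' measurableSet_Iio]
      exact Eventually.of_forall fun y hy => hw1p y hy
    rw [← integral_Iic_eq_integral_Iio] at s2
    exact s2
  have e2 : ∫ y in Ioi t, w2 y * Na (1 / 2) y ≤
      (Real.log t / 2 + C') * (Δ⁻¹ * ∫ x in Iic (0:ℝ), (p x).re) + K / 2 * κ := by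
    have hlk := (ioi_shift_integrable logker_integrable t).const_mul (K / 2)
    have hw2i2 : IntegrableOn (fun y => w2 y * (Real.log t / 2 + C')) (Ioi t) :=
      hw2int.mul_const _
    have s1 : ∫ y in Ioi t, w2 y * Na (1 / 2) y ≤
        ∫ y in Ioi t, (w2 y * (Real.log t / 2 + C') +
          K / 2 * (Real.log (1 + (y - t)) / (1 + (y - t) ^ 2))) := by
      refine integral_mono_of_nonneg ?_ (hw2i2.add hlk) ?_
      · rw [EventuallyLE, ae_restrict_iff' measurableSet_Ioi]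
        exact Eventually.of_forall fun y hy => mul_nonneg (hw2p y hy) (Na_nonneg _ _)
      · rw [EventuallyLE, ae_restrict_iff' measurableSet_Ioi]
        refine Eventually.of_forall fun y hy => ?_
        have hy' : t < y := hy
        have h1 := hhalf y (by linarith)
        have h2 := log_le_shift (by linarith : (1:ℝ) ≤ t) hy'.le
        have h3 : 0 ≤ Real.log (1 + (y - t)) := Real.log_nonneg (by linarith)
        have h4 := hw2p y hy'
        have h5 := (le_abs_self _).trans (hw2b y hy'.le)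
        calc w2 y * Na (1 / 2) y ≤ w2 y * ((Real.log t / 2 + C') +
              Real.log (1 + (y - t)) / 2) := mul_le_mul_of_nonneg_left (by linarith) h4
          _ = w2 y * (Real.log t / 2 + C') + w2 y * (Real.log (1 + (y - t)) / 2) := by ring
          _ ≤ w2 y * (Real.log t / 2 + C') + K / (1 + (y - t) ^ 2) *
              (Real.log (1 + (y - t)) / 2) := by gcongr
          _ = _ := by ring
    refine s1.trans ?_
    rw [integral_add hw2i2 hlk, integral_mul_const, integral_const_mul,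
      ioi_shift_integral (fun v : ℝ => Real.log (1 + v) / (1 + v ^ 2)) t, ← hκ,
      ← mass_right (fun x => (p x).re) hΔ0 t, mul_comm (∫ y in Ioi t, w2 y)]
  have hsumA : (∫ y in h0..t, w1 y * Na (1 / 2) y) + (∫ y in Ioi t, w2 y * Na (1 / 2) y) ≤
      (Real.log t / 2 + C') * (I₀ / Δ) + K / 2 * κ := by
    rw [← hΔinv]; linarith
  have hΔn : (Δ ^ n)⁻¹ ≤ 1 := inv_le_one_of_one_le₀ (one_le_pow₀ hΔ)
  have hΔn0 : 0 < (Δ ^ n)⁻¹ := by positivity
  have hBL : 0 ≤ B + 2 * π * L := by positivity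
  have f1 : (Δ ^ n)⁻¹ * (-((Real.log t / 2 + C') * (I₀ / Δ) + K / 2 * κ) -
      K * E * (B + 2 * π * L)) - |c| * T ≤ Y := by
    refine le_trans ?_ hfin
    refine sub_le_sub_right (mul_le_mul_of_nonneg_left ?_ hΔn0.le) _
    linarith
  have f2 : (Δ ^ n)⁻¹ * ((Real.log t / 2 + C') * (I₀ / Δ)) =
      (Real.log t / 2 + C') * I₀ / Δ ^ (n + 1) := by
    rw [pow_succ]; field_simp
  have f3 : (Δ ^ n)⁻¹ * (K / 2 * κ) ≤ K / 2 * κ * E := by
    calc (Δ ^ n)⁻¹ * (K / 2 * κ) ≤ 1 * (K / 2 * κ) := by gcongr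
      _ = K / 2 * κ * 1 := by ring
      _ ≤ K / 2 * κ * E := by gcongr
  have f4 : (Δ ^ n)⁻¹ * (K * E * (B + 2 * π * L)) ≤ K * (B + 2 * π * L) * E := by
    calc (Δ ^ n)⁻¹ * (K * E * (B + 2 * π * L)) ≤ 1 * (K * E * (B + 2 * π * L)) := by gcongr
      _ = _ := by ring
  have f5 : |c| * T ≤ |c| * T * E := by
    have : 0 ≤ |c| * T := by positivity
    exact le_mul_of_one_le_right this hE1
  have f6 : (Real.log t / 2 + C') * I₀ / Δ ^ (n + 1) ≤
      (Real.log t / 2 + (C' + (K / 2 * κ + K * (B + 2 * π * L) + |c| * T))) * I₀ /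
        Δ ^ (n + 1) := by
    gcongr
    have : 0 ≤ K / 2 * κ + K * (B + 2 * π * L) + |c| * T := by positivity
    linarith
  have f7 : 0 ≤ C' * E := by positivity
  have f8 : (Δ ^ n)⁻¹ * (-((Real.log t / 2 + C') * (I₀ / Δ) + K / 2 * κ) -
      K * E * (B + 2 * π * L)) - |c| * T = -((Δ ^ n)⁻¹ * ((Real.log t / 2 + C') * (I₀ / Δ))) -
      (Δ ^ n)⁻¹ * (K / 2 * κ) - (Δ ^ n)⁻¹ * (K * E * (B + 2 * π * L)) - |c| * T := by ring
  have f9 : (C' + (K / 2 * κ + K * (B + 2 * π * L) + |c| * T)) * E = C' * E + K / 2 * κ * E +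
      K * (B + 2 * π * L) * E + |c| * T * E := by ring
  rw [f8, f2] at f1
  rw [f9]
  linarith

end Pool.Agent.Helper79.SE
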