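import Pool.Agent.Helper79.SnH
import Pool.Agent.Helper79.Maj5
import Pool.Agent.Helper79.Shift3

/-!
Asymptotic upper bounds for the iterated integrals of the argument.
-/

namespace Pool.Agent.Helper79.SE

open MeasureTheory Set Filter Topology

open scoped Real

theorem key_ineq (hRH : RiemannHypothesis) (S : ℕ → ℝ → ℝ)
    (hS0 : ∀ t : ℝ, 0 < t → riemannZeta ((1 / 2 : ℝ) + t * Complex.I) ≠ 0 → S 0 t = 1 / π *
      ((∫ u in (0:ℝ)..t, Complex.I * ld (2 + u * Complex.I)) -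
        ∫ x in (1 / 2 : ℝ)..2, ld ((x:ℂ) + t * Complex.I)).im)
    (hS : ∀ (n : ℕ) (t : ℝ), 0 < t → S (n + 1) t = (∫ τ in (0:ℝ)..t, S n τ) + SA0 n (1 / 2))
    {n : ℕ} (hn : Even n) (hn2 : 2 ≤ n) {c I₀ : ℝ} {p q : ℂ → ℂ} (hP : IsPair n c I₀ p q)
    {c1 : ℝ} (hc1 : 1 < c1) (hc2 : c1 ≤ 3 / 2) :
    ∃ C : ℝ, 0 < C ∧ ∀ t Δ : ℝ, 4 ≤ t → 1 ≤ Δ → c * S n t ≤
      ((Real.log t / 2 + C) * I₀ / Δ ^ (n + 1) + C * Real.exp (2 * π * Δ * (c1 - 1 / 2))) /
        (π * n.factorial) := by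
  obtain ⟨C, hC, h⟩ := partC hRH hn hP hc1 hc2
  refine ⟨C, hC, fun t Δ ht hΔ => ?_⟩
  obtain ⟨m, rfl⟩ : ∃ m, n = m + 1 := ⟨n - 1, by omega⟩
  have hlim := (SA_ind hRH S hS0 hS m).2 t (by linarith)
  have hf : (0:ℝ) < ((m + 1).factorial : ℝ) := by exact_mod_cast (m + 1).factorial_pos
  have hpi := Real.pi_pos
  have hpf : 0 < π * ((m + 1).factorial : ℝ) := by positivity
  have hI : Complex.I ^ (m + 1) = (((-1 : ℝ) ^ ((m + 1) / 2) : ℝ) : ℂ) := by
    obtain ⟨k, hk⟩ := hn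
    have e1 : (m + 1) / 2 = k := by omega
    rw [e1, hk, ← two_mul, pow_mul, Complex.I_sq]; push_cast; ring
  have hconv : Tendsto (fun a => c * (-1) ^ ((m + 1) / 2) * (Fint (m + 1) a t).im)
      (𝓝[>] (1 / 2)) (𝓝 (-(c * (π * ((m + 1).factorial : ℝ))) * S (m + 1) t)) := by
    refine (hlim.const_mul (-(c * (π * ((m + 1).factorial : ℝ))))).congr fun a => ?_
    unfold SA
    rw [hI, Complex.im_ofReal_mul]
    field_simp
  have hk := h t Δ _ ht hΔ hconv
  rw [le_div_iff₀ hpf]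
  nlinarith [hk]

theorem asym (C I₀ κ η A : ℝ) (n : ℕ) (hκ : 0 < κ) (hη : 0 < η)
    (hA : I₀ / 2 / κ ^ (n + 1) / (π * n.factorial) < A) :
    ∀ᶠ x : ℝ in atTop, ((Real.exp x / 2 + C) * I₀ / (κ * x) ^ (n + 1) +
      C * Real.exp ((1 - η) * x)) / (π * n.factorial) ≤ A * (Real.exp x / x ^ (n + 1)) := by
  have hpi := Real.pi_pos
  have hf : (0:ℝ) < (n.factorial : ℝ) := by exact_mod_cast n.factorial_pos
  have h1 : Tendsto (fun x : ℝ => Real.exp (-x)) atTop (𝓝 0) := Real.tendsto_exp_neg_atTop_nhds_zero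
  have h2 : Tendsto (fun x : ℝ => x ^ (n + 1) * Real.exp (-η * x)) atTop (𝓝 0) := by
    have h := tendsto_rpow_mul_exp_neg_mul_atTop_nhds_zero ((n + 1 : ℕ) : ℝ) η hη
    refine h.congr' ?_
    filter_upwards [eventually_gt_atTop 0] with y hy
    rw [Real.rpow_natCast]
  have h3 : Tendsto (fun x : ℝ => ((1 / 2 + C * Real.exp (-x)) * I₀ / κ ^ (n + 1) +
      C * (x ^ (n + 1) * Real.exp (-η * x))) / (π * n.factorial)) atTop
      (𝓝 (((1 / 2 + C * 0) * I₀ / κ ^ (n + 1) + C * 0) / (π * n.factorial))) :=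
    (((((h1.const_mul C).const_add (1 / 2)).mul_const I₀).div_const _).add
      (h2.const_mul C)).div_const _
  have h4 : ((1 / 2 + C * 0) * I₀ / κ ^ (n + 1) + C * 0) / (π * n.factorial) < A := by
    refine lt_of_eq_of_lt ?_ hA
    ring
  filter_upwards [h3.eventually_lt_const h4, eventually_gt_atTop 0] with x hx hx0
  have hxn : 0 < x ^ (n + 1) := by positivity
  have hex : 0 < Real.exp x := Real.exp_pos x
  have key : ((Real.exp x / 2 + C) * I₀ / (κ * x) ^ (n + 1) +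
      C * Real.exp ((1 - η) * x)) / (π * n.factorial) =
      ((1 / 2 + C * Real.exp (-x)) * I₀ / κ ^ (n + 1) +
      C * (x ^ (n + 1) * Real.exp (-η * x))) / (π * n.factorial) *
      (Real.exp x / x ^ (n + 1)) := by
    have e1 : Real.exp ((1 - η) * x) = Real.exp (-η * x) * Real.exp x := by
      rw [← Real.exp_add]; congr 1; ring
    have e2 : Real.exp (-x) * Real.exp x = 1 := by
      rw [← Real.exp_add]; simp
    rw [e1, mul_pow]
    have e3 : Real.exp (-x) = 1 / Real.exp x := by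
      rw [Real.exp_neg, one_div]
    rw [e3]
    field_simp
  rw [key]
  exact mul_le_mul_of_nonneg_right hx.le (by positivity)

theorem upper (hRH : RiemannHypothesis) (S : ℕ → ℝ → ℝ)
    (hS0 : ∀ t : ℝ, 0 < t → riemannZeta ((1 / 2 : ℝ) + t * Complex.I) ≠ 0 → S 0 t = 1 / π *
      ((∫ u in (0:ℝ)..t, Complex.I * ld (2 + u * Complex.I)) -
        ∫ x in (1 / 2 : ℝ)..2, ld ((x:ℂ) + t * Complex.I)).im)
    (hS : ∀ (n : ℕ) (t : ℝ), 0 < t → S (n + 1) t = (∫ τ in (0:ℝ)..t, S n τ) + SA0 n (1 / 2))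
    {n : ℕ} (hn : Even n) (hn2 : 2 ≤ n) {c I₀ : ℝ} {p q : ℂ → ℂ} (hP : IsPair n c I₀ p q)
    {A : ℝ} (hA : I₀ / 2 * π ^ (n + 1) / (π * n.factorial) < A) :
    ∀ᶠ t : ℝ in atTop, c * S n t ≤ A * (Real.log t / (Real.log (Real.log t)) ^ (n + 1)) := by
  have hpi := Real.pi_pos
  have hf : (0:ℝ) < (n.factorial : ℝ) := by exact_mod_cast n.factorial_pos
  -- choice of the parameter
  have hcont : ContinuousAt (fun η : ℝ => I₀ / 2 / ((1 - η) / (π * (1 + 2 * η))) ^ (n + 1) /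
      (π * n.factorial)) 0 := by
    refine ContinuousAt.div ?_ continuousAt_const (by positivity)
    refine ContinuousAt.div continuousAt_const ?_ ?_
    · refine ContinuousAt.pow ?_ _
      refine ContinuousAt.div (by fun_prop) (by fun_prop) ?_
      simp [hpi.ne']
    · have : (1 - 0) / (π * (1 + 2 * 0)) = 1 / π := by ring
      rw [this]; positivity
  have h0 : I₀ / 2 / ((1 - (0:ℝ)) / (π * (1 + 2 * 0))) ^ (n + 1) / (π * n.factorial) < A := by
    refine lt_of_eq_of_lt ?_ hA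
    have : (1 - (0:ℝ)) / (π * (1 + 2 * 0)) = 1 / π := by ring
    rw [this, one_div, inv_pow, div_inv_eq_mul]
  have hev := hcont.eventually_lt_const h0
  obtain ⟨δ, hδ, hball⟩ := Metric.eventually_nhds_iff.mp hev
  set η : ℝ := min (δ / 2) (1 / 2) with hηdef
  have hη0 : 0 < η := by positivity
  have hη1 : η ≤ 1 / 2 := min_le_right _ _
  have hηδ : η < δ := lt_of_le_of_lt (min_le_left _ _) (by linarith)
  have hlt := hball (y := η) (by rw [Real.dist_eq, sub_zero, abs_of_pos hη0]; exact hηδ)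
  set κ : ℝ := (1 - η) / (π * (1 + 2 * η)) with hκdef
  have hκ0 : 0 < κ := by
    have : 0 < 1 - η := by linarith
    positivity
  obtain ⟨C, hC, hkey⟩ := key_ineq hRH S hS0 hS hn hn2 hP (c1 := 1 + η) (by linarith) (by linarith)
  have hloglog : Tendsto (fun t : ℝ => Real.log (Real.log t)) atTop atTop :=
    Real.tendsto_log_atTop.comp Real.tendsto_log_atTop
  have hasym := hloglog.eventually (asym C I₀ κ η A n hκ0 hη0 hlt)
  have hbig : ∀ᶠ x : ℝ in atTop, 1 / κ ≤ x := eventually_ge_atTop _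
  filter_upwards [hasym, hloglog.eventually hbig, eventually_ge_atTop 4] with t h1 h2 h3
  have hlog : 0 < Real.log t := Real.log_pos (by linarith)
  have hexp : Real.exp (Real.log (Real.log t)) = Real.log t := Real.exp_log hlog
  rw [hexp] at h1
  have hΔ : 1 ≤ κ * Real.log (Real.log t) := by
    rw [div_le_iff₀ hκ0] at h2
    linarith
  have h4 := hkey t (κ * Real.log (Real.log t)) h3 hΔ
  have e1 : 2 * π * (κ * Real.log (Real.log t)) * (1 + η - 1 / 2) =
      (1 - η) * Real.log (Real.log t) := by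
    rw [hκdef]
    field_simp
    ring
  rw [e1] at h4
  exact h4.trans h1

end Pool.Agent.Helper79.SE
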