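import Pool.Agent.Helper79.Fin1

/-!
Logarithmic bounds, mean values, and the continuous variation of the argument.
-/

namespace Pool.Agent.Helper79.SE

open MeasureTheory Set Filter Topology

open scoped Real

theorem Fint_log_bound (hRH : RiemannHypothesis) (m : ℕ) :
    ∃ C : ℝ, 0 < C ∧ ∀ a t : ℝ, 1 / 2 < a → a ≤ 3 / 2 → 4 ≤ t →
      ‖Fint (m + 1) a t‖ ≤ C * Real.log t := by
  obtain ⟨D, hD, hup⟩ := ld_upper hRH
  obtain ⟨K, hK, hb⟩ := ld_bound (c := 3 / 2) (by norm_num)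
  have hint : IntegrableOn (fun y : ℝ => 4 * D * (y ^ 0 * (2:ℝ) ^ (-y)) +
      K * (y ^ (m + 1) * (2:ℝ) ^ (-y))) (Ioi 0) :=
    ((pow_exp_int 0).const_mul _).add ((pow_exp_int (m + 1)).const_mul _)
  have hI0 : 0 ≤ ∫ y in Ioi (0:ℝ), (4 * D * (y ^ 0 * (2:ℝ) ^ (-y)) +
      K * (y ^ (m + 1) * (2:ℝ) ^ (-y))) :=
    setIntegral_nonneg measurableSet_Ioi (fun y hy => by
      have : (0:ℝ) < y := hy
      positivity)
  refine ⟨(∫ y in Ioi (0:ℝ), (4 * D * (y ^ 0 * (2:ℝ) ^ (-y)) +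
      K * (y ^ (m + 1) * (2:ℝ) ^ (-y)))) + 1, by linarith, fun a t ha ha2 ht => ?_⟩
  have hlog : 1 ≤ Real.log t := by
    rw [Real.le_log_iff_exp_le (by linarith)]
    linarith [Real.exp_one_lt_d9]
  have hint2 : IntegrableOn (fun y : ℝ => (4 * D * (y ^ 0 * (2:ℝ) ^ (-y)) +
      K * (y ^ (m + 1) * (2:ℝ) ^ (-y))) * Real.log t) (Ioi 0) := hint.mul_const _
  have h1 : ‖Fint (m + 1) a t‖ ≤ ∫ y in Ioi (0:ℝ), (4 * D * (y ^ 0 * (2:ℝ) ^ (-y)) +
      K * (y ^ (m + 1) * (2:ℝ) ^ (-y))) * Real.log t := by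
    unfold Fint
    refine norm_integral_le_of_norm_le hint2 ?_
    rw [ae_restrict_iff' measurableSet_Ioi]
    refine Eventually.of_forall fun y hy => ?_
    have hy0 : (0:ℝ) < y := hy
    have h2y : (0:ℝ) < (2:ℝ) ^ (-y) := by positivity
    have hz : ((a:ℂ) + y + t * Complex.I) = ⟨a + y, t⟩ := by
      apply Complex.ext <;> simp
    rw [norm_mul, norm_pow, Complex.norm_real, Real.norm_eq_abs, abs_of_pos hy0, hz]
    rcases le_or_gt y 1 with hy1 | hy1
    · have h2 := hup t (by linarith) (a + y) (by linarith) (by linarith)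
      have h3 : 1 / (a + y - 1 / 2) ≤ 1 / y := one_div_le_one_div_of_le hy0 (by linarith)
      have h4 : ‖ld ⟨a + y, t⟩‖ ≤ D * Real.log t * (1 + 1 / y) :=
        h2.trans (mul_le_mul_of_nonneg_left (by linarith) (by positivity))
      have h5 : y ^ (m + 1) * (1 + 1 / y) ≤ 2 := by
        have e : y ^ (m + 1) * (1 + 1 / y) = y ^ (m + 1) + y ^ m := by
          rw [pow_succ]; field_simp
        rw [e]
        have := pow_le_one₀ (n := m + 1) hy0.le hy1
        have := pow_le_one₀ (n := m) hy0.le hy1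
        linarith
      have h6 : (1:ℝ) ≤ 2 * (2:ℝ) ^ (-y) := by
        have : (2:ℝ) * (2:ℝ) ^ (-y) = (2:ℝ) ^ (1 - y) := by
          rw [sub_eq_add_neg, Real.rpow_add (by norm_num), Real.rpow_one]
        rw [this]
        exact Real.one_le_rpow (by norm_num) (by linarith)
      have h7 : 0 ≤ K * (y ^ (m + 1) * (2:ℝ) ^ (-y)) * Real.log t := by positivity
      have h8 : 0 < D * Real.log t := by positivity
      calc y ^ (m + 1) * ‖ld ⟨a + y, t⟩‖ ≤ y ^ (m + 1) * (D * Real.log t * (1 + 1 / y)) :=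
            mul_le_mul_of_nonneg_left h4 (by positivity)
        _ = D * Real.log t * (y ^ (m + 1) * (1 + 1 / y)) := by ring
        _ ≤ D * Real.log t * 2 := mul_le_mul_of_nonneg_left h5 h8.le
        _ ≤ D * Real.log t * (2 * (2 * (2:ℝ) ^ (-y))) :=
            mul_le_mul_of_nonneg_left (by linarith) h8.le
        _ ≤ (4 * D * (y ^ 0 * (2:ℝ) ^ (-y)) +
              K * (y ^ (m + 1) * (2:ℝ) ^ (-y))) * Real.log t := by
            rw [pow_zero]; nlinarith
    · have h2 := hb (⟨a + y, t⟩ : ℂ) (by show 3 / 2 ≤ a + y; linarith)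
      have h3 : (2:ℝ) ^ (-(a + y)) ≤ (2:ℝ) ^ (-y) :=
        Real.rpow_le_rpow_of_exponent_le (by norm_num) (by linarith)
      have h4 : ‖ld ⟨a + y, t⟩‖ ≤ K * (2:ℝ) ^ (-y) :=
        h2.trans (mul_le_mul_of_nonneg_left h3 hK.le)
      have h5 : 0 ≤ 4 * D * (y ^ 0 * (2:ℝ) ^ (-y)) * Real.log t := by positivity
      have h6 : 0 ≤ K * (y ^ (m + 1) * (2:ℝ) ^ (-y)) := by positivity
      calc y ^ (m + 1) * ‖ld ⟨a + y, t⟩‖ ≤ y ^ (m + 1) * (K * (2:ℝ) ^ (-y)) :=
            mul_le_mul_of_nonneg_left h4 (by positivity)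
        _ = K * (y ^ (m + 1) * (2:ℝ) ^ (-y)) := by ring
        _ ≤ K * (y ^ (m + 1) * (2:ℝ) ^ (-y)) * Real.log t := le_mul_of_one_le_right h6 hlog
        _ ≤ _ := by linarith [h5]
  refine h1.trans ?_
  rw [integral_mul_const]
  nlinarith

theorem S_log_bound (hRH : RiemannHypothesis) (S : ℕ → ℝ → ℝ)
    (hS0 : ∀ t : ℝ, 0 < t → riemannZeta ((1 / 2 : ℝ) + t * Complex.I) ≠ 0 → S 0 t = 1 / π *
      ((∫ u in (0:ℝ)..t, Complex.I * ld (2 + u * Complex.I)) -
        ∫ x in (1 / 2 : ℝ)..2, ld ((x:ℂ) + t * Complex.I)).im)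
    (hS : ∀ (n : ℕ) (t : ℝ), 0 < t → S (n + 1) t = (∫ τ in (0:ℝ)..t, S n τ) + SA0 n (1 / 2))
    (m : ℕ) :
    ∃ C : ℝ, 0 < C ∧ ∀ t : ℝ, 4 ≤ t → |S (m + 1) t| ≤ C * Real.log t := by
  obtain ⟨C, hC, hb⟩ := Fint_log_bound hRH m
  have hf : (0:ℝ) < ((m + 1).factorial : ℝ) := by exact_mod_cast (m + 1).factorial_pos
  have hpi := Real.pi_pos
  refine ⟨C, hC, fun t ht => ?_⟩
  have hlim := ((SA_ind hRH S hS0 hS m).2 t (by linarith)).abs
  have hlog : 0 ≤ Real.log t := Real.log_nonneg (by linarith)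
  refine le_of_tendsto hlim ?_
  have hmem : Ioo (1 / 2 : ℝ) (3 / 2) ∈ 𝓝[>] (1 / 2 : ℝ) := Ioo_mem_nhdsGT (by norm_num)
  filter_upwards [hmem] with a ha
  have h1 := hb a t ha.1 ha.2.le ht
  unfold SA
  rw [abs_div, abs_neg, abs_of_pos (by positivity : 0 < π * ((m + 1).factorial : ℝ))]
  have h2 : |(Complex.I ^ (m + 1) * Fint (m + 1) a t).im| ≤ C * Real.log t := by
    refine (Complex.abs_im_le_norm _).trans ?_
    rw [norm_mul, norm_pow, Complex.norm_I, one_pow, one_mul]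
    exact h1
  have h3 : 1 ≤ π * ((m + 1).factorial : ℝ) := by
    have : (1:ℝ) ≤ ((m + 1).factorial : ℝ) := by
      exact_mod_cast (m + 1).factorial_pos
    nlinarith [Real.pi_gt_three]
  refine (div_le_self (abs_nonneg _) h3).trans h2

/-- Mean value zero. -/
theorem S_mean (hRH : RiemannHypothesis) (S : ℕ → ℝ → ℝ)
    (hS0 : ∀ t : ℝ, 0 < t → riemannZeta ((1 / 2 : ℝ) + t * Complex.I) ≠ 0 → S 0 t = 1 / π *
      ((∫ u in (0:ℝ)..t, Complex.I * ld (2 + u * Complex.I)) -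
        ∫ x in (1 / 2 : ℝ)..2, ld ((x:ℂ) + t * Complex.I)).im)
    (hS : ∀ (n : ℕ) (t : ℝ), 0 < t → S (n + 1) t = (∫ τ in (0:ℝ)..t, S n τ) + SA0 n (1 / 2))
    (m : ℕ) :
    Tendsto (fun T : ℝ => (∫ τ in (0:ℝ)..T, S m τ) / T) atTop (𝓝 0) := by
  obtain ⟨C, hC, hb⟩ := S_log_bound hRH S hS0 hS m
  have h1 : Tendsto (fun T : ℝ => C * (Real.log T / T) + |SA0 m (1 / 2)| * (1 / T)) atTop
      (𝓝 (C * 0 + |SA0 m (1 / 2)| * 0)) := by
    refine (Tendsto.const_mul C ?_).add (Tendsto.const_mul _ ?_)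
    · have := Real.isLittleO_log_id_atTop.tendsto_div_nhds_zero
      simpa using this
    · exact (tendsto_inv_atTop_zero (𝕜 := ℝ)).congr (fun r => (one_div r).symm)
  rw [mul_zero, mul_zero, add_zero] at h1
  refine squeeze_zero_norm' ?_ h1
  filter_upwards [eventually_ge_atTop 4] with T hT
  have hT0 : 0 < T := by linarith
  have h2 := hS m T hT0
  have h3 : (∫ τ in (0:ℝ)..T, S m τ) = S (m + 1) T - SA0 m (1 / 2) := by linarith
  rw [h3, norm_div, Real.norm_eq_abs, Real.norm_eq_abs, abs_of_pos hT0]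
  have h4 : |S (m + 1) T - SA0 m (1 / 2)| ≤ C * Real.log T + |SA0 m (1 / 2)| := by
    have := abs_sub (S (m + 1) T) (SA0 m (1 / 2))
    have := hb T hT
    linarith
  rw [div_le_iff₀ hT0]
  refine h4.trans (le_of_eq ?_)
  field_simp

/-- The argument by continuous variation. -/
theorem arg_path (hRH : RiemannHypothesis) {t : ℝ} (ht : 0 < t)
    (h0 : riemannZeta ((1 / 2 : ℝ) + t * Complex.I) ≠ 0) (v : ℝ)
    (hv : v = ((∫ u in (0:ℝ)..t, Complex.I * ld (2 + u * Complex.I)) -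
        ∫ x in (1 / 2 : ℝ)..2, ld ((x:ℂ) + t * Complex.I)).im) (P : ℝ → ℂ)
    (hP1 : ∀ r : ℝ, 0 ≤ r → r ≤ 1 → P r = 2 + (r * t : ℝ) * Complex.I)
    (hP2 : ∀ r : ℝ, 1 < r → r ≤ 2 → P r = ((2 - 3 / 2 * (r - 1) : ℝ) : ℂ) + t * Complex.I) :
    ∃ θ : ℝ → ℝ, ContinuousOn θ (Icc 0 2) ∧ θ 0 = 0 ∧ θ 2 = v ∧ ∀ r ∈ Icc (0:ℝ) 2,
      riemannZeta (P r) = ‖riemannZeta (P r)‖ * Complex.exp (θ r * Complex.I) := by
  have hpolar : ∀ w : ℂ, Complex.exp w = ‖Complex.exp w‖ * Complex.exp (w.im * Complex.I) := by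
    intro w
    rw [Complex.norm_exp, Complex.ofReal_exp, ← Complex.exp_add, Complex.re_add_im]
  have hne : ∀ x : ℝ, 1 / 2 ≤ x → riemannZeta ((x:ℂ) + t * Complex.I) ≠ 0 := by
    intro x hx
    rcases eq_or_lt_of_le hx with h | h
    · rw [← h]; exact h0
    · exact zeta_ne hRH (by simpa using h)
  have hcont : ContinuousOn (fun x : ℝ => ld ((x:ℂ) + t * Complex.I)) (Icc (1 / 2) 2) := by
    intro x hx
    have h1 : ContinuousAt ld ((x:ℂ) + t * Complex.I) :=
      (ld_analyticAt (ne_one_of_im (by simp; exact ht.ne')) (hne x hx.1)).continuousAt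
    have h2 : ContinuousAt (fun x : ℝ => ((x:ℂ) + t * Complex.I)) x := by fun_prop
    exact (ContinuousAt.comp (f := fun x : ℝ => ((x:ℂ) + t * Complex.I)) (g := ld)
      h1 h2).continuousWithinAt
  set F1 : ℝ → ℝ := fun u => -(Fint 0 2 u).im with hF1
  have hF1c : Continuous F1 := by
    rw [continuous_iff_continuousAt]
    intro u
    have := Fint_cont_t (goodRay_right (by norm_num : (1:ℝ) < 2) u) 0
    exact (Complex.continuous_im.continuousAt.comp this).neg
  have hF10 : F1 0 = 0 := by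
    simp only [hF1]
    rw [Fint_real (by norm_num), neg_zero]
  have hF1z : ∀ u : ℝ, riemannZeta (2 + u * Complex.I) =
      ‖riemannZeta (2 + u * Complex.I)‖ * Complex.exp (F1 u * Complex.I) := by
    intro u
    have h := zeta_eq_exp (goodRay_right (by norm_num : (1:ℝ) < 2) u)
      (fun y hy => riemannZeta_ne_zero_of_one_lt_re (by simp; linarith))
      (fun y hy => ne_one_of_re (by simp; linarith))
    have e : ((2:ℝ):ℂ) + u * Complex.I = 2 + u * Complex.I := by norm_num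
    rw [e] at h
    rw [h]
    have := hpolar (-Fint 0 2 u)
    rw [Complex.neg_im] at this
    exact this
  set F2 : ℝ → ℝ := fun σ => F1 t - (∫ x in σ..2, ld ((x:ℂ) + t * Complex.I)).im with hF2
  have hint : IntervalIntegrable (fun x : ℝ => ld ((x:ℂ) + t * Complex.I)) volume (1 / 2) 2 := by
    refine ContinuousOn.intervalIntegrable ?_
    rw [uIcc_of_le (by norm_num)]
    exact hcont
  have hF2c : ContinuousOn F2 (Icc (1 / 2) 2) := by
    refine continuousOn_const.sub ?_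
    refine Complex.continuous_im.comp_continuousOn ?_
    have h := intervalIntegral.continuousOn_primitive_interval_left
      (f := fun x : ℝ => ld ((x:ℂ) + t * Complex.I)) (μ := volume) (a := 1 / 2) (b := 2) (by
        rw [uIcc_of_le (by norm_num)]
        exact hcont.integrableOn_Icc)
    rwa [uIcc_of_le (by norm_num)] at h
  have hF2z : ∀ x : ℝ, x ∈ Icc (1 / 2 : ℝ) 2 → riemannZeta ((x:ℂ) + t * Complex.I) =
      ‖riemannZeta ((x:ℂ) + t * Complex.I)‖ * Complex.exp (F2 x * Complex.I) := by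
    have hopen : ∀ x : ℝ, x ∈ Ioc (1 / 2 : ℝ) 2 → riemannZeta ((x:ℂ) + t * Complex.I) =
        ‖riemannZeta ((x:ℂ) + t * Complex.I)‖ * Complex.exp (F2 x * Complex.I) := by
      intro x hx
      have h := zeta_eq_exp (goodRay_up hRH hx.1 ht)
        (fun y hy => by
          have := hne (x + y) (by linarith [hx.1])
          simpa using this)
        (fun y hy => ne_one_of_im (by simp; exact ht.ne'))
      have hseg := Fint_zero_seg (goodRay_up hRH hx.1 ht) hx.2
      have e : F2 x = (-Fint 0 x t).im := by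
        simp only [hF2, hF1]
        rw [hseg, Complex.neg_im, Complex.add_im]
        ring
      rw [e, h]
      exact hpolar _
    have hcl : ContinuousOn (fun x : ℝ => riemannZeta ((x:ℂ) + t * Complex.I)) (Icc (1 / 2) 2) := by
      intro x hx
      have h1 : ContinuousAt riemannZeta ((x:ℂ) + t * Complex.I) :=
        (zeta_analyticAt (ne_one_of_im (by simp; exact ht.ne'))).continuousAt
      have h2 : ContinuousAt (fun x : ℝ => ((x:ℂ) + t * Complex.I)) x := by fun_prop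
      exact (ContinuousAt.comp (f := fun x : ℝ => ((x:ℂ) + t * Complex.I)) (g := riemannZeta)
        h1 h2).continuousWithinAt
    have hcr : ContinuousOn (fun x : ℝ => (‖riemannZeta ((x:ℂ) + t * Complex.I)‖ : ℂ) *
        Complex.exp (F2 x * Complex.I)) (Icc (1 / 2) 2) := by
      refine ContinuousOn.mul ?_ ?_
      · exact Complex.continuous_ofReal.comp_continuousOn hcl.norm
      · exact Complex.continuous_exp.comp_continuousOn
          ((Complex.continuous_ofReal.comp_continuousOn hF2c).mul continuousOn_const)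
    intro x hx
    rcases eq_or_lt_of_le hx.1 with h | h
    · have hmem : (1 / 2 : ℝ) ∈ Icc (1 / 2 : ℝ) 2 := ⟨le_rfl, by norm_num⟩
      have hne2 : (𝓝[Ioc (1 / 2 : ℝ) 2] (1 / 2)).NeBot := by
        rw [← mem_closure_iff_nhdsWithin_neBot, closure_Ioc (by norm_num)]
        exact hmem
      have l1 := (hcl (1 / 2) hmem).mono (Ioc_subset_Icc_self)
      have l2 := (hcr (1 / 2) hmem).mono (Ioc_subset_Icc_self)
      rw [← h]
      refine tendsto_nhds_unique (l1.tendsto.congr' ?_) l2.tendsto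
      filter_upwards [self_mem_nhdsWithin] with y hy
      exact hopen y hy
    · exact hopen x ⟨h, hx.2⟩
  have hF22 : F2 2 = F1 t := by simp [hF2]
  refine ⟨fun r => if r ≤ 1 then F1 (r * t) else F2 (2 - 3 / 2 * (r - 1)), ?_, ?_, ?_, ?_⟩
  · have hcl1 : ContinuousOn (fun r : ℝ => F1 (r * t)) (Icc 0 2 ∩ {r | r ≤ 1}) :=
      (hF1c.comp (by fun_prop)).continuousOn
    have hcl2 : ContinuousOn (fun r : ℝ => F2 (2 - 3 / 2 * (r - 1))) (Icc 0 2 ∩ {r | 1 ≤ r}) := by
      refine hF2c.comp (by fun_prop) ?_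
      rintro r ⟨hr1, hr2⟩
      have hr2' : 1 ≤ r := hr2
      exact ⟨by linarith [hr1.2], by linarith⟩
    refine ContinuousOn.if' ?_ ?_ ?_ ?_
    · rintro a ⟨ha1, ha2⟩
      have ha : a = 1 := by
        have h := frontier_le_subset_eq (f := fun r : ℝ => r) (g := fun _ : ℝ => (1:ℝ))
          continuous_id continuous_const ha2
        exact h
      subst ha
      rw [if_pos le_rfl]
      have h1 := (hF1c.comp (f := fun r : ℝ => r * t) (by fun_prop)).tendsto 1
      exact h1.mono_left nhdsWithin_le_nhds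
    · rintro a ⟨ha1, ha2⟩
      have ha : a = 1 := by
        have h := frontier_le_subset_eq (f := fun r : ℝ => r) (g := fun _ : ℝ => (1:ℝ))
          continuous_id continuous_const ha2
        exact h
      subst ha
      rw [if_pos le_rfl, one_mul]
      have h1 := (hcl2 1 ⟨⟨by norm_num, by norm_num⟩, le_refl (1:ℝ)⟩).tendsto
      simp only [sub_self, mul_zero, sub_zero, hF22] at h1
      refine h1.mono_left (nhdsWithin_mono _ ?_)
      rintro r ⟨hr1, hr2⟩
      exact ⟨hr1, (not_le.mp hr2).le⟩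
    · exact hcl1
    · exact hcl2.mono (fun r hr => ⟨hr.1, (not_le.mp hr.2).le⟩)
  · simp [hF10]
  · have h12 : ¬ (2:ℝ) ≤ 1 := by norm_num
    simp only [h12, if_false]
    have e : (2:ℝ) - 3 / 2 * (2 - 1) = 1 / 2 := by norm_num
    rw [e, hv]
    simp only [hF2, hF1]
    rw [Complex.sub_im, Fint_two]
  · rintro r ⟨hr0, hr2⟩
    by_cases hr : r ≤ 1
    · simp only [hr, if_true]
      rw [hP1 r hr0 hr]
      exact hF1z (r * t)
    · simp only [hr, if_false]
      push Not at hr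
      rw [hP2 r hr hr2]
      exact hF2z _ ⟨by linarith, by linarith⟩

end Pool.Agent.Helper79.SE
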