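import Pool.Agent.Helper79.Fin2

/-!
Local integrability of the iterated integrals, uniqueness of the continuous variation, and
uniqueness of the constants of integration.
-/

namespace Pool.Agent.Helper79.SE

open MeasureTheory Set Filter Topology

open scoped Real

theorem ord_null : ∀ᵐ t : ℝ, ¬ (0 < t ∧ riemannZeta ((1 / 2 : ℝ) + t * Complex.I) = 0) := by
  have hcount : {t : ℝ | 0 < t ∧ riemannZeta ((1 / 2 : ℝ) + t * Complex.I) = 0}.Countable := by
    have hsub : {t : ℝ | 0 < t ∧ riemannZeta ((1 / 2 : ℝ) + t * Complex.I) = 0} ⊆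
        {t : ℝ | 1 < t ∧ riemannZeta ((1 / 2 : ℝ) + t * Complex.I) = 0} ∪
        {t : ℝ | t ∈ Icc (0:ℝ) 1 ∧ riemannZeta ((1 / 2 : ℝ) + t * Complex.I) = 0} := by
      intro t ht
      rcases lt_or_ge 1 t with h | h
      · exact Or.inl ⟨h, ht.2⟩
      · exact Or.inr ⟨⟨ht.1.le, h⟩, ht.2⟩
    refine (ord_countable.union (Set.Finite.countable ?_)).mono hsub
    have hK : IsCompact (Icc (1 / 2 : ℝ) (1 / 2) ×ℂ Icc (0:ℝ) 1) :=
      isCompact_Icc.reProdIm isCompact_Icc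
    have hfin : {z : ℂ | z ∈ (Icc (1 / 2 : ℝ) (1 / 2) ×ℂ Icc (0:ℝ) 1) ∧
        riemannZeta z = 0}.Finite := by
      by_contra hinf
      have hinf' : {z : ℂ | z ∈ (Icc (1 / 2 : ℝ) (1 / 2) ×ℂ Icc (0:ℝ) 1) ∧
        riemannZeta z = 0}.Infinite := hinf
      obtain ⟨x, hx, hacc⟩ := hinf'.exists_accPt_of_subset_isCompact hK (fun z hz => hz.1)
      have hfreq : ∃ᶠ z in 𝓝[≠] x, riemannZeta z = 0 := by
        rw [accPt_iff_frequently_nhdsNE] at hacc
        exact hacc.mono fun z hz => hz.2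
      have hx1 : x ≠ 1 := by
        rintro rfl
        rw [Complex.mem_reProdIm] at hx
        have := hx.1.2
        simp at this
        norm_num at this
      have hz := AnalyticOnNhd.eqOn_zero_of_preconnected_of_frequently_eq_zero
        (f := riemannZeta) (U := {1}ᶜ) (fun s hs => zeta_analyticAt hs)
        (isConnected_compl_singleton_of_one_lt_rank (by simp) 1).isPreconnected hx1 hfreq
      have h2 : riemannZeta 2 = 0 := hz (by simp)
      exact riemannZeta_ne_zero_of_one_lt_re (s := 2) (by simp) h2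
    have himg : {t : ℝ | t ∈ Icc (0:ℝ) 1 ∧
        riemannZeta ((1 / 2 : ℝ) + t * Complex.I) = 0} ⊆ Complex.im ''
        {z : ℂ | z ∈ (Icc (1 / 2 : ℝ) (1 / 2) ×ℂ Icc (0:ℝ) 1) ∧ riemannZeta z = 0} := by
      intro t ht
      refine ⟨((1 / 2 : ℝ) + t * Complex.I), ⟨?_, ht.2⟩, by simp⟩
      rw [Complex.mem_reProdIm]
      simp only [Complex.add_re, Complex.ofReal_re, Complex.mul_re, Complex.I_re, mul_zero,
        Complex.ofReal_im, Complex.I_im, mul_one, sub_self, add_zero, Complex.add_im,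
        Complex.mul_im, zero_add]
      exact ⟨⟨le_rfl, le_rfl⟩, ht.1⟩
    exact (hfin.image _).subset himg
  exact compl_mem_ae_iff.mpr (hcount.measure_zero _)

theorem SA_ae_tendsto (hRH : RiemannHypothesis) (S : ℕ → ℝ → ℝ)
    (hS0 : ∀ t : ℝ, 0 < t → riemannZeta ((1 / 2 : ℝ) + t * Complex.I) ≠ 0 → S 0 t = 1 / π *
      ((∫ u in (0:ℝ)..t, Complex.I * ld (2 + u * Complex.I)) -
        ∫ x in (1 / 2 : ℝ)..2, ld ((x:ℂ) + t * Complex.I)).im)
    (hS : ∀ (n : ℕ) (t : ℝ), 0 < t → S (n + 1) t = (∫ τ in (0:ℝ)..t, S n τ) + SA0 n (1 / 2))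
    (m : ℕ) : ∀ᵐ t : ℝ, 0 < t → Tendsto (fun a => SA m a t) (𝓝[>] (1 / 2)) (𝓝 (S m t)) := by
  cases m with
  | zero =>
    filter_upwards [ord_null] with t ht ht0
    have hne : riemannZeta ((1 / 2 : ℝ) + t * Complex.I) ≠ 0 := fun h => ht ⟨ht0, h⟩
    rw [hS0 t ht0 hne]
    exact SA_zero_tendsto hRH ht0 hne
  | succ m => exact Eventually.of_forall fun t ht => (SA_ind hRH S hS0 hS m).2 t ht

theorem S_int (hRH : RiemannHypothesis) (S : ℕ → ℝ → ℝ)
    (hS0 : ∀ t : ℝ, 0 < t → riemannZeta ((1 / 2 : ℝ) + t * Complex.I) ≠ 0 → S 0 t = 1 / π *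
      ((∫ u in (0:ℝ)..t, Complex.I * ld (2 + u * Complex.I)) -
        ∫ x in (1 / 2 : ℝ)..2, ld ((x:ℂ) + t * Complex.I)).im)
    (hS : ∀ (n : ℕ) (t : ℝ), 0 < t → S (n + 1) t = (∫ τ in (0:ℝ)..t, S n τ) + SA0 n (1 / 2))
    (m : ℕ) {T : ℝ} (hT : 0 < T) : IntervalIntegrable (S m) volume 0 T := by
  obtain ⟨C, hC⟩ := (SA_ind hRH S hS0 hS m).1 T hT
  have hae := SA_ae_tendsto hRH S hS0 hS m
  rw [intervalIntegrable_iff_integrableOn_Ioc_of_le hT.le]
  have hseq : Tendsto (fun k : ℕ => (1 / 2 : ℝ) + 1 / ((k:ℝ) + 1)) atTop (𝓝[>] (1 / 2)) := by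
    refine tendsto_nhdsWithin_iff.mpr ⟨?_, Eventually.of_forall fun k => ?_⟩
    · have := (tendsto_one_div_add_atTop_nhds_zero_nat (𝕜 := ℝ)).const_add (1 / 2 : ℝ)
      rwa [add_zero] at this
    · have : (0:ℝ) < 1 / ((k:ℝ) + 1) := by positivity
      show (1 / 2 : ℝ) < 1 / 2 + 1 / ((k:ℝ) + 1)
      linarith
  have hpos : ∀ k : ℕ, (1 / 2 : ℝ) < 1 / 2 + 1 / ((k:ℝ) + 1) := by
    intro k
    have : (0:ℝ) < 1 / ((k:ℝ) + 1) := by positivity
    linarith
  have hlim : ∀ᵐ t ∂(volume.restrict (Ioc 0 T)),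
      Tendsto (fun k : ℕ => SA m (1 / 2 + 1 / ((k:ℝ) + 1)) t) atTop (𝓝 (S m t)) := by
    rw [ae_restrict_iff' measurableSet_Ioc]
    filter_upwards [hae] with t ht htT
    exact (ht htT.1).comp hseq
  have hmeas : AEStronglyMeasurable (S m) (volume.restrict (Ioc 0 T)) := by
    refine aestronglyMeasurable_of_tendsto_ae (u := atTop)
      (f := fun k : ℕ => fun t => SA m (1 / 2 + 1 / ((k:ℝ) + 1)) t) (fun k => ?_) hlim
    exact ((SA_cont hRH m (hpos k)).mono Ioc_subset_Ioi_self).aestronglyMeasurable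
      measurableSet_Ioc
  have hconst : IntegrableOn (fun _ : ℝ => C) (Ioc 0 T) volume :=
    integrableOn_const (by simp)
  refine Integrable.mono' hconst hmeas ?_
  rw [ae_restrict_iff' measurableSet_Ioc]
  filter_upwards [hae] with t ht htT
  refine le_of_tendsto (ht htT.1).norm ?_
  filter_upwards [hC] with a ha
  exact ha t htT.1 htT.2

/-- Two continuous arguments along a zero-free path agree. -/
theorem variation_unique {w : ℝ → ℂ} {θ₁ θ₂ : ℝ → ℝ} (hw : ∀ r ∈ Icc (0:ℝ) 2, w r ≠ 0)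
    (h1 : ContinuousOn θ₁ (Icc 0 2)) (h2 : ContinuousOn θ₂ (Icc 0 2)) (h10 : θ₁ 0 = 0)
    (h20 : θ₂ 0 = 0) (e1 : ∀ r ∈ Icc (0:ℝ) 2, w r = ‖w r‖ * Complex.exp (θ₁ r * Complex.I))
    (e2 : ∀ r ∈ Icc (0:ℝ) 2, w r = ‖w r‖ * Complex.exp (θ₂ r * Complex.I)) : θ₁ 2 = θ₂ 2 := by
  have hpi := Real.pi_pos
  -- the difference takes values in a discrete set
  have hdisc : ∀ r ∈ Icc (0:ℝ) 2, ∃ k : ℤ, θ₁ r - θ₂ r = k * (2 * π) := by
    intro r hr
    have hn : (‖w r‖ : ℂ) ≠ 0 := by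
      exact_mod_cast norm_ne_zero_iff.mpr (hw r hr)
    have h : Complex.exp (θ₁ r * Complex.I) = Complex.exp (θ₂ r * Complex.I) :=
      mul_left_cancel₀ hn ((e1 r hr).symm.trans (e2 r hr))
    rw [Complex.exp_eq_exp_iff_exists_int] at h
    obtain ⟨k, hk⟩ := h
    refine ⟨k, ?_⟩
    have hk2 : ((θ₁ r - θ₂ r : ℝ) : ℂ) * Complex.I = ((k * (2 * π) : ℝ) : ℂ) * Complex.I := by
      push_cast
      linear_combination hk
    have := mul_right_cancel₀ Complex.I_ne_zero hk2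
    exact_mod_cast this
  set g : ℝ → ℝ := fun r => (θ₁ r - θ₂ r) / (2 * π) with hg
  have hgc : ContinuousOn g (Icc 0 2) := (h1.sub h2).div_const _
  have hg0 : g 0 = 0 := by simp [hg, h10, h20]
  have hgk : ∀ r ∈ Icc (0:ℝ) 2, ∃ k : ℤ, g r = k := by
    intro r hr
    obtain ⟨k, hk⟩ := hdisc r hr
    refine ⟨k, ?_⟩
    simp only [hg]
    rw [hk]
    field_simp
  have hconn : IsPreconnected (g '' Icc (0:ℝ) 2) := isPreconnected_Icc.image g hgc
  have hord := hconn.ordConnected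
  have h2m : (2:ℝ) ∈ Icc (0:ℝ) 2 := ⟨by norm_num, le_rfl⟩
  have h0m : (0:ℝ) ∈ Icc (0:ℝ) 2 := ⟨le_rfl, by norm_num⟩
  obtain ⟨k, hk⟩ := hgk 2 h2m
  have hk0 : k = 0 := by
    by_contra hk0
    rcases lt_or_gt_of_ne hk0 with h | h
    · have hk1 : (k:ℝ) ≤ -1 := by exact_mod_cast (by omega : k ≤ -1)
      have hmem : (-(1/2) : ℝ) ∈ g '' Icc (0:ℝ) 2 := by
        refine hord.out (mem_image_of_mem g h2m) (mem_image_of_mem g h0m) ⟨?_, ?_⟩
        · rw [hk]; linarith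
        · rw [hg0]; norm_num
      obtain ⟨r, hr, hgr⟩ := hmem
      obtain ⟨j, hj⟩ := hgk r hr
      rw [hj] at hgr
      have : (2 * j : ℝ) = -1 := by linarith
      have : (2 * j : ℤ) = -1 := by exact_mod_cast this
      omega
    · have hk1 : (1:ℝ) ≤ k := by exact_mod_cast h
      have hmem : ((1/2) : ℝ) ∈ g '' Icc (0:ℝ) 2 := by
        refine hord.out (mem_image_of_mem g h0m) (mem_image_of_mem g h2m) ⟨?_, ?_⟩
        · rw [hg0]; norm_num
        · rw [hk]; linarith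
      obtain ⟨r, hr, hgr⟩ := hmem
      obtain ⟨j, hj⟩ := hgk r hr
      rw [hj] at hgr
      have : (2 * j : ℝ) = 1 := by linarith
      have : (2 * j : ℤ) = 1 := by exact_mod_cast this
      omega
  rw [hk0, Int.cast_zero] at hk
  simp only [hg] at hk
  rw [div_eq_zero_iff] at hk
  rcases hk with h | h
  · linarith
  · exfalso; linarith

/-- Only one choice of the constants gives mean value zero. -/
theorem const_unique (hRH : RiemannHypothesis) (S : (ℕ → ℝ) → ℕ → ℝ → ℝ) (d0 : ℕ → ℝ)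
    (hS0 : ∀ (d : ℕ → ℝ) (t : ℝ), 0 < t → riemannZeta ((1 / 2 : ℝ) + t * Complex.I) ≠ 0 →
      S d 0 t = 1 / π * ((∫ u in (0:ℝ)..t, Complex.I * ld (2 + u * Complex.I)) -
        ∫ x in (1 / 2 : ℝ)..2, ld ((x:ℂ) + t * Complex.I)).im)
    (hS0' : ∀ (d d' : ℕ → ℝ) (t : ℝ), S d 0 t = S d' 0 t)
    (hS : ∀ (d : ℕ → ℝ) (n : ℕ) (t : ℝ), S d (n + 1) t = (∫ τ in (0:ℝ)..t, S d n τ) + d (n + 1))
    (hd0 : ∀ n : ℕ, d0 (n + 1) = SA0 n (1 / 2)) (d : ℕ → ℝ) :
    (∀ n : ℕ, 1 ≤ n → Tendsto (fun T : ℝ => (∫ τ in (0:ℝ)..T, S d n τ) / T) atTop (𝓝 0)) ↔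
      ∀ n : ℕ, 1 ≤ n → d n = d0 n := by
  have hfun : ∀ (d : ℕ → ℝ) (n : ℕ), (∀ j : ℕ, 1 ≤ j → j ≤ n → d j = d0 j) →
      ∀ t : ℝ, S d n t = S d0 n t := by
    intro d n
    induction n with
    | zero => exact fun _ t => hS0' d d0 t
    | succ n ih =>
      intro hj t
      have h1 := ih (fun j hj1 hj2 => hj j hj1 (by omega))
      rw [hS, hS, hj (n + 1) (by omega) le_rfl]
      congr 1
      exact intervalIntegral.integral_congr fun τ _ => h1 τ
  have hS0d : ∀ (n : ℕ) (t : ℝ), 0 < t →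
      S d0 (n + 1) t = (∫ τ in (0:ℝ)..t, S d0 n τ) + SA0 n (1 / 2) := by
    intro n t _
    rw [hS, hd0]
  have hmean := S_mean hRH (S d0) (hS0 d0) hS0d
  constructor
  · intro h n
    induction n using Nat.strong_induction_on with
    | _ n ih =>
      intro hn
      obtain ⟨m, rfl⟩ : ∃ m, n = m + 1 := ⟨n - 1, by omega⟩
      have h1 := hfun d m (fun j hj1 hj2 => ih j (by omega) hj1)
      have h2 : ∀ t : ℝ, S d (m + 1) t = S d0 (m + 1) t + (d (m + 1) - d0 (m + 1)) := by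
        intro t
        rw [hS, hS]
        have : (∫ τ in (0:ℝ)..t, S d m τ) = ∫ τ in (0:ℝ)..t, S d0 m τ :=
          intervalIntegral.integral_congr fun τ _ => h1 τ
        rw [this]
        ring
      have h3 : Tendsto (fun T : ℝ => (∫ τ in (0:ℝ)..T, S d (m + 1) τ) / T) atTop
          (𝓝 (0 + (d (m + 1) - d0 (m + 1)))) := by
        refine ((hmean (m + 1)).add_const (d (m + 1) - d0 (m + 1))).congr' ?_
        filter_upwards [eventually_gt_atTop 0] with T hT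
        have h4 : (∫ τ in (0:ℝ)..T, S d (m + 1) τ) =
            (∫ τ in (0:ℝ)..T, S d0 (m + 1) τ) + T * (d (m + 1) - d0 (m + 1)) := by
          rw [intervalIntegral.integral_congr (g := fun τ => S d0 (m + 1) τ +
            (d (m + 1) - d0 (m + 1))) (fun τ _ => h2 τ)]
          rw [intervalIntegral.integral_add (S_int hRH (S d0) (hS0 d0) hS0d (m + 1) hT)
            intervalIntegrable_const, intervalIntegral.integral_const, sub_zero, smul_eq_mul]
        rw [h4]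
        field_simp
      have h5 := tendsto_nhds_unique (h (m + 1) hn) h3
      linarith
  · intro h n hn
    have h1 := hfun d n (fun j hj1 _ => h j hj1)
    have h2 : (fun T : ℝ => (∫ τ in (0:ℝ)..T, S d n τ) / T) =
        fun T : ℝ => (∫ τ in (0:ℝ)..T, S d0 n τ) / T := by
      funext T
      congr 1
      exact intervalIntegral.integral_congr fun τ _ => h1 τ
    rw [h2]
    exact hmean n

end Pool.Agent.Helper79.SE
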