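import Pool.Agent.Helper79.EM

/-!
The extremal functions for truncated powers.
-/

namespace Pool.Agent.Helper79.SE

open MeasureTheory Set Filter Topology

open scoped Real

/-- Polynomial correction. -/
noncomputable def PP (θ : ℝ) (n : ℕ) (z : ℂ) : ℂ :=
  ∑ m ∈ Finset.range n, (bernoulliFun m θ : ℂ) * z ^ (n - 1 - m)

/-- The corrected sum. -/
noncomputable def RR (θ : ℝ) (n : ℕ) (z : ℂ) : ℂ := z ^ n * TT θ z + PP θ n z

/-- The basic extremal function. -/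
noncomputable def Em (θ : ℝ) (n : ℕ) (z : ℂ) : ℂ :=
  Complex.sin (π * (z - θ)) ^ 2 / π ^ 2 * RR θ n z

/-- Error function of the periodic Bernoulli function. -/
noncomputable def bet (θ : ℝ) (N : ℕ) (u : ℝ) : ℝ := perB N (θ - u) - bernoulliFun N θ

theorem JJ_formula {θ : ℝ} (h0 : 0 < θ) (h1 : θ < 1) {z : ℂ} (hz : z.re ≤ 0) (hz0 : z ≠ 0)
    (N : ℕ) (hN : 1 ≤ N) :
    (-1) ^ (N + 1) * JJ θ N z =
      TT θ z + ∑ m ∈ Finset.range (N + 1), (bernoulliFun m θ : ℂ) / z ^ (m + 1) := by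
  induction N, hN using Nat.le_induction with
  | base =>
    rw [JJ_one h0 h1 hz hz0, Finset.sum_range_succ, Finset.sum_range_succ, Finset.sum_range_zero]
    simp only [bernoulliFun_zero]
    push_cast
    ring
  | succ N hN ih =>
    have h := JJ_rec θ hz hz0 hN
    rw [perB_of_mem h0.le h1] at h
    rw [Finset.sum_range_succ, ← add_assoc, ← ih]
    have h2 : JJ θ (N + 1) z = (bernoulliFun (N + 1) θ : ℂ) / (-z) ^ (N + 2) - JJ θ N z := by
      rw [← h]; ring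
    rw [h2, neg_pow z]
    have h3 : ((-1:ℂ) ^ (N + 2)) ≠ 0 := pow_ne_zero _ (by norm_num)
    have h4 : (z ^ (N + 2)) ≠ 0 := pow_ne_zero _ hz0
    have h5 : ((-1:ℂ) ^ (N + 1 + 1)) * ((bernoulliFun (N + 1) θ : ℂ) / ((-1) ^ (N + 2) *
        z ^ (N + 2))) = (bernoulliFun (N + 1) θ : ℂ) / z ^ (N + 1 + 1) := by
      field_simp
    rw [mul_sub, h5]
    ring

theorem RR_repr {θ : ℝ} (h0 : 0 < θ) (h1 : θ < 1) {z : ℂ} (hz : z.re ≤ 0) (hz0 : z ≠ 0)
    {n : ℕ} (hn : Even n) (hcrit : bernoulliFun n θ = 0) :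
    RR θ n z = z ^ n * (((n:ℂ) + 2) *
      ∫ u in Ioi (0:ℝ), (bet θ (n + 1) u : ℂ) / ((u:ℂ) - z) ^ (n + 3)) := by
  have hJ := JJ_formula h0 h1 hz hz0 (n + 1) (by omega)
  have hsign : ((-1:ℂ)) ^ (n + 1 + 1) = 1 := by
    have : Even (n + 1 + 1) := by
      rw [add_assoc]; exact hn.add (by decide)
    exact this.neg_one_pow
  rw [hsign, one_mul] at hJ
  rw [Finset.sum_range_succ, Finset.sum_range_succ, hcrit] at hJ
  obtain ⟨C, hC, hb⟩ := perB_bdd (n + 1)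
  have i1 := kernel_integrable hz hz0 (w := fun u => perB (n + 1) (θ - u))
    ((perB_measurable _).comp (measurable_const.sub measurable_id)) (fun u => hb _) (n + 1)
  have i2 := kernel_integrable hz hz0 (w := fun u => bernoulliFun (n + 1) θ)
    measurable_const (fun u => le_rfl) (n + 1)
  have hsub : ∫ u in Ioi (0:ℝ), (bet θ (n + 1) u : ℂ) / ((u:ℂ) - z) ^ (n + 3) =
      (∫ u in Ioi (0:ℝ), (perB (n + 1) (θ - u) : ℂ) / ((u:ℂ) - z) ^ (n + 1 + 2)) -
      ∫ u in Ioi (0:ℝ), (bernoulliFun (n + 1) θ : ℂ) / ((u:ℂ) - z) ^ (n + 1 + 2) := by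
    rw [← integral_sub i1 i2]
    refine setIntegral_congr_fun measurableSet_Ioi (fun u _ => ?_)
    unfold bet
    push_cast
    ring
  have hconst : ((n:ℂ) + 2) * ∫ u in Ioi (0:ℝ), (bernoulliFun (n + 1) θ : ℂ) /
      ((u:ℂ) - z) ^ (n + 1 + 2) = (bernoulliFun (n + 1) θ : ℂ) / z ^ (n + 2) := by
    have h := kernel_integral hz hz0 (c := 0) le_rfl (n + 1)
    have e : ((n + 1 : ℕ) : ℂ) + 1 = (n:ℂ) + 2 := by push_cast; ring
    rw [e] at h
    have e2 : ∫ u in Ioi (0:ℝ), (bernoulliFun (n + 1) θ : ℂ) / ((u:ℂ) - z) ^ (n + 1 + 2) =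
        (bernoulliFun (n + 1) θ : ℂ) * ∫ u in Ioi (0:ℝ), 1 / ((u:ℂ) - z) ^ (n + 1 + 2) := by
      rw [← integral_const_mul]
      refine setIntegral_congr_fun measurableSet_Ioi (fun u _ => ?_)
      simp only [mul_one_div]
    rw [e2, mul_left_comm, h, Complex.ofReal_zero, zero_sub, Even.neg_pow]
    · rw [mul_one_div]
    · exact (by rw [add_assoc]; exact hn.add (by decide) : Even (n + 1 + 1))
  have hJ2 : ((n:ℂ) + 2) * ∫ u in Ioi (0:ℝ), (perB (n + 1) (θ - u) : ℂ) /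
      ((u:ℂ) - z) ^ (n + 1 + 2) = JJ θ (n + 1) z := by
    unfold JJ
    have e : ((n + 1 : ℕ) : ℂ) + 1 = (n:ℂ) + 2 := by push_cast; ring
    rw [e]
  rw [hsub, mul_sub, hconst, hJ2, hJ]
  unfold RR PP
  have hsum : z ^ n * ∑ m ∈ Finset.range n, (bernoulliFun m θ : ℂ) / z ^ (m + 1) =
      ∑ m ∈ Finset.range n, (bernoulliFun m θ : ℂ) * z ^ (n - 1 - m) := by
    rw [Finset.mul_sum]
    refine Finset.sum_congr rfl fun m hm => ?_
    rw [Finset.mem_range] at hm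
    have e : z ^ n = z ^ (n - 1 - m) * z ^ (m + 1) := by
      rw [← pow_add]; congr 1; omega
    rw [e]
    have : z ^ (m + 1) ≠ 0 := pow_ne_zero _ hz0
    field_simp
  rw [← hsum]
  push_cast
  ring

theorem bern_lip (k : ℕ) : ∃ C : ℝ, 0 < C ∧ ∀ x ∈ Icc (0:ℝ) 1, ∀ y ∈ Icc (0:ℝ) 1,
    |bernoulliFun k x - bernoulliFun k y| ≤ C * |x - y| := by
  obtain ⟨C, hC, hb⟩ := bern_bdd (k - 1)
  refine ⟨k * C + 1, by positivity, fun x hx y hy => ?_⟩
  have h := (convex_Icc (0:ℝ) 1).norm_image_sub_le_of_norm_hasDerivWithin_le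
    (f := bernoulliFun k) (f' := fun x => k * bernoulliFun (k - 1) x) (C := k * C + 1)
    (fun x _ => (hasDerivAt_bernoulliFun k x).hasDerivWithinAt) ?_ hy hx
  · simpa using h
  · intro x hx
    rw [norm_mul, Real.norm_eq_abs, Real.norm_eq_abs, Nat.abs_cast]
    have := mul_le_mul_of_nonneg_left (hb x hx) (Nat.cast_nonneg (α := ℝ) k)
    linarith

theorem bern_quad {n : ℕ} {θ : ℝ} (hθ : θ ∈ Icc (0:ℝ) 1) (hcrit : bernoulliFun n θ = 0) :
    ∃ C : ℝ, 0 < C ∧ ∀ x ∈ Icc (0:ℝ) 1,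
      |bernoulliFun (n + 1) x - bernoulliFun (n + 1) θ| ≤ C * |x - θ| ^ 2 := by
  obtain ⟨C, hC, hl⟩ := bern_lip n
  refine ⟨(n + 1) * C, by positivity, fun x hx => ?_⟩
  have hsub : uIcc θ x ⊆ Icc (0:ℝ) 1 := uIcc_subset_Icc hθ hx
  have h := (convex_uIcc θ x).norm_image_sub_le_of_norm_hasDerivWithin_le
    (f := bernoulliFun (n + 1)) (f' := fun x => (n + 1 : ℕ) * bernoulliFun n x)
    (C := (n + 1) * C * |x - θ|)
    (fun x _ => (hasDerivAt_bernoulliFun (n + 1) x).hasDerivWithinAt) ?_ left_mem_uIcc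
    right_mem_uIcc
  · simp only [Real.norm_eq_abs] at h
    calc _ ≤ _ := h
      _ = _ := by ring
  · intro y hy
    rw [norm_mul, Real.norm_eq_abs, Real.norm_eq_abs, Nat.abs_cast]
    have h1 := hl y (hsub hy) θ hθ
    rw [hcrit, sub_zero] at h1
    have h2 : |y - θ| ≤ |x - θ| := abs_sub_left_of_mem_uIcc hy
    have h3 : |bernoulliFun n y| ≤ C * |x - θ| :=
      h1.trans (mul_le_mul_of_nonneg_left h2 hC.le)
    have h4 := mul_le_mul_of_nonneg_left h3 (by positivity : (0:ℝ) ≤ ((n + 1 : ℕ) : ℝ))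
    calc _ ≤ _ := h4
      _ = _ := by push_cast; ring

theorem bet_bound {n : ℕ} {θ : ℝ} (h0 : 0 < θ) (h1 : θ < 1) (hcrit : bernoulliFun n θ = 0) :
    ∃ K : ℝ, 0 < K ∧ ∀ u : ℝ, 0 ≤ u → |bet θ (n + 1) u| ≤ K ∧ |bet θ (n + 1) u| ≤ K * u ^ 2 := by
  obtain ⟨C1, hC1, hb1⟩ := perB_bdd (n + 1)
  obtain ⟨C2, hC2, hb2⟩ := bern_quad (⟨h0.le, h1.le⟩ : θ ∈ Icc (0:ℝ) 1) hcrit
  have hall : ∀ u, |bet θ (n + 1) u| ≤ 2 * C1 := by
    intro u
    unfold bet
    have h3 := hb1 (θ - u)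
    have h4 := hb1 θ
    rw [perB_of_mem h0.le h1] at h4
    calc _ ≤ |perB (n + 1) (θ - u)| + |bernoulliFun (n + 1) θ| := abs_sub _ _
      _ ≤ _ := by linarith
  refine ⟨2 * C1 + C2 + 2 * C1 / θ ^ 2, by positivity, fun u hu => ⟨?_, ?_⟩⟩
  · have : 0 ≤ 2 * C1 / θ ^ 2 := by positivity
    linarith [hall u]
  · rcases lt_or_ge u θ with h | h
    · have h5 : bet θ (n + 1) u = bernoulliFun (n + 1) (θ - u) - bernoulliFun (n + 1) θ := by
        unfold bet
        rw [perB_of_mem (by linarith) (by linarith)]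
      have h6 := hb2 (θ - u) ⟨by linarith, by linarith⟩
      rw [h5]
      have h7 : |θ - u - θ| ^ 2 = u ^ 2 := by rw [sq_abs]; ring
      rw [h7] at h6
      have h8 : 0 ≤ (2 * C1 + 2 * C1 / θ ^ 2) * u ^ 2 := by positivity
      nlinarith
    · have h9 : 2 * C1 ≤ 2 * C1 / θ ^ 2 * u ^ 2 := by
        have : 1 ≤ u ^ 2 / θ ^ 2 := by
          rw [one_le_div (by positivity)]
          exact pow_le_pow_left₀ h0.le h 2
        calc 2 * C1 = 2 * C1 * 1 := by ring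
          _ ≤ 2 * C1 * (u ^ 2 / θ ^ 2) := by gcongr
          _ = _ := by ring
      have h10 : 0 ≤ (2 * C1 + C2) * u ^ 2 := by positivity
      have h11 := hall u
      nlinarith

theorem bet_measurable (θ : ℝ) (N : ℕ) : Measurable (bet θ N) := by
  unfold bet
  exact ((perB_measurable _).comp (measurable_const.sub measurable_id)).sub measurable_const

theorem bet_bdd (θ : ℝ) (N : ℕ) : ∃ C : ℝ, ∀ u, |bet θ N u| ≤ C := by
  obtain ⟨C1, hC1, hb1⟩ := perB_bdd N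
  refine ⟨C1 + |bernoulliFun N θ|, fun u => ?_⟩
  unfold bet
  exact (abs_sub _ _).trans (by linarith [hb1 (θ - u)])

theorem RR_bound {n : ℕ} (hn : Even n) (hn2 : 2 ≤ n) {θ : ℝ} (h0 : 0 < θ) (h1 : θ < 1)
    (hcrit : bernoulliFun n θ = 0) :
    ∃ K : ℝ, 0 < K ∧ ∀ z : ℂ, z.re ≤ 0 → ‖RR θ n z‖ ≤ K / (1 + ‖z‖ ^ 2) := by
  obtain ⟨K, hK, hb⟩ := bet_bound h0 h1 hcrit
  have hnR : (2:ℝ) ≤ n := by exact_mod_cast hn2
  refine ⟨(n + 2) * 2 ^ (n + 3) * K + 2 ^ (n + 3) * K + |bernoulliFun (n - 1) θ|, by positivity,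
    fun z hz => ?_⟩
  rw [le_div_iff₀ (by positivity)]
  by_cases hz0 : z = 0
  · rw [hz0]
    have : RR θ n 0 = (bernoulliFun (n - 1) θ : ℂ) := by
      unfold RR PP
      rw [zero_pow (by omega), zero_mul, zero_add, Finset.sum_eq_single (n - 1)]
      · simp
      · intro m hm hne
        rw [Finset.mem_range] at hm
        rw [zero_pow (by omega), mul_zero]
      · intro h
        exact absurd (Finset.mem_range.mpr (by omega)) h
    rw [this, Complex.norm_real, Real.norm_eq_abs]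
    simp only [norm_zero]
    have : 0 ≤ (n + 2) * 2 ^ (n + 3) * K + 2 ^ (n + 3) * K := by positivity
    nlinarith [abs_nonneg (bernoulliFun (n - 1) θ)]
  · have hr : 0 < ‖z‖ := norm_pos_iff.mpr hz0
    rw [RR_repr h0 h1 hz hz0 hn hcrit]
    set r := ‖z‖ with hrdef
    have hint : IntegrableOn (fun u : ℝ => ‖(bet θ (n + 1) u : ℂ) / ((u:ℂ) - z) ^ (n + 3)‖)
        (Ioi 0) := by
      obtain ⟨C, hC⟩ := bet_bdd θ (n + 1)
      exact (kernel_integrable hz hz0 (bet_measurable θ (n + 1)) hC (n + 1)).norm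
    have hpt : ∀ u : ℝ, 0 < u → ‖(bet θ (n + 1) u : ℂ) / ((u:ℂ) - z) ^ (n + 3)‖ ≤
        |bet θ (n + 1) u| * (2 ^ (n + 3) * (1 / (u + r) ^ (n + 3))) := by
      intro u hu
      have h3 := kernel_bound hz hz0 hu.le (n + 3)
      have : ‖(bet θ (n + 1) u : ℂ) / ((u:ℂ) - z) ^ (n + 3)‖ =
          |bet θ (n + 1) u| * ‖1 / ((u:ℂ) - z) ^ (n + 3)‖ := by
        rw [norm_div, norm_div, norm_one, Complex.norm_real, Real.norm_eq_abs]
        ring
      rw [this]
      exact mul_le_mul_of_nonneg_left h3 (abs_nonneg _)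
    have hA : ‖∫ u in Ioi (0:ℝ), (bet θ (n + 1) u : ℂ) / ((u:ℂ) - z) ^ (n + 3)‖ ≤
        2 ^ (n + 3) * K * (1 / (((n + 1 : ℕ) + 1) * r ^ (n + 2))) := by
      obtain ⟨j1, j2⟩ := int_inv_pow (n + 1) hr
      refine (norm_integral_le_integral_norm _).trans ?_
      rw [← j2, ← integral_const_mul]
      refine setIntegral_mono_on hint (j1.const_mul _) measurableSet_Ioi (fun u hu => ?_)
      refine (hpt u hu).trans ?_
      have := (hb u (le_of_lt hu)).1
      have h6 : (0:ℝ) < u := hu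
      calc |bet θ (n + 1) u| * (2 ^ (n + 3) * (1 / (u + r) ^ (n + 3)))
          ≤ K * (2 ^ (n + 3) * (1 / (u + r) ^ (n + 3))) := by gcongr
        _ = _ := by ring
    have hB : ‖∫ u in Ioi (0:ℝ), (bet θ (n + 1) u : ℂ) / ((u:ℂ) - z) ^ (n + 3)‖ ≤
        2 ^ (n + 3) * K * (1 / (((n - 1 : ℕ) + 1) * r ^ n)) := by
      obtain ⟨j1, j2⟩ := int_inv_pow (n - 1) hr
      rw [show n - 1 + 1 = n by omega, show n - 1 + 2 = n + 1 by omega] at j2
      rw [show n - 1 + 2 = n + 1 by omega] at j1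
      refine (norm_integral_le_integral_norm _).trans ?_
      rw [← j2, ← integral_const_mul]
      refine setIntegral_mono_on hint (j1.const_mul _) measurableSet_Ioi (fun u hu => ?_)
      refine (hpt u hu).trans ?_
      have := (hb u (le_of_lt hu)).2
      have h6 : (0:ℝ) < u := hu
      have h7 : u ^ 2 * (1 / (u + r) ^ (n + 3)) ≤ 1 / (u + r) ^ (n + 1) := by
        rw [mul_one_div, div_le_div_iff₀ (by positivity) (by positivity), one_mul,
          show n + 3 = 2 + (n + 1) by omega, pow_add (u + r) 2]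
        gcongr
        linarith
      calc |bet θ (n + 1) u| * (2 ^ (n + 3) * (1 / (u + r) ^ (n + 3)))
          ≤ (K * u ^ 2) * (2 ^ (n + 3) * (1 / (u + r) ^ (n + 3))) := by gcongr
        _ = 2 ^ (n + 3) * K * (u ^ 2 * (1 / (u + r) ^ (n + 3))) := by ring
        _ ≤ _ := by gcongr
    rw [norm_mul, norm_mul, norm_pow, ← hrdef]
    have e3 : ‖((n:ℂ) + 2)‖ = n + 2 := by
      rw [show ((n:ℂ) + 2) = ((n + 2 : ℕ) : ℂ) by push_cast; ring, Complex.norm_natCast]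
      push_cast; ring
    rw [e3]
    have e4 : (((n - 1 : ℕ) : ℝ) + 1) = n := by
      rw [Nat.cast_sub (by omega)]; push_cast; ring
    rw [e4] at hB
    set Q := ‖∫ u in Ioi (0:ℝ), (bet θ (n + 1) u : ℂ) / ((u:ℂ) - z) ^ (n + 3)‖ with hQ
    have hB' : r ^ n * ((n + 2) * Q) ≤ (n + 2) * 2 ^ (n + 3) * K := by
      have h8 : r ^ n * Q ≤ 2 ^ (n + 3) * K := by
        calc r ^ n * Q ≤ r ^ n * (2 ^ (n + 3) * K * (1 / (n * r ^ n))) := by gcongr
          _ = 2 ^ (n + 3) * K * (1 / n) := by field_simp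
          _ ≤ 2 ^ (n + 3) * K * 1 := by
            gcongr
            rw [div_le_one (by linarith)]; linarith
          _ = _ := by ring
      calc r ^ n * ((n + 2) * Q) = (n + 2) * (r ^ n * Q) := by ring
        _ ≤ (n + 2) * (2 ^ (n + 3) * K) := by gcongr
        _ = _ := by ring
    have hA' : r ^ n * ((n + 2) * Q) * r ^ 2 ≤ 2 ^ (n + 3) * K := by
      calc r ^ n * ((n + 2) * Q) * r ^ 2 ≤
          r ^ n * ((n + 2) * (2 ^ (n + 3) * K * (1 / (((n + 1 : ℕ) + 1) * r ^ (n + 2))))) *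
            r ^ 2 := by gcongr
        _ = _ := by
          push_cast
          field_simp
          ring
    have h9 : 0 ≤ |bernoulliFun (n - 1) θ| := abs_nonneg _
    nlinarith

end Pool.Agent.Helper79.SE
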