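import Pool.Agent.Helper79.Maj

/-!
Analyticity, functional identity and positivity of the extremal functions.
-/

namespace Pool.Agent.Helper79.SE

open MeasureTheory Set Filter Topology

open scoped Real

theorem TT_differentiableOn {θ : ℝ} (h0 : 0 < θ) (h1 : θ < 1) :
    DifferentiableOn ℂ (TT θ) {z : ℂ | z.re < θ / 2} := by
  have hopen : IsOpen {z : ℂ | z.re < θ / 2} := isOpen_lt Complex.continuous_re continuous_const
  have hre : ∀ (k : ℕ) (z : ℂ), z.re < θ / 2 → (k:ℝ) + θ / 2 ≤ ‖(k:ℂ) + θ - z‖ := by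
    intro k z hz
    refine le_trans ?_ (Complex.re_le_norm _)
    simp
    linarith
  have hne : ∀ (k : ℕ) (z : ℂ), z.re < θ / 2 → (k:ℂ) + θ - z ≠ 0 := by
    intro k z hz h
    have := hre k z hz
    rw [h, norm_zero] at this
    have : (0:ℝ) ≤ k := Nat.cast_nonneg k
    linarith
  unfold TT
  refine Complex.differentiableOn_tsum_of_summable_norm
    (summable_shift (θ := θ / 2) (by linarith) (by linarith)) ?_ hopen ?_
  · intro k
    refine DifferentiableOn.div (by fun_prop) (by fun_prop) (fun z hz => pow_ne_zero _ (hne k z hz))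
  · intro k z hz
    rw [norm_div, norm_one, norm_pow]
    refine one_div_le_one_div_of_le (by positivity) ?_
    exact pow_le_pow_left₀ (by positivity) (hre k z hz) 2

theorem PP_differentiable (θ : ℝ) (n : ℕ) : Differentiable ℂ (PP θ n) := by
  unfold PP
  fun_prop

theorem Em_differentiableOn {θ : ℝ} (h0 : 0 < θ) (h1 : θ < 1) (n : ℕ) :
    DifferentiableOn ℂ (Em θ n) {z : ℂ | z.re < θ / 2} := by
  unfold Em RR
  refine DifferentiableOn.mul (by fun_prop) ?_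
  refine DifferentiableOn.add ?_ (PP_differentiable θ n).differentiableOn
  exact DifferentiableOn.mul (by fun_prop) (TT_differentiableOn h0 h1)

theorem norm_sin_le (w : ℂ) : ‖Complex.sin w‖ ≤ Real.exp |w.im| := by
  rw [Complex.sin, norm_div, norm_mul, Complex.norm_I, mul_one, Complex.norm_two]
  have h1 : ‖Complex.exp (-w * Complex.I) - Complex.exp (w * Complex.I)‖ ≤
      Real.exp |w.im| + Real.exp |w.im| := by
    refine (norm_sub_le _ _).trans ?_
    rw [Complex.norm_exp, Complex.norm_exp]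
    have e1 : (-w * Complex.I).re = w.im := by simp
    have e2 : (w * Complex.I).re = -w.im := by simp
    rw [e1, e2]
    exact add_le_add (Real.exp_le_exp.mpr (le_abs_self _)) (Real.exp_le_exp.mpr (neg_le_abs _))
  linarith

theorem norm_sin_sq_le (θ : ℝ) (z : ℂ) :
    ‖Complex.sin (π * (z - θ)) ^ 2 / π ^ 2‖ ≤ Real.exp (2 * π * |z.im|) := by
  rw [norm_div, norm_pow]
  have h1 := norm_sin_le (π * (z - θ))
  have e1 : ((π:ℂ) * (z - θ)).im = π * z.im := by simp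
  rw [e1, abs_mul, abs_of_pos Real.pi_pos] at h1
  have h2 : ‖Complex.sin (π * (z - θ))‖ ^ 2 ≤ Real.exp (2 * π * |z.im|) := by
    calc _ ≤ (Real.exp (π * |z.im|)) ^ 2 := pow_le_pow_left₀ (norm_nonneg _) h1 2
      _ = _ := by rw [← Real.exp_nat_mul]; congr 1; push_cast; ring
  have h3 : (1:ℝ) ≤ ‖(π:ℂ) ^ 2‖ := by
    rw [norm_pow, Complex.norm_real, Real.norm_eq_abs, abs_of_pos Real.pi_pos]
    exact one_le_pow₀ (by linarith [Real.pi_gt_three])
  rw [div_le_iff₀ (by linarith)]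
  nlinarith [Real.exp_pos (2 * π * |z.im|)]

theorem Em_bound {n : ℕ} (hn : Even n) (hn2 : 2 ≤ n) {θ : ℝ} (h0 : 0 < θ) (h1 : θ < 1)
    (hcrit : bernoulliFun n θ = 0) :
    ∃ K : ℝ, 0 < K ∧ ∀ z : ℂ, z.re ≤ 0 →
      ‖Em θ n z‖ ≤ K * Real.exp (2 * π * |z.im|) / (1 + ‖z‖ ^ 2) := by
  obtain ⟨K, hK, hb⟩ := RR_bound hn hn2 h0 h1 hcrit
  refine ⟨K, hK, fun z hz => ?_⟩
  unfold Em
  rw [norm_mul]
  calc _ ≤ Real.exp (2 * π * |z.im|) * (K / (1 + ‖z‖ ^ 2)) :=
        mul_le_mul (norm_sin_sq_le θ z) (hb z hz) (norm_nonneg _) (Real.exp_pos _).le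
    _ = _ := by ring

/-- The real integral occurring in the representation. -/
theorem RR_real {n : ℕ} (hn : Even n) {θ : ℝ} (h0 : 0 < θ) (h1 : θ < 1)
    (hcrit : bernoulliFun n θ = 0) {x : ℝ} (hx : x < 0) :
    RR θ n x = ((x ^ n * ((n + 2) * ∫ u in Ioi (0:ℝ), bet θ (n + 1) u / (u - x) ^ (n + 3)) : ℝ) :
      ℂ) := by
  have hz : (x:ℂ).re ≤ 0 := by simpa using hx.le
  have hz0 : (x:ℂ) ≠ 0 := by exact_mod_cast hx.ne
  rw [RR_repr h0 h1 hz hz0 hn hcrit]
  push_cast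
  congr 2
  rw [← integral_complex_ofReal]
  refine setIntegral_congr_fun measurableSet_Ioi (fun u _ => ?_)
  push_cast
  ring

theorem Em_real {n : ℕ} (hn : Even n) {θ : ℝ} (h0 : 0 < θ) (h1 : θ < 1)
    (hcrit : bernoulliFun n θ = 0) {x : ℝ} (hx : x < 0) :
    Em θ n x = ((Real.sin (π * (x - θ)) ^ 2 / π ^ 2 *
      (x ^ n * ((n + 2) * ∫ u in Ioi (0:ℝ), bet θ (n + 1) u / (u - x) ^ (n + 3))) : ℝ) : ℂ) := by
  unfold Em
  rw [RR_real hn h0 h1 hcrit hx]
  push_cast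
  ring

theorem Em_nonneg {n : ℕ} (hn : Even n) {θ : ℝ} (h0 : 0 < θ) (h1 : θ < 1)
    (hcrit : bernoulliFun n θ = 0) (hbet : ∀ u, 0 ≤ bet θ (n + 1) u) {x : ℝ} (hx : x < 0) :
    (Em θ n x).im = 0 ∧ 0 ≤ (Em θ n x).re := by
  rw [Em_real hn h0 h1 hcrit hx]
  refine ⟨Complex.ofReal_im _, ?_⟩
  rw [Complex.ofReal_re]
  have h3 : 0 ≤ x ^ n := hn.pow_nonneg x
  have h4 : 0 ≤ ∫ u in Ioi (0:ℝ), bet θ (n + 1) u / (u - x) ^ (n + 3) := by
    refine setIntegral_nonneg measurableSet_Ioi (fun u hu => ?_)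
    have : (0:ℝ) < u := hu
    exact div_nonneg (hbet u) (pow_nonneg (by linarith) _)
  positivity

theorem Em_nonpos {n : ℕ} (hn : Even n) {θ : ℝ} (h0 : 0 < θ) (h1 : θ < 1)
    (hcrit : bernoulliFun n θ = 0) (hbet : ∀ u, bet θ (n + 1) u ≤ 0) {x : ℝ} (hx : x < 0) :
    (Em θ n x).im = 0 ∧ (Em θ n x).re ≤ 0 := by
  rw [Em_real hn h0 h1 hcrit hx]
  refine ⟨Complex.ofReal_im _, ?_⟩
  rw [Complex.ofReal_re]
  have h3 : 0 ≤ x ^ n := hn.pow_nonneg x
  have h4 : ∫ u in Ioi (0:ℝ), bet θ (n + 1) u / (u - x) ^ (n + 3) ≤ 0 := by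
    refine setIntegral_nonpos measurableSet_Ioi (fun u hu => ?_)
    have : (0:ℝ) < u := hu
    exact div_nonpos_of_nonpos_of_nonneg (hbet u) (pow_nonneg (by linarith) _)
  have h5 : x ^ n * ((n + 2) * ∫ u in Ioi (0:ℝ), bet θ (n + 1) u / (u - x) ^ (n + 3)) ≤ 0 :=
    mul_nonpos_of_nonneg_of_nonpos h3 (mul_nonpos_of_nonneg_of_nonpos (by positivity) h4)
  exact mul_nonpos_of_nonneg_of_nonpos (by positivity) h5

/-- The two-sided Mittag-Leffler sum in the upper half plane. -/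
theorem mittag_upper {w : ℂ} (hw : 0 < w.im) :
    ∑' m : ℤ, 1 / (w + m) ^ 2 = π ^ 2 / Complex.sin (π * w) ^ 2 := by
  have hz : w ∈ UpperHalfPlane.upperHalfPlaneSet := hw
  have h := iteratedDerivWithin_cot_pi_mul_eq_mul_tsum_div_pow (k := 1) le_rfl hz
  rw [iteratedDerivWithin_one, derivWithin_of_isOpen UpperHalfPlane.isOpen_upperHalfPlaneSet hz]
    at h
  have hsin : Complex.sin (π * w) ≠ 0 :=
    sin_pi_mul_ne_zero (UpperHalfPlane.coe_mem_integerComplement ⟨w, hz⟩)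
  have hd : HasDerivAt (fun x : ℂ => π * Complex.cot (π * x))
      (π * ((-Complex.sin (π * w) * π) * Complex.sin (π * w) -
        Complex.cos (π * w) * (Complex.cos (π * w) * π)) / Complex.sin (π * w) ^ 2) w := by
    have h1 : HasDerivAt (fun x : ℂ => (π:ℂ) * x) π w := by
      simpa using (hasDerivAt_id w).const_mul (π:ℂ)
    have h2 := h1.csin
    have h3 := h1.ccos
    have h4 := (h3.fun_div h2 hsin).const_mul (π:ℂ)
    rw [mul_div_assoc]
    exact h4
  rw [hd.deriv] at h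
  have h5 : -(π:ℂ) ^ 2 / Complex.sin (π * w) ^ 2 = -∑' m : ℤ, 1 / (w + m) ^ 2 := by
    have h6 := Complex.sin_sq_add_cos_sq (π * w)
    have h7 : (π * ((-Complex.sin (π * w) * π) * Complex.sin (π * w) -
        Complex.cos (π * w) * (Complex.cos (π * w) * π)) / Complex.sin (π * w) ^ 2) =
        -(π:ℂ) ^ 2 / Complex.sin (π * w) ^ 2 := by
      congr 1
      linear_combination (-(π:ℂ) ^ 2) * h6
    rw [← h7, h]
    simp
  rw [neg_div] at h5
  exact (neg_injective h5).symm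

end Pool.Agent.Helper79.SE
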