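import Pool.Agent.Helper79.Maj2

/-!
The functional identity of the extremal functions, and rotation of contours in quadrants.
-/

namespace Pool.Agent.Helper79.SE

open MeasureTheory Set Filter Topology

open scoped Real

theorem TT_summable {θ : ℝ} (h0 : 0 < θ) (h1 : θ < 1) {z : ℂ} (hz : z.re < θ / 2) :
    Summable (fun k : ℕ => 1 / ((k:ℂ) + θ - z) ^ 2) := by
  refine Summable.of_norm_bounded (summable_shift (θ := θ / 2) (by linarith) (by linarith))
    (fun k => ?_)
  have h2 : (k:ℝ) + θ / 2 ≤ ‖(k:ℂ) + θ - z‖ := by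
    refine le_trans ?_ (Complex.re_le_norm _)
    simp
    linarith
  rw [norm_div, norm_one, norm_pow]
  refine one_div_le_one_div_of_le (by positivity) ?_
  exact pow_le_pow_left₀ (by positivity) h2 2

theorem TT_add {θ : ℝ} (h0 : 0 < θ) (h1 : θ < 1) {z : ℂ} (hz : z.re < θ / 2)
    (hz' : -((1 - θ) / 2) < z.re) (him : 0 < z.im) :
    TT θ z + TT (1 - θ) (-z) = π ^ 2 / Complex.sin (π * (z - θ)) ^ 2 := by
  have hw : 0 < (z - θ).im := by simpa using him
  rw [← mittag_upper hw]
  have s1 := TT_summable h0 h1 hz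
  have s2 := TT_summable (θ := 1 - θ) (by linarith) (by linarith) (z := -z)
    (by simp only [Complex.neg_re]; linarith)
  have hs := HasSum.of_nat_of_neg_add_one (f := fun m : ℤ => 1 / ((z - θ) - m) ^ 2)
    (m := TT θ z) (m' := TT (1 - θ) (-z)) ?_ ?_
  · rw [← hs.tsum_eq, ← (Equiv.neg ℤ).tsum_eq]
    refine tsum_congr fun m => ?_
    simp only [Equiv.neg_apply]
    push_cast
    ring_nf
  · have := s1.hasSum
    unfold TT
    convert! this using 2 with k
    simp only [Int.cast_natCast]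
    ring
  · have := s2.hasSum
    unfold TT
    convert! this using 2 with k
    push_cast
    ring

theorem PP_neg {n : ℕ} (hn : Even n) (θ : ℝ) (z : ℂ) : PP (1 - θ) n (-z) = -PP θ n z := by
  unfold PP
  rw [← Finset.sum_neg_distrib]
  refine Finset.sum_congr rfl fun m hm => ?_
  rw [Finset.mem_range] at hm
  rw [bernoulliFun_eval_one_sub, neg_pow z]
  push_cast
  have h : ((-1:ℂ)) ^ m * (-1) ^ (n - 1 - m) = -1 := by
    rw [← pow_add, show m + (n - 1 - m) = n - 1 by omega]
    have : Odd (n - 1) := by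
      obtain ⟨k, hk⟩ := hn
      exact ⟨k - 1, by omega⟩
    exact this.neg_one_pow
  linear_combination ((bernoulliFun m θ : ℂ) * z ^ (n - 1 - m)) * h

theorem Em_add_upper {n : ℕ} (hn : Even n) {θ : ℝ} (h0 : 0 < θ) (h1 : θ < 1) {z : ℂ}
    (hz : z.re < θ / 2) (hz' : -((1 - θ) / 2) < z.re) (him : 0 < z.im) :
    Em θ n z + Em (1 - θ) n (-z) = z ^ n := by
  have hw : 0 < (z - θ).im := by simpa using him
  have hsin : Complex.sin (π * (z - θ)) ≠ 0 :=
    sin_pi_mul_ne_zero (UpperHalfPlane.coe_mem_integerComplement ⟨z - θ, hw⟩)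
  have hT := TT_add h0 h1 hz hz' him
  have hs : Complex.sin (π * (-z - ((1 - θ : ℝ) : ℂ))) = Complex.sin (π * (z - θ)) := by
    have e : (π:ℂ) * (-z - ((1 - θ : ℝ) : ℂ)) = -(π * (z - θ)) - π := by push_cast; ring
    rw [e, Complex.sin_sub_pi, Complex.sin_neg, neg_neg]
  unfold Em RR
  rw [hs, PP_neg hn, hn.neg_pow]
  have hpi : (π:ℂ) ≠ 0 := by exact_mod_cast Real.pi_ne_zero
  have e2 : Complex.sin (π * (z - θ)) ^ 2 / π ^ 2 * (z ^ n * TT θ z + PP θ n z) +
      Complex.sin (π * (z - θ)) ^ 2 / π ^ 2 * (z ^ n * TT (1 - θ) (-z) + -PP θ n z) =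
      Complex.sin (π * (z - θ)) ^ 2 / π ^ 2 * z ^ n * (TT θ z + TT (1 - θ) (-z)) := by ring
  rw [e2, hT]
  field_simp

theorem Em_add {n : ℕ} (hn : Even n) {θ : ℝ} (h0 : 0 < θ) (h1 : θ < 1) {z : ℂ}
    (hz : z.re < θ / 2) (hz' : -((1 - θ) / 2) < z.re) :
    Em θ n z + Em (1 - θ) n (-z) = z ^ n := by
  set U : Set ℂ := {z : ℂ | z.re < θ / 2} ∩ {z : ℂ | -((1 - θ) / 2) < z.re} with hU
  have hUo : IsOpen U := (isOpen_lt Complex.continuous_re continuous_const).inter
    (isOpen_lt continuous_const Complex.continuous_re)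
  have hUc : Convex ℝ U := (convex_halfSpace_re_lt _).inter (convex_halfSpace_re_gt _)
  have hd1 : DifferentiableOn ℂ (Em θ n) U := (Em_differentiableOn h0 h1 n).mono inter_subset_left
  have hd2 : DifferentiableOn ℂ (fun z => Em (1 - θ) n (-z)) U := by
    refine (Em_differentiableOn (θ := 1 - θ) (by linarith) (by linarith) n).comp
      (differentiable_neg.differentiableOn) ?_
    intro z hz
    have h2 : -((1 - θ) / 2) < z.re := hz.2
    show (-z).re < (1 - θ) / 2
    simp only [Complex.neg_re]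
    linarith
  have hF : DifferentiableOn ℂ (fun z => Em θ n z + Em (1 - θ) n (-z) - z ^ n) U :=
    (hd1.add hd2).sub (by fun_prop)
  have hA : AnalyticOnNhd ℂ (fun z => Em θ n z + Em (1 - θ) n (-z) - z ^ n) U :=
    hF.analyticOnNhd hUo
  have hI : Complex.I ∈ U := by
    constructor
    · show Complex.I.re < θ / 2
      simp only [Complex.I_re]; linarith
    · show -((1 - θ) / 2) < Complex.I.re
      simp only [Complex.I_re]; linarith
  have hev : (fun z => Em θ n z + Em (1 - θ) n (-z) - z ^ n) =ᶠ[𝓝 Complex.I] 0 := by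
    have hV : U ∩ {z : ℂ | 0 < z.im} ∈ 𝓝 Complex.I := by
      refine (hUo.inter (isOpen_lt continuous_const Complex.continuous_im)).mem_nhds ⟨hI, ?_⟩
      show 0 < Complex.I.im
      simp
    filter_upwards [hV] with w hw
    have := Em_add_upper hn h0 h1 (z := w) hw.1.1 hw.1.2 hw.2
    simp only [Pi.zero_apply]
    rw [this, sub_self]
  have := hA.eqOn_zero_of_preconnected_of_eventuallyEq_zero hUc.isPreconnected hI hev
    (⟨hz, hz'⟩ : z ∈ U)
  simpa [sub_eq_zero] using this

/-- Bounded-by-Cauchy-kernel functions are integrable. -/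
theorem integrable_of_cauchy {φ : ℝ → ℂ} {s : Set ℝ} (hs : MeasurableSet s)
    (hc : ContinuousOn φ s) {C : ℝ} (hb : ∀ x ∈ s, ‖φ x‖ ≤ C / (1 + x ^ 2)) :
    IntegrableOn φ s := by
  have h1 : IntegrableOn (fun x : ℝ => C * (1 + x ^ 2)⁻¹) s :=
    (integrable_inv_one_add_sq.const_mul C).integrableOn
  refine Integrable.mono' h1 (hc.aestronglyMeasurable hs) ?_
  rw [ae_restrict_iff' hs]
  exact Eventually.of_forall fun x hx => (hb x hx).trans (by rw [div_eq_mul_inv])

theorem side_tendsto (C : ℝ) : Tendsto (fun R : ℝ => C / (1 + R ^ 2) * |0 - (-R)|) atTop (𝓝 0) := by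
  have h1 : Tendsto (fun R : ℝ => |C| / R) atTop (𝓝 0) := tendsto_const_nhds.div_atTop tendsto_id
  refine squeeze_zero_norm' ?_ h1
  filter_upwards [eventually_gt_atTop 0] with R hR
  rw [norm_mul, norm_div, Real.norm_eq_abs, Real.norm_eq_abs, Real.norm_eq_abs, abs_abs]
  rw [abs_of_pos (by positivity : (0:ℝ) < 1 + R ^ 2), zero_sub, neg_neg, abs_of_pos hR]
  rw [div_mul_eq_mul_div, div_le_div_iff₀ (by positivity) hR]
  nlinarith [abs_nonneg C, sq_nonneg R]

/-- Rotation of a contour in the lower left quadrant. -/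
theorem rot_lower {F : ℂ → ℂ} {δ : ℝ} (hδ : 0 < δ) (hF : DifferentiableOn ℂ F {z | z.re < δ})
    {C : ℝ} (hb : ∀ z : ℂ, z.re ≤ 0 → z.im ≤ 0 → ‖F z‖ ≤ C / (1 + ‖z‖ ^ 2)) :
    ∫ x in Iic (0:ℝ), F x = Complex.I * ∫ y in Iic (0:ℝ), F (y * Complex.I) := by
  have hcF : ContinuousOn F {z | z.re < δ} := hF.continuousOn
  have hC0 : 0 ≤ C := by
    have := (norm_nonneg _).trans (hb 0 (by simp) (by simp))
    simpa using this
  have i1 : IntegrableOn (fun x : ℝ => F x) (Iic 0) := by
    refine integrable_of_cauchy measurableSet_Iic ?_ (C := C) (fun x hx => ?_)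
    · refine hcF.comp Complex.continuous_ofReal.continuousOn (fun x hx => ?_)
      have : x ≤ 0 := hx
      show (x:ℂ).re < δ
      simp only [Complex.ofReal_re]; linarith
    · have := hb x (by simpa using hx) (by simp)
      rwa [Complex.norm_real, Real.norm_eq_abs, sq_abs] at this
  have i2 : IntegrableOn (fun y : ℝ => F (y * Complex.I)) (Iic 0) := by
    refine integrable_of_cauchy measurableSet_Iic ?_ (C := C) (fun x hx => ?_)
    · refine hcF.comp (by fun_prop) (fun x hx => ?_)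
      show ((x:ℂ) * Complex.I).re < δ
      simpa using hδ
    · have := hb (x * Complex.I) (by simp) (by simpa using hx)
      rwa [norm_mul, Complex.norm_I, mul_one, Complex.norm_real, Real.norm_eq_abs, sq_abs] at this
  have hbtop : Tendsto (fun R : ℝ => -R) atTop atBot := tendsto_neg_atTop_atBot
  have t1 : Tendsto (fun R : ℝ => ∫ x in (-R)..0, F x) atTop (𝓝 (∫ x in Iic (0:ℝ), F x)) :=
    intervalIntegral_tendsto_integral_Iic 0 i1 hbtop
  have t2 : Tendsto (fun R : ℝ => ∫ y in (-R)..0, F (y * Complex.I)) atTop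
      (𝓝 (∫ y in Iic (0:ℝ), F (y * Complex.I))) :=
    intervalIntegral_tendsto_integral_Iic 0 i2 hbtop
  have t3 : Tendsto (fun R : ℝ => ∫ x in (-R)..0, F (x + (-R : ℝ) * Complex.I)) atTop (𝓝 0) := by
    refine squeeze_zero_norm' ?_ (side_tendsto C)
    filter_upwards [eventually_gt_atTop 0] with R hR
    refine intervalIntegral.norm_integral_le_of_norm_le_const (fun x hx => ?_)
    rw [uIoc_of_le (by linarith)] at hx
    have := hb (x + (-R : ℝ) * Complex.I) (by simpa using hx.2) (by simpa using hR.le)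
    refine this.trans (div_le_div_of_nonneg_left hC0 (by positivity) ?_)
    have h5 : ‖(x:ℂ) + (-R : ℝ) * Complex.I‖ ^ 2 = x ^ 2 + R ^ 2 := by
      rw [Complex.sq_norm, Complex.normSq_apply]; simp; ring
    rw [h5]; nlinarith [sq_nonneg x]
  have t4 : Tendsto (fun R : ℝ => ∫ y in (-R)..0, F ((-R : ℝ) + y * Complex.I)) atTop (𝓝 0) := by
    refine squeeze_zero_norm' ?_ (side_tendsto C)
    filter_upwards [eventually_gt_atTop 0] with R hR
    refine intervalIntegral.norm_integral_le_of_norm_le_const (fun x hx => ?_)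
    rw [uIoc_of_le (by linarith)] at hx
    have := hb ((-R : ℝ) + x * Complex.I) (by simpa using hR.le) (by simpa using hx.2)
    refine this.trans (div_le_div_of_nonneg_left hC0 (by positivity) ?_)
    have h5 : ‖((-R : ℝ) : ℂ) + x * Complex.I‖ ^ 2 = x ^ 2 + R ^ 2 := by
      rw [Complex.sq_norm, Complex.normSq_apply]; simp; ring
    rw [h5]; nlinarith [sq_nonneg x]
  have heq : ∀ᶠ R : ℝ in atTop, (∫ x in (-R)..0, F (x + (-R : ℝ) * Complex.I)) -
      (∫ x in (-R)..0, F x) + Complex.I * (∫ y in (-R)..0, F (y * Complex.I)) -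
      Complex.I * (∫ y in (-R)..0, F ((-R : ℝ) + y * Complex.I)) = 0 := by
    filter_upwards [eventually_gt_atTop 0] with R hR
    have h := Complex.integral_boundary_rect_eq_zero_of_differentiableOn F
      (((-R : ℝ) : ℂ) + (-R : ℝ) * Complex.I) 0 (hF.mono ?_)
    · simp only [Complex.add_re, Complex.ofReal_re, Complex.mul_re, Complex.I_re, mul_zero,
        Complex.ofReal_im, Complex.I_im, mul_one, sub_self, add_zero, Complex.zero_re,
        Complex.add_im, Complex.mul_im, zero_add, Complex.zero_im, Complex.ofReal_zero,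
        zero_mul, smul_eq_mul] at h
      exact h
    · intro z hz
      rw [Complex.mem_reProdIm] at hz
      have h1 := hz.1
      simp only [Complex.add_re, Complex.ofReal_re, Complex.mul_re, Complex.I_re, mul_zero,
        Complex.ofReal_im, Complex.I_im, mul_one, sub_self, add_zero, Complex.zero_re] at h1
      rw [uIcc_of_le (by linarith)] at h1
      show z.re < δ
      linarith [h1.2]
  have hlim := (((t3.sub t1).add (t2.const_mul Complex.I)).sub (t4.const_mul Complex.I))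
  have h0 := tendsto_nhds_unique (hlim.congr' heq) tendsto_const_nhds
  simp only [mul_zero, sub_zero, zero_sub] at h0
  linear_combination -h0

/-- Rotation of a contour in the upper left quadrant. -/
theorem rot_upper {F : ℂ → ℂ} {δ : ℝ} (hδ : 0 < δ) (hF : DifferentiableOn ℂ F {z | z.re < δ})
    {C : ℝ} (hb : ∀ z : ℂ, z.re ≤ 0 → 0 ≤ z.im → ‖F z‖ ≤ C / (1 + ‖z‖ ^ 2)) :
    ∫ x in Iic (0:ℝ), F x = -Complex.I * ∫ y in Iic (0:ℝ), F (-(y * Complex.I)) := by
  have hopen : IsOpen {z : ℂ | z.re < δ} := isOpen_lt Complex.continuous_re continuous_const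
  have hG := rot_lower (F := (starRingEnd ℂ) ∘ F ∘ (starRingEnd ℂ)) hδ ?_ (C := C) ?_
  · simp only [Function.comp_apply, Complex.conj_ofReal] at hG
    have e1 : ∫ x in Iic (0:ℝ), (starRingEnd ℂ) (F x) = (starRingEnd ℂ) (∫ x in Iic (0:ℝ), F x) :=
      integral_conj
    have e2 : ∫ y in Iic (0:ℝ), (starRingEnd ℂ) (F ((starRingEnd ℂ) (y * Complex.I))) =
        (starRingEnd ℂ) (∫ y in Iic (0:ℝ), F ((starRingEnd ℂ) (y * Complex.I))) :=
      integral_conj
    rw [e1, e2] at hG
    have h2 := congrArg (starRingEnd ℂ) hG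
    rw [Complex.conj_conj, map_mul, Complex.conj_conj, Complex.conj_I] at h2
    rw [h2]
    congr 2
    funext y
    congr 1
    rw [map_mul, Complex.conj_ofReal, Complex.conj_I, mul_neg]
  · intro z hz
    have hz' : (starRingEnd ℂ) z ∈ {z : ℂ | z.re < δ} := by
      show ((starRingEnd ℂ) z).re < δ
      rw [Complex.conj_re]; exact hz
    have h1 := ((hF.differentiableAt (hopen.mem_nhds hz')).conj_conj)
    rw [Complex.conj_conj] at h1
    exact h1.differentiableWithinAt
  · intro z hz1 hz2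
    have h1 := hb ((starRingEnd ℂ) z) (by rwa [Complex.conj_re])
      (by rw [Complex.conj_im]; linarith)
    simpa [Function.comp_apply] using h1

/-- The pair of functions on the left half plane used for majorants and minorants. -/
structure IsPair (n : ℕ) (c I₀ : ℝ) (p q : ℂ → ℂ) : Prop where
  diff : ∃ δ : ℝ, 0 < δ ∧ DifferentiableOn ℂ p {z | z.re < δ} ∧ DifferentiableOn ℂ q {z | z.re < δ}
  bound : ∃ K : ℝ, 0 < K ∧ ∀ z : ℂ, z.re ≤ 0 →
    ‖p z‖ ≤ K * Real.exp (2 * π * |z.im|) / (1 + ‖z‖ ^ 2) ∧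
    ‖q z‖ ≤ K * Real.exp (2 * π * |z.im|) / (1 + ‖z‖ ^ 2)
  jump : ∀ z : ℂ, z.re = 0 → p z - q (-z) = c * z ^ n
  real : ∀ x : ℝ, x < 0 → (p x).im = 0 ∧ 0 ≤ (p x).re ∧ (q x).im = 0 ∧ 0 ≤ (q x).re
  mass : (∫ x in Iic (0:ℝ), (p x).re) + (∫ x in Iic (0:ℝ), (q x).re) = I₀

theorem laplace_pow (n : ℕ) {r : ℝ} (hr : 0 < r) :
    ∫ y in Iic (0:ℝ), (y:ℂ) ^ n * Complex.exp (r * y) = (-1) ^ n * (n.factorial : ℂ) / r ^ (n + 1) := by
  have h1 := Real.integral_rpow_mul_exp_neg_mul_Ioi (a := n + 1) (r := r) (by positivity) hr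
  have e : ∫ y in Iic (0:ℝ), (y:ℂ) ^ n * Complex.exp (r * y) =
      ∫ y in Ioi (0:ℝ), ((-y : ℝ):ℂ) ^ n * Complex.exp (r * ((-y : ℝ) : ℂ)) := by
    have := integral_comp_neg_Ioi (0:ℝ) (fun y : ℝ => (y:ℂ) ^ n * Complex.exp (r * y))
    rw [neg_zero] at this
    exact this.symm
  rw [e]
  have e2 : ∫ y in Ioi (0:ℝ), ((-y : ℝ):ℂ) ^ n * Complex.exp (r * ((-y : ℝ) : ℂ)) =
      ∫ y in Ioi (0:ℝ), (((-1) ^ n * (y ^ ((n:ℝ) + 1 - 1) * Real.exp (-(r * y))) : ℝ) : ℂ) := by
    refine setIntegral_congr_fun measurableSet_Ioi (fun y hy => ?_)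
    have hy' : (0:ℝ) < y := hy
    rw [show (n:ℝ) + 1 - 1 = n by ring, Real.rpow_natCast]
    push_cast
    rw [neg_pow (y:ℂ), mul_neg]
    ring
  rw [e2, integral_complex_ofReal, integral_const_mul, h1, Real.Gamma_nat_eq_factorial]
  rw [show ((n:ℝ) + 1) = ((n + 1 : ℕ) : ℝ) by push_cast; ring, Real.rpow_natCast]
  push_cast
  rw [one_div, inv_pow]
  ring

end Pool.Agent.Helper79.SE
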