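import Pool.Agent.Helper79.Maj3

/-!
The total mass of the extremal functions, via Poisson summation.
-/

namespace Pool.Agent.Helper79.SE

open MeasureTheory Set Filter Topology

open scoped Real FourierTransform

theorem twist_lower {p : ℂ → ℂ} {K : ℝ} {z : ℂ} {ξ : ℝ} (hξ : 1 ≤ ξ)
    (hb : ‖p z‖ ≤ K * Real.exp (2 * π * |z.im|) / (1 + ‖z‖ ^ 2)) (hi : z.im ≤ 0) (hK : 0 < K) :
    ‖p z * Complex.exp (-(2 * π * ξ) * Complex.I * z)‖ ≤ K / (1 + ‖z‖ ^ 2) := by
  rw [norm_mul, Complex.norm_exp]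
  have e1 : (-(2 * (π:ℂ) * ξ) * Complex.I * z).re = 2 * π * ξ * z.im := by
    simp [Complex.mul_re, Complex.mul_im]
  rw [e1]
  have h1 : Real.exp (2 * π * |z.im|) * Real.exp (2 * π * ξ * z.im) ≤ 1 := by
    rw [← Real.exp_add]
    refine Real.exp_le_one_iff.mpr ?_
    rw [abs_of_nonpos hi]
    nlinarith [Real.pi_pos, mul_nonneg (mul_nonneg Real.pi_pos.le (sub_nonneg.mpr hξ))
      (neg_nonneg.mpr hi)]
  calc _ ≤ (K * Real.exp (2 * π * |z.im|) / (1 + ‖z‖ ^ 2)) * Real.exp (2 * π * ξ * z.im) :=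
        mul_le_mul_of_nonneg_right hb (Real.exp_pos _).le
    _ = K / (1 + ‖z‖ ^ 2) * (Real.exp (2 * π * |z.im|) * Real.exp (2 * π * ξ * z.im)) := by ring
    _ ≤ K / (1 + ‖z‖ ^ 2) * 1 := by gcongr
    _ = _ := by ring

theorem twist_upper {p : ℂ → ℂ} {K : ℝ} {z : ℂ} {ξ : ℝ} (hξ : 1 ≤ ξ)
    (hb : ‖p z‖ ≤ K * Real.exp (2 * π * |z.im|) / (1 + ‖z‖ ^ 2)) (hi : 0 ≤ z.im) (hK : 0 < K) :
    ‖p z * Complex.exp ((2 * π * ξ) * Complex.I * z)‖ ≤ K / (1 + ‖z‖ ^ 2) := by
  rw [norm_mul, Complex.norm_exp]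
  have e1 : ((2 * (π:ℂ) * ξ) * Complex.I * z).re = -(2 * π * ξ * z.im) := by
    simp [Complex.mul_re, Complex.mul_im]
  rw [e1]
  have h1 : Real.exp (2 * π * |z.im|) * Real.exp (-(2 * π * ξ * z.im)) ≤ 1 := by
    rw [← Real.exp_add]
    refine Real.exp_le_one_iff.mpr ?_
    rw [abs_of_nonneg hi]
    nlinarith [Real.pi_pos, mul_nonneg (mul_nonneg Real.pi_pos.le (sub_nonneg.mpr hξ)) hi]
  calc _ ≤ (K * Real.exp (2 * π * |z.im|) / (1 + ‖z‖ ^ 2)) * Real.exp (-(2 * π * ξ * z.im)) :=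
        mul_le_mul_of_nonneg_right hb (Real.exp_pos _).le
    _ = K / (1 + ‖z‖ ^ 2) * (Real.exp (2 * π * |z.im|) * Real.exp (-(2 * π * ξ * z.im))) := by ring
    _ ≤ K / (1 + ‖z‖ ^ 2) * 1 := by gcongr
    _ = _ := by ring

/-- The key transform computation for a pair with jump `z^n`. -/
theorem pair_transform {n : ℕ} {p q : ℂ → ℂ} {δ K : ℝ} (hδ : 0 < δ) (hK : 0 < K)
    (hp : DifferentiableOn ℂ p {z | z.re < δ}) (hq : DifferentiableOn ℂ q {z | z.re < δ})
    (hbp : ∀ z : ℂ, z.re ≤ 0 → ‖p z‖ ≤ K * Real.exp (2 * π * |z.im|) / (1 + ‖z‖ ^ 2))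
    (hbq : ∀ z : ℂ, z.re ≤ 0 → ‖q z‖ ≤ K * Real.exp (2 * π * |z.im|) / (1 + ‖z‖ ^ 2))
    (hj : ∀ z : ℂ, z.re = 0 → p z - q (-z) = z ^ n) {ξ : ℝ} (hξ : 1 ≤ ξ) :
    (∫ x in Iic (0:ℝ), p x * Complex.exp (-(2 * π * ξ) * Complex.I * x)) +
      (∫ x in Iic (0:ℝ), q x * Complex.exp ((2 * π * ξ) * Complex.I * x)) =
      -(n.factorial : ℂ) / (2 * π * Complex.I * ξ) ^ (n + 1) := by
  have r1 := rot_lower (F := fun z => p z * Complex.exp (-(2 * π * ξ) * Complex.I * z)) hδ
    (hp.mul (by fun_prop)) (C := K)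
    (fun z hz hi => twist_lower hξ (hbp z hz) hi hK)
  have r2 := rot_upper (F := fun z => q z * Complex.exp ((2 * π * ξ) * Complex.I * z)) hδ
    (hq.mul (by fun_prop)) (C := K)
    (fun z hz hi => twist_upper hξ (hbq z hz) hi hK)
  rw [r1, r2]
  have i1 : IntegrableOn (fun y : ℝ => p (y * Complex.I) *
      Complex.exp (-(2 * π * ξ) * Complex.I * (y * Complex.I))) (Iic 0) := by
    refine integrable_of_cauchy measurableSet_Iic ?_ (C := K) (fun x hx => ?_)
    · refine ContinuousOn.mul (hp.continuousOn.comp (by fun_prop) (fun x hx => ?_)) (by fun_prop)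
      show ((x:ℂ) * Complex.I).re < δ
      simpa using hδ
    · have := twist_lower hξ (hbp (x * Complex.I) (by simp)) (by simpa using hx) hK
      rwa [norm_mul (x:ℂ), Complex.norm_I, mul_one, Complex.norm_real, Real.norm_eq_abs,
        sq_abs] at this
  have i2 : IntegrableOn (fun y : ℝ => q (-(y * Complex.I)) *
      Complex.exp ((2 * π * ξ) * Complex.I * (-(y * Complex.I)))) (Iic 0) := by
    refine integrable_of_cauchy measurableSet_Iic ?_ (C := K) (fun x hx => ?_)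
    · refine ContinuousOn.mul (hq.continuousOn.comp (by fun_prop) (fun x hx => ?_)) (by fun_prop)
      show (-((x:ℂ) * Complex.I)).re < δ
      simpa using hδ
    · have := twist_upper hξ (hbq (-(x * Complex.I)) (by simp)) (by simpa using hx) hK
      rwa [norm_neg (((x:ℂ) * Complex.I)), norm_mul (x:ℂ), Complex.norm_I, mul_one,
        Complex.norm_real, Real.norm_eq_abs, sq_abs] at this
  have hdiff : (∫ y in Iic (0:ℝ), p (y * Complex.I) *
      Complex.exp (-(2 * π * ξ) * Complex.I * (y * Complex.I))) -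
      (∫ y in Iic (0:ℝ), q (-(y * Complex.I)) *
      Complex.exp ((2 * π * ξ) * Complex.I * (-(y * Complex.I)))) =
      Complex.I ^ n * ((-1) ^ n * (n.factorial : ℂ) / ((2 * π * ξ : ℝ) : ℂ) ^ (n + 1)) := by
    rw [← laplace_pow n (r := 2 * π * ξ) (by positivity), ← integral_const_mul,
      ← integral_sub i1 i2]
    refine setIntegral_congr_fun measurableSet_Iic (fun y _ => ?_)
    have e1 : (-(2 * (π:ℂ) * ξ) * Complex.I * (y * Complex.I)) = ((2 * π * ξ : ℝ) : ℂ) * y := by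
      push_cast
      linear_combination (-(2 * (π:ℂ) * ξ) * y) * Complex.I_mul_I
    have e2 : ((2 * (π:ℂ) * ξ) * Complex.I * (-(y * Complex.I))) = ((2 * π * ξ : ℝ) : ℂ) * y := by
      push_cast
      linear_combination (-(2 * (π:ℂ) * ξ) * y) * Complex.I_mul_I
    rw [e1, e2, ← sub_mul, hj _ (by simp), mul_pow]
    ring
  have h3 : Complex.I * (∫ y in Iic (0:ℝ), p (y * Complex.I) *
      Complex.exp (-(2 * π * ξ) * Complex.I * (y * Complex.I))) + -Complex.I *
      (∫ y in Iic (0:ℝ), q (-(y * Complex.I)) *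
      Complex.exp ((2 * π * ξ) * Complex.I * (-(y * Complex.I)))) =
      Complex.I * (Complex.I ^ n * ((-1) ^ n * (n.factorial : ℂ) /
        ((2 * π * ξ : ℝ) : ℂ) ^ (n + 1))) := by
    rw [← hdiff]; ring
  rw [h3]
  have hξ0 : (ξ:ℂ) ≠ 0 := by
    have : ξ ≠ 0 := by linarith
    exact_mod_cast this
  have hpi : (π:ℂ) ≠ 0 := by exact_mod_cast Real.pi_ne_zero
  have hI2 : Complex.I ^ (n + 1) * Complex.I ^ (n + 1) = (-1) ^ (n + 1) := by
    rw [← mul_pow, Complex.I_mul_I]
  have e5 : (2 * (π:ℂ) * Complex.I * ξ) ^ (n + 1) =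
      Complex.I ^ (n + 1) * ((2 * π * ξ : ℝ) : ℂ) ^ (n + 1) := by
    rw [← mul_pow]; congr 1; push_cast; ring
  rw [e5]
  have hne : ((2 * π * ξ : ℝ) : ℂ) ^ (n + 1) ≠ 0 := by
    refine pow_ne_zero _ ?_
    have : (2 * π * ξ) ≠ 0 := by positivity
    exact_mod_cast this
  have hIne : Complex.I ^ (n + 1) ≠ 0 := pow_ne_zero _ Complex.I_ne_zero
  rw [eq_div_iff (mul_ne_zero hIne hne)]
  have e6 : Complex.I * (Complex.I ^ n * ((-1) ^ n * (n.factorial : ℂ) /
        ((2 * π * ξ : ℝ) : ℂ) ^ (n + 1))) *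
      (Complex.I ^ (n + 1) * ((2 * π * ξ : ℝ) : ℂ) ^ (n + 1)) =
      (Complex.I ^ (n + 1) * Complex.I ^ (n + 1)) * ((-1) ^ n * (n.factorial : ℂ)) := by
    field_simp
    ring
  rw [e6, hI2]
  have e7 : ((-1:ℂ)) ^ (n + 1) * (-1) ^ n = -1 := by
    rw [← pow_add, show n + 1 + n = 2 * n + 1 by ring]
    rw [pow_succ, pow_mul]; simp
  linear_combination (n.factorial : ℂ) * e7

/-- The glued function on the real line. -/
noncomputable def glue (p q : ℂ → ℂ) (x : ℝ) : ℂ :=
  p ((min x 0 : ℝ) : ℂ) + q ((min (-x) 0 : ℝ) : ℂ) - p 0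

theorem glue_left {p q : ℂ → ℂ} (h0 : p 0 = q 0) {x : ℝ} (hx : x ≤ 0) : glue p q x = p x := by
  unfold glue
  rw [min_eq_left hx, min_eq_right (by linarith : (0:ℝ) ≤ -x), Complex.ofReal_zero, ← h0]
  ring

theorem glue_right {p q : ℂ → ℂ} {x : ℝ} (hx : 0 ≤ x) :
    glue p q x = q ((-x : ℝ) : ℂ) := by
  unfold glue
  rw [min_eq_right hx, min_eq_left (by linarith : -x ≤ (0:ℝ)), Complex.ofReal_zero]
  ring

/-- Mass of the glued function. -/
theorem mass_formula {n : ℕ} (hn2 : 2 ≤ n) {p q : ℂ → ℂ} {δ K θ : ℝ} (hδ : 0 < δ)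
    (hK : 0 < K) (hθ0 : 0 < θ) (hθ1 : θ < 1)
    (hp : DifferentiableOn ℂ p {z | z.re < δ}) (hq : DifferentiableOn ℂ q {z | z.re < δ})
    (hbp : ∀ z : ℂ, z.re ≤ 0 → ‖p z‖ ≤ K * Real.exp (2 * π * |z.im|) / (1 + ‖z‖ ^ 2))
    (hbq : ∀ z : ℂ, z.re ≤ 0 → ‖q z‖ ≤ K * Real.exp (2 * π * |z.im|) / (1 + ‖z‖ ^ 2))
    (hj : ∀ z : ℂ, z.re = 0 → p z - q (-z) = z ^ n)
    (hr : ∀ x : ℝ, x ≤ 0 → (p x).im = 0 ∧ (q x).im = 0)
    (hzp : ∀ k : ℤ, θ + k ≤ 0 → p ((θ + k : ℝ) : ℂ) = 0)
    (hzq : ∀ k : ℤ, 0 ≤ θ + k → q ((-(θ + k) : ℝ) : ℂ) = 0) :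
    (∫ x in Iic (0:ℝ), p x) + (∫ x in Iic (0:ℝ), q x) =
      -((bernoulliFun (n + 1) θ : ℝ) : ℂ) / (n + 1) := by
  have h00 : p 0 = q 0 := by
    have := hj 0 (by simp)
    rw [neg_zero, zero_pow (by omega)] at this
    exact sub_eq_zero.mp this
  have hcp : ContinuousOn (fun x : ℝ => p x) (Iic 0) := by
    refine hp.continuousOn.comp Complex.continuous_ofReal.continuousOn (fun x hx => ?_)
    have : x ≤ 0 := hx
    show (x:ℂ).re < δ
    simp only [Complex.ofReal_re]; linarith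
  have hcq : ContinuousOn (fun x : ℝ => q x) (Iic 0) := by
    refine hq.continuousOn.comp Complex.continuous_ofReal.continuousOn (fun x hx => ?_)
    have : x ≤ 0 := hx
    show (x:ℂ).re < δ
    simp only [Complex.ofReal_re]; linarith
  have hcg : Continuous (glue p q) := by
    have c1 : Continuous (fun x : ℝ => p ((min x 0 : ℝ) : ℂ)) :=
      hcp.comp_continuous (continuous_id.min continuous_const)
        (fun x => (min_le_right x 0 : min x 0 ≤ 0))
    have c2 : Continuous (fun x : ℝ => q ((min (-x) 0 : ℝ) : ℂ)) :=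
      hcq.comp_continuous (continuous_neg.min continuous_const)
        (fun x => (min_le_right (-x) 0 : min (-x) 0 ≤ 0))
    exact (c1.add c2).sub continuous_const
  have hbp' : ∀ x : ℝ, x ≤ 0 → ‖p x‖ ≤ K / (1 + x ^ 2) := by
    intro x hx
    have := hbp x (by simpa using hx)
    rwa [Complex.ofReal_im, abs_zero, mul_zero, Real.exp_zero, mul_one, Complex.norm_real,
      Real.norm_eq_abs, sq_abs] at this
  have hbq' : ∀ x : ℝ, x ≤ 0 → ‖q x‖ ≤ K / (1 + x ^ 2) := by
    intro x hx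
    have := hbq x (by simpa using hx)
    rwa [Complex.ofReal_im, abs_zero, mul_zero, Real.exp_zero, mul_one, Complex.norm_real,
      Real.norm_eq_abs, sq_abs] at this
  have hbg : ∀ x : ℝ, ‖glue p q x‖ ≤ K / (1 + x ^ 2) := by
    intro x
    rcases le_total x 0 with h | h
    · rw [glue_left h00 h]; exact hbp' x h
    · rw [glue_right h]
      have := hbq' (-x) (by linarith)
      rwa [neg_sq] at this
  have hgi : Integrable (glue p q) := by
    have := integrable_of_cauchy MeasurableSet.univ hcg.continuousOn (C := K) (fun x _ => hbg x)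
    rwa [integrableOn_univ] at this
  have hreal : ∀ x : ℝ, (starRingEnd ℂ) (glue p q x) = glue p q x := by
    intro x
    rcases le_total x 0 with h | h
    · rw [glue_left h00 h]; exact Complex.conj_eq_iff_im.mpr (hr x h).1
    · rw [glue_right h]; exact Complex.conj_eq_iff_im.mpr (hr (-x) (by linarith)).2
  -- splitting of the transform
  have hsplit : ∀ ξ : ℝ, 𝓕 (glue p q) ξ =
      (∫ x in Iic (0:ℝ), p x * Complex.exp (-(2 * π * ξ) * Complex.I * x)) +
      (∫ x in Iic (0:ℝ), q x * Complex.exp ((2 * π * ξ) * Complex.I * x)) := by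
    intro ξ
    rw [Real.fourier_real_eq_integral_exp_smul]
    have hi : Integrable (fun v : ℝ => Complex.exp (↑(-2 * π * v * ξ) * Complex.I) •
        glue p q v) := by
      refine hgi.norm.mono' ?_ ?_
      · have hc2 : Continuous (fun v : ℝ => Complex.exp (↑(-2 * π * v * ξ) * Complex.I) •
            glue p q v) := by
          have hc3 : Continuous (fun v : ℝ => Complex.exp (↑(-2 * π * v * ξ) * Complex.I)) := by
            fun_prop
          exact hc3.smul hcg
        exact hc2.aestronglyMeasurable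
      · refine Eventually.of_forall fun v => ?_
        rw [norm_smul, Complex.norm_exp_ofReal_mul_I, one_mul]
    rw [← intervalIntegral.integral_Iic_add_Ioi (b := 0) hi.integrableOn hi.integrableOn]
    congr 1
    · refine setIntegral_congr_fun measurableSet_Iic (fun x hx => ?_)
      have hx' : x ≤ 0 := hx
      rw [glue_left h00 hx', smul_eq_mul, mul_comm]
      congr 2
      push_cast
      ring
    · have := integral_comp_neg_Iic (0:ℝ) (fun v : ℝ =>
        Complex.exp (↑(-2 * π * v * ξ) * Complex.I) • glue p q v)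
      rw [neg_zero] at this
      rw [← this]
      refine setIntegral_congr_fun measurableSet_Iic (fun x hx => ?_)
      have hx' : x ≤ 0 := hx
      rw [glue_right (by linarith : 0 ≤ -x), smul_eq_mul, mul_comm, neg_neg]
      congr 2
      push_cast
      ring
  have hpos : ∀ ξ : ℝ, 1 ≤ ξ → 𝓕 (glue p q) ξ =
      -(n.factorial : ℂ) / (2 * π * Complex.I * ξ) ^ (n + 1) := by
    intro ξ hξ
    rw [hsplit ξ]
    exact pair_transform hδ hK hp hq hbp hbq hj hξ
  have hneg : ∀ ξ : ℝ, 𝓕 (glue p q) (-ξ) = (starRingEnd ℂ) (𝓕 (glue p q) ξ) := by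
    intro ξ
    rw [Real.fourier_real_eq_integral_exp_smul, Real.fourier_real_eq_integral_exp_smul, ← integral_conj]
    refine integral_congr_ae (Eventually.of_forall fun v => ?_)
    beta_reduce
    rw [smul_eq_mul, smul_eq_mul, map_mul, hreal, ← Complex.exp_conj, map_mul,
      Complex.conj_ofReal, Complex.conj_I]
    congr 2
    push_cast
    ring
  have hall : ∀ m : ℤ, m ≠ 0 → 𝓕 (glue p q) (m:ℝ) =
      -(n.factorial : ℂ) / (2 * π * Complex.I * m) ^ (n + 1) := by
    intro m hm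
    rcases lt_or_gt_of_ne hm with h | h
    · have h1 : (1:ℝ) ≤ ((-m : ℤ) : ℝ) := by
        exact_mod_cast (by omega : (1:ℤ) ≤ -m)
      have h2 := hneg ((-m : ℤ) : ℝ)
      rw [hpos _ h1] at h2
      have h3 : (-(((-m : ℤ)) : ℝ)) = (m : ℝ) := by push_cast; ring
      rw [h3] at h2
      rw [h2, map_div₀, map_neg, map_pow, map_mul, map_mul, map_mul, Complex.conj_I,
        Complex.conj_ofReal, Complex.conj_ofReal, Complex.conj_natCast]
      have h4 : (starRingEnd ℂ) 2 = 2 := Complex.conj_ofNat 2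
      rw [h4]
      congr 2
      push_cast
      ring
    · have h1 : (1:ℝ) ≤ (m : ℝ) := by exact_mod_cast (by omega : (1:ℤ) ≤ m)
      have := hpos _ h1
      push_cast at this ⊢
      exact this
  -- the Poisson side
  have hB := hasSum_one_div_pow_mul_fourier_mul_bernoulliFun (k := n + 1) (by omega)
    (x := θ) ⟨hθ0.le, hθ1.le⟩
  set A : ℂ := -(n.factorial : ℂ) / (2 * π * Complex.I) ^ (n + 1) with hA
  have hterm : ∀ m : ℤ, 𝓕 (glue p q) (m:ℝ) * fourier m (θ : UnitAddCircle) =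
      A * (1 / (m:ℂ) ^ (n + 1) * fourier m (θ : UnitAddCircle)) +
        (if m = 0 then 𝓕 (glue p q) ((0:ℤ):ℝ) else 0) := by
    intro m
    by_cases hm : m = 0
    · subst hm
      simp
    · rw [hall m hm, if_neg hm, add_zero, hA, mul_pow _ (m:ℂ)]
      ring
  have hnorm : ∀ m : ℤ, ‖(fourier m (θ : UnitAddCircle) : ℂ)‖ = 1 := by
    intro m
    rw [fourier_apply]
    exact Circle.norm_coe _
  have hsumF : HasSum (fun m : ℤ => 𝓕 (glue p q) (m:ℝ) * fourier m (θ : UnitAddCircle))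
      (A * (-(2 * π * Complex.I) ^ (n + 1) / ((n + 1).factorial : ℂ) *
        bernoulliFun (n + 1) θ) + 𝓕 (glue p q) ((0:ℤ):ℝ)) := by
    simp_rw [hterm]
    refine (hB.mul_left A).add ?_
    exact hasSum_ite_eq 0 _
  have hsummable : Summable (fun m : ℤ => 𝓕 (glue p q) (m:ℝ)) := by
    have := hsumF.summable.norm
    refine Summable.of_norm ?_
    refine this.congr (fun m => ?_)
    rw [norm_mul, hnorm, mul_one]
  have hO : (glue p q) =O[cocompact ℝ] fun x : ℝ => |x| ^ (-(2:ℝ)) := by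
    refine Asymptotics.IsBigO.of_bound K ?_
    filter_upwards [(Metric.isBounded_iff_subset_closedBall (0:ℝ)).mpr ⟨1, subset_rfl⟩ |>.isCompact_closure.compl_mem_cocompact]
      with x hx
    have hx0 : x ≠ 0 := by
      rintro rfl
      exact hx (subset_closure (by simp))
    refine (hbg x).trans ?_
    rw [Real.norm_of_nonneg (by positivity), Real.rpow_neg (abs_nonneg _),
      show (2:ℝ) = ((2:ℕ):ℝ) by norm_num, Real.rpow_natCast, sq_abs, ← div_eq_mul_inv]
    refine div_le_div_of_nonneg_left hK.le (by positivity) ?_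
    linarith
  have hPoisson := Real.tsum_eq_tsum_fourier_of_rpow_decay_of_summable hcg (b := 2)
    (by norm_num) hO hsummable θ
  have hzero : ∑' m : ℤ, glue p q (θ + m) = 0 := by
    rw [← tsum_zero (α := ℂ) (β := ℤ)]
    refine tsum_congr fun m => ?_
    rcases le_total (θ + m) 0 with h | h
    · rw [glue_left h00 h]; exact hzp m h
    · rw [glue_right h]; exact hzq m h
  rw [hzero, hsumF.tsum_eq] at hPoisson
  have h0 := hsplit ((0:ℤ):ℝ)
  rw [Int.cast_zero] at h0 hPoisson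
  rw [h0] at hPoisson
  simp only [Complex.ofReal_zero, mul_zero, neg_zero, zero_mul, Complex.exp_zero, mul_one]
    at hPoisson
  have hpi : (2 * (π:ℂ) * Complex.I) ^ (n + 1) ≠ 0 := by
    refine pow_ne_zero _ ?_
    have : (π:ℂ) ≠ 0 := by exact_mod_cast Real.pi_ne_zero
    simp [this]
  have hAe : A * (-(2 * π * Complex.I) ^ (n + 1) / ((n + 1).factorial : ℂ) *
        bernoulliFun (n + 1) θ) = (bernoulliFun (n + 1) θ : ℂ) / (n + 1) := by
    rw [hA, Nat.factorial_succ]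
    have h1 : (n.factorial : ℂ) ≠ 0 := by exact_mod_cast n.factorial_ne_zero
    have h2 : ((n:ℂ) + 1) ≠ 0 := by exact_mod_cast Nat.succ_ne_zero n
    push_cast
    field_simp
  rw [hAe] at hPoisson
  rw [neg_div]
  linear_combination -hPoisson

end Pool.Agent.Helper79.SE
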