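import Mathlib
import Pool.Graph.R_seed8.H382P.LocExp

/-!
Bounds for the logarithmic derivative of the zeta function under the Riemann hypothesis.
-/

namespace Pool.Agent.Helper79.SE

open MeasureTheory Set Filter Topology

open scoped Real

/-- The logarithmic derivative of the zeta function. -/
noncomputable def ld (s : ℂ) : ℂ := deriv riemannZeta s / riemannZeta s

theorem zeta_ne (hRH : RiemannHypothesis) {s : ℂ} (h : 1 / 2 < s.re) : riemannZeta s ≠ 0 := by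
  intro h0
  rcases le_or_gt 1 s.re with h1 | h1
  · exact riemannZeta_ne_zero_of_one_le_re h1 h0
  · have hs1 : s ≠ 1 := by
      rintro rfl
      simp at h1
    have htriv : ¬∃ n : ℕ, s = -2 * (n + 1) := by
      rintro ⟨n, rfl⟩
      have : (0:ℝ) ≤ n := Nat.cast_nonneg n
      simp at h
      linarith
    have := hRH s h0 htriv hs1
    linarith

theorem zero_re (hRH : RiemannHypothesis) {s : ℂ} (h0 : riemannZeta s = 0) (him : s.im ≠ 0) :
    s.re = 1 / 2 := by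
  have hs1 : s ≠ 1 := by
    rintro rfl
    simp at him
  have htriv : ¬∃ n : ℕ, s = -2 * (n + 1) := by
    rintro ⟨n, rfl⟩
    simp at him
  exact hRH s h0 htriv hs1

/-- All zeros have real part at most `1/2`. -/
theorem zero_re_le (hRH : RiemannHypothesis) {s : ℂ} (h0 : riemannZeta s = 0) : s.re ≤ 1 / 2 := by
  by_contra h
  push Not at h
  exact zeta_ne hRH h h0

theorem zeta_analyticAt {s : ℂ} (hs : s ≠ 1) : AnalyticAt ℂ riemannZeta s := by
  have hd : DifferentiableOn ℂ riemannZeta {1}ᶜ := fun z hz =>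
    (differentiableAt_riemannZeta hz).differentiableWithinAt
  exact hd.analyticAt (isOpen_compl_singleton.mem_nhds hs)

theorem ld_analyticAt {s : ℂ} (hs : s ≠ 1) (h0 : riemannZeta s ≠ 0) : AnalyticAt ℂ ld s :=
  (zeta_analyticAt hs).deriv.div (zeta_analyticAt hs) h0

theorem ne_one_of_im {s : ℂ} (h : s.im ≠ 0) : s ≠ 1 := by
  rintro rfl
  simp at h

theorem ne_one_of_re {s : ℂ} (h : 1 < s.re) : s ≠ 1 := by
  rintro rfl
  simp at h

theorem ld_analyticAt_im (hRH : RiemannHypothesis) {s : ℂ} (h : 1 / 2 < s.re) (him : s.im ≠ 0) :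
    AnalyticAt ℂ ld s := ld_analyticAt (ne_one_of_im him) (zeta_ne hRH h)

theorem ld_analyticAt_re {s : ℂ} (h : 1 < s.re) : AnalyticAt ℂ ld s :=
  ld_analyticAt (ne_one_of_re h) (riemannZeta_ne_zero_of_one_lt_re h)

/-- Exponential decay of the logarithmic derivative to the right. -/
theorem ld_bound {c : ℝ} (hc : 1 < c) :
    ∃ K : ℝ, 0 < K ∧ ∀ s : ℂ, c ≤ s.re → ‖ld s‖ ≤ K * (2:ℝ) ^ (-s.re) := by
  have hsum : Summable (fun n : ℕ => ‖LSeries.term (fun n => (ArithmeticFunction.vonMangoldt n : ℂ))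
      (c : ℂ) n‖) :=
    (ArithmeticFunction.LSeriesSummable_vonMangoldt (s := (c:ℂ)) (by simpa using hc)).norm
  refine ⟨(2:ℝ) ^ c * ∑' n : ℕ, ‖LSeries.term (fun n => (ArithmeticFunction.vonMangoldt n : ℂ))
      (c : ℂ) n‖ + 1, by positivity, fun s hs => ?_⟩
  have hs1 : 1 < s.re := lt_of_lt_of_le hc hs
  have h1 := ArithmeticFunction.LSeries_vonMangoldt_eq_deriv_riemannZeta_div hs1
  have h2 : ‖ld s‖ = ‖LSeries (fun n => (ArithmeticFunction.vonMangoldt n : ℂ)) s‖ := by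
    rw [h1, ld, neg_div, norm_neg]
  rw [h2, LSeries]
  have hsum2 : Summable (fun n : ℕ => ‖LSeries.term (fun n => (ArithmeticFunction.vonMangoldt n : ℂ))
      s n‖) := (ArithmeticFunction.LSeriesSummable_vonMangoldt (s := s) hs1).norm
  refine (norm_tsum_le_tsum_norm hsum2).trans ?_
  have hterm : ∀ n : ℕ, ‖LSeries.term (fun n => (ArithmeticFunction.vonMangoldt n : ℂ)) s n‖ ≤
      ((2:ℝ) ^ c * (2:ℝ) ^ (-s.re)) *
        ‖LSeries.term (fun n => (ArithmeticFunction.vonMangoldt n : ℂ)) (c:ℂ) n‖ := by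
    intro n
    rw [LSeries.norm_term_eq, LSeries.norm_term_eq]
    by_cases hn : n = 0
    · simp [hn]
    · simp only [hn, if_false, Complex.ofReal_re]
      rcases eq_or_ne n 1 with rfl | hn1
      · simp
      · have hn2 : 2 ≤ n := by omega
        have hn2' : (2:ℝ) ≤ n := by exact_mod_cast hn2
        have e1 : (n:ℝ) ^ s.re = (n:ℝ) ^ c * (n:ℝ) ^ (s.re - c) := by
          rw [← Real.rpow_add (by linarith)]; congr 1; ring
        have e2 : (2:ℝ) ^ (s.re - c) ≤ (n:ℝ) ^ (s.re - c) :=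
          Real.rpow_le_rpow (by norm_num) hn2' (by linarith)
        have e3 : (2:ℝ) ^ c * (2:ℝ) ^ (-s.re) = ((2:ℝ) ^ (s.re - c))⁻¹ := by
          rw [← Real.rpow_add (by norm_num), ← Real.rpow_neg (by norm_num)]; congr 1; ring
        rw [e1, e3, ← div_div, div_eq_mul_inv _ ((n:ℝ) ^ (s.re - c)), mul_comm]
        gcongr
  refine (Summable.tsum_le_tsum hterm hsum2 (hsum.mul_left _)).trans ?_
  rw [tsum_mul_left]
  have : 0 ≤ (2:ℝ) ^ (-s.re) := by positivity
  nlinarith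

open H370 H370.Loc Metric in
/-- Logarithmic derivative of the product over a multiset. -/
theorem logDeriv_Pf' {s : Multiset ℂ} {z : ℂ} (h : ∀ ρ ∈ s, z ≠ ρ) :
    logDeriv (Pf s) z = (s.map (fun ρ => 1 / (z - ρ))).sum := by
  induction s using Multiset.induction_on with
  | empty =>
    have : Pf 0 = fun _ => (1 : ℂ) := funext Pf_zero
    rw [this]
    simp [logDeriv]
  | cons ρ s ih =>
    have : Pf (ρ ::ₘ s) = fun z => (z - ρ) * Pf s z := funext (Pf_cons ρ s)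
    have hz : z - ρ ≠ 0 := sub_ne_zero.2 (h ρ (Multiset.mem_cons_self ρ s))
    have hP : Pf s z ≠ 0 := Pf_ne_zero fun ρ' h' => h ρ' (Multiset.mem_cons_of_mem h')
    have e1 : logDeriv (fun z => (z - ρ) * Pf s z) z =
        logDeriv (fun z => z - ρ) z + logDeriv (Pf s) z :=
      logDeriv_mul z hz hP (differentiableAt_id.sub_const ρ) (Pf_diff s z)
    have e2 : logDeriv (fun z => z - ρ) z = 1 / (z - ρ) := by
      rw [logDeriv_apply]
      congr 1
      simp
    rw [this, e1, e2, ih fun ρ' h' => h ρ' (Multiset.mem_cons_of_mem h'),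
      Multiset.map_cons, Multiset.sum_cons]

open H370 H370.Loc Metric in
/-- Local simple fractions of `ld` to the right of the critical line. -/
theorem local_data (hRH : RiemannHypothesis) :
    ∃ D : ℝ, 0 < D ∧ ∀ t : ℝ, 3 ≤ t → ∃ (s : Multiset ℂ) (G : ℂ → ℂ),
      (Multiset.card s : ℝ) ≤ D * Real.log t ∧ (∀ ρ ∈ s, ρ.re = 1 / 2) ∧
      ∀ σ : ℝ, 1 / 2 < σ → σ ≤ 3 → ‖G ⟨σ, t⟩‖ ≤ D * Real.log t ∧
        ld ⟨σ, t⟩ = (s.map (fun ρ => 1 / ((⟨σ, t⟩ : ℂ) - ρ))).sum + G ⟨σ, t⟩ := by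
  obtain ⟨K, hK, hdata⟩ := ball_data good_zeta
  set q : ℝ := Real.log (1.9 / 1.8) with hq
  have hq0 : 0 < q := Real.log_pos (by norm_num)
  set ℓ : ℝ := Real.log (1.8 / (1.9 - 1.8)) with hℓ
  have hℓ0 : 0 < ℓ := Real.log_pos (by norm_num)
  set D1 : ℝ := 2 * (K + K / q * ℓ + 1) * 1.7 / (1.8 - 1.7) / (1.7 - 1.6) with hD1
  have hD10 : 0 < D1 := by
    have : (0 : ℝ) < 1.8 - 1.7 := by norm_num
    have : (0 : ℝ) < 1.7 - 1.6 := by norm_num
    positivity
  refine ⟨D1 + K / q, by positivity, fun t ht => ?_⟩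
  have hlt : 1 ≤ Real.log t := one_le_log ht
  obtain ⟨M, hM1, han, hF0, hb, hMc, hL0, hLM⟩ := hdata t ht
  obtain ⟨s, g, hs, hg, hfg, hg0, hlg⟩ := SP.LocAux.extract_bound (f := riemannZeta)
    (c := ⟨2, t⟩) (r := 1.8) (r1 := 1.7) (r2 := 1.6) (R := 1.9) (M := M) (by norm_num)
    (by norm_num) (by norm_num) (by norm_num) (by norm_num) hM1 hMc han hF0 hb
  have hsub2 : closedBall (⟨2, t⟩ : ℂ) 1.8 ⊆ closedBall (⟨2, t⟩ : ℂ) 1.9 :=
    closedBall_subset_closedBall (by norm_num)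
  have hsub1 : closedBall (⟨2, t⟩ : ℂ) 1.6 ⊆ closedBall (⟨2, t⟩ : ℂ) 1.8 :=
    closedBall_subset_closedBall (by norm_num)
  have hcard : (Multiset.card s : ℝ) ≤ K / q * Real.log t := by
    have h1 := jensen_mult (f := riemannZeta) (c := ⟨2, t⟩) (r := 1.8) (R := 1.9) (M := M)
      (by norm_num) (by norm_num) hM1 han hF0 hb s.toFinset
      (fun z hz => (hs z (Multiset.mem_toFinset.1 hz)).1)
    have h2 : (Multiset.card s : ℝ) = ∑ z ∈ s.toFinset, (mult riemannZeta z : ℝ) := by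
      have h3 : Multiset.card s = ∑ z ∈ s.toFinset, s.count z :=
        (Multiset.toFinset_sum_count_eq s).symm
      rw [h3]
      push_cast
      refine Finset.sum_congr rfl fun z hz => ?_
      have hz' := (hs z (Multiset.mem_toFinset.1 hz)).1
      rw [SP.LocAux.count_eq_mult (han z (hsub2 hz')) (hg z (hsub2 hz')) (hg0 z hz') hfg]
    rw [h2]
    refine h1.trans ?_
    rw [← hq]
    calc Real.log (M / ‖riemannZeta ⟨2, t⟩‖) / q ≤ K * Real.log t / q := by gcongr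
      _ = _ := by ring
  refine ⟨s, logDeriv g, ?_, ?_, ?_⟩
  · have : 0 ≤ D1 * Real.log t := by positivity
    linarith
  · intro ρ hρ
    obtain ⟨h1, h2⟩ := hs ρ hρ
    refine zero_re hRH h2 ?_
    rw [mem_closedBall, dist_eq_norm] at h1
    have h4 := (Complex.abs_im_le_norm (ρ - ⟨2, t⟩)).trans h1
    simp only [Complex.sub_im] at h4
    rw [abs_le] at h4
    have : 0 < ρ.im := by norm_num at h4; linarith [h4.1]
    exact this.ne'
  · intro σ hσ1 hσ2
    have hzb : (⟨σ, t⟩ : ℂ) ∈ closedBall (⟨2, t⟩ : ℂ) 1.6 := by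
      rw [mem_closedBall, dist_eq_norm]
      have e : (⟨σ, t⟩ : ℂ) - ⟨2, t⟩ = ((σ - 2 : ℝ) : ℂ) := by
        apply Complex.ext <;> simp
      rw [e, Complex.norm_real, Real.norm_eq_abs, abs_le]
      constructor <;> norm_num <;> linarith
    have hzr := hsub1 hzb
    have hzR := hsub2 hzr
    constructor
    · refine (hlg _ hzb).trans ?_
      set X := Real.log (M / ‖riemannZeta ⟨2, t⟩‖) with hX
      have h1 : X / q * ℓ ≤ K * Real.log t / q * ℓ := by gcongr
      have h2 : X + X / q * ℓ + 1 ≤ (K + K / q * ℓ + 1) * Real.log t := by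
        have h3 : K * Real.log t / q * ℓ = K / q * ℓ * Real.log t := by ring
        rw [h3] at h1
        nlinarith
      have h4 : (0 : ℝ) < 1.8 - 1.7 := by norm_num
      have h5 : (0 : ℝ) < 1.7 - 1.6 := by norm_num
      calc _ ≤ 2 * ((K + K / q * ℓ + 1) * Real.log t) * 1.7 / (1.8 - 1.7) / (1.7 - 1.6) := by
            gcongr
        _ = D1 * Real.log t := by rw [hD1]; ring
        _ ≤ (D1 + K / q) * Real.log t := by
            have : 0 ≤ K / q * Real.log t := by positivity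
            linarith
    · have hz0 : riemannZeta (⟨σ, t⟩ : ℂ) ≠ 0 := zeta_ne hRH (by simpa using hσ1)
      have hPz : ∀ ρ ∈ s, (⟨σ, t⟩ : ℂ) ≠ ρ := fun ρ hρ he => hz0 (he ▸ (hs ρ hρ).2)
      have hgz := hg _ hzR
      have hgz0 := hg0 _ hzr
      have e1 : logDeriv riemannZeta (⟨σ, t⟩ : ℂ) = logDeriv (Pf s) ⟨σ, t⟩ +
          logDeriv g ⟨σ, t⟩ := by
        have h1 : riemannZeta = fun w => Pf s w * g w := funext hfg
        conv_lhs => rw [h1]
        exact logDeriv_mul _ (Pf_ne_zero hPz) hgz0 (Pf_diff s _) hgz.differentiableAt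
      rw [logDeriv_Pf' hPz] at e1
      rw [← e1]
      rfl

/-- Upper bound for `ld` away from the critical line. -/
theorem ld_upper (hRH : RiemannHypothesis) :
    ∃ D : ℝ, 0 < D ∧ ∀ t : ℝ, 3 ≤ t → ∀ σ : ℝ, 1 / 2 < σ → σ ≤ 3 →
      ‖ld ⟨σ, t⟩‖ ≤ D * Real.log t * (1 + 1 / (σ - 1 / 2)) := by
  obtain ⟨D, hD, h⟩ := local_data hRH
  refine ⟨D, hD, fun t ht σ h1 h2 => ?_⟩
  obtain ⟨s, G, hc, hre, hG⟩ := h t ht
  obtain ⟨b1, b2⟩ := hG σ h1 h2
  rw [b2]
  have hs0 : 0 < σ - 1 / 2 := by linarith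
  have hsum : ‖(s.map (fun ρ => 1 / ((⟨σ, t⟩ : ℂ) - ρ))).sum‖ ≤
      (Multiset.card s : ℝ) * (1 / (σ - 1 / 2)) := by
    clear hc hG b2
    induction s using Multiset.induction_on with
    | empty => simp
    | cons ρ s ih =>
      rw [Multiset.map_cons, Multiset.sum_cons, Multiset.card_cons]
      have h5 := ih (fun ρ hρ => hre ρ (Multiset.mem_cons_of_mem hρ))
      have h6 : ‖1 / ((⟨σ, t⟩ : ℂ) - ρ)‖ ≤ 1 / (σ - 1 / 2) := by
        rw [norm_div, norm_one]
        refine one_div_le_one_div_of_le hs0 ?_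
        have h7 := Complex.re_le_norm ((⟨σ, t⟩ : ℂ) - ρ)
        rw [Complex.sub_re, hre ρ (Multiset.mem_cons_self ρ s)] at h7
        exact h7
      refine (norm_add_le _ _).trans ?_
      push_cast
      linarith
  have h8 : (Multiset.card s : ℝ) * (1 / (σ - 1 / 2)) ≤ D * Real.log t * (1 / (σ - 1 / 2)) := by
    gcongr
  calc _ ≤ ‖(s.map (fun ρ => 1 / ((⟨σ, t⟩ : ℂ) - ρ))).sum‖ + ‖G ⟨σ, t⟩‖ := norm_add_le _ _
    _ ≤ D * Real.log t * (1 / (σ - 1 / 2)) + D * Real.log t := by linarith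
    _ = _ := by ring

/-- Lower bound for the real part of `ld` to the right of the critical line. -/
theorem ld_re_lower (hRH : RiemannHypothesis) :
    ∃ D : ℝ, 0 < D ∧ ∀ t : ℝ, 3 ≤ t → ∀ σ : ℝ, 1 / 2 < σ → σ ≤ 3 →
      -(D * Real.log t) ≤ (ld ⟨σ, t⟩).re := by
  obtain ⟨D, hD, h⟩ := local_data hRH
  refine ⟨D, hD, fun t ht σ h1 h2 => ?_⟩
  obtain ⟨s, G, hc, hre, hG⟩ := h t ht
  obtain ⟨b1, b2⟩ := hG σ h1 h2
  rw [b2, Complex.add_re]
  have hs0 : 0 < σ - 1 / 2 := by linarith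
  have hsum : 0 ≤ ((s.map (fun ρ => 1 / ((⟨σ, t⟩ : ℂ) - ρ))).sum).re := by
    clear hc hG b2
    induction s using Multiset.induction_on with
    | empty => simp
    | cons ρ s ih =>
      rw [Multiset.map_cons, Multiset.sum_cons, Complex.add_re]
      have h5 := ih (fun ρ hρ => hre ρ (Multiset.mem_cons_of_mem hρ))
      have h6 : 0 ≤ (1 / ((⟨σ, t⟩ : ℂ) - ρ)).re := by
        rw [one_div, Complex.inv_re, Complex.sub_re, hre ρ (Multiset.mem_cons_self ρ s)]
        exact div_nonneg hs0.le (Complex.normSq_nonneg _)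
      linarith
  have h9 := (abs_le.mp ((Complex.abs_re_le_norm (G ⟨σ, t⟩)).trans b1)).1
  linarith

/-- The real part of `ld` on the critical line. -/
theorem ld_re_half : ∃ C : ℝ, 0 < C ∧ ∀ t : ℝ, 1 ≤ t → riemannZeta ⟨1 / 2, t⟩ ≠ 0 →
    |2 * (ld ⟨1 / 2, t⟩).re + Real.log t| ≤ C := by
  obtain ⟨C, hC⟩ := H370.good_zeta.left
  refine ⟨|C| + 1, by positivity, fun t ht h0 => ?_⟩
  have h := hC ⟨1 / 2, t⟩ (by norm_num) (by norm_num) ht h0
  have e : (1 - (starRingEnd ℂ) (⟨1 / 2, t⟩ : ℂ)) = ⟨1 / 2, t⟩ := by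
    apply Complex.ext
    · simp; norm_num
    · simp
  rw [e] at h
  have h2 := (Complex.abs_re_le_norm _).trans h
  have e2 : (deriv riemannZeta ⟨1 / 2, t⟩ / riemannZeta ⟨1 / 2, t⟩ + (Real.log t : ℂ) +
      (starRingEnd ℂ) (deriv riemannZeta ⟨1 / 2, t⟩ / riemannZeta ⟨1 / 2, t⟩)).re =
      2 * (ld ⟨1 / 2, t⟩).re + Real.log t := by
    rw [Complex.add_re, Complex.add_re, Complex.conj_re, Complex.ofReal_re]
    unfold ld
    ring
  have h3 : |(deriv riemannZeta ⟨1 / 2, t⟩ / riemannZeta ⟨1 / 2, t⟩ + (Real.log t : ℂ) +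
      (starRingEnd ℂ) (deriv riemannZeta ⟨1 / 2, t⟩ / riemannZeta ⟨1 / 2, t⟩)).re| ≤ C := h2
  rw [e2] at h3
  linarith [le_abs_self C]

end Pool.Agent.Helper79.SE
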