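import Pool.Agent.Helper79.Maj5
import Pool.Agent.Helper79.ZB

/-!
Contour shift: a one-sided bound for the iterated integrals of the logarithmic derivative.
-/

namespace Pool.Agent.Helper79.SE

open MeasureTheory Set Filter Topology

open scoped Real

theorem ioi_shift_integrable {f : ℝ → ℝ} (hf : IntegrableOn f (Ioi 0)) (t : ℝ) :
    IntegrableOn (fun y => f (y - t)) (Ioi t) := by
  rw [← integrable_indicator_iff measurableSet_Ioi] at hf ⊢
  have h := hf.comp_sub_right t
  refine h.congr (Eventually.of_forall fun y => ?_)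
  simp only [indicator, mem_Ioi, sub_pos]

theorem ioi_shift_integral {E : Type*} [NormedAddCommGroup E] [NormedSpace ℝ E]
    (f : ℝ → E) (t : ℝ) : ∫ y in Ioi t, f (y - t) = ∫ v in Ioi (0:ℝ), f v := by
  rw [← integral_indicator measurableSet_Ioi, ← integral_indicator measurableSet_Ioi,
    ← integral_sub_right_eq_self (fun v => (Ioi (0:ℝ)).indicator f v) t]
  refine integral_congr_ae (Eventually.of_forall fun y => ?_)
  simp only [indicator, mem_Ioi, sub_pos]

theorem logker_integrable :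
    IntegrableOn (fun v : ℝ => Real.log (1 + v) / (1 + v ^ 2)) (Ioi 0) := by
  have h1 : IntegrableOn (fun v : ℝ => 4 * (v + 1) ^ (-(3/2) : ℝ)) (Ioi 0) := by
    refine Integrable.const_mul ?_ 4
    have h2 : IntegrableOn (fun v : ℝ => v ^ (-(3/2) : ℝ)) (Ioi 1) :=
      integrableOn_Ioi_rpow_of_lt (by norm_num) one_pos
    rw [← integrable_indicator_iff measurableSet_Ioi] at h2
    have h3 := h2.comp_add_right 1
    rw [← IntegrableOn, ← integrable_indicator_iff measurableSet_Ioi]
    refine h3.congr (Eventually.of_forall fun y => ?_)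
    simp only [indicator, mem_Ioi]
    by_cases h : 0 < y
    · rw [if_pos h, if_pos (by linarith)]
    · rw [if_neg h, if_neg (by linarith)]
  refine Integrable.mono' h1 ?_ ?_
  · exact (by fun_prop : Measurable fun v : ℝ => Real.log (1 + v) / (1 + v ^ 2)).aestronglyMeasurable
  · rw [ae_restrict_iff' measurableSet_Ioi]
    refine Eventually.of_forall fun v hv => ?_
    have hv0 : (0:ℝ) < v := hv
    have hl0 : 0 ≤ Real.log (1 + v) := Real.log_nonneg (by linarith)
    rw [Real.norm_of_nonneg (by positivity)]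
    have e1 : Real.log (1 + v) ≤ (1 + v) ^ (1 / 2 : ℝ) / (1 / 2) :=
      Real.log_le_rpow_div (by linarith) (by norm_num)
    have e2 : (1 + v) ^ 2 / 2 ≤ 1 + v ^ 2 := by nlinarith [sq_nonneg (1 - v)]
    have e3 : (v + 1) ^ (-(3 / 2) : ℝ) = (1 + v) ^ (1 / 2 : ℝ) / (1 + v) ^ 2 := by
      rw [add_comm v 1, ← Real.rpow_natCast, ← Real.rpow_sub (by linarith)]
      norm_num
    rw [e3]
    calc Real.log (1 + v) / (1 + v ^ 2) ≤ ((1 + v) ^ (1 / 2 : ℝ) / (1 / 2)) / ((1 + v) ^ 2 / 2) := by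
          gcongr
      _ = _ := by
          field_simp
          ring

theorem cauker_integrable : IntegrableOn (fun v : ℝ => 1 / (1 + v ^ 2)) (Ioi 0) := by
  have := integrable_inv_one_add_sq.integrableOn (s := Ioi (0:ℝ))
  simpa [one_div] using this

theorem log_le_shift {t y : ℝ} (ht : 1 ≤ t) (hy : t ≤ y) :
    Real.log y ≤ Real.log t + Real.log (1 + (y - t)) := by
  rw [← Real.log_mul (by linarith) (by linarith)]
  exact Real.log_le_log (by linarith) (by nlinarith)

/-- Integrability of `log y / (1+(y-t)^2)` beyond `t`. -/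
theorem logcau_integrable {t : ℝ} (ht : 1 ≤ t) :
    IntegrableOn (fun y : ℝ => Real.log y / (1 + (y - t) ^ 2)) (Ioi t) := by
  have h1 := ioi_shift_integrable logker_integrable t
  have h2 := (ioi_shift_integrable cauker_integrable t).const_mul (Real.log t)
  refine Integrable.mono' (h2.add h1) ?_ ?_
  · exact (by fun_prop : Measurable fun y : ℝ => Real.log y / (1 + (y - t) ^ 2)).aestronglyMeasurable
  · rw [ae_restrict_iff' measurableSet_Ioi]
    refine Eventually.of_forall fun y hy => ?_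
    have hy0 : t < y := hy
    have hl0 : 0 ≤ Real.log y := Real.log_nonneg (by linarith)
    rw [Real.norm_of_nonneg (by positivity)]
    simp only [Pi.add_apply]
    rw [mul_one_div, ← add_div]
    gcongr
    exact log_le_shift ht hy0.le

/-- Bound for a pair function at a shifted point. -/
theorem pt_bound {p : ℂ → ℂ} {K : ℝ} (hK : 0 < K)
    (hb : ∀ z : ℂ, z.re ≤ 0 → ‖p z‖ ≤ K * Real.exp (2 * π * |z.im|) / (1 + ‖z‖ ^ 2))
    {Δ : ℝ} (hΔ : 1 ≤ Δ) {z : ℂ} {v y w : ℝ} (hre : z.re = -(Δ * v)) (hv : 0 ≤ v)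
    (him : |z.im| ≤ Δ * w) (hvy : v ^ 2 = y ^ 2) :
    ‖p z‖ ≤ K * Real.exp (2 * π * Δ * w) / (1 + y ^ 2) := by
  have hz : z.re ≤ 0 := by rw [hre]; have : 0 ≤ Δ * v := by positivity
                           linarith
  refine (hb z hz).trans ?_
  have h1 : y ^ 2 ≤ ‖z‖ ^ 2 := by
    have h2 : |z.re| ≤ ‖z‖ := Complex.abs_re_le_norm z
    have h3 : |z.re| ^ 2 ≤ ‖z‖ ^ 2 := pow_le_pow_left₀ (abs_nonneg _) h2 2
    rw [sq_abs, hre, neg_sq, mul_pow] at h3
    have h4 : 1 ≤ Δ ^ 2 := one_le_pow₀ hΔ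
    nlinarith [sq_nonneg v]
  have h5 : Real.exp (2 * π * |z.im|) ≤ Real.exp (2 * π * Δ * w) := by
    refine Real.exp_le_exp.mpr ?_
    have := mul_le_mul_of_nonneg_left him (by positivity : 0 ≤ 2 * π)
    linarith
  gcongr

/-- Negative part of the real part of `ld` on a vertical line. -/
noncomputable def Na (a y : ℝ) : ℝ := max (-(ld ((a:ℂ) + y * Complex.I)).re) 0

theorem Na_nonneg (a y : ℝ) : 0 ≤ Na a y := le_max_right _ _

theorem mk_eq (x y : ℝ) : (⟨x, y⟩ : ℂ) = (x:ℂ) + y * Complex.I := Complex.mk_eq_add_mul_I x y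

/-- The contour identity for fixed abscissa `a`. -/
theorem contour (hRH : RiemannHypothesis) {n : ℕ} (hn : Even n) {c I₀ : ℝ} {p q : ℂ → ℂ}
    (hP : IsPair n c I₀ p q) {K : ℝ} (hK : 0 < K)
    (hbp : ∀ z : ℂ, z.re ≤ 0 → ‖p z‖ ≤ K * Real.exp (2 * π * |z.im|) / (1 + ‖z‖ ^ 2))
    (hbq : ∀ z : ℂ, z.re ≤ 0 → ‖q z‖ ≤ K * Real.exp (2 * π * |z.im|) / (1 + ‖z‖ ^ 2))
    {a c1 h0 t Δ B L : ℝ} (ha : 1 / 2 < a) (ha1 : a < 1) (hc1 : 1 < c1) (hc2 : c1 ≤ 3 / 2)
    (hh0 : 3 < h0) (ht : h0 < t) (hΔ : 1 ≤ Δ)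
    (hB : ∀ σ : ℝ, 1 / 2 < σ → σ ≤ 3 / 2 → ‖ld ((σ:ℂ) + h0 * Complex.I)‖ ≤ B)
    (hL : ∀ y : ℝ, ‖ld ((c1:ℂ) + y * Complex.I)‖ ≤ L) :
    -((∫ y in h0..t, (q ((-(Δ * (t - y)) : ℝ) : ℂ)).re * Na a y) +
      (∫ y in Ioi t, (p ((Δ * (t - y) : ℝ) : ℂ)).re * Na a y)) -
      K * Real.exp (2 * π * Δ * (c1 - 1 / 2)) * (B + 2 * π * L) ≤
    c * Δ ^ n * (-1) ^ (n / 2) * (∫ x in a..c1, (((x - a : ℝ) : ℂ)) ^ n *
      ld ((x:ℂ) + t * Complex.I)).im := by
  obtain ⟨⟨δ, hδ, hpd, hqd⟩, -, hjump, hreal, -⟩ := hP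
  obtain ⟨D, hD, hup⟩ := ld_upper hRH
  have hΔ0 : 0 < Δ := by linarith
  have hB0 : 0 ≤ B := (norm_nonneg _).trans (hB 1 (by norm_num) (by norm_num))
  have hL0 : 0 ≤ L := (norm_nonneg _).trans (hL 0)
  set E : ℝ := Real.exp (2 * π * Δ * (c1 - 1 / 2)) with hE
  have hE0 : 0 < E := Real.exp_pos _
  set Z : ℂ → ℂ := fun s => (Δ:ℂ) * ((t:ℂ) + Complex.I * (s - a)) with hZ
  have hZre : ∀ s : ℂ, (Z s).re = Δ * (t - s.im) := by
    intro s
    rw [hZ]
    simp [Complex.mul_re, Complex.mul_im]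
    left
    ring
  have hZim : ∀ s : ℂ, (Z s).im = Δ * (s.re - a) := by
    intro s
    rw [hZ]
    simp [Complex.mul_re, Complex.mul_im]
  set Φp : ℂ → ℂ := fun s => q (-Z s) * ld s with hΦp
  set Φm : ℂ → ℂ := fun s => p (Z s) * ld s with hΦm
  have hZd : Differentiable ℂ Z := by rw [hZ]; fun_prop
  have hldd : ∀ s : ℂ, 1 / 2 < s.re → s.im ≠ 0 → DifferentiableAt ℂ ld s := fun s h1 h2 =>
    (ld_analyticAt_im hRH h1 h2).differentiableAt
  have hδo : IsOpen {z : ℂ | z.re < δ} := isOpen_lt Complex.continuous_re continuous_const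
  have hΦpd : ∀ s : ℂ, 1 / 2 < s.re → s.im ≠ 0 → s.im ≤ t → DifferentiableAt ℂ Φp s := by
    intro s h1 h2 h3
    refine DifferentiableAt.mul ?_ (hldd s h1 h2)
    have h4 : -Z s ∈ {z : ℂ | z.re < δ} := by
      show (-Z s).re < δ
      rw [Complex.neg_re, hZre]
      have : 0 ≤ Δ * (t - s.im) := mul_nonneg hΔ0.le (by linarith)
      linarith
    exact (hqd.differentiableAt (hδo.mem_nhds h4)).comp s hZd.neg.differentiableAt
  have hΦmd : ∀ s : ℂ, 1 / 2 < s.re → s.im ≠ 0 → t ≤ s.im → DifferentiableAt ℂ Φm s := by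
    intro s h1 h2 h3
    refine DifferentiableAt.mul ?_ (hldd s h1 h2)
    have h4 : Z s ∈ {z : ℂ | z.re < δ} := by
      show (Z s).re < δ
      rw [hZre]
      have : Δ * (t - s.im) ≤ 0 := mul_nonpos_of_nonneg_of_nonpos hΔ0.le (by linarith)
      linarith
    exact (hpd.differentiableAt (hδo.mem_nhds h4)).comp s hZd.differentiableAt
  -- pointwise bounds
  have hqb : ∀ s : ℂ, a ≤ s.re → s.re ≤ c1 → s.im ≤ t →
      ‖q (-Z s)‖ ≤ K * E / (1 + (s.im - t) ^ 2) := by
    intro s h1 h2 h3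
    refine pt_bound hK hbq hΔ (v := t - s.im) (w := c1 - 1 / 2) ?_ (by linarith) ?_ (by ring)
    · rw [Complex.neg_re, hZre]
    · rw [Complex.neg_im, abs_neg, hZim, abs_of_nonneg (mul_nonneg hΔ0.le (by linarith))]
      exact mul_le_mul_of_nonneg_left (by linarith) hΔ0.le
  have hpb : ∀ s : ℂ, a ≤ s.re → s.re ≤ c1 → t ≤ s.im →
      ‖p (Z s)‖ ≤ K * E / (1 + (s.im - t) ^ 2) := by
    intro s h1 h2 h3
    refine pt_bound hK hbp hΔ (v := s.im - t) (w := c1 - 1 / 2) ?_ (by linarith) ?_ (by ring)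
    · rw [hZre]; ring
    · rw [hZim, abs_of_nonneg (mul_nonneg hΔ0.le (by linarith))]
      exact mul_le_mul_of_nonneg_left (by linarith) hΔ0.le
  have hre : ∀ x y : ℝ, ((x:ℂ) + y * Complex.I).re = x := fun x y => by simp
  have him : ∀ x y : ℝ, ((x:ℂ) + y * Complex.I).im = y := fun x y => by simp
  have hac : a ≤ c1 := by linarith
  -- rectangle below
  have rect1 : (∫ x in a..c1, Φp ((x:ℂ) + h0 * Complex.I)) -
      (∫ x in a..c1, Φp ((x:ℂ) + t * Complex.I)) +
      Complex.I * (∫ y in h0..t, Φp ((c1:ℂ) + y * Complex.I)) -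
      Complex.I * (∫ y in h0..t, Φp ((a:ℂ) + y * Complex.I)) = 0 := by
    have h := Complex.integral_boundary_rect_eq_zero_of_differentiableOn Φp
      ((a:ℂ) + h0 * Complex.I) ((c1:ℂ) + t * Complex.I) ?_
    · simpa only [hre, him, smul_eq_mul] using h
    · intro s hs
      rw [Complex.mem_reProdIm] at hs
      simp only [hre, him] at hs
      rw [uIcc_of_le hac, uIcc_of_le ht.le] at hs
      exact (hΦpd s (by linarith [hs.1.1]) (by linarith [hs.2.1]) hs.2.2).differentiableWithinAt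
  -- rectangle above
  have rect2 : ∀ U : ℝ, t ≤ U → (∫ x in a..c1, Φm ((x:ℂ) + t * Complex.I)) -
      (∫ x in a..c1, Φm ((x:ℂ) + U * Complex.I)) +
      Complex.I * (∫ y in t..U, Φm ((c1:ℂ) + y * Complex.I)) -
      Complex.I * (∫ y in t..U, Φm ((a:ℂ) + y * Complex.I)) = 0 := by
    intro U hU
    have h := Complex.integral_boundary_rect_eq_zero_of_differentiableOn Φm
      ((a:ℂ) + t * Complex.I) ((c1:ℂ) + U * Complex.I) ?_
    · simpa only [hre, him, smul_eq_mul] using h
    · intro s hs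
      rw [Complex.mem_reProdIm] at hs
      simp only [hre, him] at hs
      rw [uIcc_of_le hac, uIcc_of_le hU] at hs
      exact (hΦmd s (by linarith [hs.1.1]) (by linarith [hs.2.1]) hs.2.1).differentiableWithinAt
  -- the bound of `ld` on the line `a`
  set Ca : ℝ := D * (1 + 1 / (a - 1 / 2)) with hCa
  have hCa0 : 0 < Ca := by
    have : 0 < a - 1 / 2 := by linarith
    positivity
  have hlda : ∀ x y : ℝ, a ≤ x → x ≤ c1 → 3 ≤ y → ‖ld ((x:ℂ) + y * Complex.I)‖ ≤
      Ca * Real.log y := by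
    intro x y h1 h2 h3
    have h4 := hup y h3 x (by linarith) (by linarith)
    rw [mk_eq] at h4
    refine h4.trans ?_
    have h5 : 0 ≤ Real.log y := Real.log_nonneg (by linarith)
    have h6 : 1 / (x - 1 / 2) ≤ 1 / (a - 1 / 2) :=
      one_div_le_one_div_of_le (by linarith) (by linarith)
    have h7 : 0 ≤ D * Real.log y := by positivity
    calc D * Real.log y * (1 + 1 / (x - 1 / 2)) ≤ D * Real.log y * (1 + 1 / (a - 1 / 2)) := by
          gcongr
      _ = _ := by rw [hCa]; ring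
  have hcontm : ∀ x : ℝ, a ≤ x → ContinuousOn (fun y : ℝ => Φm ((x:ℂ) + y * Complex.I)) (Ioi t) := by
    intro x hx y hy
    have hy' : t < y := hy
    have h1 : DifferentiableAt ℂ Φm ((x:ℂ) + y * Complex.I) :=
      hΦmd _ (by rw [hre]; linarith) (by rw [him]; linarith) (by rw [him]; exact hy'.le)
    have h2 : ContinuousAt (fun y : ℝ => ((x:ℂ) + y * Complex.I)) y := by fun_prop
    exact (ContinuousAt.comp (f := fun y : ℝ => ((x:ℂ) + y * Complex.I)) (g := Φm)
      h1.continuousAt h2).continuousWithinAt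
  have hma_int : IntegrableOn (fun y : ℝ => Φm ((a:ℂ) + y * Complex.I)) (Ioi t) := by
    have h1 : IntegrableOn (fun y : ℝ => (K * E * Ca) * (Real.log y / (1 + (y - t) ^ 2))) (Ioi t) :=
      (logcau_integrable (by linarith)).const_mul _
    refine Integrable.mono' h1 ((hcontm a le_rfl).aestronglyMeasurable measurableSet_Ioi) ?_
    rw [ae_restrict_iff' measurableSet_Ioi]
    refine Eventually.of_forall fun y hy => ?_
    have hy' : t < y := hy
    rw [hΦm]
    simp only [norm_mul]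
    have b1 := hpb ((a:ℂ) + y * Complex.I) (by rw [hre]) (by rw [hre]; exact hac)
      (by rw [him]; exact hy'.le)
    rw [him] at b1
    have b2 := hlda a y le_rfl hac (by linarith)
    have h5 : 0 ≤ Real.log y := Real.log_nonneg (by linarith)
    calc _ ≤ (K * E / (1 + (y - t) ^ 2)) * (Ca * Real.log y) :=
          mul_le_mul b1 b2 (norm_nonneg _) (by positivity)
      _ = _ := by ring
  have hcauL : ∀ s : Set ℝ, MeasurableSet s → IntegrableOn (fun y : ℝ => (K * E * L) *
      (1 + (y - t) ^ 2)⁻¹) s ∧ ∫ y in s, (K * E * L) * (1 + (y - t) ^ 2)⁻¹ ≤ K * E * L * π := by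
    intro s hs
    have h1 : Integrable (fun y : ℝ => (K * E * L) * (1 + (y - t) ^ 2)⁻¹) :=
      (integrable_inv_one_add_sq.comp_sub_right t).const_mul _
    refine ⟨h1.integrableOn, ?_⟩
    calc _ ≤ ∫ y : ℝ, (K * E * L) * (1 + (y - t) ^ 2)⁻¹ :=
          setIntegral_le_integral h1 (Eventually.of_forall fun y => by positivity)
      _ = K * E * L * π := by
          rw [integral_const_mul, integral_sub_right_eq_self (fun y : ℝ => (1 + y ^ 2)⁻¹) t,
            integral_univ_inv_one_add_sq]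
  have hmc_bd : ∀ y ∈ Ioi t, ‖Φm ((c1:ℂ) + y * Complex.I)‖ ≤ (K * E * L) *
      (1 + (y - t) ^ 2)⁻¹ := by
    intro y hy
    have hy' : t < y := hy
    rw [hΦm]
    simp only [norm_mul]
    have b1 := hpb ((c1:ℂ) + y * Complex.I) (by rw [hre]; exact hac) (by rw [hre])
      (by rw [him]; exact hy'.le)
    rw [him] at b1
    calc _ ≤ (K * E / (1 + (y - t) ^ 2)) * L :=
          mul_le_mul b1 (hL y) (norm_nonneg _) (by positivity)
      _ = _ := by ring
  have hmc_int : IntegrableOn (fun y : ℝ => Φm ((c1:ℂ) + y * Complex.I)) (Ioi t) := by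
    refine Integrable.mono' (hcauL _ measurableSet_Ioi).1
      ((hcontm c1 hac).aestronglyMeasurable measurableSet_Ioi) ?_
    rw [ae_restrict_iff' measurableSet_Ioi]
    exact Eventually.of_forall hmc_bd
  have htop : Tendsto (fun U : ℝ => ∫ x in a..c1, Φm ((x:ℂ) + U * Complex.I)) atTop (𝓝 0) := by
    have h1 : Tendsto (fun U : ℝ => (4 * K * E * Ca * (c1 - a)) / U) atTop (𝓝 0) :=
      tendsto_const_nhds.div_atTop tendsto_id
    refine squeeze_zero_norm' ?_ h1
    filter_upwards [eventually_ge_atTop (2 * t)] with U hU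
    have hU0 : 0 < U := by linarith
    have hb : ∀ x ∈ uIoc a c1, ‖Φm ((x:ℂ) + U * Complex.I)‖ ≤ 4 * K * E * Ca / U := by
      intro x hx
      rw [uIoc_of_le hac] at hx
      rw [hΦm]
      simp only [norm_mul]
      have b1 := hpb ((x:ℂ) + U * Complex.I) (by rw [hre]; exact hx.1.le) (by rw [hre]; exact hx.2)
        (by rw [him]; linarith)
      rw [him] at b1
      have b2 := hlda x U hx.1.le hx.2 (by linarith)
      have h5 : Real.log U ≤ U := (Real.log_le_sub_one_of_pos hU0).trans (by linarith)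
      have h6 : U ^ 2 / 4 ≤ 1 + (U - t) ^ 2 := by nlinarith
      have h7 : 0 ≤ Real.log U := Real.log_nonneg (by linarith)
      calc _ ≤ (K * E / (1 + (U - t) ^ 2)) * (Ca * Real.log U) :=
            mul_le_mul b1 b2 (norm_nonneg _) (by positivity)
        _ ≤ (K * E / (U ^ 2 / 4)) * (Ca * U) := by gcongr
        _ = _ := by field_simp
    have := intervalIntegral.norm_integral_le_of_norm_le_const hb
    rw [abs_of_nonneg (by linarith : 0 ≤ c1 - a)] at this
    calc _ ≤ _ := this
      _ = _ := by ring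
  have rect2' : (∫ x in a..c1, Φm ((x:ℂ) + t * Complex.I)) +
      Complex.I * (∫ y in Ioi t, Φm ((c1:ℂ) + y * Complex.I)) -
      Complex.I * (∫ y in Ioi t, Φm ((a:ℂ) + y * Complex.I)) = 0 := by
    have t1 := intervalIntegral_tendsto_integral_Ioi t hma_int tendsto_id
    have t2 := intervalIntegral_tendsto_integral_Ioi t hmc_int tendsto_id
    have t3 := (((tendsto_const_nhds (x := ∫ x in a..c1, Φm ((x:ℂ) + t * Complex.I))).sub
      htop).add (t2.const_mul Complex.I)).sub (t1.const_mul Complex.I)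
    have h0 : ∀ᶠ U : ℝ in atTop, (∫ x in a..c1, Φm ((x:ℂ) + t * Complex.I)) -
      (∫ x in a..c1, Φm ((x:ℂ) + U * Complex.I)) +
      Complex.I * (∫ y in t..U, Φm ((c1:ℂ) + y * Complex.I)) -
      Complex.I * (∫ y in t..U, Φm ((a:ℂ) + y * Complex.I)) = 0 := by
      filter_upwards [eventually_ge_atTop t] with U hU using rect2 U hU
    have h2 := tendsto_nhds_unique (t3.congr' h0) tendsto_const_nhds
    rw [sub_zero] at h2
    exact h2
  -- the jump
  have hjmp : (∫ x in a..c1, Φm ((x:ℂ) + t * Complex.I)) -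
      (∫ x in a..c1, Φp ((x:ℂ) + t * Complex.I)) =
      ((c * Δ ^ n * (-1) ^ (n / 2) : ℝ) : ℂ) * (∫ x in a..c1, (((x - a : ℝ) : ℂ)) ^ n *
      ld ((x:ℂ) + t * Complex.I)) := by
    have i1 : IntervalIntegrable (fun x : ℝ => Φm ((x:ℂ) + t * Complex.I)) volume a c1 := by
      refine ContinuousOn.intervalIntegrable ?_
      rw [uIcc_of_le hac]
      intro x hx
      have h1 : DifferentiableAt ℂ Φm ((x:ℂ) + t * Complex.I) :=
        hΦmd _ (by rw [hre]; linarith [hx.1]) (by rw [him]; linarith) (by rw [him])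
      have h2 : ContinuousAt (fun x : ℝ => ((x:ℂ) + t * Complex.I)) x := by fun_prop
      exact (ContinuousAt.comp (f := fun x : ℝ => ((x:ℂ) + t * Complex.I)) (g := Φm)
        h1.continuousAt h2).continuousWithinAt
    have i2 : IntervalIntegrable (fun x : ℝ => Φp ((x:ℂ) + t * Complex.I)) volume a c1 := by
      refine ContinuousOn.intervalIntegrable ?_
      rw [uIcc_of_le hac]
      intro x hx
      have h1 : DifferentiableAt ℂ Φp ((x:ℂ) + t * Complex.I) :=
        hΦpd _ (by rw [hre]; linarith [hx.1]) (by rw [him]; linarith) (by rw [him])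
      have h2 : ContinuousAt (fun x : ℝ => ((x:ℂ) + t * Complex.I)) x := by fun_prop
      exact (ContinuousAt.comp (f := fun x : ℝ => ((x:ℂ) + t * Complex.I)) (g := Φp)
        h1.continuousAt h2).continuousWithinAt
    rw [← intervalIntegral.integral_sub i1 i2, ← intervalIntegral.integral_const_mul]
    refine intervalIntegral.integral_congr (fun x _ => ?_)
    have hz : (Z ((x:ℂ) + t * Complex.I)).re = 0 := by rw [hZre, him]; ring
    have hj := hjump _ hz
    rw [hΦm, hΦp]
    simp only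
    rw [← sub_mul, hj]
    have hZv : Z ((x:ℂ) + t * Complex.I) = Δ * (Complex.I * ((x - a : ℝ) : ℂ)) := by
      rw [hZ]
      simp only
      push_cast
      linear_combination ((Δ:ℂ) * t) * Complex.I_mul_I
    rw [hZv, mul_pow, mul_pow]
    have hIn : Complex.I ^ n = (((-1) ^ (n / 2) : ℝ) : ℂ) := by
      obtain ⟨k, hk⟩ := hn
      have : n / 2 = k := by omega
      rw [this, hk, ← two_mul, pow_mul, Complex.I_sq]
      push_cast
      ring
    rw [hIn]
    push_cast
    ring
  -- the point on the line `a`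
  have hZa : ∀ y : ℝ, Z ((a:ℂ) + y * Complex.I) = ((Δ * (t - y) : ℝ) : ℂ) := by
    intro y
    rw [hZ]
    simp only
    push_cast
    linear_combination ((Δ:ℂ) * y) * Complex.I_mul_I
  have hcontp : ContinuousOn (fun y : ℝ => Φp ((a:ℂ) + y * Complex.I)) (Icc h0 t) := by
    intro y hy
    have h1 : DifferentiableAt ℂ Φp ((a:ℂ) + y * Complex.I) :=
      hΦpd _ (by rw [hre]; linarith) (by rw [him]; linarith [hy.1]) (by rw [him]; exact hy.2)
    have h2 : ContinuousAt (fun y : ℝ => ((a:ℂ) + y * Complex.I)) y := by fun_prop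
    exact (ContinuousAt.comp (f := fun y : ℝ => ((a:ℂ) + y * Complex.I)) (g := Φp)
      h1.continuousAt h2).continuousWithinAt
  have hNac : ContinuousOn (fun y : ℝ => Na a y) (Ici h0) := by
    intro y hy
    have hy' : h0 ≤ y := hy
    have h1 : DifferentiableAt ℂ ld ((a:ℂ) + y * Complex.I) :=
      hldd _ (by rw [hre]; linarith) (by rw [him]; linarith)
    have h2 : ContinuousAt (fun y : ℝ => ((a:ℂ) + y * Complex.I)) y := by fun_prop
    have h3 : ContinuousAt (fun y : ℝ => ld ((a:ℂ) + y * Complex.I)) y :=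
      ContinuousAt.comp (f := fun y : ℝ => ((a:ℂ) + y * Complex.I)) (g := ld)
        h1.continuousAt h2
    have h5 : ContinuousAt (fun y : ℝ => Na a y) y := by
      unfold Na
      exact ((Complex.continuous_re.continuousAt.comp h3).neg).max continuousAt_const
    exact h5.continuousWithinAt
  have hqc : ContinuousOn (fun y : ℝ => (q ((-(Δ * (t - y)) : ℝ) : ℂ)).re) (Iic t) := by
    intro y hy
    have hy' : y ≤ t := hy
    have h4 : ((-(Δ * (t - y)) : ℝ) : ℂ) ∈ {z : ℂ | z.re < δ} := by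
      show (((-(Δ * (t - y)) : ℝ) : ℂ)).re < δ
      rw [Complex.ofReal_re]
      have : 0 ≤ Δ * (t - y) := mul_nonneg hΔ0.le (by linarith)
      linarith
    have h1 := (hqd.differentiableAt (hδo.mem_nhds h4)).continuousAt
    have h2 : ContinuousAt (fun y : ℝ => ((-(Δ * (t - y)) : ℝ) : ℂ)) y := by fun_prop
    exact (Complex.continuous_re.continuousAt.comp (ContinuousAt.comp
      (f := fun y : ℝ => ((-(Δ * (t - y)) : ℝ) : ℂ)) (g := q) h1 h2)).continuousWithinAt
  have hpc : ContinuousOn (fun y : ℝ => (p ((Δ * (t - y) : ℝ) : ℂ)).re) (Ici t) := by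
    intro y hy
    have hy' : t ≤ y := hy
    have h4 : ((Δ * (t - y) : ℝ) : ℂ) ∈ {z : ℂ | z.re < δ} := by
      show (((Δ * (t - y) : ℝ) : ℂ)).re < δ
      rw [Complex.ofReal_re]
      have : Δ * (t - y) ≤ 0 := mul_nonpos_of_nonneg_of_nonpos hΔ0.le (by linarith)
      linarith
    have h1 := (hpd.differentiableAt (hδo.mem_nhds h4)).continuousAt
    have h2 : ContinuousAt (fun y : ℝ => ((Δ * (t - y) : ℝ) : ℂ)) y := by fun_prop
    exact (Complex.continuous_re.continuousAt.comp (ContinuousAt.comp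
      (f := fun y : ℝ => ((Δ * (t - y) : ℝ) : ℂ)) (g := p) h1 h2)).continuousWithinAt
  have hA1 : -(∫ y in h0..t, (q ((-(Δ * (t - y)) : ℝ) : ℂ)).re * Na a y) ≤
      (∫ y in h0..t, Φp ((a:ℂ) + y * Complex.I)).re := by
    have hi : IntervalIntegrable (fun y : ℝ => Φp ((a:ℂ) + y * Complex.I)) volume h0 t := by
      refine ContinuousOn.intervalIntegrable ?_
      rw [uIcc_of_le ht.le]; exact hcontp
    have e1 : (∫ y in h0..t, Φp ((a:ℂ) + y * Complex.I)).re =
        ∫ y in h0..t, (Φp ((a:ℂ) + y * Complex.I)).re := by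
      have := Complex.reCLM.intervalIntegral_comp_comm hi
      simpa using this.symm
    rw [e1, ← intervalIntegral.integral_neg]
    refine intervalIntegral.integral_mono_on_of_le_Ioo ht.le ?_ ?_ ?_
    · refine ContinuousOn.intervalIntegrable ?_
      rw [uIcc_of_le ht.le]
      exact ((hqc.mono (fun y hy => hy.2)).mul (hNac.mono (fun y hy => hy.1))).neg
    · refine ContinuousOn.intervalIntegrable ?_
      rw [uIcc_of_le ht.le]
      exact Complex.continuous_re.comp_continuousOn hcontp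
    · intro y hy
      have hneg : (-(Δ * (t - y))) < 0 := by
        have : 0 < Δ * (t - y) := mul_pos hΔ0 (by linarith [hy.2])
        linarith
      obtain ⟨-, -, r1, r2⟩ := hreal _ hneg
      rw [hΦp]
      simp only
      rw [hZa, ← Complex.ofReal_neg, Complex.mul_re, r1, zero_mul, sub_zero]
      have h3 : -(ld ((a:ℂ) + y * Complex.I)).re ≤ Na a y := le_max_left _ _
      nlinarith
  have hA2 : -(∫ y in Ioi t, (p ((Δ * (t - y) : ℝ) : ℂ)).re * Na a y) ≤
      (∫ y in Ioi t, Φm ((a:ℂ) + y * Complex.I)).re := by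
    have e1 : (∫ y in Ioi t, Φm ((a:ℂ) + y * Complex.I)).re =
        ∫ y in Ioi t, (Φm ((a:ℂ) + y * Complex.I)).re := by
      have := Complex.reCLM.integral_comp_comm hma_int
      simpa using this.symm
    rw [e1, ← integral_neg]
    have hNaI : IntegrableOn (fun y : ℝ => (p ((Δ * (t - y) : ℝ) : ℂ)).re * Na a y) (Ioi t) := by
      refine Integrable.mono hma_int ?_ ?_
      · refine ContinuousOn.aestronglyMeasurable ?_ measurableSet_Ioi
        exact (hpc.mono Ioi_subset_Ici_self).mul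
          (hNac.mono (fun y hy => (ht.le.trans (le_of_lt hy) : h0 ≤ y)))
      · rw [ae_restrict_iff' measurableSet_Ioi]
        refine Eventually.of_forall fun y hy => ?_
        rw [hΦm]
        simp only [norm_mul]
        rw [hZa]
        refine mul_le_mul (Complex.abs_re_le_norm _) ?_ (norm_nonneg _) (norm_nonneg _)
        rw [Real.norm_of_nonneg (Na_nonneg _ _)]
        refine max_le ?_ (norm_nonneg _)
        exact (neg_le_abs _).trans (Complex.abs_re_le_norm _)
    refine setIntegral_mono_on hNaI.neg ?_ measurableSet_Ioi ?_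
    · exact hma_int.re
    · intro y hy
      have hy' : t < y := hy
      have hneg : (Δ * (t - y)) < 0 := mul_neg_of_pos_of_neg hΔ0 (by linarith)
      obtain ⟨r1, r2, -, -⟩ := hreal _ hneg
      rw [hΦm]
      simp only [Pi.neg_apply]
      rw [hZa, Complex.mul_re, r1, zero_mul, sub_zero]
      have h3 : -(ld ((a:ℂ) + y * Complex.I)).re ≤ Na a y := le_max_left _ _
      nlinarith
  -- the remaining sides
  have hbot : ‖∫ x in a..c1, Φp ((x:ℂ) + h0 * Complex.I)‖ ≤ K * E * B := by
    have hb : ∀ x ∈ uIoc a c1, ‖Φp ((x:ℂ) + h0 * Complex.I)‖ ≤ K * E * B := by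
      intro x hx
      rw [uIoc_of_le hac] at hx
      rw [hΦp]
      simp only [norm_mul]
      have b1 := hqb ((x:ℂ) + h0 * Complex.I) (by rw [hre]; exact hx.1.le)
        (by rw [hre]; exact hx.2) (by rw [him]; exact ht.le)
      have b2 := hB x (by linarith [hx.1]) (by linarith [hx.2])
      have b3 : K * E / (1 + (((x:ℂ) + h0 * Complex.I).im - t) ^ 2) ≤ K * E := by
        refine div_le_self (by positivity) ?_
        nlinarith [sq_nonneg (((x:ℂ) + h0 * Complex.I).im - t)]
      exact mul_le_mul (b1.trans b3) b2 (norm_nonneg _) (by positivity)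
    have := intervalIntegral.norm_integral_le_of_norm_le_const hb
    rw [abs_of_nonneg (by linarith : 0 ≤ c1 - a)] at this
    refine this.trans ?_
    have h5 : 0 ≤ K * E * B := by positivity
    nlinarith
  have hR1 : ‖∫ y in h0..t, Φp ((c1:ℂ) + y * Complex.I)‖ ≤ K * E * L * π := by
    rw [intervalIntegral.integral_of_le ht.le]
    have hb : ∀ y ∈ Ioc h0 t, ‖Φp ((c1:ℂ) + y * Complex.I)‖ ≤ (K * E * L) *
        (1 + (y - t) ^ 2)⁻¹ := by
      intro y hy
      rw [hΦp]
      simp only [norm_mul]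
      have b1 := hqb ((c1:ℂ) + y * Complex.I) (by rw [hre]; exact hac) (by rw [hre])
        (by rw [him]; exact hy.2)
      rw [him] at b1
      calc _ ≤ (K * E / (1 + (y - t) ^ 2)) * L :=
            mul_le_mul b1 (hL y) (norm_nonneg _) (by positivity)
        _ = _ := by ring
    refine (norm_integral_le_of_norm_le (hcauL _ measurableSet_Ioc).1 ?_).trans
      (hcauL _ measurableSet_Ioc).2
    rw [ae_restrict_iff' measurableSet_Ioc]
    exact Eventually.of_forall hb
  have hR2 : ‖∫ y in Ioi t, Φm ((c1:ℂ) + y * Complex.I)‖ ≤ K * E * L * π := by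
    refine (norm_integral_le_of_norm_le (hcauL _ measurableSet_Ioi).1 ?_).trans
      (hcauL _ measurableSet_Ioi).2
    rw [ae_restrict_iff' measurableSet_Ioi]
    exact Eventually.of_forall hmc_bd
  have hsum : ((c * Δ ^ n * (-1) ^ (n / 2) : ℝ) : ℂ) * (∫ x in a..c1, (((x - a : ℝ) : ℂ)) ^ n *
      ld ((x:ℂ) + t * Complex.I)) + (∫ x in a..c1, Φp ((x:ℂ) + h0 * Complex.I)) +
      Complex.I * ((∫ y in h0..t, Φp ((c1:ℂ) + y * Complex.I)) +
        (∫ y in Ioi t, Φm ((c1:ℂ) + y * Complex.I))) =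
      Complex.I * ((∫ y in h0..t, Φp ((a:ℂ) + y * Complex.I)) +
        (∫ y in Ioi t, Φm ((a:ℂ) + y * Complex.I))) := by
    rw [← hjmp]
    linear_combination rect1 + rect2'
  have him2 := congrArg Complex.im hsum
  rw [Complex.add_im, Complex.add_im, Complex.im_ofReal_mul, Complex.I_mul_im, Complex.I_mul_im,
    Complex.add_re, Complex.add_re] at him2
  have k1 := (abs_le.mp ((Complex.abs_im_le_norm _).trans hbot)).2
  have k2 := (abs_le.mp ((Complex.abs_re_le_norm _).trans hR1)).2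
  have k3 := (abs_le.mp ((Complex.abs_re_le_norm _).trans hR2)).2
  have k4 : K * E * (B + 2 * π * L) = K * E * B + K * E * L * π + K * E * L * π := by ring
  rw [k4]
  linarith

end Pool.Agent.Helper79.SE
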