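import Pool.Agent.Helper79.Shift

/-!
Passage to the critical line in the contour inequality.
-/

namespace Pool.Agent.Helper79.SE

open MeasureTheory Set Filter Topology

open scoped Real

/-- The ordinates above `1` are countable. -/
theorem ord_countable : {y : ℝ | 1 < y ∧ riemannZeta ((1 / 2 : ℝ) + y * Complex.I) = 0}.Countable := by
  have h : {y : ℝ | 1 < y ∧ riemannZeta ((1 / 2 : ℝ) + y * Complex.I) = 0} ⊆
      ⋃ N : ℕ, Complex.im '' (H370.zset riemannZeta 1 N) := by
    intro y hy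
    obtain ⟨N, hN⟩ := exists_nat_ge y
    rw [mem_iUnion]
    refine ⟨N, ((1 / 2 : ℝ) + y * Complex.I), ⟨?_, ?_, ?_, ?_, hy.2⟩, by simp⟩
    · simp
    · simp; norm_num
    · simpa using hy.1
    · simpa using hN
  refine (countable_iUnion fun N => ?_).mono h
  exact ((H370.zset_finite H370.good_zeta 1 N le_rfl).countable).image _

theorem Na_upper (hRH : RiemannHypothesis) : ∃ D : ℝ, 0 < D ∧ ∀ y : ℝ, 3 ≤ y → ∀ a : ℝ,
    1 / 2 < a → a ≤ 3 → Na a y ≤ D * Real.log y := by
  obtain ⟨D, hD, h⟩ := ld_re_lower hRH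
  refine ⟨D, hD, fun y hy a h1 h2 => ?_⟩
  have h3 := h y hy a h1 h2
  rw [mk_eq] at h3
  have : 0 ≤ Real.log y := Real.log_nonneg (by linarith)
  exact max_le (by linarith) (by positivity)

theorem Na_half : ∃ C : ℝ, 0 < C ∧ ∀ y : ℝ, 1 ≤ y → Na (1 / 2) y ≤ Real.log y / 2 + C := by
  obtain ⟨C, hC, h⟩ := ld_re_half
  refine ⟨C, hC, fun y hy => ?_⟩
  have hl : 0 ≤ Real.log y := Real.log_nonneg hy
  by_cases h0 : riemannZeta (((1 / 2 : ℝ) : ℂ) + y * Complex.I) = 0
  · have : ld (((1 / 2 : ℝ) : ℂ) + y * Complex.I) = 0 := by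
      unfold ld; rw [h0, div_zero]
    unfold Na
    rw [this]
    simp
    positivity
  · have h1 := h y hy (by rw [mk_eq]; exact h0)
    rw [mk_eq] at h1
    have h2 := (abs_le.mp h1).1
    unfold Na
    exact max_le (by linarith) (by positivity)

theorem Na_tendsto {y : ℝ} (hy : 0 < y) (h0 : riemannZeta ((1 / 2 : ℝ) + y * Complex.I) ≠ 0) :
    Tendsto (fun a => Na a y) (𝓝[>] (1 / 2)) (𝓝 (Na (1 / 2) y)) := by
  have h1 : ContinuousAt ld (((1 / 2 : ℝ) : ℂ) + y * Complex.I) :=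
    (ld_analyticAt (ne_one_of_im (by simpa using hy.ne')) h0).continuousAt
  have h2 : ContinuousAt (fun a : ℝ => ((a:ℂ) + y * Complex.I)) (1 / 2) := by fun_prop
  have h3 : ContinuousAt (fun a : ℝ => ld ((a:ℂ) + y * Complex.I)) (1 / 2) :=
    ContinuousAt.comp (f := fun a : ℝ => ((a:ℂ) + y * Complex.I)) (g := ld) h1 h2
  have h5 : ContinuousAt (fun a : ℝ => Na a y) (1 / 2) := by
    unfold Na
    exact ((Complex.continuous_re.continuousAt.comp h3).neg).max continuousAt_const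
  exact h5.tendsto.mono_left nhdsWithin_le_nhds

/-- Dominated convergence to the critical line. -/
theorem Na_dct (hRH : RiemannHypothesis) {S : Set ℝ} (hS : MeasurableSet S) (hS3 : S ⊆ Ioi 3)
    {w : ℝ → ℝ} (hw : AEStronglyMeasurable w (volume.restrict S))
    (hi : IntegrableOn (fun y => |w y| * Real.log y) S) :
    Tendsto (fun a => ∫ y in S, w y * Na a y) (𝓝[>] (1 / 2)) (𝓝 (∫ y in S, w y * Na (1 / 2) y)) := by
  obtain ⟨D, hD, hup⟩ := Na_upper hRH
  refine tendsto_integral_filter_of_dominated_convergence (fun y => D * (|w y| * Real.log y))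
    ?_ ?_ (hi.const_mul D) ?_
  · have hmem : Ioo (1 / 2 : ℝ) 3 ∈ 𝓝[>] (1 / 2 : ℝ) := Ioo_mem_nhdsGT (by norm_num)
    filter_upwards [hmem] with a ha
    refine hw.mul ?_
    have hc : ContinuousOn (fun y : ℝ => Na a y) (Ioi 3) := by
      intro y hy
      have hy' : (3:ℝ) < y := hy
      have h1 : DifferentiableAt ℂ ld ((a:ℂ) + y * Complex.I) :=
        (ld_analyticAt_im hRH (by simpa using ha.1) (by simp; linarith)).differentiableAt
      have h2 : ContinuousAt (fun y : ℝ => ((a:ℂ) + y * Complex.I)) y := by fun_prop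
      have h3 : ContinuousAt (fun y : ℝ => ld ((a:ℂ) + y * Complex.I)) y :=
        ContinuousAt.comp (f := fun y : ℝ => ((a:ℂ) + y * Complex.I)) (g := ld)
          h1.continuousAt h2
      have h5 : ContinuousAt (fun y : ℝ => Na a y) y := by
        unfold Na
        exact ((Complex.continuous_re.continuousAt.comp h3).neg).max continuousAt_const
      exact h5.continuousWithinAt
    exact (hc.mono hS3).aestronglyMeasurable hS
  · have hmem : Ioo (1 / 2 : ℝ) 3 ∈ 𝓝[>] (1 / 2 : ℝ) := Ioo_mem_nhdsGT (by norm_num)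
    filter_upwards [hmem] with a ha
    rw [ae_restrict_iff' hS]
    refine Eventually.of_forall fun y hy => ?_
    have hy3 : (3:ℝ) < y := hS3 hy
    rw [norm_mul, Real.norm_eq_abs, Real.norm_of_nonneg (Na_nonneg _ _)]
    have := hup y hy3.le a ha.1 ha.2.le
    calc |w y| * Na a y ≤ |w y| * (D * Real.log y) := by gcongr
      _ = _ := by ring
  · have hnull : ∀ᵐ y ∂(volume : Measure ℝ),
        y ∉ {y : ℝ | 1 < y ∧ riemannZeta ((1 / 2 : ℝ) + y * Complex.I) = 0} :=
      (compl_mem_ae_iff).mpr (ord_countable.measure_zero _)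
    rw [ae_restrict_iff' hS]
    filter_upwards [hnull] with y hy hyS
    have hy3 : (3:ℝ) < y := hS3 hyS
    have h0 : riemannZeta ((1 / 2 : ℝ) + y * Complex.I) ≠ 0 := fun h => hy ⟨by linarith, h⟩
    exact (Na_tendsto (by linarith) h0).const_mul (w y)

theorem pow_exp_int (n : ℕ) : IntegrableOn (fun y : ℝ => y ^ n * (2:ℝ) ^ (-y)) (Ioi 0) := by
  have h := integrableOn_rpow_mul_exp_neg_mul_rpow (p := 1) (s := n) (b := Real.log 2)
    (by have : (0:ℝ) ≤ n := Nat.cast_nonneg n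
        linarith) one_pos (Real.log_pos (by norm_num))
  refine h.congr_fun (fun y hy => ?_) measurableSet_Ioi
  simp only [Real.rpow_natCast, Real.rpow_one]
  rw [Real.rpow_def_of_pos (by norm_num)]
  congr 2
  ring

/-- The `n`-th moment of `ld` along a horizontal ray. -/
noncomputable def Fint (n : ℕ) (a t : ℝ) : ℂ :=
  ∫ y in Ioi (0:ℝ), (y:ℂ) ^ n * ld ((a:ℂ) + y + t * Complex.I)

theorem ld_cont_x (hRH : RiemannHypothesis) {a t : ℝ} (ha : 1 / 2 < a) (ht : t ≠ 0) :
    ContinuousOn (fun x : ℝ => ld ((x:ℂ) + t * Complex.I)) (Ici a) := by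
  intro x hx
  have hx' : a ≤ x := hx
  have h1 : DifferentiableAt ℂ ld ((x:ℂ) + t * Complex.I) :=
    (ld_analyticAt_im hRH (by simp; linarith) (by simpa using ht)).differentiableAt
  have h2 : ContinuousAt (fun x : ℝ => ((x:ℂ) + t * Complex.I)) x := by fun_prop
  exact (ContinuousAt.comp (f := fun x : ℝ => ((x:ℂ) + t * Complex.I)) (g := ld)
    h1.continuousAt h2).continuousWithinAt

/-- Splitting of the moment at abscissa `c1`. -/
theorem Fint_split (hRH : RiemannHypothesis) (n : ℕ) {c1 : ℝ} (hc1 : 1 < c1) :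
    ∃ T : ℝ, 0 < T ∧ ∀ a t : ℝ, 1 / 2 < a → a < c1 → t ≠ 0 →
      ‖Fint n a t - ∫ x in a..c1, (((x - a : ℝ) : ℂ)) ^ n * ld ((x:ℂ) + t * Complex.I)‖ ≤ T := by
  obtain ⟨K, hK, hb⟩ := ld_bound hc1
  have hint : IntegrableOn (fun y : ℝ => K * (y ^ n * (2:ℝ) ^ (-y))) (Ioi 0) :=
    (pow_exp_int n).const_mul K
  refine ⟨(∫ y in Ioi (0:ℝ), K * (y ^ n * (2:ℝ) ^ (-y))) + 1, ?_, fun a t ha hac ht => ?_⟩
  · have : 0 ≤ ∫ y in Ioi (0:ℝ), K * (y ^ n * (2:ℝ) ^ (-y)) := by
      refine setIntegral_nonneg measurableSet_Ioi (fun y hy => ?_)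
      have : (0:ℝ) < y := hy
      positivity
    linarith
  · have hcont : ContinuousOn (fun x : ℝ => (((x - a : ℝ) : ℂ)) ^ n *
        ld ((x:ℂ) + t * Complex.I)) (Ici a) :=
      ContinuousOn.mul (by fun_prop) (ld_cont_x hRH ha ht)
    have hbd : ∀ x ∈ Ioi c1, ‖(((x - a : ℝ) : ℂ)) ^ n * ld ((x:ℂ) + t * Complex.I)‖ ≤
        K * (x ^ n * (2:ℝ) ^ (-x)) := by
      intro x hx
      have hx' : c1 < x := hx
      have h1 := hb ((x:ℂ) + t * Complex.I) (by simpa using hx'.le)
      have h2 : ((x:ℂ) + t * Complex.I).re = x := by simp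
      rw [h2] at h1
      rw [norm_mul, norm_pow, Complex.norm_real, Real.norm_eq_abs,
        abs_of_nonneg (by linarith : 0 ≤ x - a)]
      have h3 : (x - a) ^ n ≤ x ^ n := pow_le_pow_left₀ (by linarith) (by linarith) n
      calc _ ≤ x ^ n * (K * (2:ℝ) ^ (-x)) :=
            mul_le_mul h3 h1 (norm_nonneg _) (pow_nonneg (by linarith) n)
        _ = _ := by ring
    have hi1 : IntegrableOn (fun x : ℝ => (((x - a : ℝ) : ℂ)) ^ n *
        ld ((x:ℂ) + t * Complex.I)) (Ioi c1) := by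
      refine Integrable.mono' (hint.mono_set (Ioi_subset_Ioi (by linarith)))
        ((hcont.mono (fun x hx => (hac.le.trans (le_of_lt hx) : a ≤ x))).aestronglyMeasurable
          measurableSet_Ioi) ?_
      rw [ae_restrict_iff' measurableSet_Ioi]
      exact Eventually.of_forall hbd
    have hi0 : IntegrableOn (fun x : ℝ => (((x - a : ℝ) : ℂ)) ^ n *
        ld ((x:ℂ) + t * Complex.I)) (Ioc a c1) := by
      have : ContinuousOn (fun x : ℝ => (((x - a : ℝ) : ℂ)) ^ n *
        ld ((x:ℂ) + t * Complex.I)) (Icc a c1) := hcont.mono Icc_subset_Ici_self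
      exact (this.integrableOn_Icc).mono_set Ioc_subset_Icc_self
    have hshift : Fint n a t = ∫ x in Ioi a, (((x - a : ℝ) : ℂ)) ^ n *
        ld ((x:ℂ) + t * Complex.I) := by
      unfold Fint
      rw [← ioi_shift_integral (fun y : ℝ => (y:ℂ) ^ n * ld ((a:ℂ) + y + t * Complex.I)) a]
      refine setIntegral_congr_fun measurableSet_Ioi (fun x _ => ?_)
      congr 2
      push_cast
      ring
    have hun : Ioi a = Ioc a c1 ∪ Ioi c1 := (Ioc_union_Ioi_eq_Ioi hac.le).symm
    have hdis : Disjoint (Ioc a c1) (Ioi c1) := Ioc_disjoint_Ioi le_rfl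
    rw [hshift, hun, setIntegral_union hdis measurableSet_Ioi hi0 hi1,
      intervalIntegral.integral_of_le hac.le, add_sub_cancel_left]
    have h5 : ‖∫ x in Ioi c1, (((x - a : ℝ) : ℂ)) ^ n * ld ((x:ℂ) + t * Complex.I)‖ ≤
        ∫ x in Ioi c1, K * (x ^ n * (2:ℝ) ^ (-x)) := by
      refine norm_integral_le_of_norm_le (hint.mono_set (Ioi_subset_Ioi (by linarith))) ?_
      rw [ae_restrict_iff' measurableSet_Ioi]
      exact Eventually.of_forall hbd
    have h6 : ∫ x in Ioi c1, K * (x ^ n * (2:ℝ) ^ (-x)) ≤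
        ∫ x in Ioi (0:ℝ), K * (x ^ n * (2:ℝ) ^ (-x)) := by
      refine setIntegral_mono_set hint ?_ (Ioi_subset_Ioi (by linarith)).eventuallyLE
      rw [EventuallyLE, ae_restrict_iff' measurableSet_Ioi]
      refine Eventually.of_forall fun y hy => ?_
      have : (0:ℝ) < y := hy
      simp only [Pi.zero_apply]
      positivity
    linarith

end Pool.Agent.Helper79.SE
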