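import Pool.Agent.Helper79.Shift2

/-!
Moments of the logarithmic derivative: differentiation in the height, integration by parts.
-/

namespace Pool.Agent.Helper79.SE

open MeasureTheory Set Filter Topology

open scoped Real

/-- Local analyticity and decay of `ld` along a horizontal ray. -/
def GoodRay (a t0 : ℝ) : Prop :=
  ∃ r : ℝ, 0 < r ∧ ∃ A : ℝ, 0 < A ∧ ∀ z : ℂ, a - r ≤ z.re → |z.im - t0| ≤ 2 * r →
    AnalyticAt ℂ ld z ∧ ‖ld z‖ ≤ A * (2:ℝ) ^ (-z.re)

theorem goodRay_right {a : ℝ} (ha : 1 < a) (t0 : ℝ) : GoodRay a t0 := by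
  have h1 : 1 < a - (a - 1) / 2 := by linarith
  obtain ⟨K, hK, hb⟩ := ld_bound h1
  refine ⟨(a - 1) / 2, by linarith, K, hK, fun z hz _ => ⟨ld_analyticAt_re (by linarith), hb z hz⟩⟩

theorem goodRay_up (hRH : RiemannHypothesis) {a t0 : ℝ} (ha : 1 / 2 < a) (ht : 0 < t0) :
    GoodRay a t0 := by
  set r : ℝ := min (a - 1 / 2) t0 / 4 with hr
  have hr0 : 0 < r := by
    have : 0 < min (a - 1 / 2) t0 := lt_min (by linarith) ht
    positivity
  have hr1 : r ≤ (a - 1 / 2) / 4 := by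
    have := min_le_left (a - 1 / 2) t0
    rw [hr]; linarith
  have hr2 : r ≤ t0 / 4 := by
    have := min_le_right (a - 1 / 2) t0
    rw [hr]; linarith
  obtain ⟨K, hK, hb⟩ := ld_bound (c := 2) (by norm_num)
  have han : ∀ z : ℂ, a - r ≤ z.re → |z.im - t0| ≤ 2 * r → AnalyticAt ℂ ld z := by
    intro z h1 h2
    rw [abs_le] at h2
    exact ld_analyticAt_im hRH (by linarith) (by
      have : 0 < z.im := by linarith [h2.1]
      exact this.ne')
  have hcomp : IsCompact (Icc (a - r) 3 ×ℂ Icc (t0 - 2 * r) (t0 + 2 * r)) :=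
    isCompact_Icc.reProdIm isCompact_Icc
  have hcont : ContinuousOn ld (Icc (a - r) 3 ×ℂ Icc (t0 - 2 * r) (t0 + 2 * r)) := by
    intro z hz
    rw [Complex.mem_reProdIm] at hz
    exact (han z hz.1.1 (by rw [abs_le]; constructor <;> linarith [hz.2.1, hz.2.2])).continuousAt.continuousWithinAt
  obtain ⟨M, hM⟩ := hcomp.exists_bound_of_continuousOn hcont
  refine ⟨r, hr0, |M| * 8 + K, by positivity, fun z h1 h2 => ⟨han z h1 h2, ?_⟩⟩
  have hp : 0 < (2:ℝ) ^ (-z.re) := by positivity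
  rcases le_or_gt z.re 3 with h3 | h3
  · have h4 := hM z (by
      rw [Complex.mem_reProdIm]
      rw [abs_le] at h2
      exact ⟨⟨h1, h3⟩, ⟨by linarith [h2.1], by linarith [h2.2]⟩⟩)
    have h5 : (1:ℝ) ≤ 8 * (2:ℝ) ^ (-z.re) := by
      have : (8:ℝ) = (2:ℝ) ^ (3:ℝ) := by norm_num
      rw [this, ← Real.rpow_add (by norm_num)]
      exact Real.one_le_rpow (by norm_num) (by linarith)
    have h6 := le_abs_self M
    have h7 := abs_nonneg M
    nlinarith
  · have h4 := hb z (by linarith)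
    have h7 := abs_nonneg M
    nlinarith

/-- Consequences on the ray: derivative bound. -/
theorem goodRay_deriv {a t0 : ℝ} (h : GoodRay a t0) :
    ∃ r : ℝ, 0 < r ∧ ∃ A : ℝ, 0 < A ∧ ∀ (y t : ℝ), 0 ≤ y → |t - t0| ≤ r →
      AnalyticAt ℂ ld ((a:ℂ) + y + t * Complex.I) ∧
      ‖ld ((a:ℂ) + y + t * Complex.I)‖ ≤ A * (2:ℝ) ^ (-y) ∧
      ‖deriv ld ((a:ℂ) + y + t * Complex.I)‖ ≤ A * (2:ℝ) ^ (-y) := by
  obtain ⟨r, hr, A, hA, hz⟩ := h
  have hre : ∀ y t : ℝ, ((a:ℂ) + y + t * Complex.I).re = a + y := fun y t => by simp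
  have him : ∀ y t : ℝ, ((a:ℂ) + y + t * Complex.I).im = t := fun y t => by simp
  refine ⟨r, hr, A * (2:ℝ) ^ (-a) + A * (2:ℝ) ^ (-a + r) / r, by positivity, fun y t hy ht => ?_⟩
  have h0 := hz ((a:ℂ) + y + t * Complex.I) (by rw [hre]; linarith) (by rw [him]; linarith)
  rw [hre] at h0
  have e1 : (2:ℝ) ^ (-(a + y)) = (2:ℝ) ^ (-a) * (2:ℝ) ^ (-y) := by
    rw [← Real.rpow_add (by norm_num)]; congr 1; ring
  have hp : 0 < (2:ℝ) ^ (-y) := by positivity
  refine ⟨h0.1, ?_, ?_⟩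
  · rw [e1] at h0
    have h2 : 0 ≤ A * (2:ℝ) ^ (-a + r) / r * (2:ℝ) ^ (-y) := by positivity
    have h3 := h0.2
    nlinarith
  · have hsph : ∀ z ∈ Metric.sphere ((a:ℂ) + y + t * Complex.I) r,
        ‖ld z‖ ≤ A * (2:ℝ) ^ (-a + r) * (2:ℝ) ^ (-y) := by
      intro z hzs
      rw [Metric.mem_sphere, dist_eq_norm] at hzs
      have k1 := (Complex.abs_re_le_norm (z - ((a:ℂ) + y + t * Complex.I)))
      have k2 := (Complex.abs_im_le_norm (z - ((a:ℂ) + y + t * Complex.I)))
      rw [hzs, Complex.sub_re, hre, abs_le] at k1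
      rw [hzs, Complex.sub_im, him] at k2
      have k3 := hz z (by linarith [k1.1]) (by
        calc |z.im - t0| = |(z.im - t) + (t - t0)| := by congr 1; ring
          _ ≤ |z.im - t| + |t - t0| := abs_add_le _ _
          _ ≤ 2 * r := by linarith)
      refine k3.2.trans ?_
      rw [mul_assoc]
      refine mul_le_mul_of_nonneg_left ?_ hA.le
      rw [← Real.rpow_add (by norm_num)]
      exact Real.rpow_le_rpow_of_exponent_le (by norm_num) (by linarith [k1.1])
    have hdc : DiffContOnCl ℂ ld (Metric.ball ((a:ℂ) + y + t * Complex.I) r) := by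
      apply DifferentiableOn.diffContOnCl
      rw [closure_ball _ hr.ne']
      intro z hzb
      rw [Metric.mem_closedBall, dist_eq_norm] at hzb
      have k1 := (Complex.abs_re_le_norm (z - ((a:ℂ) + y + t * Complex.I))).trans hzb
      have k2 := (Complex.abs_im_le_norm (z - ((a:ℂ) + y + t * Complex.I))).trans hzb
      rw [Complex.sub_re, hre, abs_le] at k1
      rw [Complex.sub_im, him] at k2
      have k3 := hz z (by linarith [k1.1]) (by
        calc |z.im - t0| = |(z.im - t) + (t - t0)| := by congr 1; ring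
          _ ≤ |z.im - t| + |t - t0| := abs_add_le _ _
          _ ≤ 2 * r := by linarith)
      exact k3.1.differentiableAt.differentiableWithinAt
    have h5 := Complex.norm_deriv_le_of_forall_mem_sphere_norm_le hr hdc hsph
    refine h5.trans ?_
    have h6 : A * (2:ℝ) ^ (-a + r) * (2:ℝ) ^ (-y) / r =
        A * (2:ℝ) ^ (-a + r) / r * (2:ℝ) ^ (-y) := by ring
    rw [h6]
    have h7 : 0 ≤ A * (2:ℝ) ^ (-a) * (2:ℝ) ^ (-y) := by positivity
    nlinarith

theorem two_pow_tendsto (m : ℕ) : Tendsto (fun y : ℝ => y ^ m * (2:ℝ) ^ (-y)) atTop (𝓝 0) := by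
  have h := tendsto_rpow_mul_exp_neg_mul_atTop_nhds_zero (m:ℝ) (Real.log 2)
    (Real.log_pos (by norm_num))
  refine h.congr' ?_
  filter_upwards [eventually_gt_atTop 0] with y hy
  rw [Real.rpow_natCast, Real.rpow_def_of_pos (by norm_num)]
  congr 2
  ring

/-- Integrability along a good ray. -/
theorem goodRay_int {a t0 : ℝ} (h : GoodRay a t0) (m : ℕ) :
    IntegrableOn (fun y : ℝ => (y:ℂ) ^ m * ld ((a:ℂ) + y + t0 * Complex.I)) (Ioi 0) ∧
    IntegrableOn (fun y : ℝ => (y:ℂ) ^ m * deriv ld ((a:ℂ) + y + t0 * Complex.I)) (Ioi 0) := by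
  obtain ⟨r, hr, A, hA, hz⟩ := goodRay_deriv h
  have hpt := fun y hy => hz y t0 hy (by simp; exact hr.le)
  have hi : IntegrableOn (fun y : ℝ => A * (y ^ m * (2:ℝ) ^ (-y))) (Ioi 0) :=
    (pow_exp_int m).const_mul A
  have hline : Continuous (fun y : ℝ => ((a:ℂ) + y + t0 * Complex.I)) := by fun_prop
  constructor
  · refine Integrable.mono' hi ?_ ?_
    · refine ContinuousOn.aestronglyMeasurable ?_ measurableSet_Ioi
      refine ContinuousOn.mul (by fun_prop) ?_
      intro y hy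
      have h1 := (hpt y (le_of_lt hy)).1.continuousAt
      exact (ContinuousAt.comp (f := fun y : ℝ => ((a:ℂ) + y + t0 * Complex.I)) (g := ld)
        h1 hline.continuousAt).continuousWithinAt
    · rw [ae_restrict_iff' measurableSet_Ioi]
      refine Eventually.of_forall fun y hy => ?_
      have hy' : (0:ℝ) < y := hy
      have h1 := (hpt y hy'.le).2.1
      rw [norm_mul, norm_pow, Complex.norm_real, Real.norm_of_nonneg hy'.le]
      calc _ ≤ y ^ m * (A * (2:ℝ) ^ (-y)) := by gcongr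
        _ = _ := by ring
  · refine Integrable.mono' hi ?_ ?_
    · refine ContinuousOn.aestronglyMeasurable ?_ measurableSet_Ioi
      refine ContinuousOn.mul (by fun_prop) ?_
      intro y hy
      have h1 := (hpt y (le_of_lt hy)).1.deriv.continuousAt
      exact (ContinuousAt.comp (f := fun y : ℝ => ((a:ℂ) + y + t0 * Complex.I)) (g := deriv ld)
        h1 hline.continuousAt).continuousWithinAt
    · rw [ae_restrict_iff' measurableSet_Ioi]
      refine Eventually.of_forall fun y hy => ?_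
      have hy' : (0:ℝ) < y := hy
      have h1 := (hpt y hy'.le).2.2
      rw [norm_mul, norm_pow, Complex.norm_real, Real.norm_of_nonneg hy'.le]
      calc _ ≤ y ^ m * (A * (2:ℝ) ^ (-y)) := by gcongr
        _ = _ := by ring

/-- Integration by parts along a good ray. -/
theorem goodRay_parts {a t0 : ℝ} (h : GoodRay a t0) (m : ℕ) :
    ∫ y in Ioi (0:ℝ), (y:ℂ) ^ (m + 1) * deriv ld ((a:ℂ) + y + t0 * Complex.I) =
      -((m:ℂ) + 1) * Fint m a t0 := by
  obtain ⟨r, hr, A, hA, hz⟩ := goodRay_deriv h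
  have hpt := fun y hy => hz y t0 hy (by simp; exact hr.le)
  have i1 := (goodRay_int h (m + 1)).2
  have i2 := (goodRay_int h m).1
  have hi : IntegrableOn (fun y : ℝ => ((m:ℂ) + 1) * ((y:ℂ) ^ m *
      ld ((a:ℂ) + y + t0 * Complex.I)) + (y:ℂ) ^ (m + 1) *
      deriv ld ((a:ℂ) + y + t0 * Complex.I)) (Ioi 0) := (i2.const_mul _).add i1
  have hderiv : ∀ y : ℝ, 0 ≤ y → HasDerivAt (fun y : ℝ => (y:ℂ) ^ (m + 1) *
      ld ((a:ℂ) + y + t0 * Complex.I)) (((m:ℂ) + 1) * ((y:ℂ) ^ m *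
      ld ((a:ℂ) + y + t0 * Complex.I)) + (y:ℂ) ^ (m + 1) *
      deriv ld ((a:ℂ) + y + t0 * Complex.I)) y := by
    intro y hy
    have h1 : HasDerivAt (fun y : ℝ => ((a:ℂ) + y + t0 * Complex.I)) 1 y :=
      ((HasDerivAt.ofReal_comp (hasDerivAt_id y)).const_add (a:ℂ)).add_const _
    have h2 : HasDerivAt ld (deriv ld ((a:ℂ) + y + t0 * Complex.I)) ((a:ℂ) + y + t0 * Complex.I) :=
      (hpt y hy).1.differentiableAt.hasDerivAt
    have h3 := h2.comp_of_eq y h1 rfl
    have h4 : HasDerivAt (fun y : ℝ => (y:ℂ) ^ (m + 1)) (((m + 1 : ℕ) : ℂ) * (y:ℂ) ^ m * 1) y := by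
      have := (HasDerivAt.ofReal_comp (hasDerivAt_id y)).fun_pow (m + 1)
      simpa using this
    have h5 := h4.mul h3
    convert! h5 using 1
    push_cast
    simp only [Function.comp_apply]
    ring
  have hlim : Tendsto (fun y : ℝ => (y:ℂ) ^ (m + 1) * ld ((a:ℂ) + y + t0 * Complex.I)) atTop
      (𝓝 0) := by
    have h1 := (two_pow_tendsto (m + 1)).const_mul A
    rw [mul_zero] at h1
    refine squeeze_zero_norm' ?_ h1
    filter_upwards [eventually_ge_atTop 0] with y hy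
    have h2 := (hpt y hy).2.1
    rw [norm_mul, norm_pow, Complex.norm_real, Real.norm_of_nonneg hy]
    calc _ ≤ y ^ (m + 1) * (A * (2:ℝ) ^ (-y)) := by gcongr
      _ = _ := by ring
  have hF := ftc_Ioi (a := 0) countable_empty
    (f := fun y : ℝ => (y:ℂ) ^ (m + 1) * ld ((a:ℂ) + y + t0 * Complex.I)) (l := 0)
    (fun y hy => (hderiv y hy).continuousAt.continuousWithinAt)
    (fun y hy => hderiv y (le_of_lt hy.1)) hi hlim
  rw [integral_add (i2.const_mul _) i1, integral_const_mul] at hF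
  simp only [Complex.ofReal_zero, ne_eq, Nat.add_eq_zero_iff, one_ne_zero, and_false,
    not_false_eq_true, zero_pow, zero_mul, sub_zero] at hF
  unfold Fint
  linear_combination hF

theorem goodRay_parts0 {a t0 : ℝ} (h : GoodRay a t0) :
    ∫ y in Ioi (0:ℝ), deriv ld ((a:ℂ) + y + t0 * Complex.I) = -ld ((a:ℂ) + t0 * Complex.I) := by
  obtain ⟨r, hr, A, hA, hz⟩ := goodRay_deriv h
  have hpt := fun y hy => hz y t0 hy (by simp; exact hr.le)
  have i1 := (goodRay_int h 0).2
  simp only [pow_zero, one_mul] at i1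
  have hderiv : ∀ y : ℝ, 0 ≤ y → HasDerivAt (fun y : ℝ =>
      ld ((a:ℂ) + y + t0 * Complex.I)) (deriv ld ((a:ℂ) + y + t0 * Complex.I)) y := by
    intro y hy
    have h1 : HasDerivAt (fun y : ℝ => ((a:ℂ) + y + t0 * Complex.I)) 1 y :=
      ((HasDerivAt.ofReal_comp (hasDerivAt_id y)).const_add (a:ℂ)).add_const _
    have h2 : HasDerivAt ld (deriv ld ((a:ℂ) + y + t0 * Complex.I)) ((a:ℂ) + y + t0 * Complex.I) :=
      (hpt y hy).1.differentiableAt.hasDerivAt
    have h3 := h2.comp_of_eq y h1 rfl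
    rw [mul_one] at h3
    exact h3
  have hlim : Tendsto (fun y : ℝ => ld ((a:ℂ) + y + t0 * Complex.I)) atTop (𝓝 0) := by
    have h1 := (two_pow_tendsto 0).const_mul A
    rw [mul_zero] at h1
    refine squeeze_zero_norm' ?_ h1
    filter_upwards [eventually_ge_atTop 0] with y hy
    have h2 := (hpt y hy).2.1
    rw [pow_zero, one_mul]
    exact h2
  have hF := ftc_Ioi (a := 0) countable_empty
    (f := fun y : ℝ => ld ((a:ℂ) + y + t0 * Complex.I)) (l := 0)
    (fun y hy => (hderiv y hy).continuousAt.continuousWithinAt)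
    (fun y hy => hderiv y (le_of_lt hy.1)) i1 hlim
  rw [hF]
  simp

end Pool.Agent.Helper79.SE
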