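import Pool.Agent.Helper79.SnA

/-!
Derivatives of the moments in the height variable, and the functions whose limits are the
iterated integrals of the argument.
-/

namespace Pool.Agent.Helper79.SE

open MeasureTheory Set Filter Topology

open scoped Real

theorem Fint_hasDerivAt {a t0 : ℝ} (h : GoodRay a t0) (m : ℕ) :
    HasDerivAt (fun t => Fint m a t)
      (∫ y in Ioi (0:ℝ), (y:ℂ) ^ m * (deriv ld ((a:ℂ) + y + t0 * Complex.I) * Complex.I)) t0 := by
  obtain ⟨r, hr, A, hA, hz⟩ := goodRay_deriv h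
  have hi : IntegrableOn (fun y : ℝ => A * (y ^ m * (2:ℝ) ^ (-y))) (Ioi 0) :=
    (pow_exp_int m).const_mul A
  have hline : ∀ t : ℝ, Continuous (fun y : ℝ => ((a:ℂ) + y + t * Complex.I)) := by
    intro t; fun_prop
  have hin : ∀ t ∈ Metric.ball t0 r, |t - t0| ≤ r := by
    intro t ht
    rw [Metric.mem_ball, Real.dist_eq] at ht
    exact ht.le
  have key := hasDerivAt_integral_of_dominated_loc_of_deriv_le
    (μ := volume.restrict (Ioi (0:ℝ)))
    (F := fun (t : ℝ) (y : ℝ) => (y:ℂ) ^ m * ld ((a:ℂ) + y + t * Complex.I))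
    (F' := fun (t : ℝ) (y : ℝ) => (y:ℂ) ^ m *
      (deriv ld ((a:ℂ) + y + t * Complex.I) * Complex.I)) (x₀ := t0)
    (s := Metric.ball t0 r) (bound := fun y : ℝ => A * (y ^ m * (2:ℝ) ^ (-y)))
    (Metric.ball_mem_nhds t0 hr) ?_ (goodRay_int h m).1 ?_ ?_ hi ?_
  · exact key.2
  · filter_upwards [Metric.ball_mem_nhds t0 hr] with t ht
    refine ContinuousOn.aestronglyMeasurable ?_ measurableSet_Ioi
    refine ContinuousOn.mul (by fun_prop) ?_
    intro y hy
    have h1 := (hz y t (le_of_lt hy) (hin t ht)).1.continuousAt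
    exact (ContinuousAt.comp (f := fun y : ℝ => ((a:ℂ) + y + t * Complex.I)) (g := ld)
      h1 (hline t).continuousAt).continuousWithinAt
  · refine ContinuousOn.aestronglyMeasurable ?_ measurableSet_Ioi
    refine ContinuousOn.mul (by fun_prop) (ContinuousOn.mul ?_ (by fun_prop))
    intro y hy
    have h1 := (hz y t0 (le_of_lt hy) (by simp; exact hr.le)).1.deriv.continuousAt
    exact (ContinuousAt.comp (f := fun y : ℝ => ((a:ℂ) + y + t0 * Complex.I)) (g := deriv ld)
      h1 (hline t0).continuousAt).continuousWithinAt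
  · rw [ae_restrict_iff' measurableSet_Ioi]
    refine Eventually.of_forall fun y hy t ht => ?_
    have hy' : (0:ℝ) < y := hy
    have h1 := (hz y t hy'.le (hin t ht)).2.2
    rw [norm_mul, norm_mul, Complex.norm_I, mul_one, norm_pow, Complex.norm_real,
      Real.norm_of_nonneg hy'.le]
    calc _ ≤ y ^ m * (A * (2:ℝ) ^ (-y)) := by gcongr
      _ = _ := by ring
  · rw [ae_restrict_iff' measurableSet_Ioi]
    refine Eventually.of_forall fun y hy t ht => ?_
    have hy' : (0:ℝ) < y := hy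
    have h1 : HasDerivAt (fun t : ℝ => ((a:ℂ) + y + t * Complex.I)) Complex.I t := by
      have := ((HasDerivAt.ofReal_comp (hasDerivAt_id t)).mul_const Complex.I).const_add
        ((a:ℂ) + y)
      simpa using this
    have h2 : HasDerivAt ld (deriv ld ((a:ℂ) + y + t * Complex.I)) ((a:ℂ) + y + t * Complex.I) :=
      (hz y t hy'.le (hin t ht)).1.differentiableAt.hasDerivAt
    have h3 := h2.comp_of_eq t h1 rfl
    exact h3.const_mul _

theorem Fint_deriv_succ {a t0 : ℝ} (h : GoodRay a t0) (m : ℕ) :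
    HasDerivAt (fun t => Fint (m + 1) a t) (-((m:ℂ) + 1) * Complex.I * Fint m a t0) t0 := by
  have h1 := Fint_hasDerivAt h (m + 1)
  convert! h1 using 1
  have h2 : ∫ y in Ioi (0:ℝ), (y:ℂ) ^ (m + 1) * (deriv ld ((a:ℂ) + y + t0 * Complex.I) * Complex.I) =
      (∫ y in Ioi (0:ℝ), (y:ℂ) ^ (m + 1) * deriv ld ((a:ℂ) + y + t0 * Complex.I)) * Complex.I := by
    rw [← integral_mul_const]
    refine setIntegral_congr_fun measurableSet_Ioi (fun y _ => ?_)
    ring
  rw [h2, goodRay_parts h m]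
  ring

theorem Fint_deriv_zero {a t0 : ℝ} (h : GoodRay a t0) :
    HasDerivAt (fun t => Fint 0 a t) (-(Complex.I * ld ((a:ℂ) + t0 * Complex.I))) t0 := by
  have h1 := Fint_hasDerivAt h 0
  convert! h1 using 1
  have h2 : ∫ y in Ioi (0:ℝ), (y:ℂ) ^ 0 * (deriv ld ((a:ℂ) + y + t0 * Complex.I) * Complex.I) =
      (∫ y in Ioi (0:ℝ), deriv ld ((a:ℂ) + y + t0 * Complex.I)) * Complex.I := by
    rw [← integral_mul_const]
    refine setIntegral_congr_fun measurableSet_Ioi (fun y _ => ?_)
    ring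
  rw [h2, goodRay_parts0 h]
  ring

/-- The approximants of the iterated integrals of the argument. -/
noncomputable def SA (m : ℕ) (a t : ℝ) : ℝ :=
  -(Complex.I ^ m * Fint m a t).im / (π * m.factorial)

theorem SA_hasDerivAt {a t0 : ℝ} (h : GoodRay a t0) (m : ℕ) :
    HasDerivAt (fun t => SA (m + 1) a t) (SA m a t0) t0 := by
  have h1 := (Fint_deriv_succ h m).const_mul (Complex.I ^ (m + 1))
  have h2 : HasDerivAt (fun t => (Complex.I ^ (m + 1) * Fint (m + 1) a t).im)
      ((Complex.I ^ (m + 1) * (-((m:ℂ) + 1) * Complex.I * Fint m a t0)).im) t0 :=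
    (Complex.imCLM.hasFDerivAt.comp_hasDerivAt t0 h1)
  have h3 := (h2.neg).div_const (π * (m + 1).factorial)
  unfold SA
  convert! h3 using 1
  have e : Complex.I ^ (m + 1) * (-((m:ℂ) + 1) * Complex.I * Fint m a t0) =
      (((m:ℝ) + 1 : ℝ) : ℂ) * (Complex.I ^ m * Fint m a t0) := by
    push_cast
    rw [pow_succ]
    linear_combination (-((m:ℂ) + 1) * Complex.I ^ m * Fint m a t0) * Complex.I_mul_I
  rw [e, Complex.im_ofReal_mul, Nat.factorial_succ]
  have hpi := Real.pi_pos
  have hf : (0:ℝ) < (m.factorial : ℝ) := by exact_mod_cast m.factorial_pos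
  have hm : (0:ℝ) < (m:ℝ) + 1 := by positivity
  push_cast
  field_simp

end Pool.Agent.Helper79.SE
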