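import Pool.Agent.Helper79.SnB

/-!
The logarithm of the zeta function as a horizontal integral.
-/

namespace Pool.Agent.Helper79.SE

open MeasureTheory Set Filter Topology

open scoped Real

theorem zeta_sub_one_bound : ∃ C : ℝ, 0 < C ∧ ∀ s : ℂ, 2 ≤ s.re →
    ‖riemannZeta s - 1‖ ≤ C * (2:ℝ) ^ (-s.re) := by
  have hsum : Summable (fun n : ℕ => 1 / ((n:ℝ) + 2) ^ 2) := by
    have := (summable_nat_add_iff 2).mpr (Real.summable_one_div_nat_pow.mpr (by norm_num : 1 < 2))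
    simpa using this
  refine ⟨4 * ∑' n : ℕ, 1 / ((n:ℝ) + 2) ^ 2 + 1, ?_, fun s hs => ?_⟩
  · have : 0 ≤ ∑' n : ℕ, 1 / ((n:ℝ) + 2) ^ 2 := tsum_nonneg fun n => by positivity
    linarith
  have hs1 : 1 < s.re := by linarith
  have h1 := zeta_eq_tsum_one_div_nat_add_one_cpow hs1
  have hterm : ∀ n : ℕ, ‖1 / ((n:ℂ) + 1 + 1) ^ s‖ ≤ (4 * (2:ℝ) ^ (-s.re)) *
      (1 / ((n:ℝ) + 2) ^ 2) := by
    intro n
    have e1 : ((n:ℂ) + 1 + 1) = (((n:ℝ) + 2 : ℝ) : ℂ) := by push_cast; ring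
    have hn2 : (0:ℝ) < (n:ℝ) + 2 := by positivity
    rw [e1, norm_div, norm_one, Complex.norm_cpow_eq_rpow_re_of_pos hn2]
    have e2 : ((n:ℝ) + 2) ^ s.re = ((n:ℝ) + 2) ^ 2 * ((n:ℝ) + 2) ^ (s.re - 2) := by
      rw [← Real.rpow_natCast, ← Real.rpow_add hn2]; congr 1; push_cast; ring
    have e3 : 4 * (2:ℝ) ^ (-s.re) = ((2:ℝ) ^ (s.re - 2))⁻¹ := by
      have : (4:ℝ) = (2:ℝ) ^ (2:ℝ) := by norm_num
      rw [this, ← Real.rpow_add (by norm_num), ← Real.rpow_neg (by norm_num)]; congr 1; ring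
    rw [e2, e3]
    have e4 : (2:ℝ) ^ (s.re - 2) ≤ ((n:ℝ) + 2) ^ (s.re - 2) :=
      Real.rpow_le_rpow (by norm_num) (by have : (0:ℝ) ≤ n := Nat.cast_nonneg n
                                          linarith) (by linarith)
    rw [one_div, mul_inv, mul_comm, one_div]
    gcongr
  have hsn : Summable (fun n : ℕ => 1 / ((n:ℂ) + 1 + 1) ^ s) :=
    Summable.of_norm_bounded (hsum.mul_left _) hterm
  have hsn0 : Summable (fun n : ℕ => 1 / ((n:ℂ) + 1) ^ s) := by
    rw [← summable_nat_add_iff 1]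
    refine hsn.congr (fun n => ?_)
    push_cast
    rfl
  rw [h1, hsn0.tsum_eq_zero_add]
  simp only [Nat.cast_zero, zero_add, Complex.one_cpow, div_one, add_sub_cancel_left]
  have e5 : ∀ n : ℕ, 1 / (((n + 1 : ℕ) : ℂ) + 1) ^ s = 1 / ((n:ℂ) + 1 + 1) ^ s := by
    intro n; push_cast; rfl
  simp_rw [e5]
  refine (norm_tsum_le_tsum_norm hsn.norm).trans ?_
  refine (Summable.tsum_le_tsum hterm hsn.norm (hsum.mul_left _)).trans ?_
  rw [tsum_mul_left]
  have : 0 ≤ (2:ℝ) ^ (-s.re) := by positivity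
  nlinarith

theorem zeta_tendsto_one (x t : ℝ) :
    Tendsto (fun y : ℝ => riemannZeta ((x:ℂ) + y + t * Complex.I)) atTop (𝓝 1) := by
  obtain ⟨C, hC, h⟩ := zeta_sub_one_bound
  rw [tendsto_iff_norm_sub_tendsto_zero]
  have h1 : Tendsto (fun y : ℝ => C * (2:ℝ) ^ (-x) * (y ^ 0 * (2:ℝ) ^ (-y))) atTop (𝓝 0) := by
    have := (two_pow_tendsto 0).const_mul (C * (2:ℝ) ^ (-x))
    rwa [mul_zero] at this
  refine squeeze_zero' (Eventually.of_forall fun y => norm_nonneg _) ?_ h1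
  filter_upwards [eventually_ge_atTop (2 - x)] with y hy
  have h2 := h ((x:ℂ) + y + t * Complex.I) (by simp; linarith)
  refine h2.trans (le_of_eq ?_)
  have : ((x:ℂ) + y + t * Complex.I).re = x + y := by simp
  rw [this, pow_zero, one_mul, mul_assoc, ← Real.rpow_add (by norm_num)]
  congr 2
  ring

/-- Splitting a horizontal integral. -/
theorem Fint_zero_split {a t : ℝ} (h : GoodRay a t) {y : ℝ} (hy : 0 ≤ y) :
    Fint 0 (a + y) t = Fint 0 a t - ∫ v in (0:ℝ)..y, ld ((a:ℂ) + v + t * Complex.I) := by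
  have h1 := (goodRay_int h 0).1
  simp only [pow_zero, one_mul] at h1
  have hun : Ioi (0:ℝ) = Ioc 0 y ∪ Ioi y := (Ioc_union_Ioi_eq_Ioi hy).symm
  have e1 : Fint 0 a t = (∫ v in (0:ℝ)..y, ld ((a:ℂ) + v + t * Complex.I)) +
      ∫ v in Ioi y, ld ((a:ℂ) + v + t * Complex.I) := by
    unfold Fint
    simp only [pow_zero, one_mul]
    rw [hun, setIntegral_union (Ioc_disjoint_Ioi le_rfl) measurableSet_Ioi
      (h1.mono_set Ioc_subset_Ioi_self) (h1.mono_set (Ioi_subset_Ioi hy)),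
      intervalIntegral.integral_of_le hy]
  have e2 : Fint 0 (a + y) t = ∫ v in Ioi y, ld ((a:ℂ) + v + t * Complex.I) := by
    unfold Fint
    simp only [pow_zero, one_mul]
    rw [← ioi_shift_integral (fun v : ℝ => ld (((a + y : ℝ) : ℂ) + v + t * Complex.I)) y]
    refine setIntegral_congr_fun measurableSet_Ioi (fun v _ => ?_)
    congr 1
    push_cast
    ring
  rw [e1, e2]
  ring

theorem goodRay_shift {a t : ℝ} (h : GoodRay a t) {y : ℝ} (hy : 0 ≤ y) : GoodRay (a + y) t := by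
  obtain ⟨r, hr, A, hA, hz⟩ := h
  exact ⟨r, hr, A, hA, fun z h1 h2 => hz z (by linarith) h2⟩

/-- Derivative in the abscissa. -/
theorem Fint_zero_deriv_x {a t : ℝ} (h : GoodRay a t) {y : ℝ} (hy : 0 < y) :
    HasDerivAt (fun y => Fint 0 (a + y) t) (-ld ((a:ℂ) + y + t * Complex.I)) y := by
  obtain ⟨r, hr, A, hA, hz⟩ := goodRay_deriv h
  have hpt := fun y hy => hz y t hy (by simp; exact hr.le)
  have hcont : ContinuousOn (fun v : ℝ => ld ((a:ℂ) + v + t * Complex.I)) (Ici 0) := by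
    intro v hv
    have h1 := (hpt v hv).1.continuousAt
    have h2 : ContinuousAt (fun v : ℝ => ((a:ℂ) + v + t * Complex.I)) v := by fun_prop
    exact (ContinuousAt.comp (f := fun v : ℝ => ((a:ℂ) + v + t * Complex.I)) (g := ld)
      h1 h2).continuousWithinAt
  have hca : ContinuousAt (fun v : ℝ => ld ((a:ℂ) + v + t * Complex.I)) y :=
    hcont.continuousAt (Ici_mem_nhds hy)
  have hmeas : StronglyMeasurableAtFilter (fun v : ℝ => ld ((a:ℂ) + v + t * Complex.I)) (𝓝 y) :=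
    ContinuousOn.stronglyMeasurableAtFilter isOpen_Ioi (hcont.mono Ioi_subset_Ici_self) y hy
  have hint : IntervalIntegrable (fun v : ℝ => ld ((a:ℂ) + v + t * Complex.I)) volume 0 y := by
    refine ContinuousOn.intervalIntegrable ?_
    rw [uIcc_of_le hy.le]
    exact hcont.mono Icc_subset_Ici_self
  have h1 := intervalIntegral.integral_hasDerivAt_right hint hmeas hca
  have h2 := h1.const_sub (Fint 0 a t)
  refine h2.congr_of_eventuallyEq ?_
  filter_upwards [Ioi_mem_nhds hy] with v hv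
  exact Fint_zero_split h (le_of_lt hv)

theorem Fint_zero_bound {a t : ℝ} (h : GoodRay a t) : ∃ C : ℝ, 0 < C ∧ ∀ y : ℝ, 0 ≤ y →
    ‖Fint 0 (a + y) t‖ ≤ C * (2:ℝ) ^ (-y) := by
  obtain ⟨r, hr, A, hA, hz⟩ := goodRay_deriv h
  have hpt := fun y hy => hz y t hy (by simp; exact hr.le)
  have hI : 0 ≤ ∫ v in Ioi (0:ℝ), (v ^ 0 * (2:ℝ) ^ (-v)) :=
    setIntegral_nonneg measurableSet_Ioi (fun v _ => by positivity)
  refine ⟨A * (∫ v in Ioi (0:ℝ), (v ^ 0 * (2:ℝ) ^ (-v))) + 1, by positivity, fun y hy => ?_⟩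
  have hi : IntegrableOn (fun v : ℝ => A * (2:ℝ) ^ (-y) * (v ^ 0 * (2:ℝ) ^ (-v))) (Ioi 0) :=
    (pow_exp_int 0).const_mul _
  have h1 : ‖Fint 0 (a + y) t‖ ≤ ∫ v in Ioi (0:ℝ), A * (2:ℝ) ^ (-y) * (v ^ 0 * (2:ℝ) ^ (-v)) := by
    unfold Fint
    refine norm_integral_le_of_norm_le hi ?_
    rw [ae_restrict_iff' measurableSet_Ioi]
    refine Eventually.of_forall fun v hv => ?_
    have hv' : (0:ℝ) < v := hv
    have h2 := (hpt (y + v) (by linarith)).2.1
    have e : (a:ℂ) + ((y + v : ℝ) : ℂ) + t * Complex.I = ((a + y : ℝ) : ℂ) + v + t * Complex.I := by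
      push_cast; ring
    rw [e] at h2
    rw [pow_zero, one_mul, pow_zero, one_mul, mul_assoc, ← Real.rpow_add (by norm_num)]
    refine h2.trans (le_of_eq ?_)
    congr 2
    ring
  rw [integral_const_mul] at h1
  have hp : 0 < (2:ℝ) ^ (-y) := by positivity
  refine h1.trans ?_
  have : A * (2:ℝ) ^ (-y) * (∫ v in Ioi (0:ℝ), (v ^ 0 * (2:ℝ) ^ (-v))) =
    A * (∫ v in Ioi (0:ℝ), (v ^ 0 * (2:ℝ) ^ (-v))) * (2:ℝ) ^ (-y) := by ring
  rw [this]
  linarith

theorem Fint_zero_contOn {a t : ℝ} (h : GoodRay a t) :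
    ContinuousOn (fun y => Fint 0 (a + y) t) (Ici 0) := by
  obtain ⟨r, hr, A, hA, hz⟩ := h
  have h' : GoodRay (a - r / 2) t :=
    ⟨r / 2, by linarith, A, hA, fun z h1 h2 => hz z (by linarith) (by linarith)⟩
  intro y hy
  have hy' : (0:ℝ) ≤ y := hy
  have h1 := (Fint_zero_deriv_x h' (y := y + r / 2) (by linarith)).continuousAt
  have h2 : ContinuousAt (fun y : ℝ => y + r / 2) y := by fun_prop
  have h3 := ContinuousAt.comp (f := fun y : ℝ => y + r / 2)
    (g := fun y => Fint 0 (a - r / 2 + y) t) h1 h2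
  refine ContinuousAt.continuousWithinAt ?_
  refine h3.congr (Eventually.of_forall fun v => ?_)
  simp only [Function.comp_apply]
  congr 1
  ring

/-- `zeta` is the exponential of the horizontal integral. -/
theorem zeta_eq_exp {a t : ℝ} (h : GoodRay a t)
    (hne : ∀ y : ℝ, 0 ≤ y → riemannZeta ((a:ℂ) + y + t * Complex.I) ≠ 0)
    (hn1 : ∀ y : ℝ, 0 ≤ y → ((a:ℂ) + y + t * Complex.I) ≠ 1) :
    riemannZeta ((a:ℂ) + t * Complex.I) = Complex.exp (-Fint 0 a t) := by
  obtain ⟨C, hC, hb⟩ := Fint_zero_bound h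
  have hcz : ContinuousOn (fun y : ℝ => riemannZeta ((a:ℂ) + y + t * Complex.I)) (Ici 0) := by
    intro y hy
    have h1 := (differentiableAt_riemannZeta (hn1 y hy)).continuousAt
    have h2 : ContinuousAt (fun v : ℝ => ((a:ℂ) + v + t * Complex.I)) y := by fun_prop
    exact (ContinuousAt.comp (f := fun v : ℝ => ((a:ℂ) + v + t * Complex.I)) (g := riemannZeta)
      h1 h2).continuousWithinAt
  have hcE : ContinuousOn (fun y : ℝ => riemannZeta ((a:ℂ) + y + t * Complex.I) *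
      Complex.exp (Fint 0 (a + y) t)) (Ici 0) :=
    hcz.mul (Complex.continuous_exp.comp_continuousOn (Fint_zero_contOn h))
  have hd : ∀ y ∈ Ioi (0:ℝ) \ ∅, HasDerivAt (fun y : ℝ => riemannZeta ((a:ℂ) + y + t * Complex.I) *
      Complex.exp (Fint 0 (a + y) t)) 0 y := by
    intro y hy
    have hy' : (0:ℝ) < y := hy.1
    have h1 : HasDerivAt (fun y : ℝ => ((a:ℂ) + y + t * Complex.I)) 1 y :=
      ((HasDerivAt.ofReal_comp (hasDerivAt_id y)).const_add (a:ℂ)).add_const _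
    have h2 := (differentiableAt_riemannZeta (hn1 y hy'.le)).hasDerivAt
    have h3 := h2.comp_of_eq y h1 rfl
    rw [mul_one] at h3
    have h4 := (Fint_zero_deriv_x h hy').cexp
    have h5 := h3.mul h4
    convert! h5 using 1
    have hz := hne y hy'.le
    simp only [Function.comp_apply]
    unfold ld
    field_simp
    ring
  have hlim : Tendsto (fun y : ℝ => riemannZeta ((a:ℂ) + y + t * Complex.I) *
      Complex.exp (Fint 0 (a + y) t)) atTop (𝓝 (1 * Complex.exp 0)) := by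
    refine (zeta_tendsto_one a t).mul ?_
    refine (Complex.continuous_exp.tendsto 0).comp ?_
    have h1 := (two_pow_tendsto 0).const_mul C
    rw [mul_zero] at h1
    refine squeeze_zero_norm' ?_ h1
    filter_upwards [eventually_ge_atTop 0] with y hy
    rw [pow_zero, one_mul]
    exact hb y hy
  have hF := ftc_Ioi countable_empty hcE hd integrableOn_zero hlim
  simp only [integral_zero, Complex.ofReal_zero, add_zero, Complex.exp_zero, mul_one] at hF
  have h6 : riemannZeta ((a:ℂ) + t * Complex.I) * Complex.exp (Fint 0 a t) = 1 := by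
    linear_combination hF
  rw [Complex.exp_neg]
  exact eq_inv_of_mul_eq_one_left h6

theorem Fint_zero_re {a t : ℝ} (h : GoodRay a t)
    (hne : ∀ y : ℝ, 0 ≤ y → riemannZeta ((a:ℂ) + y + t * Complex.I) ≠ 0)
    (hn1 : ∀ y : ℝ, 0 ≤ y → ((a:ℂ) + y + t * Complex.I) ≠ 1) :
    (Fint 0 a t).re = -Real.log ‖riemannZeta ((a:ℂ) + t * Complex.I)‖ := by
  rw [zeta_eq_exp h hne hn1, Complex.norm_exp, Real.log_exp, Complex.neg_re, neg_neg]

/-- Higher moments through the zeroth one. -/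
theorem Fint_succ_eq {a t : ℝ} (h : GoodRay a t) (m : ℕ) :
    Fint (m + 1) a t = ((m:ℂ) + 1) * ∫ y in Ioi (0:ℝ), (y:ℂ) ^ m * Fint 0 (a + y) t := by
  obtain ⟨C, hC, hb⟩ := Fint_zero_bound h
  have i1 := (goodRay_int h (m + 1)).1
  have hcF := Fint_zero_contOn h
  have i2 : IntegrableOn (fun y : ℝ => (y:ℂ) ^ m * Fint 0 (a + y) t) (Ioi 0) := by
    have hi : IntegrableOn (fun y : ℝ => C * (y ^ m * (2:ℝ) ^ (-y))) (Ioi 0) :=
      (pow_exp_int m).const_mul C
    refine Integrable.mono' hi ?_ ?_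
    · refine ContinuousOn.aestronglyMeasurable ?_ measurableSet_Ioi
      exact ContinuousOn.mul (by fun_prop) (hcF.mono Ioi_subset_Ici_self)
    · rw [ae_restrict_iff' measurableSet_Ioi]
      refine Eventually.of_forall fun y hy => ?_
      have hy' : (0:ℝ) < y := hy
      have h1 := hb y hy'.le
      rw [norm_mul, norm_pow, Complex.norm_real, Real.norm_of_nonneg hy'.le]
      calc _ ≤ y ^ m * (C * (2:ℝ) ^ (-y)) := by gcongr
        _ = _ := by ring
  have hi : IntegrableOn (fun y : ℝ => ((m:ℂ) + 1) * ((y:ℂ) ^ m * Fint 0 (a + y) t) -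
      (y:ℂ) ^ (m + 1) * ld ((a:ℂ) + y + t * Complex.I)) (Ioi 0) := (i2.const_mul _).sub i1
  have hlim : Tendsto (fun y : ℝ => (y:ℂ) ^ (m + 1) * Fint 0 (a + y) t) atTop (𝓝 0) := by
    have h1 := (two_pow_tendsto (m + 1)).const_mul C
    rw [mul_zero] at h1
    refine squeeze_zero_norm' ?_ h1
    filter_upwards [eventually_ge_atTop 0] with y hy
    have h2 := hb y hy
    rw [norm_mul, norm_pow, Complex.norm_real, Real.norm_of_nonneg hy]
    calc _ ≤ y ^ (m + 1) * (C * (2:ℝ) ^ (-y)) := by gcongr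
      _ = _ := by ring
  have hF := ftc_Ioi (a := 0) countable_empty
    (f := fun y : ℝ => (y:ℂ) ^ (m + 1) * Fint 0 (a + y) t) (l := 0)
    (ContinuousOn.mul (by fun_prop) hcF) (fun y hy => ?_) hi hlim
  · rw [integral_sub (i2.const_mul _) i1, integral_const_mul] at hF
    simp only [Complex.ofReal_zero, ne_eq, Nat.add_eq_zero_iff, one_ne_zero, and_false,
      not_false_eq_true, zero_pow, zero_mul, sub_zero] at hF
    unfold Fint at hF ⊢
    linear_combination -hF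
  · have hy' : (0:ℝ) < y := hy.1
    have h4 : HasDerivAt (fun y : ℝ => (y:ℂ) ^ (m + 1)) (((m + 1 : ℕ) : ℂ) * (y:ℂ) ^ m * 1) y := by
      have := (HasDerivAt.ofReal_comp (hasDerivAt_id y)).fun_pow (m + 1)
      simpa using this
    have h5 := h4.mul (Fint_zero_deriv_x h hy')
    convert! h5 using 1
    push_cast
    ring

end Pool.Agent.Helper79.SE
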