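import Pool.Agent.Helper79.SnC

/-!
Behaviour of the logarithm near the real axis and uniform bounds for its imaginary part.
-/

namespace Pool.Agent.Helper79.SE

open MeasureTheory Set Filter Topology

open scoped Real

theorem Fint_zero_far : ∃ C : ℝ, 0 < C ∧ ∀ x t : ℝ, 2 ≤ x → ‖Fint 0 x t‖ ≤ C * (2:ℝ) ^ (-x) := by
  obtain ⟨K, hK, hb⟩ := ld_bound (c := 2) (by norm_num)
  have hI : 0 ≤ ∫ v in Ioi (0:ℝ), (v ^ 0 * (2:ℝ) ^ (-v)) :=
    setIntegral_nonneg measurableSet_Ioi (fun v _ => by positivity)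
  refine ⟨K * (∫ v in Ioi (0:ℝ), (v ^ 0 * (2:ℝ) ^ (-v))) + 1, by positivity, fun x t hx => ?_⟩
  have hi : IntegrableOn (fun v : ℝ => K * (2:ℝ) ^ (-x) * (v ^ 0 * (2:ℝ) ^ (-v))) (Ioi 0) :=
    (pow_exp_int 0).const_mul _
  have h1 : ‖Fint 0 x t‖ ≤ ∫ v in Ioi (0:ℝ), K * (2:ℝ) ^ (-x) * (v ^ 0 * (2:ℝ) ^ (-v)) := by
    unfold Fint
    refine norm_integral_le_of_norm_le hi ?_
    rw [ae_restrict_iff' measurableSet_Ioi]
    refine Eventually.of_forall fun v hv => ?_
    have hv' : (0:ℝ) < v := hv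
    have h2 := hb ((x:ℂ) + v + t * Complex.I) (by simp; linarith)
    have e : ((x:ℂ) + v + t * Complex.I).re = x + v := by simp
    rw [e] at h2
    rw [pow_zero, one_mul, pow_zero, one_mul, mul_assoc, ← Real.rpow_add (by norm_num)]
    refine h2.trans (le_of_eq ?_)
    congr 2
    ring
  rw [integral_const_mul] at h1
  have hp : 0 < (2:ℝ) ^ (-x) := by positivity
  refine h1.trans ?_
  have : K * (2:ℝ) ^ (-x) * (∫ v in Ioi (0:ℝ), (v ^ 0 * (2:ℝ) ^ (-v))) =
    K * (∫ v in Ioi (0:ℝ), (v ^ 0 * (2:ℝ) ^ (-v))) * (2:ℝ) ^ (-x) := by ring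
  rw [this]
  linarith

theorem Z1_ne (hRH : RiemannHypothesis) {z : ℂ} (h : 1 / 2 < z.re) : riemannZeta₁ z ≠ 0 := by
  by_cases h1 : z = 1
  · rw [h1, riemannZeta₁_one]; exact one_ne_zero
  · have h2 := riemannZeta_eq_inv_sub_mul h1
    intro h3
    rw [h3, mul_zero] at h2
    exact zeta_ne hRH h h2

theorem ld_eq_Z1 {z : ℂ} (h1 : z ≠ 1) (h0 : riemannZeta z ≠ 0) :
    ld z = -(1 / (z - 1)) + deriv riemannZeta₁ z / riemannZeta₁ z := by
  have hz := sub_ne_zero_of_ne h1
  have h2 := riemannZeta_eq_inv_sub_mul h1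
  have h3 := deriv_riemannZeta_eq_neg_inv_sub_sq_mul_add h1
  have hZ : riemannZeta₁ z ≠ 0 := by
    intro h4
    rw [h4, mul_zero] at h2
    exact h0 h2
  unfold ld
  rw [h3, h2]
  field_simp

/-- Integral of the imaginary part of a simple pole along a horizontal segment. -/
theorem pole_im_bound (ρ : ℂ) (t a b : ℝ) (hab : a ≤ b) :
    |∫ x in a..b, (1 / ((x:ℂ) + t * Complex.I - ρ)).im| ≤ π := by
  set p := ρ.re
  set q := t - ρ.im with hq
  have him : ∀ x : ℝ, (1 / ((x:ℂ) + t * Complex.I - ρ)).im = -q / ((x - p) ^ 2 + q ^ 2) := by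
    intro x
    rw [one_div, Complex.inv_im, Complex.normSq_apply]
    simp only [Complex.sub_re, Complex.sub_im, Complex.add_re, Complex.add_im, Complex.ofReal_re,
      Complex.ofReal_im, Complex.mul_re, Complex.mul_im, Complex.I_re, Complex.I_im, mul_zero,
      mul_one, sub_zero, zero_add, add_zero]
    rw [show (x - ρ.re) * (x - ρ.re) + (t - ρ.im) * (t - ρ.im) = (x - p) ^ 2 + q ^ 2 by
      rw [hq]; ring]
  simp_rw [him]
  by_cases hq0 : q = 0
  · rw [hq0]
    simp
    exact Real.pi_pos.le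
  · have hint : Integrable (fun x : ℝ => |q| / ((x - p) ^ 2 + q ^ 2)) := by
      have h1 := ((integrable_inv_one_add_sq.comp_mul_left' (inv_ne_zero hq0)).comp_sub_right
        p).const_mul (|q|⁻¹)
      refine h1.congr (Eventually.of_forall fun x => ?_)
      beta_reduce
      have : 0 < q ^ 2 := by positivity
      have hqa : |q| ≠ 0 := abs_ne_zero.mpr hq0
      have hq2 : q ^ 2 = |q| ^ 2 := (sq_abs q).symm
      rw [mul_pow, inv_pow, hq2]
      field_simp
      ring
    have hval : ∫ x : ℝ, |q| / ((x - p) ^ 2 + q ^ 2) = π := by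
      have h2 : ∫ x : ℝ, |q| / ((x - p) ^ 2 + q ^ 2) =
          ∫ x : ℝ, |q|⁻¹ * (1 + (q⁻¹ * (x - p)) ^ 2)⁻¹ := by
        refine integral_congr_ae (Eventually.of_forall fun x => ?_)
        beta_reduce
        have hqa : |q| ≠ 0 := abs_ne_zero.mpr hq0
        have hq2 : q ^ 2 = |q| ^ 2 := (sq_abs q).symm
        rw [mul_pow, inv_pow, hq2]
        field_simp
        ring
      rw [h2, integral_const_mul, integral_sub_right_eq_self
        (fun x : ℝ => (1 + (q⁻¹ * x) ^ 2)⁻¹) p]
      have h3 := Measure.integral_comp_mul_left (fun x : ℝ => (1 + x ^ 2)⁻¹) q⁻¹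
      rw [h3, inv_inv, integral_univ_inv_one_add_sq, smul_eq_mul, ← mul_assoc,
        inv_mul_cancel₀ (abs_ne_zero.mpr hq0), one_mul]
    rw [← Real.norm_eq_abs, intervalIntegral.integral_of_le hab]
    refine (norm_integral_le_of_norm_le hint.integrableOn ?_).trans ?_
    · refine Eventually.of_forall fun x => ?_
      rw [norm_div, norm_neg, Real.norm_eq_abs, Real.norm_of_nonneg (by positivity)]
    · rw [← hval]
      exact setIntegral_le_integral hint (Eventually.of_forall fun x => by positivity)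

open H370 H370.Loc Metric in
/-- Partial fractions of `ld` in a bounded region. -/
theorem decomp (hRH : RiemannHypothesis) (T : ℝ) (hT : 0 < T) :
    ∃ (s : Multiset ℂ) (G : ℂ → ℂ) (C : ℝ), 0 < C ∧ (∀ ρ ∈ s, ρ.re ≤ 1 / 2) ∧
      ∀ x t : ℝ, 1 / 2 < x → x ≤ 2 → 0 < t → t ≤ T →
        ‖G ((x:ℂ) + t * Complex.I)‖ ≤ C ∧ AnalyticAt ℂ G ((x:ℂ) + t * Complex.I) ∧
        ld ((x:ℂ) + t * Complex.I) = -(1 / ((x:ℂ) + t * Complex.I - 1)) +
          (s.map (fun ρ => 1 / ((x:ℂ) + t * Complex.I - ρ))).sum + G ((x:ℂ) + t * Complex.I) := by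
  set r : ℝ := T + 3 with hr
  have hr0 : 0 < r := by positivity
  have hZd := differentiable_riemannZeta₁
  have hZan : AnalyticOnNhd ℂ riemannZeta₁ (closedBall 2 (2 * r)) := fun z _ => hZd.analyticAt z
  obtain ⟨M, hM⟩ := (isCompact_closedBall (2:ℂ) (2 * r)).exists_bound_of_continuousOn
    hZd.continuous.continuousOn
  have hZ2 : riemannZeta₁ 2 ≠ 0 := Z1_ne hRH (by norm_num)
  obtain ⟨s, g, hs, hg, hfg, hg0, -⟩ := extract (f := riemannZeta₁) (c := 2) (r := r)
    (R := 2 * r) (M := |M| + 1) hr0 (by linarith) (by linarith [abs_nonneg M]) hZan hZ2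
    (fun z hz => (hM z hz).trans (by linarith [le_abs_self M]))
  have hsre : ∀ ρ ∈ s, ρ.re ≤ 1 / 2 := by
    intro ρ hρ
    by_contra hcon
    push Not at hcon
    exact Z1_ne hRH hcon (hs ρ hρ).2
  have hK : IsCompact (Icc (1 / 2 : ℝ) 2 ×ℂ Icc (0:ℝ) T) := isCompact_Icc.reProdIm isCompact_Icc
  have hKsub : Icc (1 / 2 : ℝ) 2 ×ℂ Icc (0:ℝ) T ⊆ closedBall 2 r := by
    intro z hz
    rw [Complex.mem_reProdIm] at hz
    rw [mem_closedBall, dist_eq_norm]
    refine (Complex.norm_le_abs_re_add_abs_im _).trans ?_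
    have h1 : |(z - 2).re| ≤ 3 / 2 := by
      rw [abs_le]; simp; constructor <;> linarith [hz.1.1, hz.1.2]
    have h2 : |(z - 2).im| ≤ T := by
      rw [abs_le]; simp; constructor <;> linarith [hz.2.1, hz.2.2]
    linarith
  have hsubR : closedBall (2:ℂ) r ⊆ closedBall 2 (2 * r) :=
    closedBall_subset_closedBall (by linarith)
  have hGan : ∀ z ∈ closedBall (2:ℂ) r, AnalyticAt ℂ (logDeriv g) z := fun z hz =>
    (hg z (hsubR hz)).deriv.div (hg z (hsubR hz)) (hg0 z hz)
  obtain ⟨C, hC⟩ := hK.exists_bound_of_continuousOn (f := logDeriv g)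
    (fun z hz => (hGan z (hKsub hz)).continuousAt.continuousWithinAt)
  refine ⟨s, logDeriv g, |C| + 1, by positivity, hsre, fun x t hx1 hx2 ht1 ht2 => ?_⟩
  have hzre : ((x:ℂ) + t * Complex.I).re = x := by simp
  have hzim : ((x:ℂ) + t * Complex.I).im = t := by simp
  have hzK : ((x:ℂ) + t * Complex.I) ∈ Icc (1 / 2 : ℝ) 2 ×ℂ Icc (0:ℝ) T := by
    rw [Complex.mem_reProdIm, hzre, hzim]
    exact ⟨⟨hx1.le, hx2⟩, ⟨ht1.le, ht2⟩⟩
  refine ⟨(hC _ hzK).trans (by linarith [le_abs_self C]), hGan _ (hKsub hzK), ?_⟩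
  have hz1 : ((x:ℂ) + t * Complex.I) ≠ 1 := ne_one_of_im (by rw [hzim]; exact ht1.ne')
  have hz0 : riemannZeta ((x:ℂ) + t * Complex.I) ≠ 0 := zeta_ne hRH (by rw [hzre]; exact hx1)
  rw [ld_eq_Z1 hz1 hz0]
  have hPz : ∀ ρ ∈ s, ((x:ℂ) + t * Complex.I) ≠ ρ := by
    intro ρ hρ he
    have := hsre ρ hρ
    rw [← he, hzre] at this
    linarith
  have e1 : logDeriv riemannZeta₁ ((x:ℂ) + t * Complex.I) =
      logDeriv (Pf s) ((x:ℂ) + t * Complex.I) + logDeriv g ((x:ℂ) + t * Complex.I) := by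
    have h1 : riemannZeta₁ = fun w => Pf s w * g w := funext hfg
    conv_lhs => rw [h1]
    exact logDeriv_mul _ (Pf_ne_zero hPz) (hg0 _ (hKsub hzK)) (Pf_diff s _)
      (hg _ (hsubR (hKsub hzK))).differentiableAt
  rw [logDeriv_Pf' hPz] at e1
  rw [add_assoc, ← e1]
  rfl

theorem multiset_im_bound (s : Multiset ℂ) (hs : ∀ ρ ∈ s, ρ.re ≤ 1 / 2) (t a b : ℝ)
    (ha : 1 / 2 < a) (hab : a ≤ b) :
    IntervalIntegrable (fun x : ℝ => (s.map (fun ρ => 1 / ((x:ℂ) + t * Complex.I - ρ))).sum)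
      volume a b ∧
    |∫ x in a..b, ((s.map (fun ρ => 1 / ((x:ℂ) + t * Complex.I - ρ))).sum).im| ≤
      (Multiset.card s : ℝ) * π := by
  induction s using Multiset.induction_on with
  | empty => simp
  | cons ρ s ih =>
    obtain ⟨i1, i2⟩ := ih (fun ρ hρ => hs ρ (Multiset.mem_cons_of_mem hρ))
    have hρ := hs ρ (Multiset.mem_cons_self ρ s)
    have hi : IntervalIntegrable (fun x : ℝ => 1 / ((x:ℂ) + t * Complex.I - ρ)) volume a b := by
      refine ContinuousOn.intervalIntegrable ?_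
      rw [uIcc_of_le hab]
      refine ContinuousOn.div (by fun_prop) (by fun_prop) (fun x hx h => ?_)
      have h2 := congrArg Complex.re h
      simp at h2
      linarith [hx.1]
    simp only [Multiset.map_cons, Multiset.sum_cons, Multiset.card_cons]
    refine ⟨hi.add i1, ?_⟩
    have him : ∀ x : ℝ, (1 / ((x:ℂ) + t * Complex.I - ρ) +
        (s.map (fun ρ => 1 / ((x:ℂ) + t * Complex.I - ρ))).sum).im =
        (1 / ((x:ℂ) + t * Complex.I - ρ)).im +
        ((s.map (fun ρ => 1 / ((x:ℂ) + t * Complex.I - ρ))).sum).im := fun x => Complex.add_im _ _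
    simp_rw [him]
    have j1 : IntervalIntegrable (fun x : ℝ => (1 / ((x:ℂ) + t * Complex.I - ρ)).im)
        volume a b := by
      rw [intervalIntegrable_iff] at hi ⊢
      exact hi.im
    have j2 : IntervalIntegrable (fun x : ℝ =>
        ((s.map (fun ρ => 1 / ((x:ℂ) + t * Complex.I - ρ))).sum).im) volume a b := by
      rw [intervalIntegrable_iff] at i1 ⊢
      exact i1.im
    rw [intervalIntegral.integral_add j1 j2]
    have k1 := pole_im_bound ρ t a b hab
    refine (abs_add_le _ _).trans ?_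
    push_cast
    linarith

/-- Conversion of the split to a horizontal segment. -/
theorem Fint_zero_seg {a t b : ℝ} (h : GoodRay a t) (hab : a ≤ b) :
    Fint 0 a t = (∫ x in a..b, ld ((x:ℂ) + t * Complex.I)) + Fint 0 b t := by
  have h1 := Fint_zero_split h (y := b - a) (by linarith)
  rw [show a + (b - a) = b by ring] at h1
  have h2 : ∫ v in (0:ℝ)..(b - a), ld ((a:ℂ) + v + t * Complex.I) =
      ∫ x in a..b, ld ((x:ℂ) + t * Complex.I) := by
    have h3 := intervalIntegral.integral_comp_add_left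
      (fun x : ℝ => ld ((x:ℂ) + t * Complex.I)) a (a := 0) (b := b - a)
    rw [add_zero, show a + (b - a) = b by ring] at h3
    rw [← h3]
    refine intervalIntegral.integral_congr (fun v _ => ?_)
    congr 1
    push_cast
    ring
  rw [h1, h2]
  ring

theorem Fint_im_bound (hRH : RiemannHypothesis) (T : ℝ) (hT : 0 < T) :
    ∃ C : ℝ, 0 < C ∧ ∀ a t : ℝ, 1 / 2 < a → 0 < t → t ≤ T → |(Fint 0 a t).im| ≤ C := by
  obtain ⟨s, G, C, hC, hs, hdec⟩ := decomp hRH T hT
  obtain ⟨C2, hC2, hfar⟩ := Fint_zero_far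
  have hfar1 : ∀ x t : ℝ, 2 ≤ x → |(Fint 0 x t).im| ≤ C2 := by
    intro x t hx
    refine (Complex.abs_im_le_norm _).trans ((hfar x t hx).trans ?_)
    have : (2:ℝ) ^ (-x) ≤ 1 := Real.rpow_le_one_of_one_le_of_nonpos (by norm_num) (by linarith)
    nlinarith
  refine ⟨C2 + (π + (Multiset.card s : ℝ) * π + 2 * C), by positivity, fun a t ha ht0 htT => ?_⟩
  have hpi := Real.pi_pos
  rcases le_or_gt 2 a with h2 | h2
  · refine (hfar1 a t h2).trans ?_
    have : 0 ≤ π + (Multiset.card s : ℝ) * π + 2 * C := by positivity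
    linarith
  · rw [Fint_zero_seg (goodRay_up hRH ha ht0) h2.le, Complex.add_im]
    have hldI : IntervalIntegrable (fun x : ℝ => ld ((x:ℂ) + t * Complex.I)) volume a 2 := by
      refine ContinuousOn.intervalIntegrable ?_
      rw [uIcc_of_le h2.le]
      exact (ld_cont_x hRH ha ht0.ne').mono Icc_subset_Ici_self
    have hpole : IntervalIntegrable (fun x : ℝ => 1 / ((x:ℂ) + t * Complex.I - 1))
        volume a 2 := by
      refine ContinuousOn.intervalIntegrable ?_
      rw [uIcc_of_le h2.le]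
      refine ContinuousOn.div (by fun_prop) (by fun_prop) (fun x hx h => ?_)
      have h3 := congrArg Complex.im h
      simp at h3
      linarith
    obtain ⟨hm1, hm2⟩ := multiset_im_bound s hs t a 2 ha h2.le
    have hGI : IntervalIntegrable (fun x : ℝ => G ((x:ℂ) + t * Complex.I)) volume a 2 := by
      refine ContinuousOn.intervalIntegrable ?_
      rw [uIcc_of_le h2.le]
      intro x hx
      have h1 := (hdec x t (by linarith [hx.1]) hx.2 ht0 htT).2.1.continuousAt
      have h2 : ContinuousAt (fun x : ℝ => ((x:ℂ) + t * Complex.I)) x := by fun_prop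
      exact (ContinuousAt.comp (f := fun x : ℝ => ((x:ℂ) + t * Complex.I)) (g := G)
        h1 h2).continuousWithinAt
    have e1 : (∫ x in a..2, ld ((x:ℂ) + t * Complex.I)).im =
        -(∫ x in a..2, (1 / ((x:ℂ) + t * Complex.I - 1)).im) +
        (∫ x in a..2, ((s.map (fun ρ => 1 / ((x:ℂ) + t * Complex.I - ρ))).sum).im) +
        ∫ x in a..2, (G ((x:ℂ) + t * Complex.I)).im := by
      have e2 : (∫ x in a..2, ld ((x:ℂ) + t * Complex.I)).im =
          ∫ x in a..2, (ld ((x:ℂ) + t * Complex.I)).im := by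
        have := Complex.imCLM.intervalIntegral_comp_comm hldI
        simpa using this.symm
      have hp1 : IntervalIntegrable (fun x : ℝ => (1 / ((x:ℂ) + t * Complex.I - 1)).im)
          volume a 2 := by
        rw [intervalIntegrable_iff] at hpole ⊢
        exact hpole.im
      have hp1n : IntervalIntegrable (fun x : ℝ => -(1 / ((x:ℂ) + t * Complex.I - 1)).im)
          volume a 2 := hp1.neg
      have hp2 : IntervalIntegrable (fun x : ℝ =>
          ((s.map (fun ρ => 1 / ((x:ℂ) + t * Complex.I - ρ))).sum).im) volume a 2 := by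
        rw [intervalIntegrable_iff] at hm1 ⊢
        exact hm1.im
      have hp3 : IntervalIntegrable (fun x : ℝ => (G ((x:ℂ) + t * Complex.I)).im) volume a 2 := by
        rw [intervalIntegrable_iff] at hGI ⊢
        exact hGI.im
      rw [e2, ← intervalIntegral.integral_neg, ← intervalIntegral.integral_add hp1n hp2,
        ← intervalIntegral.integral_add (hp1n.add hp2) hp3]
      refine intervalIntegral.integral_congr (fun x hx => ?_)
      rw [uIcc_of_le h2.le] at hx
      have h5 := (hdec x t (by linarith [hx.1]) hx.2 ht0 htT).2.2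
      rw [h5, Complex.add_im, Complex.add_im, Complex.neg_im]
    have b1 := pole_im_bound 1 t a 2 h2.le
    have b3 : |∫ x in a..2, (G ((x:ℂ) + t * Complex.I)).im| ≤ 2 * C := by
      rw [← Real.norm_eq_abs]
      have := intervalIntegral.norm_integral_le_of_norm_le_const
        (f := fun x : ℝ => (G ((x:ℂ) + t * Complex.I)).im) (a := a) (b := 2) (C := C) ?_
      · refine this.trans ?_
        rw [abs_of_nonneg (by linarith)]
        nlinarith
      · intro x hx
        rw [uIoc_of_le h2.le] at hx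
        exact (Complex.abs_im_le_norm _).trans
          (hdec x t (by linarith [hx.1]) hx.2 ht0 htT).1
    have b4 := hfar1 2 t le_rfl
    rw [e1]
    rw [abs_le] at b1 hm2 b3 b4 ⊢
    constructor <;> linarith [b1.1, b1.2, hm2.1, hm2.2, b3.1, b3.2, b4.1, b4.2]

end Pool.Agent.Helper79.SE
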