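import Pool.Agent.Helper79.SnD

/-!
Limits of the horizontal integrals as the height tends to zero.
-/

namespace Pool.Agent.Helper79.SE

open MeasureTheory Set Filter Topology

open scoped Real

/-- The limiting value of the horizontal integral at height `0+`. -/
noncomputable def Lz (x : ℝ) : ℂ :=
  ((-Real.log ‖riemannZeta (x:ℂ)‖ : ℝ) : ℂ) + ((if x < 1 then π else 0 : ℝ) : ℂ) * Complex.I

theorem ld_real {x : ℝ} : (ld (x:ℂ)).im = 0 := by
  have h1 : ∀ z : ℂ, riemannZeta ((starRingEnd ℂ) z) = (starRingEnd ℂ) (riemannZeta z) :=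
    riemannZeta_conj
  have h2 : (starRingEnd ℂ) (riemannZeta x) = riemannZeta x := by
    rw [← h1, Complex.conj_ofReal]
  have h3 : (starRingEnd ℂ) (deriv riemannZeta x) = deriv riemannZeta x := by
    have h4 := deriv_conj_conj (f := riemannZeta)
    have h5 : (⇑(starRingEnd ℂ) ∘ riemannZeta ∘ ⇑(starRingEnd ℂ)) = riemannZeta := by
      funext z
      simp only [Function.comp_apply]
      rw [h1, Complex.conj_conj]
    rw [h5] at h4
    have h6 := congrFun h4 (x:ℂ)
    simp only [Function.comp_apply, Complex.conj_ofReal] at h6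
    exact h6.symm
  have h4 : (starRingEnd ℂ) (ld x) = ld x := by
    unfold ld
    rw [map_div₀, h2, h3]
  exact Complex.conj_eq_iff_im.mp h4

theorem h1_real {x : ℝ} : (deriv riemannZeta₁ (x:ℂ) / riemannZeta₁ (x:ℂ)).im = 0 := by
  have h1 : ∀ z : ℂ, riemannZeta₁ ((starRingEnd ℂ) z) = (starRingEnd ℂ) (riemannZeta₁ z) := by
    intro z
    by_cases hz : z = 1
    · rw [hz]; simp
    · have hz' : (starRingEnd ℂ) z ≠ 1 := by
        intro h
        apply hz
        have := congrArg (starRingEnd ℂ) h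
        rw [Complex.conj_conj, map_one] at this
        exact this
      have e1 := riemannZeta_eq_inv_sub_mul hz
      have e2 := riemannZeta_eq_inv_sub_mul hz'
      have e3 : z - 1 ≠ 0 := sub_ne_zero_of_ne hz
      have e4 : (starRingEnd ℂ) z - 1 ≠ 0 := sub_ne_zero_of_ne hz'
      have e5 : riemannZeta₁ z = (z - 1) * riemannZeta z := by rw [e1]; field_simp
      have e6 : riemannZeta₁ ((starRingEnd ℂ) z) = ((starRingEnd ℂ) z - 1) *
          riemannZeta ((starRingEnd ℂ) z) := by rw [e2]; field_simp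
      rw [e5, e6, map_mul, map_sub, map_one, riemannZeta_conj]
  have h2 : (starRingEnd ℂ) (riemannZeta₁ x) = riemannZeta₁ x := by
    rw [← h1, Complex.conj_ofReal]
  have h3 : (starRingEnd ℂ) (deriv riemannZeta₁ x) = deriv riemannZeta₁ x := by
    have h4 := deriv_conj_conj (f := riemannZeta₁)
    have h5 : (⇑(starRingEnd ℂ) ∘ riemannZeta₁ ∘ ⇑(starRingEnd ℂ)) = riemannZeta₁ := by
      funext z
      simp only [Function.comp_apply]
      rw [h1, Complex.conj_conj]
    rw [h5] at h4
    have h6 := congrFun h4 (x:ℂ)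
    simp only [Function.comp_apply, Complex.conj_ofReal] at h6
    exact h6.symm
  have h4 : (starRingEnd ℂ) (deriv riemannZeta₁ (x:ℂ) / riemannZeta₁ (x:ℂ)) =
      deriv riemannZeta₁ (x:ℂ) / riemannZeta₁ (x:ℂ) := by
    rw [map_div₀, h2, h3]
  exact Complex.conj_eq_iff_im.mp h4

theorem Fint_real {x : ℝ} (hx : 1 < x) : (Fint 0 x 0).im = 0 := by
  have hi := (goodRay_int (goodRay_right hx 0) 0).1
  unfold Fint
  have h1 : (∫ y in Ioi (0:ℝ), (y:ℂ) ^ 0 * ld ((x:ℂ) + y + ((0:ℝ) : ℂ) * Complex.I)).im =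
      ∫ y in Ioi (0:ℝ), ((y:ℂ) ^ 0 * ld ((x:ℂ) + y + ((0:ℝ) : ℂ) * Complex.I)).im := by
    have := Complex.imCLM.integral_comp_comm hi
    simpa using this.symm
  rw [h1]
  have h2 : ∀ y : ℝ, ((y:ℂ) ^ 0 * ld ((x:ℂ) + y + ((0:ℝ) : ℂ) * Complex.I)).im = 0 := by
    intro y
    have e : ((x:ℂ) + y + ((0:ℝ) : ℂ) * Complex.I) = ((x + y : ℝ) : ℂ) := by push_cast; ring
    rw [pow_zero, one_mul, e, ld_real]
  simp_rw [h2]
  simp

theorem Fint_cont_t {x t : ℝ} (h : GoodRay x t) (m : ℕ) :
    ContinuousAt (fun t => Fint m x t) t := (Fint_hasDerivAt h m).continuousAt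

/-- Limit at height `0+` of the imaginary part, left of the pole. -/
theorem Fint_im_tendsto_left (hRH : RiemannHypothesis) {x : ℝ} (hx : 1 / 2 < x) (hx1 : x < 1) :
    Tendsto (fun t => (Fint 0 x t).im) (𝓝[>] 0) (𝓝 π) := by
  set h₁ : ℂ → ℂ := fun z => deriv riemannZeta₁ z / riemannZeta₁ z with hh₁
  have hh₁c : ∀ z : ℂ, 1 / 2 < z.re → ContinuousAt h₁ z := by
    intro z hz
    have hZ := Z1_ne hRH hz
    exact ((differentiable_riemannZeta₁.analyticAt z).deriv.continuousAt).div
      (differentiable_riemannZeta₁.continuous.continuousAt) hZ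
  -- the regular part
  have hreg : Tendsto (fun t : ℝ => ∫ v in x..2, h₁ ((v:ℂ) + t * Complex.I)) (𝓝[>] 0)
      (𝓝 (∫ v in x..2, h₁ ((v:ℂ) + ((0:ℝ) : ℂ) * Complex.I))) := by
    have hK : IsCompact (Icc x 2 ×ℂ Icc (0:ℝ) 1) := isCompact_Icc.reProdIm isCompact_Icc
    obtain ⟨M, hM⟩ := hK.exists_bound_of_continuousOn (f := h₁) (fun z hz => by
      rw [Complex.mem_reProdIm] at hz
      exact (hh₁c z (by linarith [hz.1.1])).continuousWithinAt)
    refine intervalIntegral.tendsto_integral_filter_of_dominated_convergence (fun _ => M) ?_ ?_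
      ?_ ?_
    · have hmem : Ioo (0 : ℝ) 1 ∈ 𝓝[>] (0 : ℝ) := Ioo_mem_nhdsGT one_pos
      filter_upwards [hmem] with t ht
      rw [uIoc_of_le (by linarith)]
      refine ContinuousOn.aestronglyMeasurable ?_ measurableSet_Ioc
      intro v hv
      have h2 : ContinuousAt (fun v : ℝ => ((v:ℂ) + t * Complex.I)) v := by fun_prop
      exact (ContinuousAt.comp (f := fun v : ℝ => ((v:ℂ) + t * Complex.I)) (g := h₁)
        (hh₁c _ (by simp; linarith [hv.1])) h2).continuousWithinAt
    · have hmem : Ioo (0 : ℝ) 1 ∈ 𝓝[>] (0 : ℝ) := Ioo_mem_nhdsGT one_pos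
      filter_upwards [hmem] with t ht
      refine Eventually.of_forall fun v hv => ?_
      rw [uIoc_of_le (by linarith)] at hv
      refine hM _ ?_
      rw [Complex.mem_reProdIm]
      simp only [Complex.add_re, Complex.ofReal_re, Complex.mul_re, Complex.I_re, mul_zero,
        Complex.ofReal_im, Complex.I_im, mul_one, sub_self, add_zero, Complex.add_im,
        Complex.mul_im, zero_add]
      exact ⟨⟨hv.1.le, hv.2⟩, ⟨ht.1.le, ht.2.le⟩⟩
    · exact intervalIntegrable_const
    · refine Eventually.of_forall fun v hv => ?_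
      rw [uIoc_of_le (by linarith)] at hv
      have h2 : ContinuousAt (fun t : ℝ => ((v:ℂ) + t * Complex.I)) 0 := by fun_prop
      have h3 := (ContinuousAt.comp (f := fun t : ℝ => ((v:ℂ) + t * Complex.I)) (g := h₁)
        (hh₁c _ (by simp; linarith [hv.1])) h2)
      exact h3.tendsto.mono_left nhdsWithin_le_nhds
  have hregim : (∫ v in x..2, h₁ ((v:ℂ) + ((0:ℝ) : ℂ) * Complex.I)).im = 0 := by
    have hi : IntervalIntegrable (fun v : ℝ => h₁ ((v:ℂ) + ((0:ℝ) : ℂ) * Complex.I))
        volume x 2 := by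
      refine ContinuousOn.intervalIntegrable ?_
      rw [uIcc_of_le (by linarith)]
      intro v hv
      have h2 : ContinuousAt (fun v : ℝ => ((v:ℂ) + ((0:ℝ) : ℂ) * Complex.I)) v := by fun_prop
      exact (ContinuousAt.comp (f := fun v : ℝ => ((v:ℂ) + ((0:ℝ) : ℂ) * Complex.I)) (g := h₁)
        (hh₁c _ (by simp; linarith [hv.1])) h2).continuousWithinAt
    have h1 := Complex.imCLM.intervalIntegral_comp_comm hi
    have h2 : ∀ v : ℝ, Complex.imCLM (h₁ ((v:ℂ) + ((0:ℝ) : ℂ) * Complex.I)) = 0 := by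
      intro v
      have e : ((v:ℂ) + ((0:ℝ) : ℂ) * Complex.I) = ((v : ℝ) : ℂ) := by push_cast; ring
      rw [e, Complex.imCLM_apply]
      exact h1_real
    simp_rw [h2] at h1
    simp only [intervalIntegral.integral_zero, Complex.imCLM_apply] at h1
    exact h1.symm
  -- the polar part
  have hpol : ∀ t : ℝ, 0 < t → ∫ v in x..2, (-(1 / ((v:ℂ) + t * Complex.I - 1))) =
      -(Complex.log (((1:ℝ) : ℂ) + t * Complex.I) - Complex.log (((x - 1 : ℝ) : ℂ) + t * Complex.I)) := by
    intro t ht
    have hd : ∀ v ∈ uIcc x 2, HasDerivAt (fun v : ℝ => -Complex.log ((v:ℂ) + t * Complex.I - 1))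
        (-(1 / ((v:ℂ) + t * Complex.I - 1))) v := by
      intro v _
      have h1 : HasDerivAt (fun v : ℝ => ((v:ℂ) + t * Complex.I - 1)) 1 v :=
        ((HasDerivAt.ofReal_comp (hasDerivAt_id v)).add_const _).sub_const _
      have hsl : ((v:ℂ) + t * Complex.I - 1) ∈ Complex.slitPlane := by
        right
        simp
        exact ht.ne'
      have h2 := (h1.clog_real hsl).neg
      exact h2
    have hi : IntervalIntegrable (fun v : ℝ => -(1 / ((v:ℂ) + t * Complex.I - 1))) volume x 2 := by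
      refine ContinuousOn.intervalIntegrable ?_
      refine (ContinuousOn.div (by fun_prop) (by fun_prop) (fun v _ h => ?_)).neg
      have h3 := congrArg Complex.im h
      simp at h3
      linarith
    rw [intervalIntegral.integral_eq_sub_of_hasDerivAt hd hi]
    have e1 : (((2:ℝ) : ℂ) + t * Complex.I - 1) = ((1:ℝ) : ℂ) + t * Complex.I := by
      push_cast; ring
    have e2 : ((x:ℂ) + t * Complex.I - 1) = ((x - 1 : ℝ) : ℂ) + t * Complex.I := by
      push_cast; ring
    rw [e1, e2]
    ring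
  have harg1 : Tendsto (fun t : ℝ => (Complex.log (((1:ℝ) : ℂ) + t * Complex.I)).im) (𝓝[>] 0)
      (𝓝 0) := by
    have h1 : ContinuousAt (fun t : ℝ => Complex.arg (((1:ℝ) : ℂ) + t * Complex.I)) 0 := by
      have h2 : ContinuousAt (fun t : ℝ => (((1:ℝ) : ℂ) + t * Complex.I)) 0 := by fun_prop
      have h3 : ContinuousAt Complex.arg (((1:ℝ) : ℂ) + ((0:ℝ) : ℂ) * Complex.I) := by
        refine Complex.continuousAt_arg ?_
        left
        simp
      exact ContinuousAt.comp (f := fun t : ℝ => (((1:ℝ) : ℂ) + t * Complex.I))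
        (g := Complex.arg) h3 h2
    have h4 := h1.tendsto.mono_left (nhdsWithin_le_nhds (s := Ioi 0))
    simp only [Complex.log_im]
    convert! h4 using 2
    simp
  have harg2 : Tendsto (fun t : ℝ => (Complex.log (((x - 1 : ℝ) : ℂ) + t * Complex.I)).im) (𝓝[>] 0)
      (𝓝 π) := by
    have h1 := Complex.tendsto_arg_nhdsWithin_im_nonneg_of_re_neg_of_im_zero
      (z := ((x - 1 : ℝ) : ℂ)) (by simpa using hx1) (by simp)
    have h2 : Tendsto (fun t : ℝ => ((x - 1 : ℝ) : ℂ) + t * Complex.I) (𝓝[>] 0)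
        (𝓝[{z : ℂ | 0 ≤ z.im}] ((x - 1 : ℝ) : ℂ)) := by
      refine tendsto_nhdsWithin_iff.mpr ⟨?_, ?_⟩
      · have h3 : ContinuousAt (fun t : ℝ => ((x - 1 : ℝ) : ℂ) + t * Complex.I) 0 := by fun_prop
        have h4 := h3.tendsto.mono_left (nhdsWithin_le_nhds (s := Ioi 0))
        convert! h4 using 2
        simp
      · filter_upwards [self_mem_nhdsWithin] with t ht
        have ht' : (0:ℝ) < t := ht
        show 0 ≤ (((x - 1 : ℝ) : ℂ) + t * Complex.I).im
        simp
        exact ht'.le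
    simp only [Complex.log_im]
    exact h1.comp h2
  have hfar : Tendsto (fun t => (Fint 0 2 t).im) (𝓝[>] 0) (𝓝 0) := by
    have h1 := (Complex.continuous_im.continuousAt.comp
      (Fint_cont_t (goodRay_right (by norm_num : (1:ℝ) < 2) 0) 0)).tendsto.mono_left
      (nhdsWithin_le_nhds (s := Ioi 0))
    simp only [Function.comp_def] at h1
    rw [Fint_real (by norm_num : (1:ℝ) < 2)] at h1
    exact h1
  have hreg2 := (Complex.continuous_im.tendsto _).comp hreg
  rw [hregim] at hreg2
  have hall := (((harg2.sub harg1).add hreg2).add hfar)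
  rw [sub_zero, add_zero, add_zero] at hall
  refine hall.congr' ?_
  filter_upwards [self_mem_nhdsWithin] with t ht
  have ht' : (0:ℝ) < t := ht
  have hseg := Fint_zero_seg (goodRay_up hRH hx ht') (by linarith : x ≤ 2)
  have hsplit : ∫ v in x..2, ld ((v:ℂ) + t * Complex.I) =
      (∫ v in x..2, (-(1 / ((v:ℂ) + t * Complex.I - 1)))) +
      ∫ v in x..2, h₁ ((v:ℂ) + t * Complex.I) := by
    rw [← intervalIntegral.integral_add]
    · refine intervalIntegral.integral_congr (fun v hv => ?_)
      rw [uIcc_of_le (by linarith)] at hv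
      have hz1 : ((v:ℂ) + t * Complex.I) ≠ 1 := ne_one_of_im (by simp; exact ht'.ne')
      have hz0 : riemannZeta ((v:ℂ) + t * Complex.I) ≠ 0 :=
        zeta_ne hRH (by simp; linarith [hv.1])
      exact ld_eq_Z1 hz1 hz0
    · refine ContinuousOn.intervalIntegrable ?_
      refine (ContinuousOn.div (by fun_prop) (by fun_prop) (fun v _ h => ?_)).neg
      have h3 := congrArg Complex.im h
      simp at h3
      linarith
    · refine ContinuousOn.intervalIntegrable ?_
      rw [uIcc_of_le (by linarith)]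
      intro v hv
      have h2 : ContinuousAt (fun v : ℝ => ((v:ℂ) + t * Complex.I)) v := by fun_prop
      exact (ContinuousAt.comp (f := fun v : ℝ => ((v:ℂ) + t * Complex.I)) (g := h₁)
        (hh₁c _ (by simp; linarith [hv.1])) h2).continuousWithinAt
  rw [hseg, hsplit, hpol t ht', Complex.add_im, Complex.add_im, Complex.neg_im, Complex.sub_im]
  simp only [Function.comp_apply]
  ring

/-- Pointwise limit at height `0+`. -/
theorem Fint_tendsto_Lz (hRH : RiemannHypothesis) {x : ℝ} (hx : 1 / 2 < x) (hx1 : x ≠ 1) :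
    Tendsto (fun t => Fint 0 x t) (𝓝[>] 0) (𝓝 (Lz x)) := by
  have hre : Tendsto (fun t => (Fint 0 x t).re) (𝓝[>] 0)
      (𝓝 (-Real.log ‖riemannZeta (x:ℂ)‖)) := by
    have hx1' : (x:ℂ) ≠ 1 := by exact_mod_cast hx1
    have hz0 : riemannZeta (x:ℂ) ≠ 0 := zeta_ne hRH (by simpa using hx)
    have h1 : ContinuousAt (fun t : ℝ => -Real.log ‖riemannZeta ((x:ℂ) + t * Complex.I)‖) 0 := by
      have h2 : ContinuousAt (fun t : ℝ => ((x:ℂ) + t * Complex.I)) 0 := by fun_prop
      have h3 : ContinuousAt riemannZeta ((x:ℂ) + ((0:ℝ) : ℂ) * Complex.I) := by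
        have e : ((x:ℂ) + ((0:ℝ) : ℂ) * Complex.I) = x := by simp
        rw [e]
        exact (differentiableAt_riemannZeta hx1').continuousAt
      have h4 := ContinuousAt.comp (f := fun t : ℝ => ((x:ℂ) + t * Complex.I))
        (g := riemannZeta) h3 h2
      refine (ContinuousAt.log h4.norm ?_).neg
      simp only [Function.comp_apply]
      rw [norm_ne_zero_iff]
      simpa using hz0
    have h5 := h1.tendsto.mono_left (nhdsWithin_le_nhds (s := Ioi 0))
    have e0 : ((x:ℂ) + ((0:ℝ) : ℂ) * Complex.I) = x := by simp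
    rw [e0] at h5
    refine h5.congr' ?_
    filter_upwards [self_mem_nhdsWithin] with t ht
    have ht' : (0:ℝ) < t := ht
    refine (Fint_zero_re (goodRay_up hRH hx ht') (fun y hy => ?_) (fun y hy => ?_)).symm
    · exact zeta_ne hRH (by simp; linarith)
    · exact ne_one_of_im (by simp; exact ht'.ne')
  have him : Tendsto (fun t => (Fint 0 x t).im) (𝓝[>] 0) (𝓝 (if x < 1 then π else 0)) := by
    by_cases h : x < 1
    · rw [if_pos h]; exact Fint_im_tendsto_left hRH hx h
    · rw [if_neg h]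
      have hx2 : 1 < x := lt_of_le_of_ne (not_lt.mp h) (Ne.symm hx1)
      have h1 := (Complex.continuous_im.continuousAt.comp
        (Fint_cont_t (goodRay_right hx2 0) 0)).tendsto.mono_left
        (nhdsWithin_le_nhds (s := Ioi 0))
      simp only [Function.comp_def] at h1
      rw [Fint_real hx2] at h1
      exact h1
  have h2 := (Complex.continuous_ofReal.tendsto _).comp hre
  have h3 := ((Complex.continuous_ofReal.tendsto _).comp him).mul_const Complex.I
  have h4 := h2.add h3
  unfold Lz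
  refine h4.congr (fun t => ?_)
  simp only [Function.comp_apply]
  exact Complex.re_add_im _

end Pool.Agent.Helper79.SE
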