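import Pool.Agent.Helper79.SnE

/-!
The constants of integration.
-/

namespace Pool.Agent.Helper79.SE

open MeasureTheory Set Filter Topology

open scoped Real

theorem log_dist_bound {x t : ℝ} (hx0 : 0 ≤ x) (hx2 : x ≤ 2) (hx1 : x ≠ 1) (ht0 : 0 < t)
    (ht1 : t ≤ 1) :
    |Real.log ‖((x:ℂ) + t * Complex.I - 1)‖| ≤ |Real.log (x - 1)| + Real.log 2 := by
  have e : ((x:ℂ) + t * Complex.I - 1) = ((x - 1 : ℝ) : ℂ) + (t : ℂ) * Complex.I := by
    push_cast; ring
  have hlow : |x - 1| ≤ ‖((x:ℂ) + t * Complex.I - 1)‖ := by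
    rw [e]
    refine le_trans (le_of_eq ?_) (Complex.abs_re_le_norm _)
    simp
  have hup : ‖((x:ℂ) + t * Complex.I - 1)‖ ≤ 2 := by
    rw [e]
    refine (norm_add_le _ _).trans ?_
    rw [norm_mul, Complex.norm_I, mul_one, Complex.norm_real, Complex.norm_real,
      Real.norm_eq_abs, Real.norm_eq_abs, abs_of_pos ht0]
    have : |x - 1| ≤ 1 := by rw [abs_le]; constructor <;> linarith
    linarith
  have hpos : 0 < |x - 1| := abs_pos.mpr (sub_ne_zero.mpr hx1)
  have hpos2 : 0 < ‖((x:ℂ) + t * Complex.I - 1)‖ := by linarith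
  have hl2 : 0 ≤ Real.log 2 := Real.log_nonneg (by norm_num)
  rcases le_or_gt 1 ‖((x:ℂ) + t * Complex.I - 1)‖ with h | h
  · rw [abs_of_nonneg (Real.log_nonneg h)]
    have h1 := Real.log_le_log hpos2 hup
    have h2 := abs_nonneg (Real.log (x - 1))
    linarith
  · have h1 := Real.log_le_log hpos hlow
    rw [Real.log_abs] at h1
    have h2 : Real.log ‖((x:ℂ) + t * Complex.I - 1)‖ ≤ 0 := Real.log_nonpos hpos2.le h.le
    rw [abs_of_nonpos h2]
    have h3 := neg_le_abs (Real.log (x - 1))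
    linarith

/-- Domination of the horizontal integral for small heights. -/
theorem Fint_dom (hRH : RiemannHypothesis) {a : ℝ} (ha : 1 / 2 < a) :
    ∃ C : ℝ, 0 < C ∧ ∀ x t : ℝ, a ≤ x → x ≠ 1 → 0 < t → t ≤ 1 →
      ‖Fint 0 x t‖ ≤ C * (2:ℝ) ^ (-x) + (if x ≤ 2 then |Real.log (x - 1)| else 0) := by
  obtain ⟨C1, hC1, him⟩ := Fint_im_bound hRH 1 one_pos
  obtain ⟨C2, hC2, hfar⟩ := Fint_zero_far
  have hK : IsCompact (Icc a 2 ×ℂ Icc (0:ℝ) 1) := isCompact_Icc.reProdIm isCompact_Icc
  have hcont : ContinuousOn (fun z : ℂ => Real.log ‖riemannZeta₁ z‖) (Icc a 2 ×ℂ Icc (0:ℝ) 1) := by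
    intro z hz
    rw [Complex.mem_reProdIm] at hz
    have hZ := Z1_ne hRH (z := z) (by linarith [hz.1.1])
    exact ((differentiable_riemannZeta₁.continuous.continuousAt).norm.log
      (norm_ne_zero_iff.mpr hZ)).continuousWithinAt
  obtain ⟨M, hM⟩ := hK.exists_bound_of_continuousOn hcont
  have hl2 : 0 ≤ Real.log 2 := Real.log_nonneg (by norm_num)
  refine ⟨C2 + 4 * (C1 + |M| + Real.log 2), by positivity, fun x t hax hx1 ht0 ht1 => ?_⟩
  have hp : 0 < (2:ℝ) ^ (-x) := by positivity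
  rcases le_or_gt x 2 with h2 | h2
  · rw [if_pos h2]
    have hz1 : ((x:ℂ) + t * Complex.I) ≠ 1 := ne_one_of_im (by simp; exact ht0.ne')
    have hre : (Fint 0 x t).re = -Real.log ‖riemannZeta ((x:ℂ) + t * Complex.I)‖ :=
      Fint_zero_re (goodRay_up hRH (by linarith) ht0)
        (fun y hy => zeta_ne hRH (by simp; linarith))
        (fun y hy => ne_one_of_im (by simp; exact ht0.ne'))
    have hZ := Z1_ne hRH (z := (x:ℂ) + t * Complex.I) (by simp; linarith)
    have hz1' : ((x:ℂ) + t * Complex.I - 1) ≠ 0 := sub_ne_zero.mpr hz1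
    have hlog : Real.log ‖riemannZeta ((x:ℂ) + t * Complex.I)‖ =
        Real.log ‖riemannZeta₁ ((x:ℂ) + t * Complex.I)‖ -
          Real.log ‖((x:ℂ) + t * Complex.I - 1)‖ := by
      rw [riemannZeta_eq_inv_sub_mul hz1, norm_mul, norm_inv,
        Real.log_mul (inv_ne_zero (norm_ne_zero_iff.mpr hz1')) (norm_ne_zero_iff.mpr hZ),
        Real.log_inv]
      ring
    have hb1 : |Real.log ‖riemannZeta₁ ((x:ℂ) + t * Complex.I)‖| ≤ |M| := by
      have := hM ((x:ℂ) + t * Complex.I) (by
        rw [Complex.mem_reProdIm]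
        simp only [Complex.add_re, Complex.ofReal_re, Complex.mul_re, Complex.I_re, mul_zero,
          Complex.ofReal_im, Complex.I_im, mul_one, sub_self, add_zero, Complex.add_im,
          Complex.mul_im, zero_add]
        exact ⟨⟨hax, h2⟩, ⟨ht0.le, ht1⟩⟩)
      exact this.trans (le_abs_self M)
    have hb2 := log_dist_bound (by linarith) h2 hx1 ht0 ht1
    have hb3 : |(Fint 0 x t).re| ≤ |M| + (|Real.log (x - 1)| + Real.log 2) := by
      rw [hre, abs_neg, hlog]
      exact (abs_sub _ _).trans (by linarith)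
    have hb4 := him x t (by linarith) ht0 ht1
    have h5 : (1:ℝ) ≤ 4 * (2:ℝ) ^ (-x) := by
      have : (4:ℝ) = (2:ℝ) ^ (2:ℝ) := by norm_num
      rw [this, ← Real.rpow_add (by norm_num)]
      exact Real.one_le_rpow (by norm_num) (by linarith)
    have h6 : C1 + |M| + Real.log 2 ≤ 4 * (C1 + |M| + Real.log 2) * (2:ℝ) ^ (-x) := by
      have : 0 ≤ C1 + |M| + Real.log 2 := by positivity
      nlinarith
    have h7 : 0 ≤ C2 * (2:ℝ) ^ (-x) := by positivity
    calc ‖Fint 0 x t‖ ≤ |(Fint 0 x t).re| + |(Fint 0 x t).im| :=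
          Complex.norm_le_abs_re_add_abs_im _
      _ ≤ (C1 + |M| + Real.log 2) + |Real.log (x - 1)| := by linarith
      _ ≤ _ := by linarith
  · rw [if_neg (not_le.mpr h2), add_zero]
    refine (hfar x t h2.le).trans ?_
    have : 0 ≤ 4 * (C1 + |M| + Real.log 2) := by positivity
    nlinarith

theorem dom_int (C a : ℝ) (m : ℕ) :
    IntegrableOn (fun y : ℝ => y ^ m * (C * (2:ℝ) ^ (-(a + y)) +
      (if a + y ≤ 2 then |Real.log (a + y - 1)| else 0))) (Ioi 0) := by
  have h1 : IntegrableOn (fun y : ℝ => C * (2:ℝ) ^ (-a) * (y ^ m * (2:ℝ) ^ (-y))) (Ioi 0) :=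
    (pow_exp_int m).const_mul _
  have h2 : IntegrableOn (fun y : ℝ => y ^ m * |Real.log (a + y - 1)|) (Ioc 0 (2 - a)) := by
    rcases le_or_gt 0 (2 - a) with h | h
    · have h3 : IntervalIntegrable (fun y : ℝ => Real.log (y + (a - 1))) volume 0 (2 - a) := by
        have h4 : IntervalIntegrable Real.log volume (a - 1) 1 :=
          intervalIntegral.intervalIntegrable_log'
        have h5 := h4.comp_add_right (a - 1)
        rw [sub_self, show (1:ℝ) - (a - 1) = 2 - a by ring] at h5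
        exact h5
      have h6 := h3.abs.continuousOn_mul (f := fun y : ℝ => |Real.log (y + (a - 1))|)
        (g := fun y : ℝ => y ^ m) (by fun_prop)
      rw [intervalIntegrable_iff_integrableOn_Ioc_of_le h] at h6
      refine h6.congr_fun (fun y _ => ?_) measurableSet_Ioc
      rw [show a + y - 1 = y + (a - 1) by ring]
    · rw [Ioc_eq_empty (by linarith)]
      exact integrableOn_empty
  have h3 : IntegrableOn (fun y : ℝ => (Ioc 0 (2 - a)).indicator
      (fun y => y ^ m * |Real.log (a + y - 1)|) y) (Ioi 0) :=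
    ((integrable_indicator_iff measurableSet_Ioc).mpr h2).integrableOn
  refine (h1.add h3).congr_fun (fun y hy => ?_) measurableSet_Ioi
  have hy' : (0:ℝ) < y := hy
  simp only [Pi.add_apply]
  have e1 : (2:ℝ) ^ (-(a + y)) = (2:ℝ) ^ (-a) * (2:ℝ) ^ (-y) := by
    rw [← Real.rpow_add (by norm_num)]; congr 1; ring
  rw [e1]
  by_cases h : a + y ≤ 2
  · rw [if_pos h, indicator_of_mem (show y ∈ Ioc 0 (2 - a) from ⟨hy', by linarith⟩)]
    ring
  · rw [if_neg h, indicator_of_notMem (fun h' => h (by linarith [h'.2]))]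
    ring

/-- The moments of the limiting function. -/
noncomputable def Gm (m : ℕ) (a : ℝ) : ℂ := ∫ y in Ioi (0:ℝ), (y:ℂ) ^ m * Lz (a + y)

theorem Fint_succ_tendsto (hRH : RiemannHypothesis) {a : ℝ} (ha : 1 / 2 < a) (m : ℕ) :
    Tendsto (fun t => Fint (m + 1) a t) (𝓝[>] 0) (𝓝 (((m:ℂ) + 1) * Gm m a)) := by
  obtain ⟨C, hC, hdom⟩ := Fint_dom hRH ha
  have h1 : Tendsto (fun t => ∫ y in Ioi (0:ℝ), (y:ℂ) ^ m * Fint 0 (a + y) t) (𝓝[>] 0)
      (𝓝 (Gm m a)) := by
    refine tendsto_integral_filter_of_dominated_convergence _ ?_ ?_ (dom_int C a m) ?_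
    · filter_upwards [self_mem_nhdsWithin] with t ht
      have ht' : (0:ℝ) < t := ht
      refine ContinuousOn.aestronglyMeasurable ?_ measurableSet_Ioi
      exact ContinuousOn.mul (by fun_prop)
        ((Fint_zero_contOn (goodRay_up hRH ha ht')).mono Ioi_subset_Ici_self)
    · have hmem : Ioo (0 : ℝ) 1 ∈ 𝓝[>] (0 : ℝ) := Ioo_mem_nhdsGT one_pos
      filter_upwards [hmem] with t ht
      have hne : ∀ᵐ y : ℝ, y ≠ 1 - a := (measure_singleton (μ := volume) (1 - a)) |> fun h => by
        rw [ae_iff]; simp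
      rw [ae_restrict_iff' measurableSet_Ioi]
      filter_upwards [hne] with y hy hy0
      have hy0' : (0:ℝ) < y := hy0
      rw [norm_mul, norm_pow, Complex.norm_real, Real.norm_of_nonneg hy0'.le]
      refine mul_le_mul_of_nonneg_left ?_ (by positivity)
      exact hdom (a + y) t (by linarith) (fun h => hy (by linarith)) ht.1 ht.2.le
    · have hne : ∀ᵐ y : ℝ, y ≠ 1 - a := (measure_singleton (μ := volume) (1 - a)) |> fun h => by
        rw [ae_iff]; simp
      rw [ae_restrict_iff' measurableSet_Ioi]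
      filter_upwards [hne] with y hy hy0
      have hy0' : (0:ℝ) < y := hy0
      exact (Fint_tendsto_Lz hRH (by linarith) (fun h => hy (by linarith))).const_mul _
  have h2 := h1.const_mul ((m:ℂ) + 1)
  refine h2.congr' ?_
  filter_upwards [self_mem_nhdsWithin] with t ht
  have ht' : (0:ℝ) < t := ht
  exact (Fint_succ_eq (goodRay_up hRH ha ht') m).symm

theorem logZ1_int : IntervalIntegrable (fun x : ℝ => Real.log ‖riemannZeta₁ (x:ℂ)‖) volume
    (1 / 2) 2 := by
  have h : MeromorphicOn (fun x : ℝ => riemannZeta₁ (x:ℂ)) (uIcc (1 / 2) 2) := by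
    intro x _
    have h1 : AnalyticAt ℂ riemannZeta₁ (x:ℂ) := differentiable_riemannZeta₁.analyticAt _
    have h2 : AnalyticAt ℝ riemannZeta₁ (x:ℂ) := h1.restrictScalars
    have h3 : AnalyticAt ℝ (fun x : ℝ => (x:ℂ)) x := Complex.ofRealCLM.analyticAt x
    exact (h2.comp_of_eq h3 rfl).meromorphicAt
  exact h.intervalIntegrable_log_norm

theorem logZ_int (hRH : RiemannHypothesis) :
    IntervalIntegrable (fun x : ℝ => Real.log ‖riemannZeta (x:ℂ)‖) volume (1 / 2) 2 := by
  have h3 : IntervalIntegrable (fun y : ℝ => Real.log (y + (-1))) volume (1 / 2) 2 := by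
    have h4 : IntervalIntegrable Real.log volume (-(1 / 2)) 1 :=
      intervalIntegral.intervalIntegrable_log'
    have h5 := h4.comp_add_right (-1)
    norm_num at h5
    norm_num
    exact h5
  have h6 := logZ1_int.sub h3
  rw [intervalIntegrable_iff] at h6 ⊢
  refine h6.congr ?_
  have hne : ∀ᵐ y : ℝ, y ≠ 1 := (measure_singleton (μ := volume) (1:ℝ)) |> fun h => by
    rw [ae_iff]; simp
  rw [uIoc_of_le (by norm_num)]
  have hae : ∀ᵐ x : ℝ, x ∈ Ioc (1 / 2 : ℝ) 2 → Real.log ‖riemannZeta₁ (x:ℂ)‖ -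
      Real.log (x + (-1)) = Real.log ‖riemannZeta (x:ℂ)‖ := by
    filter_upwards [hne] with x hx hx2
    have hx1 : (x:ℂ) ≠ 1 := by exact_mod_cast hx
    have hZ := Z1_ne hRH (z := (x:ℂ)) (by simpa using hx2.1)
    have hx1' : (x:ℂ) - 1 ≠ 0 := sub_ne_zero.mpr hx1
    rw [riemannZeta_eq_inv_sub_mul hx1, norm_mul, norm_inv,
      Real.log_mul (inv_ne_zero (norm_ne_zero_iff.mpr hx1')) (norm_ne_zero_iff.mpr hZ),
      Real.log_inv]
    have e : ((x:ℂ) - 1) = ((x + (-1) : ℝ) : ℂ) := by push_cast; ring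
    rw [e, Complex.norm_real, Real.norm_eq_abs, Real.log_abs]
    ring
  exact (ae_restrict_iff' measurableSet_Ioc).mpr hae

theorem Lz_right {x : ℝ} (hx : 1 < x) : Lz x = Fint 0 x 0 := by
  have h1 : (Fint 0 x 0).re = -Real.log ‖riemannZeta ((x:ℂ) + ((0:ℝ) : ℂ) * Complex.I)‖ := by
    refine Fint_zero_re (goodRay_right hx 0) (fun y hy => ?_) (fun y hy => ?_)
    · exact riemannZeta_ne_zero_of_one_lt_re (by simp; linarith)
    · exact ne_one_of_re (by simp; linarith)
  have h2 := Fint_real hx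
  unfold Lz
  rw [if_neg (not_lt.mpr hx.le)]
  apply Complex.ext
  · rw [h1]; simp
  · rw [h2]; simp

theorem Lz_int (hRH : RiemannHypothesis) (m : ℕ) :
    IntegrableOn (fun x : ℝ => (x:ℂ) ^ m * Lz x) (Ioi (1 / 2)) := by
  rw [← Ioc_union_Ioi_eq_Ioi (show (1 / 2 : ℝ) ≤ 2 by norm_num)]
  refine IntegrableOn.union ?_ ?_
  · have h1 : IntervalIntegrable (fun x : ℝ => ((-Real.log ‖riemannZeta (x:ℂ)‖ : ℝ) : ℂ))
        volume (1 / 2) 2 := by
      have := (logZ_int hRH).neg
      rw [intervalIntegrable_iff] at this ⊢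
      exact this.ofReal
    have h2 : IntervalIntegrable (fun x : ℝ => ((if x < 1 then π else 0 : ℝ) : ℂ) * Complex.I)
        volume (1 / 2) 2 := by
      rw [intervalIntegrable_iff]
      refine Measure.integrableOn_of_bounded (M := π) ?_ ?_ ?_
      · rw [uIoc_of_le (by norm_num)]
        simp
      · refine Measurable.aestronglyMeasurable ?_
        refine Measurable.mul_const ?_ _
        exact Complex.measurable_ofReal.comp
          (Measurable.ite measurableSet_Iio measurable_const measurable_const)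
      · refine Eventually.of_forall fun x => ?_
        rw [norm_mul, Complex.norm_I, mul_one, Complex.norm_real]
        split_ifs
        · rw [Real.norm_of_nonneg Real.pi_pos.le]
        · rw [norm_zero]; exact Real.pi_pos.le
    have h3 := (h1.add h2).continuousOn_mul (g := fun x : ℝ => (x:ℂ) ^ m) (by fun_prop)
    rw [intervalIntegrable_iff_integrableOn_Ioc_of_le (by norm_num)] at h3
    exact h3
  · obtain ⟨C, hC, hfar⟩ := Fint_zero_far
    have hi : IntegrableOn (fun x : ℝ => C * (x ^ m * (2:ℝ) ^ (-x))) (Ioi 2) := by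
      have : IntegrableOn (fun x : ℝ => C * (x ^ m * (2:ℝ) ^ (-x))) (Ioi 0) :=
        (pow_exp_int m).const_mul C
      exact this.mono_set (Ioi_subset_Ioi (by norm_num))
    have hcont : ContinuousOn (fun x : ℝ => Fint 0 x 0) (Ioi 2) := by
      have h1 := Fint_zero_contOn (goodRay_right (by norm_num : (1:ℝ) < 2) 0)
      intro x hx
      have hx' : (2:ℝ) < x := hx
      have h2 : ContinuousAt (fun y => Fint 0 (2 + y) 0) (x - 2) :=
        h1.continuousAt (Ici_mem_nhds (by linarith))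
      have h3 : ContinuousAt (fun x : ℝ => x - 2) x := by fun_prop
      have h4 := ContinuousAt.comp (f := fun x : ℝ => x - 2) (g := fun y => Fint 0 (2 + y) 0) h2 h3
      refine ContinuousAt.continuousWithinAt (h4.congr (Eventually.of_forall fun v => ?_))
      simp only [Function.comp_apply]
      congr 1
      ring
    have h5 : IntegrableOn (fun x : ℝ => (x:ℂ) ^ m * Fint 0 x 0) (Ioi 2) := by
      refine Integrable.mono' hi ?_ ?_
      · exact (ContinuousOn.mul (by fun_prop) hcont).aestronglyMeasurable measurableSet_Ioi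
      · rw [ae_restrict_iff' measurableSet_Ioi]
        refine Eventually.of_forall fun x hx => ?_
        have hx' : (2:ℝ) < x := hx
        rw [norm_mul, norm_pow, Complex.norm_real, Real.norm_of_nonneg (by linarith)]
        have := hfar x 0 hx'.le
        calc x ^ m * ‖Fint 0 x 0‖ ≤ x ^ m * (C * (2:ℝ) ^ (-x)) := by gcongr
          _ = _ := by ring
    refine h5.congr_fun (fun x hx => ?_) measurableSet_Ioi
    have hx' : (2:ℝ) < x := hx
    rw [Lz_right (by linarith)]

theorem Gm_shift (m : ℕ) (a : ℝ) : Gm m a = ∫ x in Ioi a, ((x - a : ℝ) : ℂ) ^ m * Lz x := by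
  unfold Gm
  rw [← ioi_shift_integral (fun y : ℝ => (y:ℂ) ^ m * Lz (a + y)) a]
  refine setIntegral_congr_fun measurableSet_Ioi (fun x _ => ?_)
  rw [show a + (x - a) = x by ring]

theorem Gm_tendsto (hRH : RiemannHypothesis) (m : ℕ) :
    Tendsto (fun a => Gm m a) (𝓝[>] (1 / 2)) (𝓝 (Gm m (1 / 2))) := by
  have hL := Lz_int hRH m
  have hL0 := Lz_int hRH 0
  simp only [pow_zero, one_mul] at hL0
  have key : Tendsto (fun a : ℝ => ∫ x in Ioi (1 / 2 : ℝ), (Ioi a).indicator
      (fun x : ℝ => ((x - a : ℝ) : ℂ) ^ m * Lz x) x) (𝓝[>] (1 / 2))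
      (𝓝 (∫ x in Ioi (1 / 2 : ℝ), ((x - 1 / 2 : ℝ) : ℂ) ^ m * Lz x)) := by
    refine tendsto_integral_filter_of_dominated_convergence
      (fun x : ℝ => ‖(x:ℂ) ^ m * Lz x‖) ?_ ?_ hL.norm ?_
    · refine Eventually.of_forall fun a => ?_
      refine AEStronglyMeasurable.indicator ?_ measurableSet_Ioi
      refine AEStronglyMeasurable.mul ?_ hL0.aestronglyMeasurable
      exact Continuous.aestronglyMeasurable (by fun_prop)
    · filter_upwards [self_mem_nhdsWithin] with a ha
      have ha' : (1 / 2 : ℝ) < a := ha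
      refine Eventually.of_forall fun x => ?_
      by_cases hx : a < x
      · rw [indicator_of_mem (show x ∈ Ioi a from hx), norm_mul, norm_mul, norm_pow, norm_pow,
          Complex.norm_real, Complex.norm_real, Real.norm_of_nonneg (by linarith : 0 ≤ x - a),
          Real.norm_of_nonneg (by linarith : 0 ≤ x)]
        refine mul_le_mul_of_nonneg_right ?_ (norm_nonneg _)
        exact pow_le_pow_left₀ (by linarith) (by linarith) m
      · rw [indicator_of_notMem (show x ∉ Ioi a from hx), norm_zero]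
        exact norm_nonneg _
    · rw [ae_restrict_iff' measurableSet_Ioi]
      refine Eventually.of_forall fun x hx => ?_
      have hx' : (1 / 2 : ℝ) < x := hx
      have h1 : ContinuousAt (fun a : ℝ => ((x - a : ℝ) : ℂ) ^ m * Lz x) (1 / 2) := by fun_prop
      have h2 := h1.tendsto.mono_left (nhdsWithin_le_nhds (s := Ioi (1 / 2 : ℝ)))
      refine h2.congr' ?_
      have hmem : Ioo (1 / 2 : ℝ) x ∈ 𝓝[>] (1 / 2 : ℝ) := Ioo_mem_nhdsGT hx'
      filter_upwards [hmem] with a ha
      rw [indicator_of_mem (show x ∈ Ioi a from ha.2)]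
  rw [Gm_shift m (1 / 2)]
  refine key.congr' ?_
  filter_upwards [self_mem_nhdsWithin] with a ha
  have ha' : (1 / 2 : ℝ) < a := ha
  rw [setIntegral_indicator measurableSet_Ioi, Gm_shift m a]
  congr 2
  exact inter_eq_right.mpr (Ioi_subset_Ioi ha'.le)

/-- Value at height `0+` of the approximants. -/
noncomputable def SA0 (m : ℕ) (a : ℝ) : ℝ :=
  -(Complex.I ^ (m + 1) * (((m:ℂ) + 1) * Gm m a)).im / (π * (m + 1).factorial)

theorem SA_tendsto_zero (hRH : RiemannHypothesis) {a : ℝ} (ha : 1 / 2 < a) (m : ℕ) :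
    Tendsto (fun t => SA (m + 1) a t) (𝓝[>] 0) (𝓝 (SA0 m a)) := by
  have h1 := (Fint_succ_tendsto hRH ha m).const_mul (Complex.I ^ (m + 1))
  have h2 := ((Complex.continuous_im.tendsto _).comp h1).neg.div_const (π * (m + 1).factorial)
  exact h2

theorem SA0_tendsto (hRH : RiemannHypothesis) (m : ℕ) :
    Tendsto (fun a => SA0 m a) (𝓝[>] (1 / 2)) (𝓝 (SA0 m (1 / 2))) := by
  have h1 := ((Gm_tendsto hRH m).const_mul ((m:ℂ) + 1)).const_mul (Complex.I ^ (m + 1))
  have h2 := ((Complex.continuous_im.tendsto _).comp h1).neg.div_const (π * (m + 1).factorial)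
  exact h2

end Pool.Agent.Helper79.SE
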