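import Pool.Agent.Helper79.SnF

/-!
Iterated integrals of `log |zeta|` on the real axis and the explicit constants.
-/

namespace Pool.Agent.Helper79.SE

open MeasureTheory Set Filter Topology

open scoped Real

theorem int_pow_sub (σ v : ℝ) (m : ℕ) :
    ∫ x in σ..v, (v - x) ^ m / (m.factorial : ℝ) = (v - σ) ^ (m + 1) / ((m + 1).factorial : ℝ) := by
  have h1 := intervalIntegral.integral_comp_sub_left (fun x : ℝ => x ^ m / (m.factorial : ℝ)) v
    (a := σ) (b := v)
  rw [h1, sub_self, intervalIntegral.integral_div, integral_pow, Nat.factorial_succ]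
  push_cast
  rw [zero_pow (by omega), sub_zero]
  have : (m.factorial : ℝ) ≠ 0 := by exact_mod_cast m.factorial_ne_zero
  field_simp

/-- Cauchy's formula for repeated integration on a half line. -/
theorem iter_int {g : ℝ → ℝ} {σ : ℝ} (m : ℕ)
    (hg : IntegrableOn (fun v => (v - σ) ^ (m + 1) * g v) (Ioi σ))
    (hm : AEStronglyMeasurable g (volume.restrict (Ioi σ))) :
    ∫ x in Ioi σ, (∫ v in Ioi x, (v - x) ^ m / (m.factorial : ℝ) * g v) =
      ∫ v in Ioi σ, (v - σ) ^ (m + 1) / ((m + 1).factorial : ℝ) * g v := by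
  set F : ℝ → ℝ → ℝ := fun x v => (if x < v then (v - x) ^ m / (m.factorial : ℝ) else 0) * g v
    with hF
  have hmeas : AEStronglyMeasurable (Function.uncurry F)
      ((volume.restrict (Ioi σ)).prod (volume.restrict (Ioi σ))) := by
    have h1 : Measurable (fun p : ℝ × ℝ =>
        (if p.1 < p.2 then (p.2 - p.1) ^ m / (m.factorial : ℝ) else 0)) :=
      Measurable.ite (measurableSet_lt measurable_fst measurable_snd) (by fun_prop)
        measurable_const
    exact h1.aestronglyMeasurable.mul hm.comp_snd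
  have hinner : ∀ v : ℝ, σ < v → ∀ c : ℝ,
      IntegrableOn (fun x => (if x < v then (v - x) ^ m / (m.factorial : ℝ) else 0) * c) (Ioi σ) ∧
      ∫ x in Ioi σ, (if x < v then (v - x) ^ m / (m.factorial : ℝ) else 0) * c =
        (v - σ) ^ (m + 1) / ((m + 1).factorial : ℝ) * c := by
    intro v hv c
    have e1 : (fun x => (if x < v then (v - x) ^ m / (m.factorial : ℝ) else 0) * c) =
        (Iio v).indicator (fun x => (v - x) ^ m / (m.factorial : ℝ) * c) := by
      funext x
      by_cases h : x < v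
      · rw [if_pos h, indicator_of_mem (show x ∈ Iio v from h)]
      · rw [if_neg h, indicator_of_notMem (show x ∉ Iio v from h), zero_mul]
    have e2 : Ioi σ ∩ Iio v = Ioo σ v := by ext x; simp
    have hc : IntegrableOn (fun x => (v - x) ^ m / (m.factorial : ℝ) * c) (Ioo σ v) := by
      have : ContinuousOn (fun x : ℝ => (v - x) ^ m / (m.factorial : ℝ) * c) (Icc σ v) := by
        fun_prop
      exact this.integrableOn_Icc.mono_set Ioo_subset_Icc_self
    rw [e1]
    constructor
    · rw [IntegrableOn, integrable_indicator_iff measurableSet_Iio, IntegrableOn,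
        Measure.restrict_restrict measurableSet_Iio, inter_comm, e2]
      exact hc
    · rw [setIntegral_indicator measurableSet_Iio, e2, ← integral_Ioc_eq_integral_Ioo,
        ← intervalIntegral.integral_of_le hv.le, intervalIntegral.integral_mul_const,
        int_pow_sub σ v m]
  have hint : Integrable (Function.uncurry F)
      ((volume.restrict (Ioi σ)).prod (volume.restrict (Ioi σ))) := by
    rw [integrable_prod_iff' hmeas]
    constructor
    · rw [ae_restrict_iff' measurableSet_Ioi]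
      refine Eventually.of_forall fun v hv => ?_
      exact (hinner v hv (g v)).1
    · have h1 : IntegrableOn (fun v => (1 / ((m + 1).factorial : ℝ)) *
          |(v - σ) ^ (m + 1) * g v|) (Ioi σ) := (hg.abs).const_mul _
      refine h1.congr_fun (fun v hv => ?_) measurableSet_Ioi
      have hv' : σ < v := hv
      have h2 := (hinner v hv' |g v|).2
      have h3 : ∀ x : ℝ, ‖Function.uncurry F (x, v)‖ =
          (if x < v then (v - x) ^ m / (m.factorial : ℝ) else 0) * |g v| := by
        intro x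
        simp only [Function.uncurry, hF, norm_mul, Real.norm_eq_abs]
        congr 1
        by_cases h : x < v
        · rw [if_pos h, abs_of_nonneg]
          exact div_nonneg (pow_nonneg (by linarith) _) (by positivity)
        · rw [if_neg h, abs_zero]
      simp_rw [h3]
      rw [h2, abs_mul, abs_of_nonneg (pow_nonneg (by linarith : 0 ≤ v - σ) _)]
      ring
  have hswap := integral_integral_swap (f := F) hint
  have hL : ∫ x in Ioi σ, (∫ v in Ioi x, (v - x) ^ m / (m.factorial : ℝ) * g v) =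
      ∫ x in Ioi σ, ∫ v in Ioi σ, F x v := by
    refine setIntegral_congr_fun measurableSet_Ioi (fun x hx => ?_)
    have hx' : σ < x := hx
    have e1 : (fun v => F x v) = (Ioi x).indicator (fun v => (v - x) ^ m / (m.factorial : ℝ) *
        g v) := by
      funext v
      simp only [hF]
      by_cases h : x < v
      · rw [if_pos h, indicator_of_mem (show v ∈ Ioi x from h)]
      · rw [if_neg h, indicator_of_notMem (show v ∉ Ioi x from h), zero_mul]
    rw [e1, setIntegral_indicator measurableSet_Ioi]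
    congr 2
    exact (inter_eq_right.mpr (Ioi_subset_Ioi hx'.le)).symm
  have hR : ∫ v in Ioi σ, ∫ x in Ioi σ, F x v =
      ∫ v in Ioi σ, (v - σ) ^ (m + 1) / ((m + 1).factorial : ℝ) * g v := by
    refine setIntegral_congr_fun measurableSet_Ioi (fun v hv => ?_)
    exact (hinner v hv (g v)).2
  rw [hL, hswap, hR]

theorem logmom_int (hRH : RiemannHypothesis) (m : ℕ) {σ : ℝ} (hσ : 1 / 2 ≤ σ) :
    IntegrableOn (fun v : ℝ => (v - σ) ^ m * Real.log ‖riemannZeta (v:ℂ)‖) (Ioi σ) ∧
    AEStronglyMeasurable (fun v : ℝ => Real.log ‖riemannZeta (v:ℂ)‖)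
      (volume.restrict (Ioi σ)) := by
  have hsub : Ioi σ ⊆ Ioi (1 / 2) := Ioi_subset_Ioi hσ
  have h0 : IntegrableOn (fun v : ℝ => Real.log ‖riemannZeta (v:ℂ)‖) (Ioi σ) := by
    have h1 := ((Lz_int hRH 0).mono_set hsub).re.neg
    refine h1.congr (Eventually.of_forall fun v => ?_)
    simp [Lz]
  have hk : IntegrableOn (fun v : ℝ => v ^ m * Real.log ‖riemannZeta (v:ℂ)‖) (Ioi σ) := by
    have h1 := ((Lz_int hRH m).mono_set hsub).re.neg
    refine h1.congr (Eventually.of_forall fun v => ?_)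
    simp only [Pi.neg_apply]
    have e : (v:ℂ) ^ m * Lz v = ((v ^ m : ℝ) : ℂ) * Lz v := by push_cast; ring
    rw [e]
    simp only [RCLike.re_to_complex, Complex.re_ofReal_mul]
    simp [Lz]
  refine ⟨?_, h0.aestronglyMeasurable⟩
  refine Integrable.mono hk ?_ ?_
  · refine AEStronglyMeasurable.mul ?_ h0.aestronglyMeasurable
    exact Continuous.aestronglyMeasurable (by fun_prop)
  · rw [ae_restrict_iff' measurableSet_Ioi]
    refine Eventually.of_forall fun v hv => ?_
    have hv' : σ < v := hv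
    rw [norm_mul, norm_mul, norm_pow, norm_pow, Real.norm_of_nonneg (by linarith : 0 ≤ v - σ),
      Real.norm_of_nonneg (by linarith : 0 ≤ v)]
    refine mul_le_mul_of_nonneg_right ?_ (norm_nonneg _)
    exact pow_le_pow_left₀ (by linarith) (by linarith) m

theorem J_formula (hRH : RiemannHypothesis) {J : ℕ → ℝ → ℝ}
    (hJ0 : ∀ σ : ℝ, J 0 σ = Real.log ‖riemannZeta (σ:ℂ)‖)
    (hJ : ∀ (m : ℕ) (σ : ℝ), J (m + 1) σ = ∫ x in Ioi σ, J m x) (m : ℕ) :
    ∀ σ : ℝ, 1 / 2 ≤ σ → J (m + 1) σ =
      ∫ v in Ioi σ, (v - σ) ^ m / (m.factorial : ℝ) * Real.log ‖riemannZeta (v:ℂ)‖ := by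
  induction m with
  | zero =>
    intro σ _
    rw [hJ]
    simp [hJ0]
  | succ m ih =>
    intro σ hσ
    rw [hJ]
    have h1 : ∫ x in Ioi σ, J (m + 1) x = ∫ x in Ioi σ, (∫ v in Ioi x, (v - x) ^ m /
        (m.factorial : ℝ) * Real.log ‖riemannZeta (v:ℂ)‖) := by
      refine setIntegral_congr_fun measurableSet_Ioi (fun x hx => ?_)
      have hx' : σ < x := hx
      exact ih x (by linarith)
    obtain ⟨k1, k2⟩ := logmom_int hRH (m + 1) hσ
    rw [h1, iter_int m k1 k2]

theorem Gm_re (hRH : RiemannHypothesis) {J : ℕ → ℝ → ℝ}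
    (hJ0 : ∀ σ : ℝ, J 0 σ = Real.log ‖riemannZeta (σ:ℂ)‖)
    (hJ : ∀ (m : ℕ) (σ : ℝ), J (m + 1) σ = ∫ x in Ioi σ, J m x) (m : ℕ) :
    (Gm m (1 / 2)).re = -((m.factorial : ℝ) * J (m + 1) (1 / 2)) := by
  have hint : IntegrableOn (fun x : ℝ => ((x - 1 / 2 : ℝ) : ℂ) ^ m * Lz x) (Ioi (1 / 2)) := by
    have hL := Lz_int hRH m
    have hL0 := Lz_int hRH 0
    simp only [pow_zero, one_mul] at hL0
    refine Integrable.mono hL ?_ ?_
    · refine AEStronglyMeasurable.mul ?_ hL0.aestronglyMeasurable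
      exact Continuous.aestronglyMeasurable (by fun_prop)
    · rw [ae_restrict_iff' measurableSet_Ioi]
      refine Eventually.of_forall fun x hx => ?_
      have hx' : (1 / 2 : ℝ) < x := hx
      rw [norm_mul, norm_mul, norm_pow, norm_pow, Complex.norm_real, Complex.norm_real,
        Real.norm_of_nonneg (by linarith : 0 ≤ x - 1 / 2), Real.norm_of_nonneg
        (by linarith : 0 ≤ x)]
      refine mul_le_mul_of_nonneg_right ?_ (norm_nonneg _)
      exact pow_le_pow_left₀ (by linarith) (by linarith) m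
  rw [Gm_shift, J_formula hRH hJ0 hJ m (1 / 2) le_rfl]
  have h1 : (∫ x in Ioi (1 / 2 : ℝ), ((x - 1 / 2 : ℝ) : ℂ) ^ m * Lz x).re =
      ∫ x in Ioi (1 / 2 : ℝ), (((x - 1 / 2 : ℝ) : ℂ) ^ m * Lz x).re := by
    have := Complex.reCLM.integral_comp_comm hint
    simpa using this.symm
  rw [h1, ← integral_const_mul, ← integral_neg]
  refine setIntegral_congr_fun measurableSet_Ioi (fun x _ => ?_)
  have hf : (m.factorial : ℝ) ≠ 0 := by exact_mod_cast m.factorial_ne_zero
  have e : ((x - 1 / 2 : ℝ) : ℂ) ^ m * Lz x = (((x - 1 / 2) ^ m : ℝ) : ℂ) * Lz x := by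
    push_cast; ring
  rw [e, Complex.re_ofReal_mul]
  have e2 : (Lz x).re = -Real.log ‖riemannZeta (x:ℂ)‖ := by simp [Lz]
  rw [e2]
  field_simp

theorem Gm_im (hRH : RiemannHypothesis) (m : ℕ) :
    (Gm m (1 / 2)).im = π * (1 / 2) ^ (m + 1) / (m + 1) := by
  have hint : IntegrableOn (fun x : ℝ => ((x - 1 / 2 : ℝ) : ℂ) ^ m * Lz x) (Ioi (1 / 2)) := by
    have hL := Lz_int hRH m
    have hL0 := Lz_int hRH 0
    simp only [pow_zero, one_mul] at hL0
    refine Integrable.mono hL ?_ ?_
    · refine AEStronglyMeasurable.mul ?_ hL0.aestronglyMeasurable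
      exact Continuous.aestronglyMeasurable (by fun_prop)
    · rw [ae_restrict_iff' measurableSet_Ioi]
      refine Eventually.of_forall fun x hx => ?_
      have hx' : (1 / 2 : ℝ) < x := hx
      rw [norm_mul, norm_mul, norm_pow, norm_pow, Complex.norm_real, Complex.norm_real,
        Real.norm_of_nonneg (by linarith : 0 ≤ x - 1 / 2), Real.norm_of_nonneg
        (by linarith : 0 ≤ x)]
      refine mul_le_mul_of_nonneg_right ?_ (norm_nonneg _)
      exact pow_le_pow_left₀ (by linarith) (by linarith) m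
  rw [Gm_shift]
  have h1 : (∫ x in Ioi (1 / 2 : ℝ), ((x - 1 / 2 : ℝ) : ℂ) ^ m * Lz x).im =
      ∫ x in Ioi (1 / 2 : ℝ), (((x - 1 / 2 : ℝ) : ℂ) ^ m * Lz x).im := by
    have := Complex.imCLM.integral_comp_comm hint
    simpa using this.symm
  have h2 : ∫ x in Ioi (1 / 2 : ℝ), (((x - 1 / 2 : ℝ) : ℂ) ^ m * Lz x).im =
      ∫ x in Ioi (1 / 2 : ℝ), (Iio (1:ℝ)).indicator (fun x => π * (x - 1 / 2) ^ m) x := by
    refine setIntegral_congr_fun measurableSet_Ioi (fun x _ => ?_)
    have e : ((x - 1 / 2 : ℝ) : ℂ) ^ m * Lz x = (((x - 1 / 2) ^ m : ℝ) : ℂ) * Lz x := by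
      push_cast; ring
    rw [e, Complex.im_ofReal_mul]
    by_cases h : x < 1
    · rw [indicator_of_mem (show x ∈ Iio (1:ℝ) from h)]
      simp [Lz, h]
      ring
    · rw [indicator_of_notMem (show x ∉ Iio (1:ℝ) from h)]
      simp [Lz, h]
  have e2 : Ioi (1 / 2 : ℝ) ∩ Iio 1 = Ioo (1 / 2) 1 := by ext x; simp
  rw [h1, h2, setIntegral_indicator measurableSet_Iio, e2, ← integral_Ioc_eq_integral_Ioo,
    ← intervalIntegral.integral_of_le (by norm_num), intervalIntegral.integral_const_mul]
  have h3 := intervalIntegral.integral_comp_sub_right (fun x : ℝ => x ^ m) (1 / 2 : ℝ)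
    (a := 1 / 2) (b := 1)
  rw [h3, integral_pow]
  norm_num
  ring

end Pool.Agent.Helper79.SE
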