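import Pool.Agent.Helper79.SnG

/-!
The iterated integrals of the argument as limits of the approximants.
-/

namespace Pool.Agent.Helper79.SE

open MeasureTheory Set Filter Topology

open scoped Real

theorem SA0_even (hRH : RiemannHypothesis) {m : ℕ} (hm : Even (m + 1)) :
    SA0 m (1 / 2) = (-1) ^ ((m + 1) / 2 - 1) / (((m + 1).factorial : ℝ) * 2 ^ (m + 1)) := by
  obtain ⟨k, hk⟩ := hm
  have hk1 : 1 ≤ k := by omega
  have e1 : (m + 1) / 2 - 1 = k - 1 := by omega
  rw [e1]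
  unfold SA0
  have hI : Complex.I ^ (m + 1) = (((-1 : ℝ) ^ k : ℝ) : ℂ) := by
    rw [hk, ← two_mul, pow_mul, Complex.I_sq]; push_cast; ring
  have h2 : ((m:ℂ) + 1) * Gm m (1 / 2) = (((m:ℝ) + 1 : ℝ) : ℂ) * Gm m (1 / 2) := by
    push_cast; ring
  rw [hI, h2, Complex.im_ofReal_mul, Complex.im_ofReal_mul, Gm_im hRH]
  have hsgn : ((-1 : ℝ)) ^ k = -(-1) ^ (k - 1) := by
    conv_lhs => rw [show k = (k - 1) + 1 by omega, pow_succ]
    ring
  rw [hsgn]
  have hpi := Real.pi_pos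
  have hf : (0:ℝ) < ((m + 1).factorial : ℝ) := by exact_mod_cast (m + 1).factorial_pos
  have hm1 : (0:ℝ) < (m:ℝ) + 1 := by positivity
  rw [one_div, inv_pow]
  field_simp

theorem SA0_odd (hRH : RiemannHypothesis) {J : ℕ → ℝ → ℝ}
    (hJ0 : ∀ σ : ℝ, J 0 σ = Real.log ‖riemannZeta (σ:ℂ)‖)
    (hJ : ∀ (m : ℕ) (σ : ℝ), J (m + 1) σ = ∫ x in Ioi σ, J m x) {m : ℕ} (hm : Odd (m + 1)) :
    SA0 m (1 / 2) = (-1) ^ ((m + 1 - 1) / 2) / π * J (m + 1) (1 / 2) := by
  obtain ⟨k, hk⟩ := hm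
  have e1 : (m + 1 - 1) / 2 = k := by omega
  rw [e1]
  unfold SA0
  have hI : Complex.I ^ (m + 1) = (((-1 : ℝ) ^ k : ℝ) : ℂ) * Complex.I := by
    rw [hk, pow_succ, pow_mul, Complex.I_sq]; push_cast; ring
  have h2 : Complex.I ^ (m + 1) * (((m:ℂ) + 1) * Gm m (1 / 2)) =
      (((-1 : ℝ) ^ k * ((m:ℝ) + 1) : ℝ) : ℂ) * (Complex.I * Gm m (1 / 2)) := by
    rw [hI]; push_cast; ring
  rw [h2, Complex.im_ofReal_mul, Complex.I_mul_im, Gm_re hRH hJ0 hJ, Nat.factorial_succ]
  have hpi := Real.pi_pos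
  have hf : (0:ℝ) < (m.factorial : ℝ) := by exact_mod_cast m.factorial_pos
  have hm1 : (0:ℝ) < (m:ℝ) + 1 := by positivity
  push_cast
  field_simp

/-- Formula for the argument on the abscissa `2`. -/
theorem Fint_two (t : ℝ) : -(Fint 0 2 t).im =
    (∫ u in (0:ℝ)..t, Complex.I * ld (2 + u * Complex.I)).im := by
  have hd : ∀ u ∈ uIcc (0:ℝ) t, HasDerivAt (fun t => Fint 0 2 t)
      (-(Complex.I * ld (2 + u * Complex.I))) u := by
    intro u _
    have := Fint_deriv_zero (goodRay_right (by norm_num : (1:ℝ) < 2) u)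
    simpa using this
  have hi : IntervalIntegrable (fun u : ℝ => -(Complex.I * ld (2 + u * Complex.I))) volume 0 t := by
    refine ContinuousOn.intervalIntegrable ?_
    refine (ContinuousOn.mul continuousOn_const ?_).neg
    intro u _
    have h1 : ContinuousAt ld (2 + u * Complex.I) :=
      (ld_analyticAt_re (by simp)).continuousAt
    have h2 : ContinuousAt (fun u : ℝ => (2 + u * Complex.I : ℂ)) u := by fun_prop
    exact (ContinuousAt.comp (f := fun u : ℝ => (2 + u * Complex.I : ℂ)) (g := ld)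
      h1 h2).continuousWithinAt
  have h1 := intervalIntegral.integral_eq_sub_of_hasDerivAt hd hi
  rw [intervalIntegral.integral_neg] at h1
  have h2 : (∫ u in (0:ℝ)..t, Complex.I * ld (2 + u * Complex.I)) = Fint 0 2 0 - Fint 0 2 t := by
    linear_combination -h1
  rw [h2, Complex.sub_im, Fint_real (by norm_num)]
  ring

/-- Convergence of the zeroth approximant to the argument. -/
theorem SA_zero_tendsto (hRH : RiemannHypothesis) {t : ℝ} (ht : 0 < t)
    (h0 : riemannZeta ((1 / 2 : ℝ) + t * Complex.I) ≠ 0) :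
    Tendsto (fun a => SA 0 a t) (𝓝[>] (1 / 2)) (𝓝 (1 / π *
      ((∫ u in (0:ℝ)..t, Complex.I * ld (2 + u * Complex.I)) -
        ∫ x in (1 / 2 : ℝ)..2, ld ((x:ℂ) + t * Complex.I)).im)) := by
  have hcont : ContinuousOn (fun x : ℝ => ld ((x:ℂ) + t * Complex.I)) (Icc (1 / 2) 2) := by
    intro x hx
    have hne : riemannZeta ((x:ℂ) + t * Complex.I) ≠ 0 := by
      rcases eq_or_lt_of_le hx.1 with h | h
      · rw [← h]; exact h0
      · exact zeta_ne hRH (by simpa using h)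
    have h1 : ContinuousAt ld ((x:ℂ) + t * Complex.I) :=
      (ld_analyticAt (ne_one_of_im (by simp; exact ht.ne')) hne).continuousAt
    have h2 : ContinuousAt (fun x : ℝ => ((x:ℂ) + t * Complex.I)) x := by fun_prop
    exact (ContinuousAt.comp (f := fun x : ℝ => ((x:ℂ) + t * Complex.I)) (g := ld)
      h1 h2).continuousWithinAt
  obtain ⟨M, hM⟩ := isCompact_Icc.exists_bound_of_continuousOn hcont
  have hint : ∀ a b : ℝ, 1 / 2 ≤ a → a ≤ b → b ≤ 2 →
      IntervalIntegrable (fun x : ℝ => ld ((x:ℂ) + t * Complex.I)) volume a b := by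
    intro a b h1 h2 h3
    refine ContinuousOn.intervalIntegrable ?_
    rw [uIcc_of_le h2]
    exact hcont.mono (Icc_subset_Icc h1 h3)
  have hlim : Tendsto (fun a : ℝ => ∫ x in (1 / 2 : ℝ)..a, ld ((x:ℂ) + t * Complex.I))
      (𝓝[>] (1 / 2)) (𝓝 0) := by
    have h1 : Tendsto (fun a : ℝ => M * |a - 1 / 2|) (𝓝[>] (1 / 2)) (𝓝 0) := by
      have h2 : ContinuousAt (fun a : ℝ => M * |a - 1 / 2|) (1 / 2) := by fun_prop
      have h3 := h2.tendsto.mono_left (nhdsWithin_le_nhds (s := Ioi (1 / 2 : ℝ)))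
      simpa using h3
    refine squeeze_zero_norm' ?_ h1
    have hmem : Ioo (1 / 2 : ℝ) 2 ∈ 𝓝[>] (1 / 2 : ℝ) := Ioo_mem_nhdsGT (by norm_num)
    filter_upwards [hmem] with a ha
    refine intervalIntegral.norm_integral_le_of_norm_le_const (fun x hx => ?_)
    rw [uIoc_of_le ha.1.le] at hx
    exact hM x ⟨hx.1.le, hx.2.trans ha.2.le⟩
  have hmain : Tendsto (fun a : ℝ => 1 / π *
      ((∫ u in (0:ℝ)..t, Complex.I * ld (2 + u * Complex.I)) -
        ((∫ x in (1 / 2 : ℝ)..2, ld ((x:ℂ) + t * Complex.I)) -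
          ∫ x in (1 / 2 : ℝ)..a, ld ((x:ℂ) + t * Complex.I))).im) (𝓝[>] (1 / 2)) (𝓝 (1 / π *
      ((∫ u in (0:ℝ)..t, Complex.I * ld (2 + u * Complex.I)) -
        ((∫ x in (1 / 2 : ℝ)..2, ld ((x:ℂ) + t * Complex.I)) - 0)).im)) := by
    have h1 := (hlim.const_sub (∫ x in (1 / 2 : ℝ)..2, ld ((x:ℂ) + t * Complex.I))).const_sub
      (∫ u in (0:ℝ)..t, Complex.I * ld (2 + u * Complex.I))
    exact ((Complex.continuous_im.tendsto _).comp h1).const_mul (1 / π)
  rw [sub_zero] at hmain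
  refine hmain.congr' ?_
  have hmem : Ioo (1 / 2 : ℝ) 2 ∈ 𝓝[>] (1 / 2 : ℝ) := Ioo_mem_nhdsGT (by norm_num)
  filter_upwards [hmem] with a ha
  have hseg := Fint_zero_seg (goodRay_up hRH ha.1 ht) ha.2.le
  have hadd := intervalIntegral.integral_add_adjacent_intervals
    (hint (1 / 2) a le_rfl ha.1.le ha.2.le) (hint a 2 ha.1.le ha.2.le le_rfl)
  have e1 : (∫ x in (1 / 2 : ℝ)..2, ld ((x:ℂ) + t * Complex.I)) -
      (∫ x in (1 / 2 : ℝ)..a, ld ((x:ℂ) + t * Complex.I)) =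
      ∫ x in a..2, ld ((x:ℂ) + t * Complex.I) := by
    rw [← hadd]; ring
  rw [e1, Complex.sub_im, ← Fint_two t]
  unfold SA
  rw [hseg]
  simp only [pow_zero, one_mul, Nat.factorial_zero, Nat.cast_one, mul_one, Complex.add_im]
  ring

theorem SA_cont (hRH : RiemannHypothesis) (m : ℕ) {a : ℝ} (ha : 1 / 2 < a) :
    ContinuousOn (fun t => SA m a t) (Ioi 0) := by
  intro t ht
  have ht' : (0:ℝ) < t := ht
  have h1 := Fint_cont_t (goodRay_up hRH ha ht') m
  have h2 : ContinuousAt (fun t => SA m a t) t := by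
    unfold SA
    exact ((Complex.continuous_im.continuousAt.comp (continuousAt_const.mul h1)).neg).div_const _
  exact h2.continuousWithinAt

theorem SA_intervalIntegrable (hRH : RiemannHypothesis) (m : ℕ) {a t C : ℝ} (ha : 1 / 2 < a)
    (ht : 0 < t) (hb : ∀ τ : ℝ, 0 < τ → τ ≤ t → |SA m a τ| ≤ C) :
    IntervalIntegrable (fun τ => SA m a τ) volume 0 t := by
  rw [intervalIntegrable_iff_integrableOn_Ioc_of_le ht.le]
  have hconst : IntegrableOn (fun _ : ℝ => C) (Ioc 0 t) volume :=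
    integrableOn_const (by simp)
  refine Integrable.mono' hconst ?_ ?_
  · exact ((SA_cont hRH m ha).mono Ioc_subset_Ioi_self).aestronglyMeasurable measurableSet_Ioc
  · rw [ae_restrict_iff' measurableSet_Ioc]
    exact Eventually.of_forall fun τ hτ => hb τ hτ.1 hτ.2

/-- Fundamental theorem of calculus for the approximants. -/
theorem SA_ftc (hRH : RiemannHypothesis) (m : ℕ) {a t C : ℝ} (ha : 1 / 2 < a)
    (ht : 0 < t) (hb : ∀ τ : ℝ, 0 < τ → τ ≤ t → |SA m a τ| ≤ C) :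
    SA (m + 1) a t = (∫ τ in (0:ℝ)..t, SA m a τ) + SA0 m a := by
  have h1 := intervalIntegral.integral_eq_sub_of_hasDerivAt_of_tendsto ht
    (f := fun t => SA (m + 1) a t) (f' := fun t => SA m a t)
    (fun τ hτ => SA_hasDerivAt (goodRay_up hRH ha hτ.1) m)
    (SA_intervalIntegrable hRH m ha ht hb) (SA_tendsto_zero hRH ha m)
    ((SA_hasDerivAt (goodRay_up hRH ha ht) m).continuousAt.tendsto.mono_left nhdsWithin_le_nhds)
  rw [h1]
  ring

theorem SA_ind (hRH : RiemannHypothesis) (S : ℕ → ℝ → ℝ)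
    (hS0 : ∀ t : ℝ, 0 < t → riemannZeta ((1 / 2 : ℝ) + t * Complex.I) ≠ 0 → S 0 t = 1 / π *
      ((∫ u in (0:ℝ)..t, Complex.I * ld (2 + u * Complex.I)) -
        ∫ x in (1 / 2 : ℝ)..2, ld ((x:ℂ) + t * Complex.I)).im)
    (hS : ∀ (n : ℕ) (t : ℝ), 0 < t → S (n + 1) t = (∫ τ in (0:ℝ)..t, S n τ) + SA0 n (1 / 2))
    (m : ℕ) :
    (∀ T : ℝ, 0 < T → ∃ C : ℝ, ∀ᶠ a in 𝓝[>] (1 / 2 : ℝ), ∀ t : ℝ, 0 < t → t ≤ T →
      |SA m a t| ≤ C) ∧
    (∀ t : ℝ, 0 < t → Tendsto (fun a => SA (m + 1) a t) (𝓝[>] (1 / 2)) (𝓝 (S (m + 1) t))) := by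
  have step : ∀ m : ℕ, (∀ T : ℝ, 0 < T → ∃ C : ℝ, ∀ᶠ a in 𝓝[>] (1 / 2 : ℝ), ∀ t : ℝ, 0 < t →
      t ≤ T → |SA m a t| ≤ C) → (∀ᵐ t : ℝ, 0 < t → Tendsto (fun a => SA m a t) (𝓝[>] (1 / 2))
      (𝓝 (S m t))) → (∀ t : ℝ, 0 < t → Tendsto (fun a => SA (m + 1) a t) (𝓝[>] (1 / 2))
      (𝓝 (S (m + 1) t))) := by
    intro m hb hc t ht
    obtain ⟨C, hC⟩ := hb t ht
    have hint : Tendsto (fun a => ∫ τ in (0:ℝ)..t, SA m a τ) (𝓝[>] (1 / 2))
        (𝓝 (∫ τ in (0:ℝ)..t, S m τ)) := by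
      refine intervalIntegral.tendsto_integral_filter_of_dominated_convergence (fun _ => C)
        ?_ ?_ intervalIntegrable_const ?_
      · filter_upwards [self_mem_nhdsWithin] with a ha
        rw [uIoc_of_le ht.le]
        exact ((SA_cont hRH m ha).mono Ioc_subset_Ioi_self).aestronglyMeasurable measurableSet_Ioc
      · filter_upwards [hC] with a ha
        refine Eventually.of_forall fun τ hτ => ?_
        rw [uIoc_of_le ht.le] at hτ
        exact ha τ hτ.1 hτ.2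
      · filter_upwards [hc] with τ hτ hτ2
        rw [uIoc_of_le ht.le] at hτ2
        exact hτ hτ2.1
    have hsum := hint.add (SA0_tendsto hRH m)
    rw [← hS m t ht] at hsum
    refine hsum.congr' ?_
    filter_upwards [hC, self_mem_nhdsWithin] with a ha ha2
    exact (SA_ftc hRH m ha2 ht ha).symm
  induction m with
  | zero =>
    have hb0 : ∀ T : ℝ, 0 < T → ∃ C : ℝ, ∀ᶠ a in 𝓝[>] (1 / 2 : ℝ), ∀ t : ℝ, 0 < t → t ≤ T →
        |SA 0 a t| ≤ C := by
      intro T hT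
      obtain ⟨C, hC, hb⟩ := Fint_im_bound hRH T hT
      refine ⟨C, ?_⟩
      filter_upwards [self_mem_nhdsWithin] with a ha t ht htT
      have h1 := hb a t ha ht htT
      unfold SA
      simp only [pow_zero, one_mul, Nat.factorial_zero, Nat.cast_one, mul_one]
      rw [abs_div, abs_neg, abs_of_pos Real.pi_pos]
      refine (div_le_self (abs_nonneg _) ?_).trans h1
      linarith [Real.pi_gt_three]
    refine ⟨hb0, step 0 hb0 ?_⟩
    have hnull : ∀ᵐ t : ℝ, ¬ (0 < t ∧ riemannZeta ((1 / 2 : ℝ) + t * Complex.I) = 0) := by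
      have hcount : {t : ℝ | 0 < t ∧ riemannZeta ((1 / 2 : ℝ) + t * Complex.I) = 0}.Countable := by
        have hsub : {t : ℝ | 0 < t ∧ riemannZeta ((1 / 2 : ℝ) + t * Complex.I) = 0} ⊆
            {t : ℝ | 1 < t ∧ riemannZeta ((1 / 2 : ℝ) + t * Complex.I) = 0} ∪
            {t : ℝ | t ∈ Icc (0:ℝ) 1 ∧ riemannZeta ((1 / 2 : ℝ) + t * Complex.I) = 0} := by
          intro t ht
          rcases lt_or_ge 1 t with h | h
          · exact Or.inl ⟨h, ht.2⟩
          · exact Or.inr ⟨⟨ht.1.le, h⟩, ht.2⟩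
        refine (ord_countable.union (Set.Finite.countable ?_)).mono hsub
        have hK : IsCompact (Icc (1 / 2 : ℝ) (1 / 2) ×ℂ Icc (0:ℝ) 1) :=
          isCompact_Icc.reProdIm isCompact_Icc
        have hfin : {z : ℂ | z ∈ (Icc (1 / 2 : ℝ) (1 / 2) ×ℂ Icc (0:ℝ) 1) ∧
            riemannZeta z = 0}.Finite := by
          by_contra hinf
          have hinf' : {z : ℂ | z ∈ (Icc (1 / 2 : ℝ) (1 / 2) ×ℂ Icc (0:ℝ) 1) ∧
            riemannZeta z = 0}.Infinite := hinf
          obtain ⟨x, hx, hacc⟩ := hinf'.exists_accPt_of_subset_isCompact hK (fun z hz => hz.1)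
          have hfreq : ∃ᶠ z in 𝓝[≠] x, riemannZeta z = 0 := by
            rw [accPt_iff_frequently_nhdsNE] at hacc
            exact hacc.mono fun z hz => hz.2
          have hx1 : x ≠ 1 := by
            rintro rfl
            rw [Complex.mem_reProdIm] at hx
            have := hx.1.2
            simp at this
            norm_num at this
          have hz := AnalyticOnNhd.eqOn_zero_of_preconnected_of_frequently_eq_zero
            (f := riemannZeta) (U := {1}ᶜ) (fun s hs => zeta_analyticAt hs)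
            (isConnected_compl_singleton_of_one_lt_rank (by simp) 1).isPreconnected hx1 hfreq
          have h2 : riemannZeta 2 = 0 := hz (by simp)
          exact riemannZeta_ne_zero_of_one_lt_re (s := 2) (by simp) h2
        have himg : {t : ℝ | t ∈ Icc (0:ℝ) 1 ∧
            riemannZeta ((1 / 2 : ℝ) + t * Complex.I) = 0} ⊆ Complex.im ''
            {z : ℂ | z ∈ (Icc (1 / 2 : ℝ) (1 / 2) ×ℂ Icc (0:ℝ) 1) ∧ riemannZeta z = 0} := by
          intro t ht
          refine ⟨((1 / 2 : ℝ) + t * Complex.I), ⟨?_, ht.2⟩, by simp⟩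
          rw [Complex.mem_reProdIm]
          simp only [Complex.add_re, Complex.ofReal_re, Complex.mul_re, Complex.I_re, mul_zero,
            Complex.ofReal_im, Complex.I_im, mul_one, sub_self, add_zero, Complex.add_im,
            Complex.mul_im, zero_add]
          exact ⟨⟨le_rfl, le_rfl⟩, ht.1⟩
        exact (hfin.image _).subset himg
      exact compl_mem_ae_iff.mpr (hcount.measure_zero _)
    filter_upwards [hnull] with t ht ht0
    have hne : riemannZeta ((1 / 2 : ℝ) + t * Complex.I) ≠ 0 := fun h => ht ⟨ht0, h⟩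
    rw [hS0 t ht0 hne]
    exact SA_zero_tendsto hRH ht0 hne
  | succ m ih =>
    obtain ⟨ihb, ihc⟩ := ih
    have hb1 : ∀ T : ℝ, 0 < T → ∃ C : ℝ, ∀ᶠ a in 𝓝[>] (1 / 2 : ℝ), ∀ t : ℝ, 0 < t → t ≤ T →
        |SA (m + 1) a t| ≤ C := by
      intro T hT
      obtain ⟨C, hC⟩ := ihb T hT
      have hA := (SA0_tendsto hRH m).abs
      have hA1 : ∀ᶠ a in 𝓝[>] (1 / 2 : ℝ), |SA0 m a| < |SA0 m (1 / 2)| + 1 :=
        hA.eventually_lt_const (by linarith)
      refine ⟨|C| * T + (|SA0 m (1 / 2)| + 1), ?_⟩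
      filter_upwards [hC, hA1, self_mem_nhdsWithin] with a ha ha1 ha2 t ht htT
      rw [SA_ftc hRH m ha2 ht (fun τ h1 h2 => ha τ h1 (h2.trans htT))]
      refine (abs_add_le _ _).trans ?_
      have h1 : |∫ τ in (0:ℝ)..t, SA m a τ| ≤ |C| * T := by
        rw [← Real.norm_eq_abs]
        have := intervalIntegral.norm_integral_le_of_norm_le_const (f := fun τ => SA m a τ)
          (a := 0) (b := t) (C := |C|) (fun τ hτ => by
            rw [uIoc_of_le ht.le] at hτ
            exact (ha τ hτ.1 (hτ.2.trans htT)).trans (le_abs_self C))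
        refine this.trans ?_
        rw [sub_zero, abs_of_pos ht]
        exact mul_le_mul_of_nonneg_left htT (abs_nonneg _)
      linarith
    exact ⟨hb1, step (m + 1) hb1 (Eventually.of_forall fun t ht => ihc t ht)⟩

end Pool.Agent.Helper79.SE
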